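import Pool.Agent.Lib.MP_94aef8_gt.B.Geo

/-! Derivations, the Levi-Civita connection and the symmetries of the curvature. -/

open Matrix

namespace Pool.Agent.Lib.MP_94aef8_gt

namespace Geo

variable {A : Type} [CommRing A] {c : Geo A}

theorem fin4 {P : Fin 4 → Prop} (h0 : P 0) (h1 : P 1) (h2 : P 2) (h3 : P 3) : ∀ i, P i := by
  intro i
  fin_cases i
  exacts [h0, h1, h2, h3]

omit [CommRing A] in
@[simp] theorem dm_apply (a : Fin 4) (M : MA A) (i j : Fin 4) : c.dm a M i j = c.D a (M i j) := rfl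

omit [CommRing A] in
theorem dm_transpose (a : Fin 4) (M : MA A) : c.dm a Mᵀ = (c.dm a M)ᵀ := rfl

/-- The derivation as an additive map. -/
def OK.hom (hc : c.OK) (i : Fin 4) : A →+ A := AddMonoidHom.mk' (c.D i) (hc.add i)

theorem OK.zero (hc : c.OK) (i : Fin 4) : c.D i 0 = 0 := (hc.hom i).map_zero

theorem OK.neg (hc : c.OK) (i : Fin 4) (a : A) : c.D i (-a) = -c.D i a := (hc.hom i).map_neg a

theorem OK.sub (hc : c.OK) (i : Fin 4) (a b : A) : c.D i (a - b) = c.D i a - c.D i b :=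
  (hc.hom i).map_sub a b

theorem OK.sum (hc : c.OK) (i : Fin 4) {ι : Type} (s : Finset ι) (f : ι → A) :
    c.D i (∑ k ∈ s, f k) = ∑ k ∈ s, c.D i (f k) := map_sum (hc.hom i) f s

theorem OK.one (hc : c.OK) (i : Fin 4) : c.D i 1 = 0 := by
  have := hc.mul i 1 1
  simp only [mul_one, one_mul] at this
  linear_combination -this

theorem OK.two (hc : c.OK) (i : Fin 4) : c.D i 2 = 0 := by
  rw [← one_add_one_eq_two, hc.add, hc.one, add_zero]

theorem OK.half (hc : c.OK) (i : Fin 4) : c.D i c.hf = 0 := by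
  have h1 := hc.add i c.hf c.hf
  rw [hc.hh, hc.one] at h1
  linear_combination (-c.hf) * h1 - c.D i c.hf * hc.hh

theorem OK.cancel (hc : c.OK) {a : A} (e : a = -a) : a = 0 := by
  linear_combination c.hf * e - a * hc.hh

theorem OK.dm_mul (hc : c.OK) (i : Fin 4) (M N : MA A) :
    c.dm i (M * N) = c.dm i M * N + M * c.dm i N := by
  ext a b
  simp [Matrix.mul_apply, hc.sum, hc.mul, Finset.sum_add_distrib]

theorem OK.dm_add (hc : c.OK) (i : Fin 4) (M N : MA A) : c.dm i (M + N) = c.dm i M + c.dm i N := by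
  ext a b
  simp [hc.add]

theorem OK.dm_sub (hc : c.OK) (i : Fin 4) (M N : MA A) : c.dm i (M - N) = c.dm i M - c.dm i N := by
  ext a b
  simp [hc.sub]

theorem OK.dm_neg (hc : c.OK) (i : Fin 4) (M : MA A) : c.dm i (-M) = -c.dm i M := by
  ext a b
  simp [hc.neg]

theorem OK.dm_smul (hc : c.OK) (i : Fin 4) (f : A) (N : MA A) :
    c.dm i (f • N) = c.D i f • N + f • c.dm i N := by
  ext a b
  simp [hc.mul]

theorem OK.dm_sum (hc : c.OK) (i : Fin 4) {ι : Type} (s : Finset ι) (N : ι → MA A) :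
    c.dm i (∑ k ∈ s, N k) = ∑ k ∈ s, c.dm i (N k) := by
  ext a b
  simp [Matrix.sum_apply, hc.sum]

theorem OK.dm_comm (hc : c.OK) (i j : Fin 4) (M : MA A) :
    c.dm i (c.dm j M) = c.dm j (c.dm i M) := by
  ext a b
  simp [hc.comm i j]

theorem OK.dm_zero (hc : c.OK) (i : Fin 4) : c.dm i (0 : MA A) = 0 := by
  ext a b
  simp [hc.zero]

theorem OK.dm_one (hc : c.OK) (i : Fin 4) : c.dm i (1 : MA A) = 0 := by
  ext a b
  by_cases e : a = b <;> simp [e, hc.one, hc.zero]

theorem OK.d_trace (hc : c.OK) (i : Fin 4) (M : MA A) : c.D i M.trace = (c.dm i M).trace := by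
  simp [Matrix.trace, hc.sum]

theorem OK.symmG (hc : c.OK) (i j : Fin 4) : c.G i j = c.G j i :=
  congrFun (congrFun hc.symm j) i

theorem OK.inv' (hc : c.OK) : c.H * c.G = 1 := mul_eq_one_comm.1 hc.inv

theorem OK.trH (hc : c.OK) : c.Hᵀ = c.H := by
  have h1 : c.Hᵀ * c.G = 1 := by
    have := congrArg Matrix.transpose hc.inv
    rwa [Matrix.transpose_mul, hc.symm, Matrix.transpose_one] at this
  calc c.Hᵀ = c.Hᵀ * (c.G * c.H) := by rw [hc.inv, Matrix.mul_one]
    _ = c.H := by rw [← Matrix.mul_assoc, h1, Matrix.one_mul]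

theorem OK.symmH (hc : c.OK) (i j : Fin 4) : c.H i j = c.H j i :=
  congrFun (congrFun hc.trH j) i

theorem OK.w_symm (hc : c.OK) (a k j : Fin 4) : c.w a k j = c.w j k a := by
  simp only [w, Matrix.of_apply]
  congr 1
  exact Finset.sum_congr rfl fun l _ => by rw [hc.symmG a j]; ring

theorem OK.mul_w (hc : c.OK) (a l j : Fin 4) :
    (c.G * c.w a) l j = c.hf * (c.D a (c.G j l) + c.D j (c.G a l) - c.D l (c.G a j)) := by
  have e : c.w a = c.H * Matrix.of fun l j =>
      c.hf * (c.D a (c.G j l) + c.D j (c.G a l) - c.D l (c.G a j)) := by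
    ext k j
    simp only [w, Matrix.mul_apply, Matrix.of_apply, Finset.mul_sum]
    exact Finset.sum_congr rfl fun l _ => by ring
  rw [e, ← Matrix.mul_assoc, hc.inv, Matrix.one_mul, Matrix.of_apply]

theorem OK.compat (hc : c.OK) (a : Fin 4) : c.dm a c.G = (c.w a)ᵀ * c.G + c.G * c.w a := by
  have h1 : (c.w a)ᵀ * c.G = (c.G * c.w a)ᵀ := by rw [Matrix.transpose_mul, hc.symm]
  rw [h1]
  ext j k
  simp only [dm_apply, Matrix.add_apply, Matrix.transpose_apply, hc.mul_w]
  rw [hc.symmG k j]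
  linear_combination (-c.D a (c.G j k)) * hc.hh

theorem OK.w_unique (hc : c.OK) {v : Fin 4 → MA A} (hs : ∀ a k j, v a k j = v j k a)
    (hv : ∀ a, c.dm a c.G = (v a)ᵀ * c.G + c.G * v a) (i : Fin 4) : c.w i = v i := by
  have hs' : ∀ a l b, (c.G * v a) l b = (c.G * v b) l a := by
    intro a l b
    simp only [Matrix.mul_apply]
    exact Finset.sum_congr rfl fun m _ => by rw [hs a m b]
  have hd : ∀ a j k, c.D a (c.G j k) = (c.G * v a) k j + (c.G * v a) j k := by
    intro a j k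
    have h1 : (v a)ᵀ * c.G = (c.G * v a)ᵀ := by rw [Matrix.transpose_mul, hc.symm]
    have := congrFun (congrFun (hv a) j) k
    rw [h1] at this
    exact this
  have h2 : c.G * c.w i = c.G * v i := by
    ext l j
    simp only [hc.mul_w, hd]
    rw [hs' j l i, hs' l j i, hs' l i j]
    linear_combination ((c.G * v i) l j) * hc.hh
  calc c.w i = c.H * (c.G * c.w i) := by rw [← Matrix.mul_assoc, hc.inv', Matrix.one_mul]
    _ = v i := by rw [h2, ← Matrix.mul_assoc, hc.inv', Matrix.one_mul]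

theorem OK.dH (hc : c.OK) (i : Fin 4) : c.dm i c.H = -(c.w i * c.H + c.H * (c.w i)ᵀ) := by
  have h1 := hc.dm_mul i c.G c.H
  rw [hc.inv, hc.dm_one, hc.compat] at h1
  have h2 : c.H * (((c.w i)ᵀ * c.G + c.G * c.w i) * c.H + c.G * c.dm i c.H) = 0 := by
    rw [← h1, Matrix.mul_zero]
  have h3 : c.H * (((c.w i)ᵀ * c.G + c.G * c.w i) * c.H + c.G * c.dm i c.H) =
      c.H * (c.w i)ᵀ * (c.G * c.H) + (c.H * c.G) * c.w i * c.H + (c.H * c.G) * c.dm i c.H := by
    noncomm_ring
  rw [h3, hc.inv, hc.inv'] at h2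
  simp only [Matrix.mul_one, Matrix.one_mul] at h2
  rw [eq_neg_iff_add_eq_zero, ← h2]
  abel

theorem ric_eq (j k : Fin 4) : c.ric j k = ∑ i, c.rm i j i k := by
  simp only [ric, rm, Matrix.of_apply, Matrix.sub_apply, Matrix.add_apply, dm_apply,
    Matrix.mul_apply, Finset.sum_sub_distrib, Finset.sum_add_distrib]
  ring

theorem rm_anti (a b : Fin 4) : c.rm a b = -c.rm b a := by
  simp only [rm]
  abel

theorem rm_self (a : Fin 4) : c.rm a a = 0 := by
  simp only [rm]
  abel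

theorem OK.rm_skew (hc : c.OK) (a b : Fin 4) : (c.rm a b)ᵀ * c.G + c.G * c.rm a b = 0 := by
  have h1 := hc.dm_comm a b c.G
  rw [hc.compat b, hc.compat a, hc.dm_add, hc.dm_add, hc.dm_mul, hc.dm_mul, hc.dm_mul, hc.dm_mul,
    hc.compat b, hc.compat a] at h1
  simp only [rm, Matrix.transpose_sub, Matrix.transpose_add, Matrix.transpose_mul,
    ← dm_transpose]
  rw [← sub_eq_zero] at h1
  rw [← h1]
  noncomm_ring

theorem OK.q_skew (hc : c.OK) (a b : Fin 4) : (c.rm a b * c.H)ᵀ = -(c.rm a b * c.H) := by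
  have h1 := hc.rm_skew a b
  have h2 : c.H * ((c.rm a b)ᵀ * c.G + c.G * c.rm a b) * c.H =
      c.H * (c.rm a b)ᵀ * (c.G * c.H) + (c.H * c.G) * c.rm a b * c.H := by noncomm_ring
  rw [h1, hc.inv, hc.inv'] at h2
  simp only [Matrix.mul_zero, Matrix.zero_mul, Matrix.mul_one, Matrix.one_mul] at h2
  rw [Matrix.transpose_mul, hc.trH, eq_neg_iff_add_eq_zero, ← h2]

theorem OK.trace_rm (hc : c.OK) (a b : Fin 4) : (c.rm a b).trace = 0 := by
  have h1 := hc.rm_skew a b
  have h2 : (c.H * ((c.rm a b)ᵀ * c.G + c.G * c.rm a b)).trace = 0 := by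
    rw [h1, Matrix.mul_zero, Matrix.trace_zero]
  rw [Matrix.mul_add, Matrix.trace_add, Matrix.trace_mul_comm c.H, Matrix.mul_assoc, hc.inv,
    ← Matrix.mul_assoc, hc.inv', Matrix.mul_one, Matrix.one_mul, Matrix.trace_transpose] at h2
  exact hc.cancel (by linear_combination h2)

theorem OK.bianchi1 (hc : c.OK) (a b e k : Fin 4) :
    c.rm a b k e + c.rm b e k a + c.rm e a k b = 0 := by
  simp only [rm, Matrix.sub_apply, Matrix.add_apply, dm_apply, Matrix.mul_apply, Fin.sum_univ_four,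
    hc.w_symm b _ e, hc.w_symm a _ e, hc.w_symm a _ b]
  ring

theorem OK.rm_pair (hc : c.OK) (a b k l : Fin 4) :
    (c.G * c.rm a b) k l = (c.G * c.rm k l) a b := by
  have h1 : ∀ a b k l, (c.G * c.rm a b) k l = -(c.G * c.rm b a) k l := by
    intro a b k l
    rw [rm_anti, Matrix.mul_neg, Matrix.neg_apply]
  have h2 : ∀ a b k l, (c.G * c.rm a b) k l = -(c.G * c.rm a b) l k := by
    intro a b k l
    have := congrFun (congrFun (hc.rm_skew a b) k) l
    have e : (c.rm a b)ᵀ * c.G = (c.G * c.rm a b)ᵀ := by rw [Matrix.transpose_mul, hc.symm]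
    rw [e, Matrix.add_apply, Matrix.transpose_apply, Matrix.zero_apply] at this
    linear_combination this
  have h3 : ∀ a b e k, (c.G * c.rm a b) k e + (c.G * c.rm b e) k a + (c.G * c.rm e a) k b = 0 := by
    intro a b e k
    simp only [Matrix.mul_apply, ← Finset.sum_add_distrib, ← mul_add, hc.bianchi1, mul_zero,
      Finset.sum_const_zero]
  have e : (c.G * c.rm a b) k l - (c.G * c.rm k l) a b =
      -((c.G * c.rm a b) k l - (c.G * c.rm k l) a b) := by
    linear_combination h3 a b l k - h3 a b k l - h3 k l b a + h3 k l a b + h1 l b a k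
      - h2 b l a k - h2 l a b k + h2 b k a l + h1 k a l b - h2 a k l b + h2 a b l k - h2 k l b a
  exact sub_eq_zero.1 (hc.cancel e)

theorem OK.ric_symm (hc : c.OK) : c.ricᵀ = c.ric := by
  ext j k
  have h1 := hc.trace_rm j k
  have h2 := fun i => hc.bianchi1 i j k i
  have h3 : ∀ i, c.rm k i i j = -c.rm i k i j := fun i => by rw [rm_anti, Matrix.neg_apply]
  simp only [Matrix.trace, Matrix.diag, Fin.sum_univ_four] at h1
  simp only [Matrix.transpose_apply, ric_eq, Fin.sum_univ_four]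
  linear_combination h1 - h2 0 - h2 1 - h2 2 - h2 3 + h3 0 + h3 1 + h3 2 + h3 3

theorem OK.bianchi2 (hc : c.OK) (a b e : Fin 4) :
    (c.dm a (c.rm b e) + c.w a * c.rm b e - c.rm b e * c.w a) +
    (c.dm b (c.rm e a) + c.w b * c.rm e a - c.rm e a * c.w b) +
    (c.dm e (c.rm a b) + c.w e * c.rm a b - c.rm a b * c.w e) = 0 := by
  simp only [rm, hc.dm_sub, hc.dm_add, hc.dm_mul]
  rw [hc.dm_comm a b (c.w e), hc.dm_comm e a (c.w b), hc.dm_comm b e (c.w a)]
  noncomm_ring

end Geo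

end Pool.Agent.Lib.MP_94aef8_gt
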