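import Pool.Agent.Lib.MP_94aef8_gt.B.Lift
import Pool.Agent.Lib.MP_94aef8_gt.Cube

/-! The operators are local. -/

open scoped ContDiff Topology
open Matrix Filter Set

namespace Pool.Agent.Lib.MP_94aef8_gt

variable {l : Filter E4} {G G' h h' k k' : Tn} {X X' Y Y' : Vn} {f f' : Fn}

section

variable (hl : LocF l) (eG : G =ᶠ[l] G')
include hl eG

theorem om_cg (a : Fin 4) :
    om G a =ᶠ[l] om G' a :=
  ((zig_congr hl EventuallyEq.rfl).w a).ev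
    ((zig_congr hl eG).w a) rfl

theorem rm_cg (a b : Fin 4) :
    rm G a b =ᶠ[l] rm G' a b :=
  ((zig_congr hl EventuallyEq.rfl).rm a b).ev
    ((zig_congr hl eG).rm a b) rfl

theorem nab_cg (a : Fin 4) (eh : h =ᶠ[l] h') :
    nab G a h =ᶠ[l] nab G' a h' :=
  ((zig_congr hl EventuallyEq.rfl).nab a (RT.rfl h)).ev
    ((zig_congr hl eG).nab a (rt_congr eh)) rfl

theorem nab2_cg (a b : Fin 4) (eh : h =ᶠ[l] h') :
    nab2 G a b h =ᶠ[l] nab2 G' a b h' :=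
  ((zig_congr hl EventuallyEq.rfl).nab2 a b (RT.rfl h)).ev
    ((zig_congr hl eG).nab2 a b (rt_congr eh)) rfl

theorem rough_cg (eh : h =ᶠ[l] h') :
    rough G h =ᶠ[l] rough G' h' :=
  ((zig_congr hl EventuallyEq.rfl).rough (RT.rfl h)).ev
    ((zig_congr hl eG).rough (rt_congr eh)) rfl

theorem rring_cg (eh : h =ᶠ[l] h') :
    rring G h =ᶠ[l] rring G' h' :=
  ((zig_congr hl EventuallyEq.rfl).rring (RT.rfl h)).ev
    ((zig_congr hl eG).rring (rt_congr eh)) rfl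

theorem lich_cg (eh : h =ᶠ[l] h') :
    lich G h =ᶠ[l] lich G' h' :=
  ((zig_congr hl EventuallyEq.rfl).lich (RT.rfl h)).ev
    ((zig_congr hl eG).lich (rt_congr eh)) rfl

theorem ipD_cg (eh : h =ᶠ[l] h') (ek : k =ᶠ[l] k') :
    ipD G h k =ᶠ[l] ipD G' h' k' :=
  ((zig_congr hl EventuallyEq.rfl).ipD (RT.rfl h) (RT.rfl k)).ev
    ((zig_congr hl eG).ipD (rt_congr eh) (rt_congr ek)) rfl

theorem cov_cg (eX : X =ᶠ[l] X') :
    cov G X =ᶠ[l] cov G' X' :=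
  ((zig_congr hl EventuallyEq.rfl).cov (RV.rfl X)).ev
    ((zig_congr hl eG).cov (rv_congr eX)) rfl

theorem dvg_cg (eX : X =ᶠ[l] X') :
    dvg G X =ᶠ[l] dvg G' X' :=
  ((zig_congr hl EventuallyEq.rfl).dvg (RV.rfl X)).ev
    ((zig_congr hl eG).dvg (rv_congr eX)) rfl

theorem lie_cg (eX : X =ᶠ[l] X') :
    lie G X =ᶠ[l] lie G' X' :=
  ((zig_congr hl EventuallyEq.rfl).lie (RV.rfl X)).ev
    ((zig_congr hl eG).lie (rv_congr eX)) rfl

theorem divT_cg (eh : h =ᶠ[l] h') :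
    divT G h =ᶠ[l] divT G' h' :=
  ((zig_congr hl EventuallyEq.rfl).divT (RT.rfl h)).ev
    ((zig_congr hl eG).divT (rt_congr eh)) rfl

theorem bian_cg (eh : h =ᶠ[l] h') :
    bian G h =ᶠ[l] bian G' h' :=
  ((zig_congr hl EventuallyEq.rfl).bian (RT.rfl h)).ev
    ((zig_congr hl eG).bian (rt_congr eh)) rfl

theorem roughV_cg (eX : X =ᶠ[l] X') :
    roughV G X =ᶠ[l] roughV G' X' :=
  ((zig_congr hl EventuallyEq.rfl).roughV (RV.rfl X)).ev
    ((zig_congr hl eG).roughV (rv_congr eX)) rfl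

theorem gX_cg (eh : h =ᶠ[l] h') (ek : k =ᶠ[l] k') :
    gX G h k =ᶠ[l] gX G' h' k' :=
  ((zig_congr hl EventuallyEq.rfl).gX (RT.rfl h) (RT.rfl k)).ev
    ((zig_congr hl eG).gX (rt_congr eh) (rt_congr ek)) rfl

theorem crs_cg (eh : h =ᶠ[l] h') :
    crs G h =ᶠ[l] crs G' h' :=
  ((zig_congr hl EventuallyEq.rfl).crs (RT.rfl h)).ev
    ((zig_congr hl eG).crs (rt_congr eh)) rfl

theorem kX_cg (eh : h =ᶠ[l] h') :
    kX G h =ᶠ[l] kX G' h' :=
  ((zig_congr hl EventuallyEq.rfl).kX (RT.rfl h)).ev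
    ((zig_congr hl eG).kX (rt_congr eh)) rfl

theorem wv_cg (eh : h =ᶠ[l] h') :
    wv G h =ᶠ[l] wv G' h' :=
  ((zig_congr hl EventuallyEq.rfl).wv (RT.rfl h) (RT.rfl _)).ev
    ((zig_congr hl eG).wv (rt_congr eh) (rt_congr (inv_congr (eG.add eh)))) rfl

theorem qq_cg (eh : h =ᶠ[l] h') :
    qq G h =ᶠ[l] qq G' h' :=
  ((zig_congr hl EventuallyEq.rfl).qq (RT.rfl h) (RT.rfl _)).ev
    ((zig_congr hl eG).qq (rt_congr eh) (rt_congr (inv_congr (eG.add eh)))) rfl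

theorem QQ_cg (eh : h =ᶠ[l] h') :
    QQ G h =ᶠ[l] QQ G' h' :=
  ((zig_congr hl EventuallyEq.rfl).QQ (RT.rfl h) (RT.rfl _)).ev
    ((zig_congr hl eG).QQ (rt_congr eh) (rt_congr (inv_congr (eG.add eh)))) rfl

theorem q1_cg (eh : h =ᶠ[l] h') :
    q1 G h =ᶠ[l] q1 G' h' :=
  ((zig_congr hl EventuallyEq.rfl).q1 (RT.rfl h) (RT.rfl _)).ev
    ((zig_congr hl eG).q1 (rt_congr eh) (rt_congr (inv_congr (eG.add eh)))) rfl

theorem b1_cg (a i j : Fin 4) :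
    b1 G a i j =ᶠ[l] b1 G' a i j :=
  ((zig_congr hl EventuallyEq.rfl).b1 a i j).ev
    ((zig_congr hl eG).b1 a i j) rfl

theorem b0_cg (i j : Fin 4) :
    b0 G i j =ᶠ[l] b0 G' i j :=
  ((zig_congr hl EventuallyEq.rfl).b0 i j).ev
    ((zig_congr hl eG).b0 i j) rfl

theorem ric_cg :
    ric G =ᶠ[l] ric G' :=
  ((zig_congr hl EventuallyEq.rfl).ric ).ev
    ((zig_congr hl eG).ric ) rfl

theorem scal_cg :
    scal G =ᶠ[l] scal G' :=
  ((zig_congr hl EventuallyEq.rfl).scal ).ev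
    ((zig_congr hl eG).scal ) rfl

theorem trG_cg (eh : h =ᶠ[l] h') :
    trG G h =ᶠ[l] trG G' h' :=
  ((zig_congr hl EventuallyEq.rfl).trG (RT.rfl h)).ev
    ((zig_congr hl eG).trG (rt_congr eh)) rfl

theorem ipT_cg (eh : h =ᶠ[l] h') (ek : k =ᶠ[l] k') :
    ipT G h k =ᶠ[l] ipT G' h' k' :=
  ((zig_congr hl EventuallyEq.rfl).ipT (RT.rfl h) (RT.rfl k)).ev
    ((zig_congr hl eG).ipT (rt_congr eh) (rt_congr ek)) rfl

theorem grad_cg (ef : f =ᶠ[l] f') :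
    grad G f =ᶠ[l] grad G' f' :=
  ((zig_congr hl EventuallyEq.rfl).grad (R0.rfl f)).ev
    ((zig_congr hl eG).grad (r0_congr ef)) rfl

theorem lap_cg (ef : f =ᶠ[l] f') :
    lap G f =ᶠ[l] lap G' f' :=
  ((zig_congr hl EventuallyEq.rfl).lap (R0.rfl f)).ev
    ((zig_congr hl eG).lap (r0_congr ef)) rfl

theorem ipV_cg (eX : X =ᶠ[l] X') (eY : Y =ᶠ[l] Y') :
    ipV G X Y =ᶠ[l] ipV G' X' Y' :=
  ((zig_congr hl EventuallyEq.rfl).ipV (RV.rfl X) (RV.rfl Y)).ev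
    ((zig_congr hl eG).ipV (rv_congr eX) (rv_congr eY)) rfl

theorem nabX_cg (eX : X =ᶠ[l] X') (eh : h =ᶠ[l] h') :
    nabX G X h =ᶠ[l] nabX G' X' h' :=
  ((zig_congr hl EventuallyEq.rfl).nabX (RV.rfl X) (RT.rfl h)).ev
    ((zig_congr hl eG).nabX (rv_congr eX) (rt_congr eh)) rfl

theorem dt_cg (eh : h =ᶠ[l] h') :
    dt G h =ᶠ[l] dt G' h' :=
  ((zig_congr hl EventuallyEq.rfl).dt (RT.rfl h) (RT.rfl _)).ev
    ((zig_congr hl eG).dt (rt_congr eh) (rt_congr (inv_congr (eG.add eh)))) rfl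

theorem ricL_cg (eh : h =ᶠ[l] h') :
    ricL G h =ᶠ[l] ricL G' h' :=
  ((zig_congr hl EventuallyEq.rfl).ricL (RT.rfl h)).ev
    ((zig_congr hl eG).ricL (rt_congr eh)) rfl

theorem chr_cg (k i j : Fin 4) : chr G k i j =ᶠ[l] chr G' k i j :=
  (om_cg hl eG i).mono fun p e => by rw [← om_apply, e, om_apply]

theorem PP_cg (eh : h =ᶠ[l] h') : PP G h =ᶠ[l] PP G' h' := by
  filter_upwards [lich_cg hl eG eh, eh] with p e1 e2
  rw [PP, PP, e1, e2]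

theorem Pop_cg (μ : ℝ) (eh : h =ᶠ[l] h') : Pop μ G h =ᶠ[l] Pop μ G' h' := by
  filter_upwards [lich_cg hl eG eh, eh] with p e1 e2
  rw [Pop, Pop, e1, e2]

theorem Pop_iter_cg (μ : ℝ) (eh : h =ᶠ[l] h') (j : ℕ) : (Pop μ G)^[j] h =ᶠ[l] (Pop μ G')^[j] h' := by
  induction j with
  | zero => exact eh
  | succ j ih => simpa only [Function.iterate_succ_apply'] using Pop_cg hl eG μ ih

theorem Err_cg : Err G =ᶠ[l] Err G' := by
  filter_upwards [ric_cg hl eG, eG] with p e1 e2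
  rw [Err, Err, e1, e2]

theorem Phi_cg (eh : h =ᶠ[l] h') : Phi G h =ᶠ[l] Phi G' h' := by
  filter_upwards [dt_cg hl eG eh, eG, eh] with p e1 e2 e3
  rw [Phi, Phi, e1, e2, e3]

theorem koi_cg (k : Mat) : (fun p => koi G p k) =ᶠ[l] fun p => koi G' p k := by
  filter_upwards [rring_cg hl eG (EventuallyEq.refl l fun _ => k), ric_cg hl eG, eG] with p e1 e2 e3
  rw [koi, koi, e1, e2, e3]

theorem pot_cg (k : Mat) : (fun p => pot G p k) =ᶠ[l] fun p => pot G' p k := by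
  filter_upwards [rring_cg hl eG (EventuallyEq.refl l fun _ => k), ric_cg hl eG, eG] with p e1 e2 e3
  rw [pot, pot, e1, e2, e3]

end

theorem df_cg (hl : LocF l) (ef : f =ᶠ[l] f') : df f =ᶠ[l] df f' :=
  (eventually_all.2 fun i => hl (bas i) f f' ef).mono fun _ e => funext e

theorem pdM_cg (hl : LocF l) (a : Fin 4) (eh : h =ᶠ[l] h') : pdM a h =ᶠ[l] pdM a h' :=
  ((zig_congr hl (EventuallyEq.refl l 0)).dm a (rt_congr eh)).self

theorem rring_at {p : E4} (G : Tn) (e : h p = h' p) : rring G h p = rring G h' p := by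
  ext i j
  rw [rring_apply, rring_apply, e]

end Pool.Agent.Lib.MP_94aef8_gt
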