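import Pool.Agent.Lib.MP_94aef8_gt.B.Geo

/-! The coordinate form of the Lichnerowicz Laplacian: definitions. -/

open Matrix

namespace Pool.Agent.Lib.MP_94aef8_gt

namespace Geo

variable {A : Type} [CommRing A] (c : Geo A)

/-- The part of `lich` that is linear in the first derivatives `v a` of the tensor. -/
def l1 (v : Fin 4 → MA A) : MA A :=
  ∑ a, ∑ b, c.H a b • ((c.w b)ᵀ * v a + v a * c.w b + (c.w a)ᵀ * v b + v b * c.w a +
    ∑ e, c.w a e b • v e)

/-- The part of `lich` of order zero. -/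
def l0 (h : MA A) : MA A :=
  ∑ a, ∑ b, c.H a b • ((c.dm a (c.w b))ᵀ * h + h * c.dm a (c.w b) -
    (c.w a)ᵀ * ((c.w b)ᵀ * h + h * c.w b) - ((c.w b)ᵀ * h + h * c.w b) * c.w a -
    ∑ e, c.w a e b • ((c.w e)ᵀ * h + h * c.w e)) -
  (2 : A) • c.rring h + c.ric * c.H * h + h * c.H * c.ric

/-- The coefficient of `∂_a h_{k l}` in `lich h`. -/
def b1 (a k l : Fin 4) : MA A := c.l1 (Pi.single a (Matrix.single k l 1))

/-- The coefficient of `h_{k l}` in `lich h`. -/
def b0 (k l : Fin 4) : MA A := c.l0 (Matrix.single k l 1)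

/-- The linearised Ricci tensor. -/
def ricL (h : MA A) : MA A := c.hf • (c.lich h + c.lie (c.bian h))

/-- The second covariant derivative without its top order term. -/
def n21 (a b : Fin 4) (h : MA A) : MA A :=
  -((c.dm a (c.w b))ᵀ * h + (c.w b)ᵀ * c.dm a h + c.dm a h * c.w b + h * c.dm a (c.w b)) -
    (c.w a)ᵀ * c.nab b h - c.nab b h * c.w a - ∑ e, c.w a e b • c.nab e h

/-- The terms of `QQ` that contain no second derivative of `h`. -/
def q1 (h K : MA A) : MA A := -(c.hf • ∑ a, ∑ b, (K - c.H) a b • c.n21 a b h) + c.qq h K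

end Geo

end Pool.Agent.Lib.MP_94aef8_gt
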