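import Pool.Agent.Lib.MP_94aef8_gt.B.Shi
import Pool.Agent.Lib.MP_94aef8_gt.B.Geo2

/-! Coordinate forms. -/

open Matrix

namespace Pool.Agent.Lib.MP_94aef8_gt

namespace Geo

variable {A : Type} [CommRing A] {c : Geo A}

theorem coord_lin (f : MA A →ₗ[A] MA A) (h : MA A) :
    f h = ∑ k, ∑ l, h k l • f (Matrix.single k l 1) := by
  conv_lhs => rw [matrix_eq_sum_single h]
  simp only [map_sum, ← map_smul, smul_single, smul_eq_mul, mul_one]

theorem coord_l1 : IsLinearMap A c.l1 :=
  ⟨fun v v' => by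
    simp only [l1, Pi.add_apply, mul_add, add_mul, smul_add, Finset.sum_add_distrib]
    abel, fun t v => by
    simp only [l1, Pi.smul_apply, Matrix.mul_smul, Matrix.smul_mul, smul_add, Finset.smul_sum,
      smul_comm t]⟩

theorem coord_l0 : IsLinearMap A c.l0 :=
  ⟨fun v v' => by
    simp only [l0, rring_add, mul_add, add_mul, smul_add, smul_sub, Finset.sum_add_distrib,
      Finset.sum_sub_distrib]
    abel, fun t v => by
    simp only [l0, rring_smul, Matrix.mul_smul, Matrix.smul_mul, smul_add, smul_sub, mul_add,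
      add_mul, Finset.smul_sum, smul_comm t]⟩

theorem coord_two (hc : c.OK) (a b : Fin 4) (h : MA A) : c.nab2 a b h = c.dm a (c.dm b h) -
    ((c.w b)ᵀ * c.dm a h + c.dm a h * c.w b + (c.w a)ᵀ * c.dm b h + c.dm b h * c.w a +
      ∑ e, c.w a e b • c.dm e h) - ((c.dm a (c.w b))ᵀ * h + h * c.dm a (c.w b) -
    (c.w a)ᵀ * ((c.w b)ᵀ * h + h * c.w b) - ((c.w b)ᵀ * h + h * c.w b) * c.w a -
    ∑ e, c.w a e b • ((c.w e)ᵀ * h + h * c.w e)) := by
  simp only [nab2, nab, hc.dm_sub, hc.dm_mul, dm_transpose, smul_sub, smul_add, mul_sub, sub_mul,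
    mul_add, add_mul, Finset.sum_add_distrib, Finset.sum_sub_distrib]
  abel

theorem l1_eq (v : Fin 4 → MA A) : c.l1 v = ∑ a, ∑ k, ∑ l, v a k l • c.b1 a k l := by
  conv_lhs => rw [← Finset.univ_sum_single v]
  exact (map_sum (coord_l1.mk' _) _ _).trans (Finset.sum_congr rfl fun a _ =>
    coord_lin ((coord_l1.mk' _).comp (LinearMap.single A (fun _ => MA A) a)) (v a))

theorem l0_eq (h : MA A) : c.l0 h = ∑ k, ∑ l, h k l • c.b0 k l := by
  exact coord_lin (coord_l0.mk' _) h

theorem OK.lich_split (hc : c.OK) (h : MA A) : c.lich h =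
    -(∑ a, ∑ b, c.H a b • c.dm a (c.dm b h)) + c.l1 (fun a => c.dm a h) + c.l0 h := by
  simp only [lich, rough, l1, l0, coord_two hc, smul_sub, Finset.sum_sub_distrib]
  abel

theorem OK.lich_coord (hc : c.OK) (h : MA A) (i j : Fin 4) : c.lich h i j =
    -(∑ a, ∑ b, c.H a b * c.D a (c.D b (h i j))) + ∑ a, ∑ k, ∑ l, c.b1 a k l i j * c.D a (h k l) +
      ∑ k, ∑ l, c.b0 k l i j * h k l := by
  rw [hc.lich_split, l1_eq, l0_eq]
  simp only [Matrix.add_apply, Matrix.neg_apply, Matrix.sum_apply, Matrix.smul_apply, smul_eq_mul,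
    dm_apply, mul_comm]

theorem OK.nab2_coord (hc : c.OK) (a b : Fin 4) (h : MA A) :
    c.nab2 a b h = c.dm a (c.dm b h) + c.n21 a b h := by
  rw [nab2, n21, nab, show c.dm a (c.nab b h) = _ by
    rw [nab, hc.dm_sub, hc.dm_sub, hc.dm_mul, hc.dm_mul, dm_transpose]]
  abel

theorem OK.QQ_coord (hc : c.OK) (h K : MA A) :
    c.QQ h K = -(c.hf • ∑ a, ∑ b, (K - c.H) a b • c.dm a (c.dm b h)) + c.q1 h K := by
  simp only [QQ, q1, hc.nab2_coord, smul_add, Finset.sum_add_distrib]
  abel

/-- The linearisation of the gauge field (`d_trG`). -/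
theorem OK.wv_H (hc : c.OK) {h : MA A} (hs : hᵀ = h) : c.wv h c.H = c.bian h := by
  refine congrArg (c.H *ᵥ ·) (funext fun l => ?_)
  have e1 : ∑ a, ∑ b, c.H a b * c.nab b h a l = ∑ a, ∑ b, c.H a b * c.nab a h b l :=
    Finset.sum_comm.trans (Finset.sum_congr rfl fun a _ => Finset.sum_congr rfl fun b _ => by
      rw [hc.symmH])
  have e2 : c.trG (c.nab l h) = ∑ a, ∑ b, c.H a b * c.nab l h a b := by
    simp only [trG, trace, diag_apply, mul_apply]
    exact Finset.sum_congr rfl fun a _ => Finset.sum_congr rfl fun b _ => by rw [shi_nab hs]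
  have e3 := congrArg (· * ∑ a, ∑ b, c.H a b * c.nab a h b l) hc.hh
  simp only [wl, low, of_apply, divT, df, Pi.sub_apply, Pi.smul_apply, smul_eq_mul, hc.d_trG, e2,
    Fin.sum_univ_four] at e1 e3 ⊢
  linear_combination c.hf * e1 + e3

/-- The Lie derivative of the perturbed metric (`w_sh`). -/
theorem OK.lie_sh (hc : c.OK) {h K : MA A} (hs : hᵀ = h) (hK : (c.G + h) * K = 1) (X : VA A) :
    (c.sh h K).lie X = c.lie X + c.nabX X h + h * c.cov X + (c.cov X)ᵀ * h := by
  have e : (c.sh h K).cov X = c.cov X + K * ∑ m, X m • c.low h m := by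
    ext k i
    change c.D i (X k) + ∑ m, (c.sh h K).w i k m * X m = _
    simp only [cov, of_apply, hc.w_sh hs hK, Matrix.add_apply, cdf, mul_apply,
      Matrix.smul_apply, smul_eq_mul, low_symm hs i, Fin.sum_univ_four]
    ring
  rw [lie, e]
  change (c.G + h) * _ + ((c.G + h) * _)ᵀ = _
  rw [mul_add, ← mul_assoc, hK, one_mul, lie, nabX]
  simp only [← hc.low_add_transpose hs, smul_add, Finset.sum_add_distrib, transpose_add,
    transpose_sum, transpose_smul, add_mul, transpose_mul, hs]
  abel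

/-- Christoffel symbols of a diagonal metric. -/
theorem OK.w_diag (hc : c.OK) {g g' : Fin 4 → A} (hG : c.G = diagonal g) (hH : c.H = diagonal g')
    (a k j : Fin 4) : c.w a k j = c.hf * g' k * ((if j = k then c.D a (g k) else 0) +
      (if a = k then c.D j (g k) else 0) - if a = j then c.D k (g a) else 0) := by
  have e : ∀ a j k, c.D a (diagonal g j k) = if j = k then c.D a (g j) else 0 := fun a j k => by
    rw [diagonal_apply, apply_ite (c.D a), hc.zero]
  rw [w, of_apply, hH, hG, Finset.sum_eq_single k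
    (fun l _ hl => by rw [diagonal_apply_ne' _ hl, zero_mul]) (by simp), diagonal_apply_eq, e, e, e,
    mul_assoc, ite_congr rfl (fun h : j = k => congrArg _ (congrArg g h)) fun _ => rfl,
    ite_congr rfl (fun h : a = k => congrArg _ (congrArg g h)) fun _ => rfl]

/-- If the curvature operator is diagonal with sectional curvatures `κ`. -/
theorem rring_diag {g g' : Fin 4 → A} (hH : c.H = diagonal g') {κ : Fin 4 → Fin 4 → A}
    (hR : ∀ a i k j, c.rm a i k j =
      κ a i * ((if k = a ∧ j = i then g i else 0) - if k = i ∧ j = a then g a else 0))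
    (hg : ∀ i, g i * g' i = 1) (h : MA A) (i j : Fin 4) :
    c.rring h i j = (if j = i then ∑ a, κ a i * (g' a * h a a) * g i else 0) - κ j i * h j i := by
  have e : ∀ a, (c.H * h * c.rm a i) a j = (if j = i then κ a i * (g' a * h a a) * g i else 0) -
      if j = a then κ a i * h a i else 0 := fun a => by
    rw [hH, mul_apply]
    simp only [diagonal_mul, hR, mul_sub, Finset.sum_sub_distrib, mul_ite, mul_zero, ite_and,
      Finset.sum_ite_eq', Finset.mem_univ, if_true]
    refine congrArg₂ _ (ite_congr rfl (fun _ => by ring) fun _ => rfl)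
      (ite_congr rfl (fun _ => ?_) fun _ => rfl)
    linear_combination κ a i * h a i * hg a
  simp only [rring, of_apply, e, Finset.sum_sub_distrib, Finset.sum_ite_eq, Finset.mem_univ,
    if_true, Finset.sum_ite_irrel, Finset.sum_const_zero]

end Geo

end Pool.Agent.Lib.MP_94aef8_gt
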