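import Pool.Agent.Lib.MP_94aef8_gt.B.Alg

/-! Leibniz rules for the covariant derivative. -/

open Matrix

namespace Pool.Agent.Lib.MP_94aef8_gt

namespace Geo

variable {A : Type} [CommRing A] {c : Geo A}

theorem ipT_add_left (h h' k : MA A) : c.ipT (h + h') k = c.ipT h k + c.ipT h' k := by
  simp only [ipT, Matrix.mul_add, Matrix.add_mul, Matrix.trace_add]

theorem ipT_sub_left (h h' k : MA A) : c.ipT (h - h') k = c.ipT h k - c.ipT h' k := by
  simp only [ipT, Matrix.mul_sub, Matrix.sub_mul, Matrix.trace_sub]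

theorem ipT_neg_left (h k : MA A) : c.ipT (-h) k = -c.ipT h k := by
  simp only [ipT, Matrix.mul_neg, Matrix.neg_mul, Matrix.trace_neg]

theorem ipT_smul_left (f : A) (h k : MA A) : c.ipT (f • h) k = f * c.ipT h k := by
  simp only [ipT, Matrix.mul_smul, Matrix.smul_mul, Matrix.trace_smul, smul_eq_mul]

theorem ipT_sum_left {ι : Type} (s : Finset ι) (h : ι → MA A) (k : MA A) :
    c.ipT (∑ i ∈ s, h i) k = ∑ i ∈ s, c.ipT (h i) k := by
  simp only [ipT, Matrix.mul_sum, Matrix.sum_mul, Matrix.trace_sum]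

theorem ipT_add_right (h k k' : MA A) : c.ipT h (k + k') = c.ipT h k + c.ipT h k' := by
  simp only [ipT, Matrix.transpose_add, Matrix.mul_add, Matrix.trace_add]

theorem ipT_sub_right (h k k' : MA A) : c.ipT h (k - k') = c.ipT h k - c.ipT h k' := by
  simp only [ipT, Matrix.transpose_sub, Matrix.mul_sub, Matrix.trace_sub]

theorem ipT_neg_right (h k : MA A) : c.ipT h (-k) = -c.ipT h k := by
  simp only [ipT, Matrix.transpose_neg, Matrix.mul_neg, Matrix.trace_neg]

theorem ipT_smul_right (f : A) (h k : MA A) : c.ipT h (f • k) = f * c.ipT h k := by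
  simp only [ipT, Matrix.transpose_smul, Matrix.mul_smul, Matrix.trace_smul, smul_eq_mul]

theorem ipT_sum_right {ι : Type} (s : Finset ι) (h : MA A) (k : ι → MA A) :
    c.ipT h (∑ i ∈ s, k i) = ∑ i ∈ s, c.ipT h (k i) := by
  simp only [ipT, Matrix.transpose_sum, Matrix.mul_sum, Matrix.trace_sum]

theorem trG_add (h k : MA A) : c.trG (h + k) = c.trG h + c.trG k := by
  simp only [trG, Matrix.mul_add, Matrix.trace_add]

theorem trG_sub (h k : MA A) : c.trG (h - k) = c.trG h - c.trG k := by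
  simp only [trG, Matrix.mul_sub, Matrix.trace_sub]

theorem trG_neg (h : MA A) : c.trG (-h) = -c.trG h := by
  simp only [trG, Matrix.mul_neg, Matrix.trace_neg]

theorem trG_smul (f : A) (h : MA A) : c.trG (f • h) = f * c.trG h := by
  simp only [trG, Matrix.mul_smul, Matrix.trace_smul, smul_eq_mul]

theorem trG_sum {ι : Type} (s : Finset ι) (h : ι → MA A) :
    c.trG (∑ i ∈ s, h i) = ∑ i ∈ s, c.trG (h i) := by
  simp only [trG, Matrix.mul_sum, Matrix.trace_sum]

theorem OK.ipT_comm (hc : c.OK) (h k : MA A) : c.ipT h k = c.ipT k h := by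
  have e : (c.H * h * c.H * kᵀ)ᵀ = k * c.H * hᵀ * c.H := by
    simp only [Matrix.transpose_mul, Matrix.transpose_transpose, hc.trH, Matrix.mul_assoc]
  rw [ipT, ipT, ← Matrix.trace_transpose, e, Matrix.trace_mul_comm]
  simp only [Matrix.mul_assoc]

theorem OK.ipT_transpose (hc : c.OK) (h k : MA A) : c.ipT hᵀ kᵀ = c.ipT h k := by
  have e : (c.H * h * c.H * kᵀ)ᵀ = k * (c.H * hᵀ * c.H) := by
    simp only [Matrix.transpose_mul, Matrix.transpose_transpose, hc.trH, Matrix.mul_assoc]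
  rw [ipT, ipT, ← Matrix.trace_transpose (c.H * h * c.H * kᵀ), e, Matrix.trace_mul_comm k,
    Matrix.transpose_transpose]

theorem OK.trG_transpose (hc : c.OK) (h : MA A) : c.trG hᵀ = c.trG h := by
  rw [trG, trG, ← Matrix.trace_transpose (c.H * h), Matrix.transpose_mul, hc.trH,
    Matrix.trace_mul_comm]

theorem OK.ipT_G (hc : c.OK) (h : MA A) : c.ipT h c.G = c.trG h := by
  rw [ipT, trG, hc.symm, Matrix.mul_assoc, hc.inv', Matrix.mul_one]

theorem OK.trG_G (hc : c.OK) : c.trG c.G = 4 := by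
  rw [trG, hc.inv', Matrix.trace_one, Fintype.card_fin]
  norm_num

/-- Multiplication by a symmetric form is self-adjoint. -/
theorem OK.ipT_mul_left (hc : c.OK) {s : MA A} (hs : sᵀ = s) (h k : MA A) :
    c.ipT (s * c.H * h) k = c.ipT h (s * c.H * k) := by
  have e1 : c.H * (s * c.H * h) * c.H * kᵀ = c.H * s * (c.H * h * c.H * kᵀ) := by
    simp only [Matrix.mul_assoc]
  have e2 : c.H * h * c.H * (s * c.H * k)ᵀ = c.H * h * c.H * kᵀ * (c.H * s) := by
    simp only [Matrix.transpose_mul, hc.trH, hs, Matrix.mul_assoc]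
  rw [ipT, ipT, e1, e2, Matrix.trace_mul_comm]

theorem OK.ipT_mul_right (hc : c.OK) {s : MA A} (hs : sᵀ = s) (h k : MA A) :
    c.ipT (h * c.H * s) k = c.ipT h (k * c.H * s) := by
  simp only [ipT, Matrix.transpose_mul, hc.trH, hs, Matrix.mul_assoc]

theorem nab_transpose (a : Fin 4) (h : MA A) : c.nab a hᵀ = (c.nab a h)ᵀ := by
  simp only [nab, dm_transpose, Matrix.transpose_sub, Matrix.transpose_mul,
    Matrix.transpose_transpose]
  abel

theorem nab2_transpose (a b : Fin 4) (h : MA A) : c.nab2 a b hᵀ = (c.nab2 a b h)ᵀ := by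
  simp only [nab2, nab_transpose, Matrix.transpose_sub, Matrix.transpose_sum,
    Matrix.transpose_smul]

theorem rough_transpose (h : MA A) : c.rough hᵀ = (c.rough h)ᵀ := by
  simp only [rough, nab2_transpose, Matrix.transpose_neg, Matrix.transpose_sum,
    Matrix.transpose_smul]

theorem OK.nab_add (hc : c.OK) (a : Fin 4) (h k : MA A) :
    c.nab a (h + k) = c.nab a h + c.nab a k := by
  simp only [nab, hc.dm_add, Matrix.mul_add, Matrix.add_mul]
  abel

theorem OK.nab_sub (hc : c.OK) (a : Fin 4) (h k : MA A) :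
    c.nab a (h - k) = c.nab a h - c.nab a k := by
  simp only [nab, hc.dm_sub, Matrix.mul_sub, Matrix.sub_mul]
  abel

theorem OK.nab_neg (hc : c.OK) (a : Fin 4) (h : MA A) : c.nab a (-h) = -c.nab a h := by
  simp only [nab, hc.dm_neg, Matrix.mul_neg, Matrix.neg_mul]
  abel

theorem OK.nab_zero (hc : c.OK) (a : Fin 4) : c.nab a 0 = 0 := by
  simp only [nab, hc.dm_zero, Matrix.mul_zero, Matrix.zero_mul, sub_zero]

theorem OK.nab_sum (hc : c.OK) (a : Fin 4) {ι : Type} (s : Finset ι) (h : ι → MA A) :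
    c.nab a (∑ i ∈ s, h i) = ∑ i ∈ s, c.nab a (h i) := by
  simp only [nab, hc.dm_sum, Matrix.mul_sum, Matrix.sum_mul, Finset.sum_sub_distrib]

theorem OK.nab_smul (hc : c.OK) (a : Fin 4) (f : A) (h : MA A) :
    c.nab a (f • h) = c.D a f • h + f • c.nab a h := by
  simp only [nab, hc.dm_smul, Matrix.mul_smul, Matrix.smul_mul, smul_sub]
  abel

theorem OK.nab_G (hc : c.OK) (a : Fin 4) : c.nab a c.G = 0 := by
  rw [nab, hc.compat]
  abel

theorem OK.nab_mulH (hc : c.OK) (a : Fin 4) (h k : MA A) :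
    c.nab a (h * c.H * k) = c.nab a h * c.H * k + h * c.H * c.nab a k := by
  simp only [nab, hc.dm_mul, hc.dH]
  noncomm_ring

theorem OK.d_trG (hc : c.OK) (a : Fin 4) (h : MA A) : c.D a (c.trG h) = c.trG (c.nab a h) := by
  have e : c.dm a (c.H * h) = c.H * c.nab a h + (c.H * h * c.w a - c.w a * (c.H * h)) := by
    rw [hc.dm_mul, hc.dH, nab]
    noncomm_ring
  rw [trG, trG, hc.d_trace, e, trace_add, trace_sub, trace_mul_comm (c.w a), sub_self, add_zero]

/-- `ipT h k = trG (h * H * kᵀ)`. -/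
theorem OK.d_ipT (hc : c.OK) (a : Fin 4) (h k : MA A) :
    c.D a (c.ipT h k) = c.ipT (c.nab a h) k + c.ipT h (c.nab a k) := by
  have e : ∀ h k : MA A, c.ipT h k = c.trG (h * c.H * kᵀ) := fun h k => by
    simp only [ipT, trG, Matrix.mul_assoc]
  rw [e, e, e, hc.d_trG, hc.nab_mulH, trG_add, nab_transpose]

/-- Derivative of `h(X, Y)`. -/
theorem OK.d_pair (hc : c.OK) (a : Fin 4) (h : MA A) (X Y : VA A) :
    c.D a (X ⬝ᵥ h *ᵥ Y) = (fun k => c.cov X k a) ⬝ᵥ h *ᵥ Y + X ⬝ᵥ c.nab a h *ᵥ Y +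
      X ⬝ᵥ h *ᵥ fun k => c.cov Y k a := by
  have e : ∀ Z : VA A, (fun k => c.cov Z k a) = (fun k => c.D a (Z k)) + c.w a *ᵥ Z :=
    fun Z => rfl
  have e1 : c.D a (X ⬝ᵥ h *ᵥ Y) = (fun k => c.D a (X k)) ⬝ᵥ h *ᵥ Y + X ⬝ᵥ c.dm a h *ᵥ Y +
      X ⬝ᵥ h *ᵥ fun k => c.D a (Y k) := by
    simp only [dotProduct, mulVec, hc.sum, hc.mul, dm_apply, Finset.sum_add_distrib, mul_add,
      add_assoc]
  have e2 : X ⬝ᵥ ((c.w a)ᵀ * h) *ᵥ Y = (c.w a *ᵥ X) ⬝ᵥ h *ᵥ Y := by
    rw [← mulVec_mulVec, dotProduct_mulVec, vecMul_transpose]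
  rw [e, e, e1, nab, sub_mulVec, sub_mulVec, dotProduct_sub, dotProduct_sub, e2, add_dotProduct,
    mulVec_add, dotProduct_add, mulVec_mulVec]
  ring

theorem OK.nab2_add (hc : c.OK) (a b : Fin 4) (h k : MA A) :
    c.nab2 a b (h + k) = c.nab2 a b h + c.nab2 a b k := by
  simp only [nab2, hc.nab_add, smul_add, Finset.sum_add_distrib]
  abel

theorem OK.nab2_sub (hc : c.OK) (a b : Fin 4) (h k : MA A) :
    c.nab2 a b (h - k) = c.nab2 a b h - c.nab2 a b k := by
  simp only [nab2, hc.nab_sub, smul_sub, Finset.sum_sub_distrib]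
  abel

theorem OK.nab2_G (hc : c.OK) (a b : Fin 4) : c.nab2 a b c.G = 0 := by
  simp only [nab2, hc.nab_G, hc.nab_zero, smul_zero, Finset.sum_const_zero, sub_zero]

theorem OK.nab2_smul (hc : c.OK) (a b : Fin 4) (f : A) (h : MA A) :
    c.nab2 a b (f • h) = f • c.nab2 a b h + c.D a f • c.nab b h + c.D b f • c.nab a h +
      (c.D a (c.D b f) - ∑ e, c.w a e b * c.D e f) • h := by
  simp only [nab2, hc.nab_smul, hc.nab_add, Fin.sum_univ_four]
  module

/-- The Ricci identity (the sums over `e` cancel by `w_symm`). -/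
theorem OK.ricci_id (hc : c.OK) (a b : Fin 4) (h : MA A) :
    c.nab2 a b h - c.nab2 b a h = -((c.rm a b)ᵀ * h + h * c.rm a b) := by
  have e : ∑ e, c.w b e a • c.nab e h = ∑ e, c.w a e b • c.nab e h :=
    Finset.sum_congr rfl fun e _ => by rw [hc.w_symm]
  rw [nab2, nab2, e, sub_sub_sub_cancel_right]
  simp only [nab, rm, hc.dm_sub, hc.dm_mul, Matrix.transpose_sub, Matrix.transpose_add,
    Matrix.transpose_mul, ← dm_transpose]
  rw [hc.dm_comm a b h]
  noncomm_ring

/-- The covariant derivative of the dual vector field of a one-form (`dH`). -/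
theorem OK.cov_sharp (hc : c.OK) (θ : VA A) :
    c.cov (c.H *ᵥ θ) = c.H * Matrix.of fun j a => c.D a (θ j) - ∑ e, c.w a e j * θ e := by
  ext k a
  have e1 : c.cov (c.H *ᵥ θ) k a =
      (c.dm a c.H *ᵥ θ + c.H *ᵥ (fun j => c.D a (θ j)) + c.w a *ᵥ c.H *ᵥ θ) k := by
    simp only [cov, Matrix.of_apply, Pi.add_apply, mulVec, dotProduct, hc.sum, hc.mul, dm_apply,
      Finset.sum_add_distrib]
  have e2 : (c.H * Matrix.of fun j a => c.D a (θ j) - ∑ e, c.w a e j * θ e : MA A) k a =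
      (c.H *ᵥ ((fun j => c.D a (θ j)) - (c.w a)ᵀ *ᵥ θ)) k := rfl
  rw [e1, e2, hc.dH, neg_mulVec, add_mulVec, mulVec_sub, mulVec_mulVec, mulVec_mulVec]
  exact congrFun (by abel) k

theorem OK.dvg_sharp (hc : c.OK) (θ : VA A) :
    c.dvg (c.H *ᵥ θ) = ∑ a, ∑ b, c.H a b * (c.D a (θ b) - ∑ e, c.w a e b * θ e) := by
  rw [dvg, hc.cov_sharp]
  rfl

theorem OK.lap_eq (hc : c.OK) (f : A) :
    c.lap f = ∑ a, ∑ b, c.H a b * (c.D a (c.D b f) - ∑ e, c.w a e b * c.D e f) :=
  hc.dvg_sharp _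

theorem OK.cov_add (hc : c.OK) (X Y : VA A) : c.cov (X + Y) = c.cov X + c.cov Y := by
  ext k i
  simp only [cov, Matrix.of_apply, Matrix.add_apply, Pi.add_apply, hc.add, mul_add,
    Finset.sum_add_distrib]
  ring

theorem OK.cov_sub (hc : c.OK) (X Y : VA A) : c.cov (X - Y) = c.cov X - c.cov Y := by
  ext k i
  simp only [cov, Matrix.of_apply, Matrix.sub_apply, Pi.sub_apply, hc.sub, mul_sub,
    Finset.sum_sub_distrib]
  ring

theorem OK.cov_neg (hc : c.OK) (X : VA A) : c.cov (-X) = -c.cov X := by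
  ext k i
  simp only [cov, Matrix.of_apply, Matrix.neg_apply, Pi.neg_apply, hc.neg, mul_neg,
    Finset.sum_neg_distrib]
  ring

theorem OK.cov_smul (hc : c.OK) (f : A) (X : VA A) :
    c.cov (f • X) = f • c.cov X + vecMulVec X (c.df f) := by
  ext k i
  simp only [cov, df, Matrix.of_apply, Matrix.add_apply, Matrix.smul_apply, Pi.smul_apply,
    smul_eq_mul, hc.mul, vecMulVec_apply, Fin.sum_univ_four]
  ring

theorem OK.dvg_add (hc : c.OK) (X Y : VA A) : c.dvg (X + Y) = c.dvg X + c.dvg Y := by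
  rw [dvg, hc.cov_add, trace_add, dvg, dvg]

theorem OK.dvg_sub (hc : c.OK) (X Y : VA A) : c.dvg (X - Y) = c.dvg X - c.dvg Y := by
  rw [dvg, hc.cov_sub, trace_sub, dvg, dvg]

theorem OK.dvg_neg (hc : c.OK) (X : VA A) : c.dvg (-X) = -c.dvg X := by
  rw [dvg, hc.cov_neg, trace_neg, dvg]

theorem OK.dvg_smul (hc : c.OK) (f : A) (X : VA A) :
    c.dvg (f • X) = f * c.dvg X + X ⬝ᵥ c.df f := by
  rw [dvg, hc.cov_smul, trace_add, trace_smul, trace_vecMulVec, dvg, smul_eq_mul]

theorem OK.lie_add (hc : c.OK) (X Y : VA A) : c.lie (X + Y) = c.lie X + c.lie Y := by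
  simp only [lie, hc.cov_add, Matrix.mul_add, Matrix.transpose_add]
  abel

theorem OK.lie_neg (hc : c.OK) (X : VA A) : c.lie (-X) = -c.lie X := by
  simp only [lie, hc.cov_neg, Matrix.mul_neg, Matrix.transpose_neg]
  abel

theorem OK.lie_smul (hc : c.OK) (f : A) (X : VA A) : c.lie (f • X) = f • c.lie X +
    vecMulVec (c.G *ᵥ X) (c.df f) + vecMulVec (c.df f) (c.G *ᵥ X) := by
  simp only [lie, hc.cov_smul, Matrix.mul_add, Matrix.transpose_add, Matrix.mul_smul,
    Matrix.transpose_smul, mul_vecMulVec, transpose_vecMulVec, smul_add]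
  abel

theorem lie_symm (X : VA A) : (c.lie X)ᵀ = c.lie X := by
  rw [lie, Matrix.transpose_add, Matrix.transpose_transpose, add_comm]

theorem OK.trG_lie (hc : c.OK) (X : VA A) : c.trG (c.lie X) = 2 * c.dvg X := by
  rw [lie, trG_add, hc.trG_transpose, trG, ← Matrix.mul_assoc, hc.inv', Matrix.one_mul, dvg,
    two_mul]

/-- The usual formula in coordinates (`compat`, `w_symm`). -/
theorem OK.lie_eq (hc : c.OK) (X : VA A) : c.lie X = ∑ e, X e • c.dm e c.G +
    (Matrix.of fun k i => c.D i (X k))ᵀ * c.G + c.G * Matrix.of fun k i => c.D i (X k) := by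
  have e : c.cov X = (Matrix.of fun k i => c.D i (X k)) + ∑ e, X e • c.w e := by
    ext k i
    simp only [cov, Matrix.of_apply, Matrix.add_apply, Matrix.sum_apply, Matrix.smul_apply,
      smul_eq_mul]
    exact congrArg _ (Finset.sum_congr rfl fun e _ => by rw [hc.w_symm, mul_comm])
  simp only [lie, e, hc.compat, Matrix.transpose_mul, hc.symm, Matrix.transpose_add,
    Matrix.transpose_sum, Matrix.transpose_smul, Matrix.mul_add, Matrix.mul_sum,
    Matrix.mul_smul, smul_add, Finset.sum_add_distrib]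
  abel

end Geo

end Pool.Agent.Lib.MP_94aef8_gt
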