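import Pool.Agent.Lib.MP_94aef8_gt.B.Mem

/-! Graded classes of functions: bilinear and quadratic operators. -/

open Matrix

namespace Pool.Agent.Lib.MP_94aef8_gt

namespace Geo

variable {A : Type} [CommRing A] {c : Geo A}
variable {S : ℕ → Subring A} {I I' II : ℕ → AddSubgroup A} {k : ℕ} {h h' K : MA A} {X Y : VA A}

section

variable {σ τ : Type} [SetLike σ A] [SetLike τ A] {P : σ} {Q : τ} {R : AddSubgroup A}

theorem mem2_mul (hp : ∀ x ∈ P, ∀ y ∈ Q, x * y ∈ R) (hM : MIn P h) (hN : MIn Q h') :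
    MIn R (h * h') := fun i j =>
  sum_mem (t := Finset.univ) fun l _ => hp _ (hM i l) _ (hN l j)

theorem mem2_vec (hp : ∀ x ∈ P, ∀ y ∈ Q, x * y ∈ R) (hM : MIn P h) (hX : VIn Q X) :
    VIn R (h *ᵥ X) := fun i => sum_mem (t := Finset.univ) fun l _ => hp _ (hM i l) _ (hX l)

omit [CommRing A] in
theorem mem2_t (hM : MIn P h) : MIn P hᵀ := fun i j => hM j i

theorem mem2_sum {f : Fin 4 → MA A} (hf : ∀ a, MIn R (f a)) : MIn R (∑ a, f a) := fun i j => by
  rw [Matrix.sum_apply]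
  exact sum_mem fun a _ => hf a i j

theorem mem2_r (m : Md c S I) (k : ℕ) : ∀ x ∈ I k, ∀ y ∈ S k, x * y ∈ I k :=
  fun x hx y hy => mul_comm y x ▸ m.mul k y hy x hx

end

section

variable (m : Md c S I) (m' : Md c S I') (mm : Md c S II) (p : Pr I I' II)
include m m' mm p

theorem mem_ipT (e : GH c S k) (hh : MIn (I k) h) (hh' : MIn (I' k) h') : c.ipT h h' ∈ II k :=
  sum_mem (t := Finset.univ) fun i _ => mem2_mul (p k)
    (mem2_mul (mem2_r m k) (mem2_mul (m.mul k) e.2 hh) e.2) (mem2_t hh') i i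

theorem mem_ipV (e : GH c S k) (hX : VIn (I k) X) (hY : VIn (I' k) Y) : c.ipV X Y ∈ II k :=
  sum_mem (t := Finset.univ) fun i _ => p k _ (hX i) _ (mem2_vec (m'.mul k) e.1 hY i)

theorem mem_ipD (e : GH c S (k + 1)) (hh : MIn (I (k + 1)) h) (hh' : MIn (I' (k + 1)) h') :
    c.ipD h h' ∈ II k :=
  sum_mem fun a _ => sum_mem fun b _ => mm.mul k _ ((m.gr.gh e).2 a b) _
    (mem_ipT m m' mm p (m.gr.gh e) (m.nab e hh a) (m'.nab e hh' b))

theorem mem_nabX (e : GH c S (k + 1)) (hX : VIn (I k) X) (hh' : MIn (I' (k + 1)) h') :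
    MIn (II k) (c.nabX X h') :=
  mem2_sum fun a i j => p k _ (hX a) _ (m'.nab e hh' a i j)

theorem mem_gX (e : GH c S (k + 1)) (hh : MIn (I (k + 1)) h) (hh' : MIn (I' k) h') :
    VIn (II k) (c.gX h h') :=
  mem2_vec (mm.mul k) (m.gr.gh e).2 fun b => mem_ipT m m' mm p (m.gr.gh e) (m.nab e hh b) hh'

theorem mem_cu (e : GH c S (k + 2)) (hK : MIn (I k) K) (hh' : MIn (I' k) h') :
    MIn (II k) (c.cu K h') := by
  have key : ∀ a b i j, ((c.rm a b)ᵀ * h' + h' * c.rm a b) i j ∈ I' k := fun a b i j =>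
    add_mem (mem2_mul (m'.mul k) (mem2_t (m.gr.rm e a b)) hh' i j)
      (mem2_mul (mem2_r m' k) hh' (m.gr.rm e a b) i j)
  exact fun a b => mm.mul k _ (m.gr.hf k) _ (sum_mem fun i _ => sum_mem fun l _ =>
    p k _ (hK i l) _ (add_mem (key i a b l) (key i b a l)))

end

section

variable (m : Md c S I) (mm : Md c S II) (p : Pr I I II)
include m mm p

theorem mem_crs (e : GH c S (k + 1)) (hh : MIn (I (k + 1)) h) : c.crs h ∈ II k := by
  have e' := (m.gr.gh e).2
  have key := fun a => mem2_mul (m.mul k) e' (m.nab e hh a)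
  exact sum_mem fun a _ => sum_mem fun b _ =>
    mem2_mul (p k) (mem2_mul (mem2_r m k) (key a) e') (mem2_t (key b)) b a

theorem mem_kX (e : GH c S (k + 1)) (hh : MIn (I (k + 1)) h) : VIn (II k) (c.kX h) := by
  have e' := (m.gr.gh e).2
  have h0 : MIn (I k) h := fun i j => m.mono k (hh i j)
  exact mem2_vec (mm.mul k) e' fun b => sub_mem (sum_mem fun a _ => mem2_mul (p k) (m.nab e hh a)
    (mem2_t (mem2_mul (mem2_r m k) (mem2_mul (m.mul k) e' h0) e')) b a)
    (mem2_vec (p k) h0 (mem2_vec (m.mul k) e' (m.divT e hh)) b)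

theorem mem_qq (e : GH c S (k + 2)) (hh : MIn (I (k + 1)) h) (hK : MIn (S k) K)
    (hK' : MIn (I k) (K - c.H)) : MIn (II k) (c.qq h K) := by
  have e' := m.gr.gh e
  have h1 := fun a => mem2_mul (m.mul k) hK (m.nab e' hh a)
  have h2 := m.cdf e' hh hK
  have h3 := fun a => mem2_mul (mem2_r m k) (h1 a) hK
  have h4 := m.low e' hh
  exact fun j l => add_mem (neg_mem (mem_cu m m mm p e hK' (fun i j => m.mono k (hh i j)) j l))
    (add_mem (add_mem (add_mem
      (sum_mem fun i _ => sub_mem (mem2_mul (p k) (h1 j) (h2 i) i l)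
        (mem2_mul (p k) (h1 i) (h2 j) i l))
      (sum_mem fun i _ => sum_mem fun a _ => sub_mem (p k _ (h2 i i a) _ (h2 j a l))
        (p k _ (h2 j i a) _ (h2 i a l))))
      (mm.mul k _ (m.gr.hf k) _ (sum_mem fun a _ => sum_mem fun b _ =>
        add_mem (p k _ (h3 j a b) _ (h4 a l b)) (p k _ (h3 l a b) _ (h4 a j b)))))
      (sum_mem fun a _ => p k _ (h2 j a l) _ (m.wl e' hh hK a)))

theorem mem_q1 (e : GH c S (k + 2)) (hh : MIn (I (k + 1)) h) (hK : MIn (S k) K)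
    (hK' : MIn (I k) (K - c.H)) : MIn (II k) (c.q1 h K) :=
  fun i j => add_mem (neg_mem (mm.mul k _ (m.gr.hf k) _ (mem2_sum (fun a => mem2_sum fun b i j =>
    p k _ (hK' a b) _ (m.n21 e hh a b i j)) i j))) (mem_qq m mm p e hh hK hK' i j)

theorem mem_QQ (e : GH c S (k + 2)) (hh : MIn (I (k + 2)) h) (hK : MIn (S k) K)
    (hK' : MIn (I k) (K - c.H)) : MIn (II k) (c.QQ h K) :=
  fun i j => add_mem (neg_mem (mm.mul k _ (m.gr.hf k) _ (mem2_sum (fun a => mem2_sum fun b i j =>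
    p k _ (hK' a b) _ (m.nab2 e hh a b i j)) i j)))
    (mem_qq m mm p e (fun i j => m.mono _ (hh i j)) hK hK' i j)

theorem mem_wv_sub (e : GH c S (k + 1)) (hh : MIn (I (k + 1)) h) (hK : MIn (S k) K)
    (hK' : MIn (I k) (K - c.H)) : VIn (II k) (c.wv h K - c.wv h c.H) := by
  have h1 : c.wv h K - c.wv h c.H = (K - c.H) *ᵥ c.wl h K +
      c.H *ᵥ fun l => ∑ a, ∑ b, (K - c.H) a b * c.low h a l b := by
    have h2 : (fun l => ∑ a, ∑ b, (K - c.H) a b * c.low h a l b) = c.wl h K - c.wl h c.H := by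
      funext l
      simp only [wl, Matrix.sub_apply, Pi.sub_apply, sub_mul, Finset.sum_sub_distrib]
    rw [h2, sub_mulVec, mulVec_sub, wv, wv, sub_add_sub_cancel]
  rw [h1]
  exact fun i => add_mem (mem2_vec (p k) hK' (m.wl e hh hK) i) (mem2_vec (mm.mul k)
    (m.gr.gh e).2 (fun l => sum_mem fun a _ => sum_mem fun b _ =>
      p k _ (hK' a b) _ (m.low e hh a l b)) i)

end

end Geo

end Pool.Agent.Lib.MP_94aef8_gt
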