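import Pool.Agent.Lib.MP_94aef8_gt.B.Geo2

/-! All operators commute with ring maps that commute with the derivations. -/

open Matrix

namespace Pool.Agent.Lib.MP_94aef8_gt

namespace Geo

variable {A B : Type} [CommRing A] [CommRing B] {c : Geo A} {c' : Geo B} {f : A →+* B}

/-- The ring map `f` carries `c` to `c'`. -/
structure Hom (c : Geo A) (c' : Geo B) (f : A →+* B) : Prop where
  D : ∀ i a, f (c.D i a) = c'.D i (f a)
  hf : f c.hf = c'.hf
  G : c.G.map f = c'.G
  H : c.H.map f = c'.H

theorem map_add' (M N : MA A) : (M + N).map f = M.map f + N.map f := Matrix.map_add _ (map_add f) M N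

theorem map_sub' (M N : MA A) : (M - N).map f = M.map f - N.map f := Matrix.map_sub _ (map_sub f) M N

theorem map_neg' (M : MA A) : (-M).map f = -M.map f := Matrix.map_neg _ (map_neg f) M

theorem map_smul' (a : A) (M : MA A) : (a • M).map f = f a • M.map f := by
  ext i j
  simp

theorem map_sum' {ι : Type} (s : Finset ι) (M : ι → MA A) :
    (∑ i ∈ s, M i).map f = ∑ i ∈ s, (M i).map f := by
  ext i j
  simp [Matrix.sum_apply]

theorem map_trace' (M : MA A) : f M.trace = (M.map f).trace := by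
  simp [Matrix.trace]

theorem map_mulVec' (M : MA A) (X : VA A) : f ∘ (M *ᵥ X) = M.map f *ᵥ (f ∘ X) := by
  funext i
  simp [Matrix.mulVec, dotProduct]

theorem map_dot' (X Y : VA A) : f (X ⬝ᵥ Y) = (f ∘ X) ⬝ᵥ (f ∘ Y) := by
  simp [dotProduct]

namespace Hom

variable (F : Hom c c' f)
include F

theorem Ga (i j : Fin 4) : f (c.G i j) = c'.G i j := congrFun (congrFun F.G i) j

theorem Ha (i j : Fin 4) : f (c.H i j) = c'.H i j := congrFun (congrFun F.H i) j

theorem dm (a : Fin 4) (M : MA A) : (c.dm a M).map f = c'.dm a (M.map f) := by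
  ext i j
  exact F.D a (M i j)

theorem w (a : Fin 4) : (c.w a).map f = c'.w a := by
  ext k j
  simp only [Geo.w, Matrix.map_apply, Matrix.of_apply, map_mul, map_sum, map_add, map_sub, F.D,
    F.hf, F.Ga, F.Ha]

theorem wa (a k j : Fin 4) : f (c.w a k j) = c'.w a k j := congrFun (congrFun (F.w a) k) j

theorem rm (a b : Fin 4) : (c.rm a b).map f = c'.rm a b := by
  simp only [Geo.rm, map_add', map_sub', Matrix.map_mul, F.dm, F.w]

theorem ric : c.ric.map f = c'.ric := by
  ext j k
  simp only [Geo.ric, Matrix.map_apply, Matrix.of_apply, map_mul, map_sum, map_add, map_sub, F.D,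
    F.wa]

theorem trG (h : MA A) : f (c.trG h) = c'.trG (h.map f) := by
  simp only [Geo.trG, map_trace', Matrix.map_mul, F.H]

theorem scal : f c.scal = c'.scal := by rw [Geo.scal, F.trG, F.ric, Geo.scal]

theorem ipT (h k : MA A) : f (c.ipT h k) = c'.ipT (h.map f) (k.map f) := by
  simp only [Geo.ipT, map_trace', Matrix.map_mul, F.H, Matrix.transpose_map]

theorem nab (a : Fin 4) (h : MA A) : (c.nab a h).map f = c'.nab a (h.map f) := by
  simp only [Geo.nab, map_sub', Matrix.map_mul, F.dm, Matrix.transpose_map, F.w]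

theorem nab2 (a b : Fin 4) (h : MA A) : (c.nab2 a b h).map f = c'.nab2 a b (h.map f) := by
  simp only [Geo.nab2, map_sub', map_sum', map_smul', F.nab, F.wa]

theorem rough (h : MA A) : (c.rough h).map f = c'.rough (h.map f) := by
  simp only [Geo.rough, map_neg', map_sum', map_smul', F.nab2, F.Ha]

theorem rring (h : MA A) : (c.rring h).map f = c'.rring (h.map f) := by
  ext i j
  simp only [Geo.rring, Matrix.map_apply, Matrix.of_apply, map_sum, ← F.H, ← F.rm,
    ← Matrix.map_mul]

theorem lich (h : MA A) : (c.lich h).map f = c'.lich (h.map f) := by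
  simp only [Geo.lich, map_add', map_sub', map_smul', Matrix.map_mul, F.rough, F.rring, F.ric, F.H,
    map_ofNat]

theorem ipD (h k : MA A) : f (c.ipD h k) = c'.ipD (h.map f) (k.map f) := by
  simp only [Geo.ipD, map_sum, map_mul, F.ipT, F.nab, F.Ha]

theorem df (a : A) : f ∘ c.df a = c'.df (f a) := funext fun i => F.D i a

theorem grad (a : A) : f ∘ c.grad a = c'.grad (f a) := by
  rw [Geo.grad, map_mulVec', F.H, F.df, Geo.grad]

theorem cov (X : VA A) : (c.cov X).map f = c'.cov (f ∘ X) := by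
  ext k i
  simp only [Geo.cov, Matrix.map_apply, Matrix.of_apply, map_mul, map_sum, map_add, F.D, F.wa,
    Function.comp_apply]

theorem dvg (X : VA A) : f (c.dvg X) = c'.dvg (f ∘ X) := by
  rw [Geo.dvg, map_trace', F.cov, Geo.dvg]

theorem lap (a : A) : f (c.lap a) = c'.lap (f a) := by rw [Geo.lap, F.dvg, F.grad, Geo.lap]

theorem ipV (X Y : VA A) : f (c.ipV X Y) = c'.ipV (f ∘ X) (f ∘ Y) := by
  rw [Geo.ipV, map_dot', map_mulVec', F.G, Geo.ipV]

theorem lie (X : VA A) : (c.lie X).map f = c'.lie (f ∘ X) := by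
  simp only [Geo.lie, map_add', Matrix.map_mul, Matrix.transpose_map, F.G, F.cov]

theorem naba (a : Fin 4) (h : MA A) (i j : Fin 4) : f (c.nab a h i j) = c'.nab a (h.map f) i j :=
  congrFun (congrFun (F.nab a h) i) j

theorem divT (h : MA A) : f ∘ c.divT h = c'.divT (h.map f) := by
  funext j
  simp only [Geo.divT, Function.comp_apply, map_sum, map_mul, F.Ha, F.naba]

theorem bian (h : MA A) : f ∘ c.bian h = c'.bian (h.map f) := by
  rw [Geo.bian, map_mulVec', F.H, Geo.bian, ← F.divT, ← F.trG, ← F.df, ← F.hf]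
  congr 1
  funext i
  simp

theorem roughV (X : VA A) : f ∘ c.roughV X = c'.roughV (f ∘ X) := by
  rw [Geo.roughV, Geo.roughV, ← F.cov, ← F.G, ← Matrix.map_mul, ← Matrix.transpose_map, ← F.divT,
    ← F.H, ← map_mulVec']
  funext i
  simp

theorem nabX (X : VA A) (h : MA A) : (c.nabX X h).map f = c'.nabX (f ∘ X) (h.map f) := by
  simp only [Geo.nabX, map_sum', map_smul', F.nab, Function.comp_apply]

theorem gX (h k : MA A) : f ∘ c.gX h k = c'.gX (h.map f) (k.map f) := by
  rw [Geo.gX, map_mulVec', F.H, Geo.gX]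
  congr 1
  funext b
  simp only [Function.comp_apply, F.ipT, F.nab]

theorem crs (h : MA A) : f (c.crs h) = c'.crs (h.map f) := by
  simp only [Geo.crs, map_sum, ← F.H, ← F.nab, ← Matrix.map_mul, ← Matrix.transpose_map,
    Matrix.map_apply]

theorem kX (h : MA A) : f ∘ c.kX h = c'.kX (h.map f) := by
  have e : f ∘ (h *ᵥ (c.H *ᵥ c.divT h)) = h.map f *ᵥ (c'.H *ᵥ c'.divT (h.map f)) := by
    rw [map_mulVec', map_mulVec', F.H, F.divT]
  rw [Geo.kX, map_mulVec', F.H, Geo.kX, ← e]
  congr 1
  funext b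
  simp only [Function.comp_apply, Pi.sub_apply, map_sub, map_sum, ← F.nab, ← F.H, ← Matrix.map_mul,
    ← Matrix.transpose_map, Matrix.map_apply]

theorem low (h : MA A) (a : Fin 4) : (c.low h a).map f = c'.low (h.map f) a := by
  ext l j
  simp only [Geo.low, Matrix.map_apply, Matrix.of_apply, map_mul, map_add, map_sub, F.hf, F.naba]

theorem lowa (h : MA A) (a i j : Fin 4) : f (c.low h a i j) = c'.low (h.map f) a i j :=
  congrFun (congrFun (F.low h a) i) j

theorem cdf (h K : MA A) (a : Fin 4) : (c.cdf h K a).map f = c'.cdf (h.map f) (K.map f) a := by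
  rw [Geo.cdf, Matrix.map_mul, F.low, Geo.cdf]

theorem wl (h K : MA A) : f ∘ c.wl h K = c'.wl (h.map f) (K.map f) := by
  funext l
  simp only [Geo.wl, Function.comp_apply, map_sum, map_mul, F.lowa, Matrix.map_apply]

theorem wv (h K : MA A) : f ∘ c.wv h K = c'.wv (h.map f) (K.map f) := by
  rw [Geo.wv, map_mulVec', F.wl, Geo.wv]

theorem sh (h K : MA A) : Hom (c.sh h K) (c'.sh (h.map f) (K.map f)) f :=
  ⟨F.D, F.hf, by rw [Geo.sh, Geo.sh, map_add', F.G], rfl⟩

theorem dt (h K : MA A) : (c.dt h K).map f = c'.dt (h.map f) (K.map f) := by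
  rw [Geo.dt, map_sub', map_smul', (F.sh h K).ric, (F.sh h K).lie, F.wv, F.hf, Geo.dt]

theorem cu (K h : MA A) : (c.cu K h).map f = c'.cu (K.map f) (h.map f) := by
  ext j k
  simp only [Geo.cu, Matrix.map_apply, Matrix.of_apply, map_mul, map_sum, map_add, F.hf, ← F.rm,
    ← Matrix.transpose_map, ← Matrix.map_mul, Matrix.add_apply]

theorem qq (h K : MA A) : (c.qq h K).map f = c'.qq (h.map f) (K.map f) := by
  rw [Geo.qq, Geo.qq, map_add', map_neg', F.cu, map_sub', F.H]
  congr 1
  ext j k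
  simp only [Matrix.map_apply, Matrix.of_apply, map_mul, map_sum, map_add, map_sub, F.hf, ← F.cdf,
    ← F.nab, ← F.low, ← F.wl, ← Matrix.map_mul, Function.comp_apply]

theorem QQ (h K : MA A) : (c.QQ h K).map f = c'.QQ (h.map f) (K.map f) := by
  simp only [Geo.QQ, map_add', map_neg', map_smul', map_sum', F.qq, F.nab2, F.hf, ← F.H,
    Matrix.sub_apply, map_sub, Matrix.map_apply]

theorem l1 (v : Fin 4 → MA A) : (c.l1 v).map f = c'.l1 fun a => (v a).map f := by
  simp only [Geo.l1, map_add', map_smul', map_sum', Matrix.map_mul, Matrix.transpose_map, F.w, F.wa,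
    F.Ha]

theorem l0 (h : MA A) : (c.l0 h).map f = c'.l0 (h.map f) := by
  simp only [Geo.l0, map_add', map_sub', map_smul', map_sum', Matrix.map_mul, Matrix.transpose_map,
    F.w, F.wa, F.Ha, F.dm, F.rring, F.ric, F.H, map_ofNat]

theorem b0 (k l : Fin 4) : (c.b0 k l).map f = c'.b0 k l := by
  rw [Geo.b0, F.l0, Geo.b0, Matrix.map_single, map_one]

theorem b1 (a k l : Fin 4) : (c.b1 a k l).map f = c'.b1 a k l := by
  rw [Geo.b1, F.l1, Geo.b1]
  congr 1
  funext b
  by_cases e : b = a
  · subst e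
    rw [Pi.single_eq_same, Pi.single_eq_same, Matrix.map_single, map_one]
  · rw [Pi.single_eq_of_ne e, Pi.single_eq_of_ne e, Matrix.map_zero _ (map_zero f)]

theorem ricL (h : MA A) : (c.ricL h).map f = c'.ricL (h.map f) := by
  rw [Geo.ricL, map_smul', map_add', F.lich, F.lie, F.bian, F.hf, Geo.ricL]

theorem n21 (a b : Fin 4) (h : MA A) : (c.n21 a b h).map f = c'.n21 a b (h.map f) := by
  simp only [Geo.n21, map_add', map_sub', map_neg', map_smul', map_sum', Matrix.map_mul,
    Matrix.transpose_map, F.w, F.wa, F.dm, F.nab]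

theorem q1 (h K : MA A) : (c.q1 h K).map f = c'.q1 (h.map f) (K.map f) := by
  simp only [Geo.q1, map_add', map_neg', map_smul', map_sum', F.qq, F.n21, F.hf, ← F.H,
    Matrix.sub_apply, map_sub, Matrix.map_apply]

end Hom

end Geo

end Pool.Agent.Lib.MP_94aef8_gt
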