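import Pool.Agent.Lib.MP_94aef8_gt.B.Cov
import Pool.Agent.Lib.MP_94aef8_gt.B.Map

/-! Change of coordinates: connection, curvature and covariant derivatives. -/

open Matrix

namespace Pool.Agent.Lib.MP_94aef8_gt

namespace Geo

variable {A B : Type} [CommRing A] [CommRing B] {c : Geo A} {c' : Geo B} {π : B →+* A} {J K : MA A}

/-- Pull back of a bilinear form. -/
def pl (π : B →+* A) (J : MA A) (h : MA B) : MA A := Jᵀ * h.map π * J

/-- Pull back of an endomorphism. -/
def pe (π : B →+* A) (J K : MA A) (M : MA B) : MA A := K * M.map π * J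

/-- Pull back of a vector. -/
def pv (π : B →+* A) (K : MA A) (X : VA B) : VA A := K *ᵥ (π ∘ X)

/-- Pull back of a one-form. -/
def pf (π : B →+* A) (J : MA A) (θ : VA B) : VA A := Jᵀ *ᵥ (π ∘ θ)

/-- `π` is a substitution with Jacobian matrix `J`, and `c` is the pull back of `c'`. -/
structure Sub (c : Geo A) (c' : Geo B) (π : B →+* A) (J K : MA A) : Prop where
  ok : c.OK
  ok' : c'.OK
  chain : ∀ a f, c.D a (π f) = ∑ i, π (c'.D i f) * J i a
  symm : ∀ a b i, c.D a (J i b) = c.D b (J i a)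
  inv : K * J = 1
  hf : π c'.hf = c.hf
  G : c.G = pl π J c'.G

theorem pl_add (h k : MA B) : pl π J (h + k) = pl π J h + pl π J k := by
  rw [pl, pl, pl, map_add', Matrix.mul_add, Matrix.add_mul]

theorem pl_sub (h k : MA B) : pl π J (h - k) = pl π J h - pl π J k := by
  rw [pl, pl, pl, map_sub', Matrix.mul_sub, Matrix.sub_mul]

theorem pl_neg (h : MA B) : pl π J (-h) = -pl π J h := by
  rw [pl, pl, map_neg', Matrix.mul_neg, Matrix.neg_mul]

theorem pl_smul (f : B) (h : MA B) : pl π J (f • h) = π f • pl π J h := by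
  rw [pl, pl, map_smul', Matrix.mul_smul, Matrix.smul_mul]

theorem pl_sum {ι : Type} (s : Finset ι) (h : ι → MA B) :
    pl π J (∑ i ∈ s, h i) = ∑ i ∈ s, pl π J (h i) := by
  simp only [pl, map_sum', Matrix.mul_sum, Matrix.sum_mul]

theorem pl_transpose (h : MA B) : pl π J hᵀ = (pl π J h)ᵀ := by
  simp only [pl, Matrix.transpose_mul, Matrix.transpose_transpose, Matrix.transpose_map,
    Matrix.mul_assoc]

namespace Sub

variable (S : Sub c c' π J K)
include S

theorem inv' : J * K = 1 := mul_eq_one_comm.1 S.inv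

/-- Both sides are inverses of `c.G`. -/
theorem H : c.H = K * c'.H.map π * Kᵀ := by
  have h1 : c'.G.map π * c'.H.map π = 1 := by
    rw [← Matrix.map_mul, S.ok'.inv, Matrix.map_one _ (map_zero π) (map_one π)]
  have h2 : c.G * (K * c'.H.map π * Kᵀ) = 1 := by
    have e : Jᵀ * c'.G.map π * J * (K * c'.H.map π * Kᵀ) =
        Jᵀ * (c'.G.map π * (J * K) * c'.H.map π) * Kᵀ := by simp only [Matrix.mul_assoc]
    rw [S.G, pl, e, S.inv', Matrix.mul_one, h1, Matrix.mul_one, ← Matrix.transpose_mul, S.inv,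
      Matrix.transpose_one]
  rw [← Matrix.mul_one c.H, ← h2, ← Matrix.mul_assoc, S.ok.inv', Matrix.one_mul]

theorem contr (i j : Fin 4) : ∑ a, ∑ b, c.H a b * (J i a * J j b) = π (c'.H i j) := by
  have e : J * c.H * Jᵀ = c'.H.map π := by
    have e1 : J * (K * c'.H.map π * Kᵀ) * Jᵀ = J * K * c'.H.map π * (J * K)ᵀ := by
      simp only [Matrix.transpose_mul, Matrix.mul_assoc]
    rw [S.H, e1, S.inv', Matrix.transpose_one, Matrix.one_mul, Matrix.mul_one]
  rw [← Matrix.map_apply (f := π), ← e]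
  simp only [Matrix.mul_apply, Matrix.transpose_apply, Fin.sum_univ_four]
  ring

theorem H_pl (h : MA B) : c.H * pl π J h = pe π J K (c'.H * h) := by
  have e : K * c'.H.map π * Kᵀ * (Jᵀ * h.map π * J) =
      K * (c'.H.map π * (J * K)ᵀ * h.map π) * J := by
    simp only [Matrix.transpose_mul, Matrix.mul_assoc]
  rw [S.H, pl, pe, e, S.inv', Matrix.transpose_one, Matrix.mul_one, Matrix.map_mul]

theorem G_pe (M : MA B) : c.G * pe π J K M = pl π J (c'.G * M) := by
  have e : Jᵀ * c'.G.map π * J * (K * M.map π * J) = Jᵀ * (c'.G.map π * (J * K) * M.map π) * J := by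
    simp only [Matrix.mul_assoc]
  rw [S.G, pl, pe, pl, e, S.inv', Matrix.mul_one, Matrix.map_mul]

theorem pl_mulH (h k : MA B) : pl π J h * c.H * pl π J k = pl π J (h * c'.H * k) := by
  have e : Jᵀ * h.map π * J * (K * (c'.H * k).map π * J) =
      Jᵀ * (h.map π * (J * K) * (c'.H * k).map π) * J := by simp only [Matrix.mul_assoc]
  rw [Matrix.mul_assoc, S.H_pl, pl, pe, pl, e, S.inv', Matrix.mul_one, ← Matrix.map_mul,
    Matrix.mul_assoc h]

theorem H_pf (θ : VA B) : c.H *ᵥ pf π J θ = pv π K (c'.H *ᵥ θ) := by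
  rw [S.H, pf, pv, map_mulVec', mulVec_mulVec, mulVec_mulVec, Matrix.mul_assoc _ Kᵀ,
    ← Matrix.transpose_mul, S.inv', Matrix.transpose_one, Matrix.mul_one]

theorem pl_pv (h : MA B) (X : VA B) : pl π J h *ᵥ pv π K X = pf π J (h *ᵥ X) := by
  rw [pl, pf, pv, map_mulVec', mulVec_mulVec, mulVec_mulVec, Matrix.mul_assoc _ J, S.inv',
    Matrix.mul_one]

theorem pv_pf (X θ : VA B) : pv π K X ⬝ᵥ pf π J θ = π (X ⬝ᵥ θ) := by
  rw [pv, pf, dotProduct_mulVec, vecMul_transpose, mulVec_mulVec, S.inv', one_mulVec, map_dot']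

theorem trace_pe (M : MA B) : (pe π J K M).trace = π M.trace := by
  rw [pe, Matrix.trace_mul_comm, ← Matrix.mul_assoc, S.inv', Matrix.one_mul, map_trace']

theorem dm (a : Fin 4) (M : MA B) : c.dm a (M.map π) = ∑ i, J i a • (c'.dm i M).map π := by
  ext k l
  simp only [dm_apply, Matrix.map_apply, Matrix.sum_apply, Matrix.smul_apply, smul_eq_mul, S.chain]
  exact Finset.sum_congr rfl fun i _ => mul_comm _ _

/-- Port `Sub.lc` of `Lib/MP_40de08_gt/Alg2.lean` (graded repository) and use `w_unique`. -/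
theorem w (a : Fin 4) : J * c.w a = c.dm a J + (∑ i, J i a • (c'.w i).map π) * J := by
  rw [S.ok.w_unique (v := fun a => K * (c.dm a J + (∑ i, J i a • (c'.w i).map π) * J)),
    ← Matrix.mul_assoc, S.inv', Matrix.one_mul]
  · intro a k b
    simp only [Matrix.mul_apply (M := K)]
    refine Finset.sum_congr rfl fun l _ => congrArg _ ?_
    have hs := S.ok'.w_symm
    simp only [Matrix.mul_apply, Matrix.add_apply, Matrix.map_apply, dm_apply, Matrix.smul_apply,
      smul_eq_mul, S.symm a b, Fin.sum_univ_four, hs 1 _ 0, hs 2 _ 0, hs 3 _ 0, hs 2 _ 1, hs 3 _ 1,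
      hs 3 _ 2]
    ring
  · intro a
    have h1 : c.dm a (c'.G.map π) = (∑ i, J i a • (c'.w i).map π)ᵀ * c'.G.map π +
        c'.G.map π * ∑ i, J i a • (c'.w i).map π := by
      simp only [S.dm, S.ok'.compat, Matrix.transpose_sum, Matrix.sum_mul, Matrix.mul_sum,
        ← Finset.sum_add_distrib, map_add', Matrix.map_mul, Matrix.transpose_smul,
        Matrix.smul_mul, Matrix.mul_smul, smul_add, Matrix.transpose_map]
    have h2 : Kᵀ * Jᵀ = 1 := by rw [← Matrix.transpose_mul, S.inv', Matrix.transpose_one]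
    rw [S.G, pl, S.ok.dm_mul, S.ok.dm_mul, h1, dm_transpose]
    generalize ∑ i, J i a • (c'.w i).map π = P
    have e : (K * (c.dm a J + P * J))ᵀ * (Jᵀ * c'.G.map π * J) +
        Jᵀ * c'.G.map π * J * (K * (c.dm a J + P * J)) =
        ((c.dm a J)ᵀ + Jᵀ * Pᵀ) * (Kᵀ * Jᵀ) * c'.G.map π * J +
        Jᵀ * c'.G.map π * (J * K) * (c.dm a J + P * J) := by
      simp only [Matrix.transpose_mul, Matrix.transpose_add]
      noncomm_ring
    rw [e, h2, S.inv']
    noncomm_ring

/-- Port `Sub.rm` of the same file. -/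
theorem rm (a b : Fin 4) : c.rm a b = ∑ i, ∑ j, (J i a * J j b) • pe π J K (c'.rm i j) := by
  obtain ⟨P, hP⟩ : ∃ P : Fin 4 → MA A, ∀ a, P a = ∑ i, J i a • (c'.w i).map π := ⟨_, fun _ => rfl⟩
  have hw : ∀ a, J * c.w a = c.dm a J + P a * J := fun a => by rw [S.w, hP]
  have h1 : ∀ a b, J * (c.dm a (c.w b) + c.w a * c.w b) = c.dm a (c.dm b J) +
      c.dm a (P b) * J + P b * c.dm a J + P a * c.dm b J + P a * P b * J := by
    intro a b
    have e := congrArg (c.dm a) (hw b)
    simp only [S.ok.dm_mul, S.ok.dm_add] at e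
    have e2 : J * (c.dm a (c.w b) + c.w a * c.w b) = (c.dm a J * c.w b + J * c.dm a (c.w b)) +
      (J * c.w a - c.dm a J) * c.w b := by noncomm_ring
    rw [e2, e, hw a, add_sub_cancel_left, Matrix.mul_assoc (P a), hw b]
    noncomm_ring
  have h2 : J * c.rm a b = J * (c.dm a (c.w b) + c.w a * c.w b) -
      J * (c.dm b (c.w a) + c.w b * c.w a) := by
    simp only [Geo.rm]
    noncomm_ring
  have h3 : c.dm a (P b) - c.dm b (P a) + P a * P b - P b * P a =
      ∑ i, ∑ j, (J i a * J j b) • (c'.rm i j).map π := by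
    simp only [hP, S.ok.dm_sum, S.ok.dm_smul, S.dm, S.symm a b, Geo.rm, map_add', map_sub',
      Matrix.map_mul, Matrix.sum_mul, Matrix.mul_sum, Matrix.smul_mul, Matrix.mul_smul]
    simp only [Fin.sum_univ_four]
    module
  have h4 : J * c.rm a b = (∑ i, ∑ j, (J i a * J j b) • (c'.rm i j).map π) * J := by
    rw [h2, h1, h1, ← h3, S.ok.dm_comm a b J]
    noncomm_ring
  rw [← Matrix.one_mul (c.rm a b), ← S.inv, Matrix.mul_assoc, h4]
  simp only [pe, Matrix.sum_mul, Matrix.mul_sum, Matrix.smul_mul, Matrix.mul_smul,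
    Matrix.mul_assoc]

theorem ric : c.ric = pl π J c'.ric := by
  have h1 : ∀ (M : MA B) i k, ∑ a, J i a * pe π J K M a k = (M.map π * J) i k := fun M i k => by
    rw [← Matrix.mul_apply, pe, ← Matrix.mul_assoc, ← Matrix.mul_assoc, S.inv', Matrix.one_mul]
  ext j k
  have h2 : ∑ a, c.rm a j a k = ∑ i, ∑ l, J l j * ∑ a, J i a * pe π J K (c'.rm i l) a k := by
    simp only [S.rm, Matrix.sum_apply, Matrix.smul_apply, smul_eq_mul]
    simp only [Fin.sum_univ_four]
    ring
  rw [ric_eq, h2]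
  simp only [h1, pl, Matrix.mul_apply, Matrix.transpose_apply, Matrix.map_apply, ric_eq, map_sum]
  simp only [Fin.sum_univ_four]
  ring

theorem trG (h : MA B) : c.trG (pl π J h) = π (c'.trG h) := by
  rw [Geo.trG, S.H_pl, S.trace_pe, Geo.trG]

theorem scal : c.scal = π c'.scal := by
  rw [Geo.scal, S.ric, S.trG, Geo.scal]

theorem ipT (h k : MA B) : c.ipT (pl π J h) (pl π J k) = π (c'.ipT h k) := by
  have e : c.H * pl π J h * c.H * pl π J kᵀ = c.H * (pl π J h * c.H * pl π J kᵀ) := by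
    simp only [Matrix.mul_assoc]
  rw [Geo.ipT, ← pl_transpose, e, S.pl_mulH, S.H_pl, S.trace_pe, Geo.ipT]
  simp only [Matrix.mul_assoc]

theorem nab (a : Fin 4) (h : MA B) : c.nab a (pl π J h) = ∑ i, J i a • pl π J (c'.nab i h) := by
  have e1 : c.dm a J = J * c.w a - (∑ i, J i a • (c'.w i).map π) * J :=
    eq_sub_of_add_eq (S.w a).symm
  have e2 : ∑ i, J i a • pl π J (c'.nab i h) = Jᵀ * (∑ i, J i a • (c'.dm i h).map π -
      (∑ i, J i a • (c'.w i).map π)ᵀ * h.map π - h.map π * ∑ i, J i a • (c'.w i).map π) * J := by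
    simp only [pl, Geo.nab, map_sub', Matrix.map_mul, Matrix.transpose_map, Matrix.transpose_sum,
      Matrix.transpose_smul, Matrix.mul_sub, Matrix.sub_mul, Matrix.mul_sum, Matrix.sum_mul,
      Matrix.mul_smul, Matrix.smul_mul, smul_sub, Finset.sum_sub_distrib]
  rw [e2, Geo.nab, pl, S.ok.dm_mul, S.ok.dm_mul, dm_transpose, e1, S.dm, Matrix.transpose_sub,
    Matrix.transpose_mul, Matrix.transpose_mul]
  noncomm_ring

/-- `nab` twice; the derivative of `J j b` is given by `w`. -/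
theorem nab2 (a b : Fin 4) (h : MA B) :
    c.nab2 a b (pl π J h) = ∑ i, ∑ j, (J i a * J j b) • pl π J (c'.nab2 i j h) := by
  have e1 : ∀ j, c.D a (J j b) = ∑ e, J j e * c.w a e b -
      ∑ m, (∑ i, J i a * π (c'.w i j m)) * J m b := fun j => by
    have e : c.D a (J j b) = (J * c.w a - (∑ i, J i a • (c'.w i).map π) * J : MA A) j b :=
      congrFun (congrFun (eq_sub_of_add_eq (S.w a).symm) j) b
    rw [e]
    simp only [Matrix.sub_apply, Matrix.mul_apply, Matrix.sum_apply, Matrix.smul_apply,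
      Matrix.map_apply, smul_eq_mul]
  simp only [Geo.nab2, S.nab, S.ok.nab_sum, S.ok.nab_smul, e1, pl_sub, pl_sum, pl_smul]
  simp only [Fin.sum_univ_four]
  module

theorem sub_contr {M : Type} [AddCommMonoid M] [Module A M] (F : Fin 4 → Fin 4 → M) :
    ∑ a, ∑ b, c.H a b • ∑ i, ∑ j, (J i a * J j b) • F i j = ∑ i, ∑ j, π (c'.H i j) • F i j := by
  simp only [← S.contr, Finset.sum_smul, Finset.smul_sum, smul_smul]
  exact (Finset.sum_congr rfl fun a _ => Finset.sum_comm.trans
    (Finset.sum_congr rfl fun i _ => Finset.sum_comm)).trans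
    (Finset.sum_comm.trans (Finset.sum_congr rfl fun i _ => Finset.sum_comm))

theorem rough (h : MA B) : c.rough (pl π J h) = pl π J (c'.rough h) := by
  simp only [Geo.rough, S.nab2, S.sub_contr, pl_neg, pl_sum, pl_smul]

theorem rring (h : MA B) : c.rring (pl π J h) = pl π J (c'.rring h) := by
  ext i j
  have e0 : ∀ M N : MA B, pe π J K M * pe π J K N = K * ((M * N).map π * J) := fun M N => by
    have e : K * M.map π * J * (K * N.map π * J) = K * M.map π * (J * K) * N.map π * J := by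
      simp only [Matrix.mul_assoc]
    rw [pe, pe, e, S.inv', Matrix.map_mul, Matrix.mul_one]
    simp only [Matrix.mul_assoc]
  have e1 : ∀ (N : MA A) (p : Fin 4), ∑ a, J p a * (K * N) a j = N p j := fun N p => by
    rw [← Matrix.mul_apply, ← Matrix.mul_assoc, S.inv', Matrix.one_mul]
  have e2 : ∀ a, (c.H * pl π J h * c.rm a i) a j =
      ∑ p, ∑ q, J q i * (J p a * (K * ((c'.H * h * c'.rm p q).map π * J)) a j) := fun a => by
    simp only [S.H_pl, S.rm, Matrix.mul_sum, Matrix.mul_smul, e0, Matrix.sum_apply,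
      Matrix.smul_apply, smul_eq_mul]
    exact Finset.sum_congr rfl fun p _ => Finset.sum_congr rfl fun q _ => by ring
  have e3 : c.rring (pl π J h) i j = ∑ p, ∑ q, J q i * ((c'.H * h * c'.rm p q).map π * J) p j := by
    rw [Geo.rring, Matrix.of_apply, Finset.sum_congr rfl fun a _ => e2 a, Finset.sum_comm]
    refine Finset.sum_congr rfl fun p _ => Finset.sum_comm.trans
      (Finset.sum_congr rfl fun q _ => ?_)
    rw [← Finset.mul_sum, e1]
  obtain ⟨N, hN⟩ : ∃ N : Fin 4 → Fin 4 → MA B, ∀ p q, c'.H * h * c'.rm p q = N p q :=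
    ⟨_, fun _ _ => rfl⟩
  rw [e3, pl, Geo.rring]
  simp only [hN]
  simp only [Matrix.mul_apply, Matrix.map_apply, Matrix.of_apply, Matrix.transpose_apply,
    Fin.sum_univ_four, map_add]
  ring

theorem lich (h : MA B) : c.lich (pl π J h) = pl π J (c'.lich h) := by
  simp only [Geo.lich, S.rough, S.rring, S.ric, S.pl_mulH, pl_add, pl_sub, pl_smul, map_ofNat]

theorem ipD (h k : MA B) : c.ipD (pl π J h) (pl π J k) = π (c'.ipD h k) := by
  have e := S.sub_contr fun i j => π (c'.ipT (c'.nab i h) (c'.nab j k))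
  simp only [smul_eq_mul, mul_assoc] at e
  simp only [Geo.ipD, S.nab, ipT_sum_left, ipT_smul_left, map_sum, map_mul]
  simp only [ipT_sum_right, ipT_smul_right, S.ipT, Finset.mul_sum] at e ⊢
  exact e

end Sub

end Geo

end Pool.Agent.Lib.MP_94aef8_gt
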