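import Pool.Agent.Lib.MP_94aef8_gt.B.Gauge
import Pool.Agent.Lib.MP_94aef8_gt.B.Coord
import Pool.Agent.Lib.MP_94aef8_gt.B.Sub
import Pool.Agent.Lib.MP_94aef8_gt.B.Mem2

/-! Linearisation through dual numbers. -/

open Matrix

namespace Pool.Agent.Lib.MP_94aef8_gt

namespace Geo

variable {A : Type} [CommRing A] {c : Geo A} {h : MA A}

/-- The matrix `M + ε N`. -/
def dM (M N : MA A) : MA (DualNumber A) :=
  Matrix.of fun i j => TrivSqZeroExt.inl (M i j) + TrivSqZeroExt.inr (N i j)

/-- The metric `G + ε h`. -/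
def dual (c : Geo A) (h : MA A) : Geo (DualNumber A) :=
  ⟨fun i x => TrivSqZeroExt.inl (c.D i x.fst) + TrivSqZeroExt.inr (c.D i x.snd),
    TrivSqZeroExt.inl c.hf, dM c.G h, dM c.H (-(c.H * h * c.H))⟩

theorem dual_fst (M N : MA A) (i j : Fin 4) : (dM M N i j).fst = M i j := by simp [dM]

theorem dual_snd (M N : MA A) (i j : Fin 4) : (dM M N i j).snd = N i j := by simp [dM]

theorem dual_add (M N M' N' : MA A) : dM M N + dM M' N' = dM (M + M') (N + N') := by
  ext i j <;> simp [dM]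

theorem dual_mul (M N M' N' : MA A) : dM M N * dM M' N' = dM (M * M') (M * N' + N * M') := by
  ext i j
  · simp [Matrix.mul_apply, dM, TrivSqZeroExt.fst_sum]
  · simp [Matrix.mul_apply, dM, TrivSqZeroExt.snd_sum, Finset.sum_add_distrib]

theorem dual_one : dM (1 : MA A) 0 = 1 := by
  ext i j <;> by_cases e : i = j <;> simp [dM, Matrix.one_apply, e]

theorem dual_transpose (M N : MA A) : (dM M N)ᵀ = dM Mᵀ Nᵀ := rfl

theorem dual_eps (M N : MA A) : dM M N = M.map (TrivSqZeroExt.inlHom A A) +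
    (DualNumber.eps : DualNumber A) • N.map (TrivSqZeroExt.inlHom A A) := by
  ext i j <;> simp [dM]

theorem dual_D_fst (i : Fin 4) (x : DualNumber A) : ((c.dual h).D i x).fst = c.D i x.fst := by
  simp [Geo.dual]

theorem dual_D_snd (i : Fin 4) (x : DualNumber A) : ((c.dual h).D i x).snd = c.D i x.snd := by
  simp [Geo.dual]

theorem OK.dual (hc : c.OK) (hs : hᵀ = h) : (c.dual h).OK where
  add i a b := by ext <;> simp [dual_D_fst, dual_D_snd, hc.add]
  mul i a b := by
    ext
    · simp [dual_D_fst, hc.mul]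
    · simp only [dual_D_fst, dual_D_snd, DualNumber.snd_mul, TrivSqZeroExt.snd_add, hc.add, hc.mul]
      ring
  comm i j a := by ext <;> simp [dual_D_fst, dual_D_snd, hc.comm i j]
  hh := by
    change TrivSqZeroExt.inl c.hf + TrivSqZeroExt.inl c.hf = (1 : DualNumber A)
    rw [← TrivSqZeroExt.inl_add, hc.hh, TrivSqZeroExt.inl_one]
  symm := by
    change (dM c.G h)ᵀ = dM c.G h
    rw [dual_transpose, hc.symm, hs]
  inv := by
    change dM c.G h * dM c.H (-(c.H * h * c.H)) = 1
    rw [dual_mul, Matrix.mul_neg, ← Matrix.mul_assoc, ← Matrix.mul_assoc, hc.inv, Matrix.one_mul,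
      neg_add_cancel, dual_one]

theorem dual_hom (hc : c.OK) : Hom c (c.dual 0) (TrivSqZeroExt.inlHom A A) where
  D i a := by ext <;> simp [dual_D_fst, dual_D_snd, hc.zero]
  hf := rfl
  G := by ext i j <;> simp [Geo.dual, dM]
  H := by ext i j <;> simp [Geo.dual, dM]

theorem dual_ricL (hc : c.OK) {f : A} (hf : ∀ i, c.D i f = 0) (h : MA A) :
    c.ricL (f • h) = f • c.ricL h := by
  have h0 : c.df f = 0 := funext hf
  rw [ricL, ricL, hc.lich_const hf, hc.bian_const hf, hc.lie_smul, h0, vecMulVec_zero,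
    zero_vecMulVec, add_zero, add_zero, ← smul_add, smul_comm]

/-- The multiples of `ε`. -/
def dual_I (A : Type) [CommRing A] : AddSubgroup (DualNumber A) :=
  (TrivSqZeroExt.fstHom A A A).toRingHom.toAddMonoidHom.ker

theorem dual_mem (x : DualNumber A) : x ∈ dual_I A ↔ x.fst = 0 := Iff.rfl

theorem dual_md (hc : c.OK) (h : MA A) : Md (c.dual h) (fun _ => ⊤) fun _ => dual_I A :=
  ⟨⟨fun _ => le_rfl, fun _ _ _ _ => trivial, fun _ => trivial⟩, fun _ => le_rfl,
    fun _ i x hx => by rw [dual_mem] at hx ⊢; rw [dual_D_fst, hx, hc.zero],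
    fun _ x _ y hy => by rw [dual_mem] at hy ⊢; rw [TrivSqZeroExt.fst_mul, hy, mul_zero]⟩

theorem dual_bot (hc : c.OK) : Md c (fun _ => ⊤) fun _ => ⊥ :=
  ⟨⟨fun _ => le_rfl, fun _ _ _ _ => trivial, fun _ => trivial⟩, fun _ => le_rfl,
    fun _ i x hx => by rw [AddSubgroup.mem_bot] at hx ⊢; rw [hx, hc.zero],
    fun _ x _ y hy => by rw [AddSubgroup.mem_bot] at hy ⊢; rw [hy, mul_zero]⟩

theorem dual_pr : Pr (fun _ => dual_I A) (fun _ => dual_I A) fun _ => ⊥ := fun _ x hx y hy => by
  rw [dual_mem] at hx hy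
  rw [AddSubgroup.mem_bot]
  ext <;> simp [hx, hy]

theorem dual_zero {M N : MA (DualNumber A)} (hM : MIn (dual_I A) M) (hN : MIn (dual_I A) N) :
    M * N = 0 := by
  ext1 i j
  rw [Matrix.mul_apply]
  exact Finset.sum_eq_zero fun k _ => dual_pr 0 _ (hM i k) _ (hN k j)

/-- Write `c.dual h = (c.dual 0).sh (dM 0 h) K` and use `shi`. The inclusion `inl` is a `Hom` from
`c` to `c.dual 0`, and `dM 0 h = ε • h.map inl` with `D ε = 0` (`lich_const`). With `S k = ⊤`,
`I k = {x | x.fst = 0}`, `II k = ⊥` the lemmas `mem_QQ`, `mem_wv_sub` give `QQ = 0` and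
`wv = bian` (`wv_H`); `lie_sh`. -/
theorem OK.ric_dual (hc : c.OK) (hs : hᵀ = h) : (c.dual h).ric = dM c.ric (c.ricL h) := by
  have h0 : (c.dual 0).OK := hc.dual Matrix.transpose_zero
  have hG : (c.dual 0).G + dM 0 h = dM c.G h := by
    change dM c.G 0 + dM 0 h = _
    rw [dual_add, add_zero, zero_add]
  have e : (c.dual 0).sh (dM 0 h) (c.dual h).H = c.dual h := by
    rw [Geo.sh, hG]
    rfl
  have ks : (dM 0 h)ᵀ = dM 0 h := by rw [dual_transpose, hs, Matrix.transpose_zero]
  have hK : ((c.dual 0).G + dM 0 h) * (c.dual h).H = 1 := by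
    rw [hG]
    exact (hc.dual hs).inv
  have m := dual_md hc 0
  have mm := dual_bot h0
  have gh : ∀ k, GH (c.dual 0) (fun _ => ⊤) k := fun _ => ⟨fun _ _ => trivial, fun _ _ => trivial⟩
  have hk : MIn (dual_I A) (dM 0 h) := fun i j => dual_fst 0 h i j
  have hK' : MIn (dual_I A) ((c.dual h).H - (c.dual 0).H) := fun i j => by
    change (dM c.H _ i j - dM c.H _ i j).fst = 0
    rw [TrivSqZeroExt.fst_sub, dual_fst, dual_fst, sub_self]
  have hQ : (c.dual 0).QQ (dM 0 h) (c.dual h).H = 0 := by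
    ext1 i j
    exact mem_QQ (k := 0) m mm dual_pr (gh _) hk (fun _ _ => trivial) hK' i j
  have hW : (c.dual 0).wv (dM 0 h) (c.dual h).H = (c.dual 0).bian (dM 0 h) := by
    rw [← h0.wv_H ks, ← sub_eq_zero]
    funext i
    exact mem_wv_sub (k := 0) m mm dual_pr (gh _) hk (fun _ _ => trivial) hK' i
  have hb : VIn (dual_I A) ((c.dual 0).bian (dM 0 h)) := m.bian (k := 0) (gh _) hk
  have hv : MIn (dual_I A) ((c.dual 0).cov ((c.dual 0).bian (dM 0 h))) := m.cov (k := 0) (gh _) hb
  have hX : (c.dual 0).nabX ((c.dual 0).bian (dM 0 h)) (dM 0 h) = 0 := by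
    ext1 i j
    exact mem_nabX (k := 0) m m mm dual_pr (gh _) hb hk i j
  have ht : MIn (dual_I A) ((c.dual 0).cov ((c.dual 0).bian (dM 0 h)))ᵀ := fun i j => hv j i
  have h1 := h0.shi ks hK
  rw [Geo.dt, hW, h0.lie_sh ks hK, hX, dual_zero hk hv, dual_zero ht hk, hQ, e,
    add_zero, add_zero, add_zero, add_zero, sub_eq_iff_eq_add, add_assoc, ← smul_add,
    ← Geo.ricL, dual_eps 0, Matrix.map_zero _ (map_zero _), zero_add,
    dual_ricL h0 fun i => by ext <;> simp [dual_D_fst, dual_D_snd, hc.zero, hc.one],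
    ← (dual_hom hc).ricL, ← (dual_hom hc).ric, ← dual_eps] at h1
  exact h1

/-- The map `a ↦ inl a + inr (δ a)` is a `Hom` from `c` to `c.dual (c.G.map δ)`. -/
theorem OK.ric_var (hc : c.OK) {δ : A → A} (ha : ∀ a b, δ (a + b) = δ a + δ b)
    (hm : ∀ a b, δ (a * b) = δ a * b + a * δ b) (hd : ∀ i a, δ (c.D i a) = c.D i (δ a)) :
    c.ric.map δ = c.ricL (c.G.map δ) := by
  have h0 : δ 0 = 0 := by
    have := ha 0 0
    rw [add_zero] at this
    linear_combination -this
  have h1 : δ 1 = 0 := by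
    have := hm 1 1
    simp only [mul_one, one_mul] at this
    linear_combination -this
  have h2 : δ c.hf = 0 := by
    have := ha c.hf c.hf
    rw [hc.hh, h1] at this
    linear_combination (-c.hf) * this - δ c.hf * hc.hh
  let f : A →+* DualNumber A :=
    { toFun := fun a => TrivSqZeroExt.inl a + TrivSqZeroExt.inr (δ a)
      map_one' := by ext <;> simp [h1]
      map_mul' := fun a b => by ext <;> simp [hm, add_comm]
      map_zero' := by ext <;> simp [h0]
      map_add' := fun a b => by ext <;> simp [ha] }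
  have hf : ∀ M : MA A, M.map f = dM M (M.map δ) := fun _ => rfl
  have hs : (c.G.map δ)ᵀ = c.G.map δ := by rw [← Matrix.transpose_map, hc.symm]
  have hH : c.H.map f = (c.dual (c.G.map δ)).H := by
    have e1 : c.H.map f * c.G.map f = 1 := by
      rw [← Matrix.map_mul, hc.inv', Matrix.map_one _ (map_zero f) (map_one f)]
    have e2 : c.G.map f * (c.dual (c.G.map δ)).H = 1 := (hc.dual hs).inv
    rw [← Matrix.mul_one (c.H.map f), ← e2, ← Matrix.mul_assoc, e1, Matrix.one_mul]
  have F : Hom c (c.dual (c.G.map δ)) f :=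
    ⟨fun i a => by ext <;> simp [f, dual_D_fst, dual_D_snd, hd],
      by ext <;> simp [f, Geo.dual, h2], rfl, hH⟩
  have e := F.ric
  rw [hc.ric_dual hs, hf] at e
  ext i j
  rw [← dual_snd c.ric (c.ric.map δ), e, dual_snd]

theorem dual_b_fst (M N : MA A) (i j : Fin 4) : (dM M N i j).fst = M i j := by simp [dM]

theorem dual_b_snd (M N : MA A) (i j : Fin 4) : (dM M N i j).snd = N i j := by simp [dM]

theorem dual_b_mul (M N M' N' : MA A) : dM M N * dM M' N' = dM (M * M') (M * N' + N * M') := by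
  ext i j <;> simp [dM, Matrix.mul_apply, TrivSqZeroExt.fst_sum, TrivSqZeroExt.snd_sum,
    Finset.sum_add_distrib]

theorem dual_b_hom (h : MA A) : Hom (c.dual h) c (TrivSqZeroExt.fstHom A A A : _ →+* A) :=
  ⟨fun i a => by simp [dual], rfl, Matrix.ext (dual_b_fst _ _), Matrix.ext (dual_b_fst _ _)⟩

theorem dual_b_ein (hc : c.OK) {l : A} (hE : c.ric = l • c.G) (X : VA A) :
    c.H *ᵥ (c.ric *ᵥ X) = l • X := by
  rw [hE, smul_mulVec, mulVec_smul, mulVec_mulVec, hc.inv', one_mulVec]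

/-- The flow of a vector field to first order. -/
def dual_b_flow (hc : c.OK) (X : VA A) : A →+* DualNumber A where
  toFun a := TrivSqZeroExt.inl a + TrivSqZeroExt.inr (∑ e, X e * c.D e a)
  map_one' := by ext <;> simp [hc.one]
  map_mul' a b := by
    ext
    · simp
    · simp [hc.mul, Fin.sum_univ_four]
      ring
  map_zero' := by ext <;> simp [hc.zero]
  map_add' a b := by ext <;> simp [hc.add, mul_add, Finset.sum_add_distrib]

theorem dual_b_sub (hc : c.OK) (X : VA A) : Sub (c.dual (c.lie X)) c (dual_b_flow hc X)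
    (dM 1 (Matrix.of fun k i => c.D i (X k))) (dM 1 (-Matrix.of fun k i => c.D i (X k))) where
  ok := hc.dual (lie_symm X)
  ok' := hc
  chain a f := by
    ext
    · simp [dual, dual_b_flow, dM, TrivSqZeroExt.fst_sum, Matrix.one_apply]
    · simp [dual, dual_b_flow, dM, TrivSqZeroExt.snd_sum, Matrix.one_apply, hc.sum, hc.mul,
        Finset.sum_add_distrib, hc.comm a, mul_comm, add_comm]
  symm a b i := by
    have e : ∀ a b, c.D a ((1 : MA A) i b) = 0 := fun a b => congrFun (congrFun (hc.dm_one a) i) b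
    ext <;> simp [dual, dM, e, hc.comm a b]
  inv := by
    rw [dual_b_mul]
    ext i j <;> by_cases e : i = j <;> simp [dM, e, Matrix.one_apply]
  hf := by ext <;> simp [dual, dual_b_flow, hc.half]
  G := by
    have e1 : c.G.map (dual_b_flow hc X) = dM c.G (∑ e, X e • c.dm e c.G) := by
      ext i j <;> simp [dM, dual_b_flow, Matrix.sum_apply]
    have e2 : ∀ M N : MA A, (dM M N)ᵀ = dM Mᵀ Nᵀ := fun _ _ => rfl
    rw [pl, e1, e2, dual_b_mul, dual_b_mul, dual, hc.lie_eq]
    simp only [transpose_one, Matrix.one_mul, Matrix.mul_one]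
    rw [add_comm (c.G * _)]

/-- Apply `bian_ric`, `bian_G` to `c.dual h`: `ric - l • G = ε • (ricL h - l • h)`, and the operator
`bian` of `c.dual h` on `ε • u` is `ε • bian u` (the map `fst` is a `Hom`); then `bian_lie`. -/
theorem OK.bian_lich (hc : c.OK) {l : A} (hl : ∀ i, c.D i l = 0) (hE : c.ric = l • c.G)
    (hs : hᵀ = h) : c.bian (c.lich h) = c.roughV (c.bian h) + l • c.bian h := by
  have hc' := hc.dual hs
  have h1 : ∀ i, (c.dual h).D i (TrivSqZeroExt.inl l) = 0 := fun i => by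
    ext <;> simp [Geo.dual, hl, hc.zero]
  have h2 : ∀ i, (c.dual h).D i DualNumber.eps = 0 := fun i => by
    ext <;> simp [Geo.dual, hc.one, hc.zero]
  have h3 : (c.dual h).ric - (TrivSqZeroExt.inl l : DualNumber A) • (c.dual h).G =
      (DualNumber.eps : DualNumber A) • dM (c.ricL h - l • h) 0 := by
    rw [hc.ric_dual hs, hE]
    ext i j <;> simp [Geo.dual, dM]
  have h4 := congrArg (c.dual h).bian h3
  rw [hc'.bian_sub, hc'.bian_const h1, hc'.bian_const h2, hc'.bian_ric, hc'.bian_G, smul_zero,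
    sub_zero] at h4
  have h5 := (dual_b_hom (c := c) h).bian (dM (c.ricL h - l • h) 0)
  rw [show (dM (c.ricL h - l • h) 0).map (TrivSqZeroExt.fstHom A A A : _ →+* A) = _ from
    Matrix.ext (dual_b_fst _ _), hc.bian_sub, hc.bian_const hl, ricL, hc.bian_const hc.half,
    hc.bian_add, hc.bian_lie, dual_b_ein hc hE, ← ricL] at h5
  funext i
  have h6 := congrArg TrivSqZeroExt.snd (congrFun h4 i)
  have h7 := congrFun h5 i
  generalize (c.dual h).bian (dM (c.ricL h - l • h) 0) = Y at h6 h7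
  have h8 : (Y i).fst = 0 := by simpa using h6.symm
  change (Y i).fst = _ at h7
  simp only [h8, Pi.add_apply, Pi.sub_apply, Pi.neg_apply, Pi.smul_apply, smul_eq_mul] at h7 ⊢
  linear_combination (-2) * h7 -
    (c.bian (c.lich h) i - c.roughV (c.bian h) i + l * c.bian h i) * hc.hh

/-- The map `a ↦ inl a + inr (∑ e, X e * D e a)` is a `Sub` from `c` to `c.dual (lie X)` with
`J = dM 1 (of fun k i => D i (X k))` (`lie_eq`); `Sub.ric`. -/
theorem OK.ricL_lie (hc : c.OK) {l : A} (hl : ∀ i, c.D i l = 0) (hE : c.ric = l • c.G) (X : VA A) :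
    c.ricL (c.lie X) = l • c.lie X := by
  have h1 := (dual_b_sub hc X).ric
  rw [hc.ric_dual (lie_symm X), hE, pl_smul, ← (dual_b_sub hc X).G] at h1
  ext i j
  simpa [dM, Geo.dual, dual_b_flow, hl] using congrArg (fun M => (M i j).snd) h1

theorem OK.lich_lie (hc : c.OK) {l : A} (hl : ∀ i, c.D i l = 0) (hE : c.ric = l • c.G) (X : VA A) :
    c.lich (c.lie X) = c.lie (c.roughV X) + l • c.lie X := by
  have h1 := hc.ricL_lie hl hE X
  have h0 : c.df l = 0 := funext hl
  rw [ricL, hc.bian_lie, dual_b_ein hc hE, hc.lie_add, hc.lie_neg, hc.lie_smul, h0, vecMulVec_zero,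
    zero_vecMulVec, add_zero, add_zero] at h1
  ext i j
  have h2 := congrFun (congrFun h1 i) j
  simp only [Matrix.add_apply, Matrix.neg_apply, Matrix.smul_apply, smul_eq_mul] at h2 ⊢
  linear_combination 2 * h2 -
    (c.lich (c.lie X) i j - c.lie (c.roughV X) i j + l * c.lie X i j) * hc.hh

theorem OK.trG_ricL (hc : c.OK) (h : MA A) :
    c.trG (c.ricL h) = c.dvg (c.bian h) - c.hf * c.lap (c.trG h) := by
  rw [ricL, trG_smul, trG_add, hc.trG_lich, hc.trG_lie]
  linear_combination c.dvg (c.bian h) * hc.hh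

end Geo

end Pool.Agent.Lib.MP_94aef8_gt
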