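import Pool.Agent.Lib.MP_94aef8_gt.B.Koiso

/-! The Bianchi operator and the equation of the gauge field. -/

open Matrix

namespace Pool.Agent.Lib.MP_94aef8_gt

namespace Geo

variable {A : Type} [CommRing A] {c : Geo A}

theorem OK.divT_add (hc : c.OK) (h k : MA A) : c.divT (h + k) = c.divT h + c.divT k := by
  funext j
  simp only [divT, hc.nab_add, Matrix.add_apply, Pi.add_apply, mul_add, Finset.sum_add_distrib]

theorem OK.divT_sub (hc : c.OK) (h k : MA A) : c.divT (h - k) = c.divT h - c.divT k := by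
  funext j
  simp only [divT, hc.nab_sub, Matrix.sub_apply, Pi.sub_apply, mul_sub, Finset.sum_sub_distrib]

theorem OK.divT_smul (hc : c.OK) (f : A) (h : MA A) :
    c.divT (f • h) = f • c.divT h + c.grad f ᵥ* h := by
  funext j
  simp only [divT, hc.nab_smul, grad, df, Matrix.add_apply, Matrix.smul_apply, Pi.add_apply,
    Pi.smul_apply, smul_eq_mul, Matrix.vecMul, Matrix.mulVec, dotProduct, Fin.sum_univ_four,
    hc.symmH 1 0, hc.symmH 2 0, hc.symmH 3 0, hc.symmH 2 1, hc.symmH 3 1, hc.symmH 3 2]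
  ring

theorem OK.divT_G (hc : c.OK) : c.divT c.G = 0 := by
  funext j
  simp [divT, hc.nab_G]

theorem OK.gauge_df_add (hc : c.OK) (f g : A) : c.df (f + g) = c.df f + c.df g :=
  funext fun i => hc.add i f g

theorem OK.gauge_df_sub (hc : c.OK) (f g : A) : c.df (f - g) = c.df f - c.df g :=
  funext fun i => hc.sub i f g

theorem OK.gauge_df_mul (hc : c.OK) (f g : A) : c.df (f * g) = g • c.df f + f • c.df g :=
  funext fun i => (hc.mul i f g).trans (by simp [df, mul_comm])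

theorem OK.gauge_df_four (hc : c.OK) : c.df 4 = 0 := by
  funext i
  change c.D i 4 = 0
  rw [show (4 : A) = 2 + 2 by norm_num, hc.add, hc.two, add_zero]

theorem OK.bian_add (hc : c.OK) (h k : MA A) : c.bian (h + k) = c.bian h + c.bian k := by
  rw [bian, bian, bian, hc.divT_add, trG_add, hc.gauge_df_add, ← Matrix.mulVec_add, smul_add]
  congr 1
  abel

theorem OK.bian_sub (hc : c.OK) (h k : MA A) : c.bian (h - k) = c.bian h - c.bian k := by
  rw [bian, bian, bian, hc.divT_sub, trG_sub, hc.gauge_df_sub, ← Matrix.mulVec_sub, smul_sub]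
  congr 1
  abel

theorem OK.bian_const (hc : c.OK) {f : A} (hf : ∀ i, c.D i f = 0) (h : MA A) :
    c.bian (f • h) = f • c.bian h := by
  have h0 : c.df f = 0 := funext hf
  rw [bian, bian, hc.divT_smul, trG_smul, hc.gauge_df_mul, grad, h0, Matrix.mulVec_zero,
    Matrix.zero_vecMul, add_zero, smul_zero, zero_add, ← Matrix.mulVec_smul, smul_sub,
    smul_comm f c.hf]

theorem OK.bian_G (hc : c.OK) : c.bian c.G = 0 := by
  rw [bian, hc.divT_G, hc.trG_G, hc.gauge_df_four, smul_zero, sub_zero, Matrix.mulVec_zero]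

theorem OK.bian_conf (hc : c.OK) (f : A) : c.bian (f • c.G) = -c.grad f := by
  have h1 : c.grad f ᵥ* c.G = c.df f := by
    rw [grad, ← Matrix.mulVec_transpose, hc.symm, Matrix.mulVec_mulVec, hc.inv, Matrix.one_mulVec]
  rw [bian, hc.divT_smul, trG_smul, hc.gauge_df_mul, hc.divT_G, hc.trG_G, hc.gauge_df_four, h1,
    grad, ← Matrix.mulVec_neg]
  congr 1
  funext i
  simp only [Pi.sub_apply, Pi.add_apply, Pi.smul_apply, Pi.neg_apply, Pi.zero_apply, smul_eq_mul]
  linear_combination (-2 * c.df f i) * hc.hh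

theorem OK.gauge_Q (hc : c.OK) (a b e : Fin 4) :
    (c.dm a (c.rm b e * c.H) + c.w a * (c.rm b e * c.H) + c.rm b e * c.H * (c.w a)ᵀ) +
    (c.dm b (c.rm e a * c.H) + c.w b * (c.rm e a * c.H) + c.rm e a * c.H * (c.w b)ᵀ) +
    (c.dm e (c.rm a b * c.H) + c.w e * (c.rm a b * c.H) + c.rm a b * c.H * (c.w e)ᵀ) = 0 := by
  have h1 := congrArg (· * c.H) (hc.bianchi2 a b e)
  simp only [Matrix.zero_mul] at h1
  rw [← h1]
  simp only [hc.dm_mul, hc.dH]
  noncomm_ring

theorem OK.gauge_divT (hc : c.OK) (h : MA A) (j : Fin 4) : c.divT h j =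
    ∑ a, (c.dm a (c.H * h) + c.w a * (c.H * h) - c.H * h * c.w a) a j := by
  refine Finset.sum_congr rfl fun a _ => ?_
  rw [← Matrix.mul_apply, nab, hc.dm_mul, hc.dH]
  noncomm_ring

/-- The contracted second Bianchi identity. Port `LC.bianchiQ` and `LC.bianchiC` of
`Lib/MP_40de08_gt/Alg.lean` (in the graded repository) to four indices: contract `bianchi2`
multiplied by `H`. -/
theorem OK.bianchiC (hc : c.OK) (a : Fin 4) : c.D a c.scal = 2 * c.divT c.ric a := by
  obtain ⟨Q, hQ⟩ : ∃ Q : Fin 4 → Fin 4 → MA A, ∀ b e, Q b e = c.rm b e * c.H :=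
    ⟨_, fun _ _ => rfl⟩
  have hr : ∀ j k, c.ric j k = c.ric k j := fun j k => congrFun (congrFun hc.ric_symm k) j
  have hP : ∀ b a, (c.H * c.ric) b a = ∑ e, Q e a e b := by
    intro b a
    simp only [hQ, Matrix.mul_apply, hr _ a, ric_eq, Fin.sum_univ_four, hc.symmH b]
    ring
  have hB := fun b e => congrFun (congrFun (hc.gauge_Q a b e) b) e
  simp only [← hQ] at hB
  have q1 : ∀ b e l k, Q b e l k = -Q e b l k := by
    intro b e l k
    rw [hQ, hQ, rm_anti, Matrix.neg_mul, Matrix.neg_apply]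
  have q2 : ∀ b l k, Q b b l k = 0 := by
    intro b l k
    rw [hQ, rm_self, Matrix.zero_mul, Matrix.zero_apply]
  have q3 : ∀ b e l k, Q b e l k = -Q b e k l := by
    intro b e l k
    have := congrFun (congrFun (hc.q_skew b e) k) l
    rwa [← hQ] at this
  have q4 : ∀ b e l, Q b e l l = 0 := fun b e l => hc.cancel (q3 b e l l)
  have hs := hc.w_symm
  have hE : ∑ b, ∑ e, ((c.dm a (Q b e) + c.w a * Q b e + Q b e * (c.w a)ᵀ) +
      (c.dm b (Q e a) + c.w b * Q e a + Q e a * (c.w b)ᵀ) +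
      (c.dm e (Q a b) + c.w e * Q a b + Q a b * (c.w e)ᵀ)) b e = 0 := by
    simp only [hB, Matrix.zero_apply, Finset.sum_const_zero]
  rw [hc.gauge_divT, scal, trG]
  generalize c.H * c.ric = P at hP
  simp only [Matrix.trace, Matrix.diag, Matrix.add_apply, Matrix.sub_apply, dm_apply,
    Matrix.mul_apply, hP]
  clear hB hP hQ
  revert a
  refine fin4 ?_ ?_ ?_ ?_ <;> intro hE <;>
    simp only [Matrix.add_apply, dm_apply, Matrix.mul_apply, Matrix.transpose_apply,
      Fin.sum_univ_four, q1 1 0, q1 2 0, q1 3 0, q1 2 1, q1 3 1, q1 3 2, q2, q3 _ _ 1 0, q3 _ _ 2 0,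
      q3 _ _ 3 0, q3 _ _ 2 1, q3 _ _ 3 1, q3 _ _ 3 2, q4, hc.neg, hc.zero, hc.add, hs 1 _ 0,
      hs 2 _ 0, hs 3 _ 0, hs 2 _ 1, hs 3 _ 1, hs 3 _ 2, neg_neg, neg_zero] at hE ⊢ <;>
    linear_combination hE

theorem OK.bian_ric (hc : c.OK) : c.bian c.ric = 0 := by
  have h : c.divT c.ric - c.hf • c.df (c.trG c.ric) = 0 := by
    funext a
    change c.divT c.ric a - c.hf * c.D a c.scal = 0
    rw [hc.bianchiC]
    linear_combination (-c.divT c.ric a) * hc.hh
  rw [bian, h, Matrix.mulVec_zero]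

theorem OK.gauge_nab (hc : c.OK) (a : Fin 4) (M : MA A) :
    c.H * c.nab a (c.G * M) = c.dm a M + c.w a * M - M * c.w a := by
  have e : c.H * c.nab a (c.G * M) = (c.H * c.G) * (c.dm a M + c.w a * M - M * c.w a) := by
    rw [nab, hc.dm_mul, hc.compat]
    noncomm_ring
  rw [e, hc.inv', Matrix.one_mul]

theorem OK.gauge_flat (hc : c.OK) (θ Y : VA A) : c.ipV (c.H *ᵥ θ) Y = θ ⬝ᵥ Y := by
  rw [ipV, dotProduct_comm, dotProduct_mulVec, ← mulVec_transpose, hc.trH, mulVec_mulVec,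
    hc.inv', one_mulVec, dotProduct_comm]

/-- The commutation formula for vector fields, `∇^j ∇_k X_j - ∇_k div X = Ric(X)_k`. -/
theorem OK.divT_cov (hc : c.OK) (X : VA A) :
    c.divT (c.G * c.cov X) = c.df (c.dvg X) + c.ric *ᵥ X := by
  funext j
  have e : c.divT (c.G * c.cov X) j = ∑ a, (c.H * c.nab a (c.G * c.cov X)) a j := rfl
  rw [e]
  simp only [hc.gauge_nab]
  simp only [Matrix.sub_apply, Matrix.add_apply, dm_apply, Matrix.mul_apply, cov, Matrix.of_apply,
    Pi.add_apply, df, dvg, Matrix.trace, Matrix.diag, ric, Matrix.mulVec, dotProduct,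
    Fin.sum_univ_four, hc.add, hc.mul, hc.comm _ j, hc.w_symm _ _ j]
  ring

theorem OK.bian_lie (hc : c.OK) (X : VA A) :
    c.bian (c.lie X) = -c.roughV X + c.H *ᵥ (c.ric *ᵥ X) := by
  have e : c.hf • c.df (2 * c.dvg X) = c.df (c.dvg X) := by
    funext i
    simp only [df, Pi.smul_apply, smul_eq_mul, hc.mul, hc.two]
    linear_combination c.D i (c.dvg X) * hc.hh
  rw [bian, hc.trG_lie, e, lie, hc.divT_add, hc.divT_cov, roughV, neg_neg, ← Matrix.mulVec_add]
  congr 1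
  abel

theorem OK.roughV_add (hc : c.OK) (X Y : VA A) : c.roughV (X + Y) = c.roughV X + c.roughV Y := by
  rw [roughV, roughV, roughV, hc.cov_add, Matrix.mul_add, Matrix.transpose_add, hc.divT_add,
    Matrix.mulVec_add, neg_add]

theorem OK.ipV_comm (hc : c.OK) (X Y : VA A) : c.ipV X Y = c.ipV Y X := by
  rw [ipV, ipV, dotProduct_mulVec, ← mulVec_transpose, hc.symm, dotProduct_comm]

theorem OK.df_ipV (hc : c.OK) (X Y : VA A) :
    c.df (c.ipV X Y) = (c.G * c.cov X)ᵀ *ᵥ Y + (c.G * c.cov Y)ᵀ *ᵥ X := by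
  funext a
  have e1 : ∀ U V : VA A, ((c.G * c.cov U)ᵀ *ᵥ V) a = c.ipV (fun k => c.cov U k a) V := by
    intro U V
    rw [Matrix.transpose_mul, hc.symm, ← mulVec_mulVec]
    rfl
  have e2 := hc.d_pair a c.G X Y
  rw [hc.nab_G, Matrix.zero_mulVec, dotProduct_zero, add_zero] at e2
  rw [Pi.add_apply, e1, e1, hc.ipV_comm _ X]
  exact e2

/-- Green's formula for vector fields (`dvg_pair`). -/
theorem OK.greenV (hc : c.OK) (X Y : VA A) : c.dvg (c.H *ᵥ ((c.G * c.cov X)ᵀ *ᵥ Y)) =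
    c.ipT (c.G * c.cov X) (c.G * c.cov Y) - c.ipV (c.roughV X) Y := by
  rw [hc.dvg_pair, hc.ipT_transpose, roughV, ← Matrix.mulVec_neg, hc.gauge_flat, neg_dotProduct]
  ring

theorem OK.lap_ipV (hc : c.OK) (X : VA A) : c.lap (c.ipV X X) =
    2 * c.ipT (c.G * c.cov X) (c.G * c.cov X) - 2 * c.ipV (c.roughV X) X := by
  rw [lap, grad, hc.df_ipV, Matrix.mulVec_add, hc.dvg_add, hc.greenV]
  ring

theorem OK.lie_self (hc : c.OK) (X : VA A) : X ⬝ᵥ c.lie X *ᵥ X = X ⬝ᵥ c.df (c.ipV X X) := by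
  have e : X ⬝ᵥ (c.G * c.cov X) *ᵥ X = X ⬝ᵥ (c.G * c.cov X)ᵀ *ᵥ X := by
    rw [mulVec_transpose, dotProduct_mulVec, dotProduct_comm]
  rw [hc.df_ipV, lie, Matrix.add_mulVec, dotProduct_add, dotProduct_add, e]

/-- Apply `bian` to the equation: `roughV W = H (ric W)`; then `lap_ipV`, `lie_self`. -/
theorem OK.gauge (hc : c.OK) {l : A} (hl : ∀ i, c.D i l = 0) {W : VA A}
    (h : c.ric - c.hf • c.lie W + l • c.G = 0) :
    c.lap (c.ipV W W) + W ⬝ᵥ c.df (c.ipV W W) =
      2 * l * c.ipV W W + 2 * c.ipT (c.G * c.cov W) (c.G * c.cov W) := by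
  have h0 : c.bian 0 = 0 := by rw [← sub_self c.G, hc.bian_sub, sub_self]
  have h1 := congrArg c.bian h
  rw [h0, hc.bian_add, hc.bian_sub, hc.bian_const hc.half, hc.bian_const hl, hc.bian_ric,
    hc.bian_G, hc.bian_lie] at h1
  have h2 : c.roughV W = c.H *ᵥ (c.ric *ᵥ W) := by
    funext i
    have := congrFun h1 i
    simp only [Pi.add_apply, Pi.sub_apply, Pi.smul_apply, Pi.neg_apply, Pi.zero_apply,
      smul_eq_mul] at this
    linear_combination 2 * this - (c.roughV W i - (c.H *ᵥ (c.ric *ᵥ W)) i) * hc.hh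
  have h3 : c.ric = c.hf • c.lie W - l • c.G := by
    rw [← sub_eq_zero, ← h]
    abel
  have h4 : c.ipV (c.roughV W) W = c.hf * W ⬝ᵥ c.df (c.ipV W W) - l * c.ipV W W := by
    rw [h2, hc.gauge_flat, dotProduct_comm, h3, Matrix.sub_mulVec, Matrix.smul_mulVec,
      Matrix.smul_mulVec, dotProduct_sub, dotProduct_smul, dotProduct_smul, hc.lie_self]
    rfl
  rw [hc.lap_ipV, h4]
  linear_combination (-(W ⬝ᵥ c.df (c.ipV W W))) * hc.hh

/-- The rough Laplacian of a gradient. -/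
theorem OK.roughV_grad (hc : c.OK) (f : A) :
    c.roughV (c.grad f) = -c.grad (c.lap f) - c.H *ᵥ (c.ric *ᵥ c.grad f) := by
  have e : (c.G * c.cov (c.grad f))ᵀ = c.G * c.cov (c.grad f) := by
    rw [grad, hc.cov_sharp, ← Matrix.mul_assoc, hc.inv, Matrix.one_mul]
    ext j a
    simp only [Matrix.transpose_apply, Matrix.of_apply, df, hc.comm j a, hc.w_symm j _ a]
  rw [roughV, e, hc.divT_cov, Matrix.mulVec_add, neg_add, sub_eq_add_neg]
  rfl

end Geo

end Pool.Agent.Lib.MP_94aef8_gt
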