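import Mathlib

/-!
Tensor calculus over a commutative ring with four derivations: definitions.
-/

open Matrix

namespace Pool.Agent.Lib.MP_94aef8_gt

/-- Matrices of size four. -/
abbrev MA (A : Type) : Type := Matrix (Fin 4) (Fin 4) A

/-- Vectors of size four. -/
abbrev VA (A : Type) : Type := Fin 4 → A

/-- Four operators `D`, an element `hf` (one half), a metric `G` and its inverse `H`. -/
structure Geo (A : Type) where
  D : Fin 4 → A → A
  hf : A
  G : MA A
  H : MA A

namespace Geo

variable {A : Type} [CommRing A] (c : Geo A)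

/-- Entrywise derivative. -/
def dm (a : Fin 4) (M : MA A) : MA A := M.map (c.D a)

/-- Connection matrices, `w a k j = Γ^k_{a j}`. -/
def w (a : Fin 4) : MA A :=
  Matrix.of fun k j => c.hf * ∑ l, c.H k l * (c.D a (c.G j l) + c.D j (c.G a l) - c.D l (c.G a j))

/-- Curvature endomorphisms `R(∂_a, ∂_b)`. -/
def rm (a b : Fin 4) : MA A := c.dm a (c.w b) - c.dm b (c.w a) + c.w a * c.w b - c.w b * c.w a

/-- Ricci tensor. -/
def ric : MA A :=
  Matrix.of fun j k => ∑ i, (c.D i (c.w j i k) - c.D j (c.w i i k) +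
    ∑ m, (c.w i i m * c.w j m k - c.w j i m * c.w i m k))

/-- Trace of a bilinear form. -/
def trG (h : MA A) : A := (c.H * h).trace

/-- Scalar curvature. -/
def scal : A := c.trG c.ric

/-- Scalar product of bilinear forms. -/
def ipT (h k : MA A) : A := (c.H * h * c.H * kᵀ).trace

/-- Covariant derivative `∇_a h` of a bilinear form. -/
def nab (a : Fin 4) (h : MA A) : MA A := c.dm a h - (c.w a)ᵀ * h - h * c.w a

/-- Second covariant derivative `∇²_{a b} h`. -/
def nab2 (a b : Fin 4) (h : MA A) : MA A := c.nab a (c.nab b h) - ∑ e, c.w a e b • c.nab e h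

/-- The rough Laplacian `∇^* ∇ h`. -/
def rough (h : MA A) : MA A := -∑ a, ∑ b, c.H a b • c.nab2 a b h

/-- The action `R° h` of the curvature tensor. -/
def rring (h : MA A) : MA A := Matrix.of fun i j => ∑ a, (c.H * h * c.rm a i) a j

/-- The Lichnerowicz Laplacian. -/
def lich (h : MA A) : MA A :=
  c.rough h - (2 : A) • c.rring h + c.ric * c.H * h + h * c.H * c.ric

/-- Scalar product of `∇ h` and `∇ k`. -/
def ipD (h k : MA A) : A := ∑ a, ∑ b, c.H a b * c.ipT (c.nab a h) (c.nab b k)

/-- Differential of a function. -/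
def df (f : A) : VA A := fun i => c.D i f

/-- Gradient. -/
def grad (f : A) : VA A := c.H *ᵥ c.df f

/-- Covariant derivative of a vector field, `cov X k i = ∇_i X^k`. -/
def cov (X : VA A) : MA A := Matrix.of fun k i => c.D i (X k) + ∑ m, c.w i k m * X m

/-- Divergence of a vector field. -/
def dvg (X : VA A) : A := (c.cov X).trace

/-- Laplacian `div grad`. -/
def lap (f : A) : A := c.dvg (c.grad f)

/-- Scalar product of vector fields. -/
def ipV (X Y : VA A) : A := X ⬝ᵥ c.G *ᵥ Y

/-- Lie derivative of the metric. -/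
def lie (X : VA A) : MA A := c.G * c.cov X + (c.G * c.cov X)ᵀ

/-- The one-form `∇^b h_{b j}`. -/
def divT (h : MA A) : VA A := fun j => ∑ a, ∑ b, c.H a b * c.nab a h b j

/-- The Bianchi operator `div h - d tr h / 2`, as a vector field. -/
def bian (h : MA A) : VA A := c.H *ᵥ (c.divT h - c.hf • c.df (c.trG h))

/-- The rough Laplacian of a vector field. -/
def roughV (X : VA A) : VA A := -(c.H *ᵥ c.divT (c.G * c.cov X)ᵀ)

/-- The derivative `∇_X h`. -/
def nabX (X : VA A) (h : MA A) : MA A := ∑ a, X a • c.nab a h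

/-- The vector field of Green's formula. -/
def gX (h k : MA A) : VA A := c.H *ᵥ fun b => c.ipT (c.nab b h) k

/-- The cross term `∇_a h_{i j} ∇^i h^{a j}`. -/
def crs (h : MA A) : A :=
  ∑ a, ∑ e, (c.H * c.nab a h * c.H * (c.H * c.nab e h)ᵀ) e a

/-- The vector field of Koiso's formula. -/
def kX (h : MA A) : VA A :=
  c.H *ᵥ ((fun b => ∑ e, (c.nab e h * (c.H * h * c.H)ᵀ) b e) - h *ᵥ (c.H *ᵥ c.divT h))

/-- The lowered difference tensor. -/
def low (h : MA A) (a : Fin 4) : MA A :=
  Matrix.of fun l j => c.hf * (c.nab a h j l + c.nab j h a l - c.nab l h a j)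

/-- Difference of the connections of `G + h` (with inverse `K`) and of `G`. -/
def cdf (h K : MA A) (a : Fin 4) : MA A := K * c.low h a

/-- The one-form of DeTurck. -/
def wl (h K : MA A) : VA A := fun l => ∑ a, ∑ b, K a b * c.low h a l b

/-- The vector field of DeTurck. -/
def wv (h K : MA A) : VA A := K *ᵥ c.wl h K

/-- The metric `G + h` with inverse `K`. -/
def sh (h K : MA A) : Geo A := ⟨c.D, c.hf, c.G + h, K⟩

/-- The Ricci tensor of `G + h` in DeTurck's gauge. -/
def dt (h K : MA A) : MA A := (c.sh h K).ric - c.hf • (c.sh h K).lie (c.wv h K)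

/-- The curvature term. -/
def cu (K h : MA A) : MA A :=
  Matrix.of fun j k => c.hf * ∑ i, ∑ l, K i l *
    (((c.rm i j)ᵀ * h + h * c.rm i j) k l + ((c.rm i k)ᵀ * h + h * c.rm i k) j l)

/-- The first order part of the nonlinear term. -/
def qq (h K : MA A) : MA A :=
  -c.cu (K - c.H) h + Matrix.of fun j k =>
    ∑ i, ((K * c.nab j h * c.cdf h K i) i k - (K * c.nab i h * c.cdf h K j) i k) +
    ∑ i, ∑ m, (c.cdf h K i i m * c.cdf h K j m k - c.cdf h K j i m * c.cdf h K i m k) +
    c.hf * ∑ a, ∑ b, ((K * c.nab j h * K) a b * c.low h a k b +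
      (K * c.nab k h * K) a b * c.low h a j b) +
    ∑ m, c.cdf h K j m k * c.wl h K m

/-- The nonlinear term. -/
def QQ (h K : MA A) : MA A := -(c.hf • ∑ a, ∑ b, (K - c.H) a b • c.nab2 a b h) + c.qq h K

/-- The operators are commuting derivations, `G` is symmetric with inverse `H`. -/
structure OK : Prop where
  add : ∀ i a b, c.D i (a + b) = c.D i a + c.D i b
  mul : ∀ i a b, c.D i (a * b) = c.D i a * b + a * c.D i b
  comm : ∀ i j a, c.D i (c.D j a) = c.D j (c.D i a)
  hh : c.hf + c.hf = 1
  symm : c.Gᵀ = c.G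
  inv : c.G * c.H = 1

end Geo

end Pool.Agent.Lib.MP_94aef8_gt
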