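import Pool.Agent.Lib.MP_94aef8_gt.B.Loc
import Pool.Agent.Lib.MP_94aef8_gt.B.Map

/-! The ring of smooth functions on an open set, as a ring of germs. -/

open scoped ContDiff Topology
open Matrix Filter Set

namespace Pool.Agent.Lib.MP_94aef8_gt

open Geo

variable {E : Type} [NormedAddCommGroup E] [NormedSpace ℝ E]

/-- Derivatives respect eventual equality along `l`. -/
def LocF (l : Filter E) : Prop := ∀ (v : E) (f g : E → ℝ), f =ᶠ[l] g → dd v f =ᶠ[l] dd v g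

theorem locF_nhds (p : E) : LocF (𝓝 p) := fun v _ _ e => dd_congr e v

theorem locF_open {U : Set E} (hU : IsOpen U) : LocF (𝓟 U) := fun v _ _ e =>
  eventuallyEq_principal.2 fun _ hp => (dd_congr
    ((eventuallyEq_principal.1 e).eventuallyEq_of_mem (hU.mem_nhds hp)) v).eq_of_nhds

/-- The germ of a function. -/
abbrev cg (l : Filter E) : (E → ℝ) →+* Germ l ℝ := Germ.coeRingHom l

omit [NormedAddCommGroup E] [NormedSpace ℝ E] in
theorem cg_eq {l : Filter E} {f g : E → ℝ} : cg l f = cg l g ↔ f =ᶠ[l] g := Germ.coe_eq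

/-- Derivative of a germ. -/
noncomputable def gD {l : Filter E} (hl : LocF l) (v : E) : Germ l ℝ → Germ l ℝ :=
  Germ.map' (dd v) (hl v)

/-- Smooth functions on `U`, up to equality on `U`. -/
def SU (U : Set E) : Subring (Germ (𝓟 U) ℝ) where
  carrier := {γ | ∃ f : E → ℝ, ContDiffOn ℝ ∞ f U ∧ γ = cg (𝓟 U) f}
  mul_mem' := by
    rintro _ _ ⟨f, hf, rfl⟩ ⟨g, hg, rfl⟩
    exact ⟨f * g, hf.mul hg, rfl⟩
  one_mem' := ⟨1, contDiffOn_const, rfl⟩
  add_mem' := by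
    rintro _ _ ⟨f, hf, rfl⟩ ⟨g, hg, rfl⟩
    exact ⟨f + g, hf.add hg, rfl⟩
  zero_mem' := ⟨0, contDiffOn_const, rfl⟩
  neg_mem' := by
    rintro _ ⟨f, hf, rfl⟩
    exact ⟨-f, hf.neg, rfl⟩

/-- The inclusion. -/
abbrev iu (U : Set E) : SU U →+* Germ (𝓟 U) ℝ := (SU U).subtype

variable {U : Set E}

theorem iu_inj : Function.Injective (iu U) := Subtype.val_injective

/-- Derivative of a smooth function. -/
noncomputable def sD (hU : IsOpen U) (v : E) (a : SU U) : SU U :=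
  ⟨gD (locF_open hU) v a.1, by
    obtain ⟨f, hf, e⟩ := a.2
    exact ⟨dd v f, contDiffOn_dd hU hf v, by rw [e]; rfl⟩⟩

/-- The class of a smooth function. -/
def sgm (f : E → ℝ) (hf : ContDiffOn ℝ ∞ f U) : SU U := ⟨cg (𝓟 U) f, f, hf, rfl⟩

theorem iu_sgm (f : E → ℝ) (hf : ContDiffOn ℝ ∞ f U) : iu U (sgm f hf) = cg (𝓟 U) f := rfl

theorem ex_sgm (a : SU U) : ∃ f hf, a = sgm f hf := by
  obtain ⟨_, f, hf, rfl⟩ := a
  exact ⟨f, hf, rfl⟩

theorem sgm_eq {f g : E → ℝ} {hf : ContDiffOn ℝ ∞ f U} {hg : ContDiffOn ℝ ∞ g U} (e : EqOn f g U) :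
    sgm f hf = sgm g hg := Subtype.ext (cg_eq.2 (eventuallyEq_principal.2 e))

theorem smooth_of_iu {a : SU U} {f : E → ℝ} (e : iu U a = cg (𝓟 U) f) : ContDiffOn ℝ ∞ f U := by
  obtain ⟨g, hg, rfl⟩ := ex_sgm a
  exact hg.congr fun p hp => (eventuallyEq_principal.1 (cg_eq.1 e) hp).symm

theorem sD_add (hU : IsOpen U) (v : E) (a b : SU U) : sD hU v (a + b) = sD hU v a + sD hU v b := by
  obtain ⟨f, hf, rfl⟩ := ex_sgm a
  obtain ⟨g, hg, rfl⟩ := ex_sgm b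
  exact Subtype.ext (cg_eq.2 (eventuallyEq_principal.2 fun p hp =>
    dd_add (diffAt' hU hf hp) (diffAt' hU hg hp) v))

theorem sD_mul (hU : IsOpen U) (v : E) (a b : SU U) :
    sD hU v (a * b) = sD hU v a * b + a * sD hU v b := by
  obtain ⟨f, hf, rfl⟩ := ex_sgm a
  obtain ⟨g, hg, rfl⟩ := ex_sgm b
  exact Subtype.ext (cg_eq.2 (eventuallyEq_principal.2 fun p hp =>
    dd_mul (diffAt' hU hf hp) (diffAt' hU hg hp) v))

theorem sD_comm (hU : IsOpen U) (v w : E) (a : SU U) :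
    sD hU v (sD hU w a) = sD hU w (sD hU v a) := by
  obtain ⟨f, hf, rfl⟩ := ex_sgm a
  exact Subtype.ext (cg_eq.2 (eventuallyEq_principal.2 fun p hp =>
    dd_comm (hf.contDiffAt (hU.mem_nhds hp)) v w))

/-- The structure on germs. -/
noncomputable def gG {l : Filter E} (hl : LocF l) (v : Fin 4 → E) (c : Geo (E → ℝ)) :
    Geo (Germ l ℝ) := ⟨fun i => gD hl (v i), cg l c.hf, c.G.map (cg l), c.H.map (cg l)⟩

theorem hom_gG {l : Filter E} (hl : LocF l) {v : Fin 4 → E} {c : Geo (E → ℝ)}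
    (hD : c.D = fun i => dd (v i)) : Hom c (gG hl v c) (cg l) :=
  ⟨fun i a => by rw [hD]; rfl, rfl, rfl, rfl⟩

/-- The class of a smooth matrix of functions. -/
def gmM (M : MA (E → ℝ)) (hM : ∀ i j, ContDiffOn ℝ ∞ (M i j) U) : MA (SU U) :=
  Matrix.of fun i j => sgm (M i j) (hM i j)

theorem iu_gmM (M : MA (E → ℝ)) (hM : ∀ i j, ContDiffOn ℝ ∞ (M i j) U) :
    (gmM M hM).map (iu U) = M.map (cg (𝓟 U)) := rfl

theorem map_inj {M N : MA (SU U)} (e : M.map (iu U) = N.map (iu U)) : M = N :=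
  Matrix.map_injective iu_inj e

omit [NormedAddCommGroup E] [NormedSpace ℝ E] in
theorem map_cg_eq {l : Filter E} {M N : MA (E → ℝ)} :
    M.map (cg l) = N.map (cg l) ↔ ∀ᶠ p in l, ∀ i j, M i j p = N i j p := by
  simp only [eventually_all]
  exact ⟨fun e i j => cg_eq.1 (congrFun (congrFun e i) j),
    fun e => Matrix.ext fun i j => cg_eq.2 (e i j)⟩

/-- A smooth metric gives a structure on the ring of smooth functions. -/
theorem lift_geo (hU : IsOpen U) (v : Fin 4 → E) (c : Geo (E → ℝ)) (hh : c.hf = fun _ => 1 / 2)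
    (hG : ∀ i j, ContDiffOn ℝ ∞ (c.G i j) U) (hH : ∀ i j, ContDiffOn ℝ ∞ (c.H i j) U)
    (hs : ∀ p ∈ U, ∀ i j, c.G j i p = c.G i j p)
    (hi : ∀ p ∈ U, ∀ i j, (c.G * c.H) i j p = (1 : MA (E → ℝ)) i j p) :
    ∃ s : Geo (SU U), s.OK ∧ (s.D = fun i => sD hU (v i)) ∧
      Hom s (gG (locF_open hU) v c) (iu U) := by
  refine ⟨⟨fun i => sD hU (v i), sgm (fun _ => 1 / 2) contDiffOn_const, gmM _ hG, gmM _ hH⟩,
    ⟨fun i => sD_add hU _, fun i => sD_mul hU _, fun i j => sD_comm hU _ _, ?_, ?_, ?_⟩, rfl,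
    ⟨fun i a => rfl, by rw [gG, hh]; rfl, rfl, rfl⟩⟩
  · exact Subtype.ext (cg_eq.2 (Eventually.of_forall fun _ => add_halves (1 : ℝ)))
  · exact Matrix.ext fun i j => sgm_eq (hf := hG j i) (hg := hG i j) fun p hp => hs p hp i j
  · refine map_inj ?_
    rw [Matrix.map_mul, iu_gmM, iu_gmM, ← Matrix.map_mul, Matrix.map_one _ (map_zero _) (map_one _),
      ← Matrix.map_one (cg (𝓟 U)) (map_zero _) (map_one _)]
    exact map_cg_eq.2 hi

/-- Composition with a smooth map. -/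
noncomputable def pullG {E' : Type} [NormedAddCommGroup E'] [NormedSpace ℝ E'] {V : Set E'}
    {τ : E → E'} (hτ : ContDiffOn ℝ ∞ τ U) (hm : MapsTo τ U V) : SU V →+* SU U where
  toFun a := ⟨a.1.compTendsto τ (tendsto_principal_principal.2 hm), by
    obtain ⟨f, hf, e⟩ := a.2
    exact ⟨f ∘ τ, hf.comp hτ hm, by rw [e]; rfl⟩⟩
  map_one' := rfl
  map_zero' := rfl
  map_mul' := by
    rintro ⟨_, f, hf, rfl⟩ ⟨_, g, hg, rfl⟩
    rfl
  map_add' := by
    rintro ⟨_, f, hf, rfl⟩ ⟨_, g, hg, rfl⟩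
    rfl

theorem iu_pullG {E' : Type} [NormedAddCommGroup E'] [NormedSpace ℝ E'] {V : Set E'}
    {τ : E → E'} (hτ : ContDiffOn ℝ ∞ τ U) (hm : MapsTo τ U V) {a : SU V} {f : E' → ℝ}
    (e : iu V a = cg (𝓟 V) f) : iu U (pullG hτ hm a) = cg (𝓟 U) (f ∘ τ) := by
  change a.1.compTendsto τ (tendsto_principal_principal.2 hm) = _
  rw [show a.1 = cg (𝓟 V) f from e]
  rfl

end Pool.Agent.Lib.MP_94aef8_gt
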