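import Pool.Agent.Lib.MP_94aef8_gt.B.Cov

/-! The Lichnerowicz Laplacian and Green's formula. -/

open Matrix

namespace Pool.Agent.Lib.MP_94aef8_gt

namespace Geo

variable {A : Type} [CommRing A] {c : Geo A}

theorem rring_add (h k : MA A) : c.rring (h + k) = c.rring h + c.rring k := by
  ext i j
  simp only [rring, Matrix.of_apply, Matrix.mul_add, Matrix.add_mul, Matrix.add_apply,
    Finset.sum_add_distrib]

theorem rring_sub (h k : MA A) : c.rring (h - k) = c.rring h - c.rring k := by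
  ext i j
  simp only [rring, Matrix.of_apply, Matrix.mul_sub, Matrix.sub_mul, Matrix.sub_apply,
    Finset.sum_sub_distrib]

theorem rring_smul (f : A) (h : MA A) : c.rring (f • h) = f • c.rring h := by
  ext i j
  simp only [rring, Matrix.of_apply, Matrix.mul_smul, Matrix.smul_mul, Matrix.smul_apply,
    smul_eq_mul, Finset.mul_sum]

theorem OK.rring_G (hc : c.OK) : c.rring c.G = c.ric := by
  ext i j
  simp only [rring, Matrix.of_apply, hc.inv', Matrix.one_mul, ric_eq]

/-- With `u = H * h * H` and `R a i k j = (G * rm a i) k j` one has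
`rring h i j = ∑ a k, u a k * R a i k j`. -/
theorem OK.rring_eq (hc : c.OK) (h : MA A) (i j : Fin 4) :
    c.rring h i j = ∑ a, ∑ k, (c.H * h * c.H) a k * (c.G * c.rm a i) k j := by
  simp only [rring, Matrix.of_apply]
  refine Finset.sum_congr rfl fun a _ => ?_
  have e : c.H * h * c.H * (c.G * c.rm a i) = c.H * h * c.rm a i := by
    rw [Matrix.mul_assoc (c.H * h), ← Matrix.mul_assoc c.H c.G, hc.inv', Matrix.one_mul]
  rw [← e, Matrix.mul_apply]

/-- `rring_eq`, `rm_pair`. -/
theorem OK.rring_transpose (hc : c.OK) (h : MA A) : c.rring hᵀ = (c.rring h)ᵀ := by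
  ext i j
  have e : c.H * hᵀ * c.H = (c.H * h * c.H)ᵀ := by
    rw [Matrix.transpose_mul, Matrix.transpose_mul, hc.trH, Matrix.mul_assoc]
  rw [Matrix.transpose_apply, hc.rring_eq, hc.rring_eq, e, Finset.sum_comm]
  refine Finset.sum_congr rfl fun a _ => Finset.sum_congr rfl fun k _ => ?_
  rw [Matrix.transpose_apply, hc.rm_pair k i a j]

theorem lich_ipT (hc : c.OK) (h k : MA A) :
    c.ipT h k = ∑ i, ∑ j, h i j * (c.H * k * c.H) i j := by
  have e : c.H * kᵀ * c.H = (c.H * k * c.H)ᵀ := by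
    rw [Matrix.transpose_mul, Matrix.transpose_mul, hc.trH, Matrix.mul_assoc]
  rw [ipT, Matrix.mul_assoc, Matrix.mul_assoc, Matrix.trace_mul_comm, Matrix.mul_assoc, e]
  simp only [Matrix.trace, Matrix.diag, Matrix.mul_apply (M := h), Matrix.transpose_apply]

theorem lich_swap (hc : c.OK) (a i b j : Fin 4) :
    (c.G * c.rm a i) b j = (c.G * c.rm i a) j b := by
  have := congrFun (congrFun (hc.rm_skew a i) b) j
  have e : (c.rm a i)ᵀ * c.G = (c.G * c.rm a i)ᵀ := by rw [Matrix.transpose_mul, hc.symm]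
  rw [e, Matrix.add_apply, Matrix.transpose_apply, Matrix.zero_apply] at this
  rw [rm_anti i a, Matrix.mul_neg, Matrix.neg_apply]
  linear_combination this

/-- `rring_eq`; `R a i k j = R i a j k` by `rm_anti` and `rm_skew`. -/
theorem OK.rring_adj (hc : c.OK) (h k : MA A) : c.ipT (c.rring h) k = c.ipT h (c.rring k) := by
  rw [hc.ipT_comm h, lich_ipT hc, lich_ipT hc]
  simp only [hc.rring_eq, Finset.sum_mul]
  generalize c.H * h * c.H = u
  generalize c.H * k * c.H = v
  calc ∑ i, ∑ j, ∑ a, ∑ b, u a b * (c.G * c.rm a i) b j * v i j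
      = ∑ i, ∑ a, ∑ j, ∑ b, u a b * (c.G * c.rm a i) b j * v i j :=
        Finset.sum_congr rfl fun i _ => Finset.sum_comm
    _ = ∑ a, ∑ i, ∑ j, ∑ b, u a b * (c.G * c.rm a i) b j * v i j := Finset.sum_comm
    _ = ∑ a, ∑ i, ∑ b, ∑ j, u a b * (c.G * c.rm a i) b j * v i j :=
        Finset.sum_congr rfl fun a _ => Finset.sum_congr rfl fun i _ => Finset.sum_comm
    _ = ∑ a, ∑ b, ∑ i, ∑ j, u a b * (c.G * c.rm a i) b j * v i j :=
        Finset.sum_congr rfl fun a _ => Finset.sum_comm
    _ = _ := by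
        refine Finset.sum_congr rfl fun a _ => Finset.sum_congr rfl fun b _ =>
          Finset.sum_congr rfl fun i _ => Finset.sum_congr rfl fun j _ => ?_
        rw [lich_swap hc a i b j]
        ring

theorem OK.trG_rring (hc : c.OK) (h : MA A) : c.trG (c.rring h) = c.ipT h c.ric := by
  rw [← hc.ipT_G, hc.rring_adj, hc.rring_G]

theorem OK.rough_add (hc : c.OK) (h k : MA A) : c.rough (h + k) = c.rough h + c.rough k := by
  simp only [rough, hc.nab2_add, smul_add, Finset.sum_add_distrib, neg_add]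

theorem OK.rough_sub (hc : c.OK) (h k : MA A) : c.rough (h - k) = c.rough h - c.rough k := by
  simp only [rough, hc.nab2_sub, smul_sub, Finset.sum_sub_distrib]
  abel

theorem OK.rough_G (hc : c.OK) : c.rough c.G = 0 := by
  simp only [rough, hc.nab2_G, smul_zero, Finset.sum_const_zero, neg_zero]

theorem OK.rough_smul (hc : c.OK) (f : A) (h : MA A) : c.rough (f • h) =
    f • c.rough h - (2 : A) • c.nabX (c.grad f) h - c.lap f • h := by
  have e1 : ∑ a, ∑ b, c.H a b • c.D b f • c.nab a h = c.nabX (c.grad f) h := by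
    simp only [nabX, grad, df, Matrix.mulVec, dotProduct, Finset.sum_smul, smul_smul]
  have e2 : ∑ a, ∑ b, c.H a b • c.D a f • c.nab b h = c.nabX (c.grad f) h := by
    rw [Finset.sum_comm, ← e1]
    exact Finset.sum_congr rfl fun a _ => Finset.sum_congr rfl fun b _ => by rw [hc.symmH b a]
  have e3 : ∑ a, ∑ b, c.H a b • (c.D a (c.D b f) - ∑ e, c.w a e b * c.D e f) • h =
      c.lap f • h := by
    simp only [hc.lap_eq, Finset.sum_smul, smul_smul]
  have e4 : ∑ a, ∑ b, c.H a b • f • c.nab2 a b h = f • ∑ a, ∑ b, c.H a b • c.nab2 a b h := by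
    simp only [Finset.smul_sum, smul_smul, mul_comm]
  simp only [rough, hc.nab2_smul, smul_add, Finset.sum_add_distrib]
  rw [e1, e2, e3, e4, smul_neg, two_smul]
  abel

theorem OK.lich_add (hc : c.OK) (h k : MA A) : c.lich (h + k) = c.lich h + c.lich k := by
  simp only [lich, hc.rough_add, rring_add, smul_add, Matrix.mul_add, Matrix.add_mul]
  abel

theorem OK.lich_sub (hc : c.OK) (h k : MA A) : c.lich (h - k) = c.lich h - c.lich k := by
  simp only [lich, hc.rough_sub, rring_sub, smul_sub, Matrix.mul_sub, Matrix.sub_mul]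
  abel

theorem OK.lich_smul (hc : c.OK) (f : A) (h : MA A) : c.lich (f • h) =
    f • c.lich h - (2 : A) • c.nabX (c.grad f) h - c.lap f • h := by
  simp only [lich, hc.rough_smul, rring_smul, smul_sub, smul_add, Matrix.mul_smul,
    Matrix.smul_mul, smul_comm (2 : A) f]
  abel

theorem OK.lich_const (hc : c.OK) {f : A} (hf : ∀ i, c.D i f = 0) (h : MA A) :
    c.lich (f • h) = f • c.lich h := by
  have e0 : c.df f = 0 := funext hf
  have e1 : c.grad f = 0 := by rw [grad, e0, Matrix.mulVec_zero]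
  have e2 : c.lap f = 0 := by
    simp only [hc.lap_eq, hf, hc.zero, mul_zero, Finset.sum_const_zero, sub_zero]
  rw [hc.lich_smul, e1, e2]
  simp only [nabX, Pi.zero_apply, zero_smul, Finset.sum_const_zero, smul_zero, sub_zero]

theorem OK.lich_G (hc : c.OK) : c.lich c.G = 0 := by
  rw [lich, hc.rough_G, hc.rring_G, Matrix.mul_assoc c.ric, hc.inv', hc.inv, Matrix.mul_one,
    Matrix.one_mul, two_smul]
  abel

theorem OK.lich_transpose (hc : c.OK) (h : MA A) : c.lich hᵀ = (c.lich h)ᵀ := by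
  simp only [lich, rough_transpose, hc.rring_transpose, Matrix.transpose_add, Matrix.transpose_sub,
    Matrix.transpose_smul, Matrix.transpose_mul, hc.trH, hc.ric_symm, Matrix.mul_assoc]
  abel

theorem OK.trG_rough (hc : c.OK) (h : MA A) : c.trG (c.rough h) = -c.lap (c.trG h) := by
  simp only [rough, trG_neg, trG_sum, trG_smul, hc.lap_eq, nab2, trG_sub, hc.d_trG]

theorem OK.trG_lich (hc : c.OK) (h : MA A) : c.trG (c.lich h) = -c.lap (c.trG h) := by
  have e1 : c.trG (h * c.H * c.ric) = c.ipT h c.ric := by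
    rw [trG, ipT, hc.ric_symm]
    simp only [Matrix.mul_assoc]
  have e2 : c.trG (c.ric * c.H * h) = c.ipT h c.ric := by
    rw [trG, ipT, hc.ric_symm, Matrix.mul_assoc c.ric, ← Matrix.mul_assoc c.H c.ric,
      Matrix.trace_mul_comm]
    simp only [Matrix.mul_assoc]
  rw [lich, trG_add, trG_add, trG_sub, trG_smul, hc.trG_rough, hc.trG_rring, e1, e2]
  ring

theorem OK.ipD_comm (hc : c.OK) (h k : MA A) : c.ipD h k = c.ipD k h := by
  rw [ipD, ipD, Finset.sum_comm]
  exact Finset.sum_congr rfl fun a _ => Finset.sum_congr rfl fun b _ => by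
    rw [hc.symmH b a, hc.ipT_comm]

theorem OK.ipD_add_left (hc : c.OK) (h h' k : MA A) :
    c.ipD (h + h') k = c.ipD h k + c.ipD h' k := by
  simp only [ipD, hc.nab_add, ipT_add_left, mul_add, Finset.sum_add_distrib]

theorem OK.ipD_sub_left (hc : c.OK) (h h' k : MA A) :
    c.ipD (h - h') k = c.ipD h k - c.ipD h' k := by
  simp only [ipD, hc.nab_sub, ipT_sub_left, mul_sub, Finset.sum_sub_distrib]

theorem OK.ipD_smul_left (hc : c.OK) (f : A) (h k : MA A) :
    c.ipD (f • h) k = f * c.ipD h k + c.ipT h (c.nabX (c.grad f) k) := by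
  simp only [ipD, hc.nab_smul, ipT_add_left, ipT_smul_left, mul_add, Finset.sum_add_distrib, nabX,
    ipT_sum_right, ipT_smul_right, grad, df, mulVec, dotProduct, Finset.mul_sum, Finset.sum_mul]
  rw [add_comm, Finset.sum_comm (f := fun a b => c.H a b * (c.D a f * c.ipT h (c.nab b k)))]
  refine congrArg₂ (· + ·) ?_ ?_ <;>
    refine Finset.sum_congr rfl fun a _ => Finset.sum_congr rfl fun b _ => ?_
  · ring
  · rw [hc.symmH b a]
    ring

theorem lich_b_nabX (hc : c.OK) (X : VA A) (f : A) (h : MA A) :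
    c.nabX X (f • h) = (X ⬝ᵥ c.df f) • h + f • c.nabX X h := by
  simp only [nabX, hc.nab_smul, smul_add, Finset.sum_add_distrib, dotProduct, df, Finset.sum_smul,
    Finset.smul_sum, smul_smul, mul_comm f]

theorem lich_b_df (hc : c.OK) (X : VA A) (h k : MA A) :
    X ⬝ᵥ c.df (c.ipT h k) = c.ipT (c.nabX X h) k + c.ipT h (c.nabX X k) := by
  simp only [nabX, dotProduct, df, hc.d_ipT, ipT_sum_left, ipT_sum_right, ipT_smul_left,
    ipT_smul_right, mul_add, Finset.sum_add_distrib]

theorem OK.ipD_smul (hc : c.OK) (f : A) (h : MA A) : c.ipD (f • h) (f • h) =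
    f * f * c.ipD h h + f * (c.grad f ⬝ᵥ c.df (c.ipT h h)) +
      (c.grad f ⬝ᵥ c.df f) * c.ipT h h := by
  rw [hc.ipD_smul_left, hc.ipD_comm h, hc.ipD_smul_left, lich_b_nabX hc, lich_b_df hc,
    ipT_add_right, ipT_smul_right, ipT_smul_right, hc.ipT_comm (c.nabX _ h) h]
  ring

theorem OK.df_ipT (hc : c.OK) (X : VA A) (h k : MA A) :
    X ⬝ᵥ c.df (c.ipT h k) = c.ipT (c.nabX X h) k + c.ipT h (c.nabX X k) :=
  lich_b_df hc X h k

/-- `dvg_sharp`, `d_ipT`. -/
theorem OK.green (hc : c.OK) (h k : MA A) :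
    c.dvg (c.gX h k) = c.ipD h k - c.ipT (c.rough h) k := by
  rw [gX, hc.dvg_sharp, hc.ipD_comm, eq_sub_iff_add_eq]
  simp only [ipD, rough, nab2, ipT_neg_left, ipT_sum_left, ipT_smul_left, ipT_sub_left, hc.d_ipT,
    ← sub_eq_add_neg, ← Finset.sum_sub_distrib]
  exact Finset.sum_congr rfl fun a _ => Finset.sum_congr rfl fun b _ => by
    rw [hc.ipT_comm (c.nab a k)]
    ring

theorem OK.lich_adj (hc : c.OK) (h k : MA A) :
    c.ipT (c.lich h) k - c.ipT h (c.lich k) = c.dvg (c.gX k h) - c.dvg (c.gX h k) := by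
  simp only [lich, ipT_add_left, ipT_sub_left, ipT_smul_left, ipT_add_right, ipT_sub_right,
    ipT_smul_right, hc.green]
  rw [hc.rring_adj, hc.ipT_mul_left hc.ric_symm, hc.ipT_mul_right hc.ric_symm, hc.ipD_comm k,
    hc.ipT_comm h (c.rough k)]
  ring

theorem OK.energy (hc : c.OK) {h : MA A} (hs : hᵀ = h) : c.ipT (c.lich h) h =
    c.ipD h h - 2 * c.ipT (c.rring h) h + 2 * c.ipT (c.ric * c.H * h) h - c.dvg (c.gX h h) := by
  have h1 := hc.ipT_transpose (c.ric * c.H * h) h
  rw [transpose_mul, transpose_mul, hs, hc.trH, hc.ric_symm, ← Matrix.mul_assoc] at h1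
  simp only [lich, ipT_add_left, ipT_sub_left, ipT_smul_left, hc.green, h1]
  ring

theorem OK.lap_add (hc : c.OK) (f g : A) : c.lap (f + g) = c.lap f + c.lap g := by
  have h1 : c.df (f + g) = c.df f + c.df g := funext fun i => hc.add i f g
  rw [lap, grad, h1, mulVec_add, hc.dvg_add]
  rfl

theorem OK.lap_mul (hc : c.OK) (f g : A) :
    c.lap (f * g) = f * c.lap g + g * c.lap f + 2 * (c.grad f ⬝ᵥ c.df g) := by
  have h1 : c.df (f * g) = f • c.df g + g • c.df f := funext fun i => by
    simp only [df, hc.mul, Pi.add_apply, Pi.smul_apply, smul_eq_mul]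
    ring
  have h2 : c.grad g ⬝ᵥ c.df f = c.grad f ⬝ᵥ c.df g := by
    rw [grad, grad, dotProduct_comm, dotProduct_mulVec, ← mulVec_transpose, hc.trH]
  rw [lap, grad, h1, mulVec_add, mulVec_smul, mulVec_smul, hc.dvg_add, hc.dvg_smul, hc.dvg_smul,
    ← grad, ← grad, h2, lap, lap]
  ring

theorem OK.lap_ipT (hc : c.OK) (h : MA A) :
    c.lap (c.ipT h h) = 2 * c.ipD h h - 2 * c.ipT (c.rough h) h := by
  have h1 : c.df (c.ipT h h) = (fun b => c.ipT (c.nab b h) h) + fun b => c.ipT (c.nab b h) h :=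
    funext fun i => by rw [df, hc.d_ipT, hc.ipT_comm h, Pi.add_apply]
  rw [lap, grad, h1, mulVec_add, hc.dvg_add, ← gX, hc.green]
  ring

/-- A derivation as a ring map to the dual numbers. -/
def lich_b_dual (hc : c.OK) (k : Fin 4) : A →+* DualNumber A where
  toFun a := TrivSqZeroExt.inl a + TrivSqZeroExt.inr (c.D k a)
  map_one' := by ext <;> simp [hc.one]
  map_mul' a b := by ext <;> simp [hc.mul, add_comm]
  map_zero' := by ext <;> simp [hc.zero]
  map_add' a b := by ext <;> simp [hc.add]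

theorem lich_b_det (hc : c.OK) (k : Fin 4) :
    c.D k c.G.det = (c.H * c.dm k c.G).trace * c.G.det := by
  have h1 : (lich_b_dual hc k).mapMatrix c.G = (algebraMap A (DualNumber A)).mapMatrix c.G *
      (1 + (DualNumber.eps : DualNumber A) •
        (algebraMap A (DualNumber A)).mapMatrix (c.H * c.dm k c.G)) := by
    rw [Matrix.mul_add, Matrix.mul_one, Matrix.mul_smul, ← map_mul, ← Matrix.mul_assoc, hc.inv,
      Matrix.one_mul]
    ext i j <;> simp [lich_b_dual, TrivSqZeroExt.algebraMap_eq_inl]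
  have h2 := (lich_b_dual hc k).map_det c.G
  rw [h1, det_mul, ← RingHom.map_det, det_one_add_smul, DualNumber.eps_pow_two, mul_zero,
    add_zero] at h2
  have h3 := congrArg TrivSqZeroExt.snd h2
  simpa [lich_b_dual, TrivSqZeroExt.algebraMap_eq_inl, trace, TrivSqZeroExt.fst_sum,
    TrivSqZeroExt.snd_sum, mul_comm] using h3

/-- The map `a ↦ inl a + ε * inl (D k a)` to the dual numbers is a ring map; use
`RingHom.map_det` and `Matrix.det_one_add_smul` (or expand a determinant of size four), and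
`compat`. -/
theorem OK.jacobi (hc : c.OK) (k : Fin 4) :
    c.D k c.G.det = 2 * (∑ i, c.w i i k) * c.G.det := by
  have h1 : (c.H * c.dm k c.G).trace = 2 * ∑ i, c.w i i k := by
    rw [hc.compat, Matrix.mul_add, trace_add, trace_mul_comm c.H, Matrix.mul_assoc, hc.inv,
      ← Matrix.mul_assoc, hc.inv', Matrix.mul_one, Matrix.one_mul, trace_transpose, two_mul]
    simp only [trace, diag, hc.w_symm k]
  rw [lich_b_det hc, h1]

theorem OK.rho_dvg (hc : c.OK) {ρ σ : A} (h1 : ρ * ρ = c.G.det) (h2 : ρ * σ = 1) (X : VA A) :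
    ρ * c.dvg X = ∑ i, c.D i (ρ * X i) := by
  have h3 : ∀ k, c.D k ρ = (∑ i, c.w i i k) * ρ := fun k => by
    have h4 := hc.jacobi k
    rw [← h1, hc.mul] at h4
    linear_combination c.hf * σ * h4 - (c.D k ρ - (∑ i, c.w i i k) * ρ) * hc.hh -
      2 * c.hf * (c.D k ρ - (∑ i, c.w i i k) * ρ) * h2
  simp only [dvg, trace, diag, cov, of_apply, hc.mul, h3, Fin.sum_univ_four]
  ring

end Geo

end Pool.Agent.Lib.MP_94aef8_gt
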