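import Pool.Agent.Lib.MP_94aef8_gt.B.Smo
import Pool.Agent.Lib.MP_94aef8_gt.B.Cong
import Pool.Agent.Lib.MP_94aef8_gt.B.Lich

/-! Linearity, product rules and integration by parts identities. -/

open scoped ContDiff Topology
open Matrix Filter Set

namespace Pool.Agent.Lib.MP_94aef8_gt

variable {U : Set E4} {G h h' k : Tn} {X Y : Vn} {f g : Fn} {p : E4}

namespace Good

variable (hG : Good G U) (hp : p ∈ U)
include hG hp

theorem w_compat (a : Fin 4) :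
    pdM a G p = (om G a p)ᵀ * G p + G p * om G a p := by
  obtain ⟨s, ok, Z⟩ := hG.lift
  exact (Z.dm a Z.G').at
    (((Z.w a).tr.mul Z.G').add (Z.G'.mul (Z.w a)))
    (ok.compat a) hp

theorem pdM_inv (a : Fin 4) :
    pdM a (inv G) p = -(om G a p * (G p)⁻¹ + (G p)⁻¹ * (om G a p)ᵀ) := by
  obtain ⟨s, ok, Z⟩ := hG.lift
  exact (Z.dm a Z.H).at
    ((((Z.w a).mul Z.H).add (Z.H.mul (Z.w a).tr)).neg)
    (ok.dH a) hp

theorem ric_symm :
    (ric G p)ᵀ = ric G p := by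
  obtain ⟨s, ok, Z⟩ := hG.lift
  exact (Z.ric.tr).at
    (Z.ric)
    (ok.ric_symm) hp

theorem rm_skew (a b : Fin 4) :
    (rm G a b p)ᵀ * G p + G p * rm G a b p = 0 := by
  obtain ⟨s, ok, Z⟩ := hG.lift
  exact (((Z.rm a b).tr.mul Z.G').add (Z.G'.mul (Z.rm a b))).at
    (RT.zero)
    (ok.rm_skew a b) hp

theorem rm_pair (a b i j : Fin 4) :
    (G p * rm G a b p) i j = (G p * rm G i j p) a b := by
  obtain ⟨s, ok, Z⟩ := hG.lift
  exact ((Z.G'.mul (Z.rm a b)).entry i j).at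
    ((Z.G'.mul (Z.rm i j)).entry a b)
    (ok.rm_pair a b i j) hp

theorem bianchi1 (a b e i : Fin 4) :
    rm G a b p i e + rm G b e p i a + rm G e a p i b = 0 := by
  obtain ⟨s, ok, Z⟩ := hG.lift
  exact ((((Z.rm a b).entry i e).add ((Z.rm b e).entry i a)).add ((Z.rm e a).entry i b)).at
    (R0.zero)
    (ok.bianchi1 a b e i) hp

theorem nab_add (hh : SmT h U) (hk : SmT k U) (a : Fin 4) :
    nab G a (h + k) p = nab G a h p + nab G a k p := by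
  obtain ⟨s, ok, Z⟩ := hG.lift
  obtain ⟨mh, rh⟩ := hh.lift
  obtain ⟨mk, rk⟩ := hk.lift
  exact (Z.nab a (rh.add rk)).at
    ((Z.nab a rh).add (Z.nab a rk))
    (ok.nab_add a mh mk) hp

theorem nab_sub (hh : SmT h U) (hk : SmT k U) (a : Fin 4) :
    nab G a (h - k) p = nab G a h p - nab G a k p := by
  obtain ⟨s, ok, Z⟩ := hG.lift
  obtain ⟨mh, rh⟩ := hh.lift
  obtain ⟨mk, rk⟩ := hk.lift
  exact (Z.nab a (rh.sub rk)).at
    ((Z.nab a rh).sub (Z.nab a rk))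
    (ok.nab_sub a mh mk) hp

theorem nab2_add (hh : SmT h U) (hk : SmT k U) (a b : Fin 4) :
    nab2 G a b (h + k) p = nab2 G a b h p + nab2 G a b k p := by
  obtain ⟨s, ok, Z⟩ := hG.lift
  obtain ⟨mh, rh⟩ := hh.lift
  obtain ⟨mk, rk⟩ := hk.lift
  exact (Z.nab2 a b (rh.add rk)).at
    ((Z.nab2 a b rh).add (Z.nab2 a b rk))
    (ok.nab2_add a b mh mk) hp

theorem nab2_sub (hh : SmT h U) (hk : SmT k U) (a b : Fin 4) :
    nab2 G a b (h - k) p = nab2 G a b h p - nab2 G a b k p := by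
  obtain ⟨s, ok, Z⟩ := hG.lift
  obtain ⟨mh, rh⟩ := hh.lift
  obtain ⟨mk, rk⟩ := hk.lift
  exact (Z.nab2 a b (rh.sub rk)).at
    ((Z.nab2 a b rh).sub (Z.nab2 a b rk))
    (ok.nab2_sub a b mh mk) hp

theorem rough_add (hh : SmT h U) (hk : SmT k U) :
    rough G (h + k) p = rough G h p + rough G k p := by
  obtain ⟨s, ok, Z⟩ := hG.lift
  obtain ⟨mh, rh⟩ := hh.lift
  obtain ⟨mk, rk⟩ := hk.lift
  exact (Z.rough (rh.add rk)).at
    ((Z.rough rh).add (Z.rough rk))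
    (ok.rough_add mh mk) hp

theorem rough_sub (hh : SmT h U) (hk : SmT k U) :
    rough G (h - k) p = rough G h p - rough G k p := by
  obtain ⟨s, ok, Z⟩ := hG.lift
  obtain ⟨mh, rh⟩ := hh.lift
  obtain ⟨mk, rk⟩ := hk.lift
  exact (Z.rough (rh.sub rk)).at
    ((Z.rough rh).sub (Z.rough rk))
    (ok.rough_sub mh mk) hp

theorem lich_add (hh : SmT h U) (hk : SmT k U) :
    lich G (h + k) p = lich G h p + lich G k p := by
  obtain ⟨s, ok, Z⟩ := hG.lift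
  obtain ⟨mh, rh⟩ := hh.lift
  obtain ⟨mk, rk⟩ := hk.lift
  exact (Z.lich (rh.add rk)).at
    ((Z.lich rh).add (Z.lich rk))
    (ok.lich_add mh mk) hp

theorem lich_sub (hh : SmT h U) (hk : SmT k U) :
    lich G (h - k) p = lich G h p - lich G k p := by
  obtain ⟨s, ok, Z⟩ := hG.lift
  obtain ⟨mh, rh⟩ := hh.lift
  obtain ⟨mk, rk⟩ := hk.lift
  exact (Z.lich (rh.sub rk)).at
    ((Z.lich rh).sub (Z.lich rk))
    (ok.lich_sub mh mk) hp

theorem nab_smul (hf : ContDiffOn ℝ ∞ f U) (hh : SmT h U) (a : Fin 4) :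
    nab G a (fun y => f y • h y) p = pd a f p • h p + f p • nab G a h p := by
  obtain ⟨s, ok, Z⟩ := hG.lift
  obtain ⟨mf, rf⟩ := lift0 hf
  obtain ⟨mh, rh⟩ := hh.lift
  exact (Z.nab a (RT.smul rf rh)).at
    ((RT.smul (Z.D rf a) rh).add (RT.smul rf (Z.nab a rh)))
    (ok.nab_smul a mf mh) hp

theorem nab_G (a : Fin 4) :
    nab G a G p = 0 := by
  obtain ⟨s, ok, Z⟩ := hG.lift
  exact (Z.nab a Z.G').at
    (RT.zero)
    (ok.nab_G a) hp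

theorem pd_trG (hh : SmT h U) (a : Fin 4) :
    pd a (trG G h) p = trG G (nab G a h) p := by
  obtain ⟨s, ok, Z⟩ := hG.lift
  obtain ⟨mh, rh⟩ := hh.lift
  exact (Z.D (Z.trG rh) a).at
    (Z.trG (Z.nab a rh))
    (ok.d_trG a mh) hp

theorem pd_ipT (hh : SmT h U) (hk : SmT k U) (a : Fin 4) :
    pd a (ipT G h k) p = ipT G (nab G a h) k p + ipT G h (nab G a k) p := by
  obtain ⟨s, ok, Z⟩ := hG.lift
  obtain ⟨mh, rh⟩ := hh.lift
  obtain ⟨mk, rk⟩ := hk.lift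
  exact (Z.D (Z.ipT rh rk) a).at
    ((Z.ipT (Z.nab a rh) rk).add (Z.ipT rh (Z.nab a rk)))
    (ok.d_ipT a mh mk) hp

theorem ricci_id (hh : SmT h U) (a b : Fin 4) :
    nab2 G a b h p - nab2 G b a h p = -((rm G a b p)ᵀ * h p + h p * rm G a b p) := by
  obtain ⟨s, ok, Z⟩ := hG.lift
  obtain ⟨mh, rh⟩ := hh.lift
  exact ((Z.nab2 a b rh).sub (Z.nab2 b a rh)).at
    ((((Z.rm a b).tr.mul rh).add (rh.mul (Z.rm a b))).neg)
    (ok.ricci_id a b mh) hp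

theorem lap_coord (hf : ContDiffOn ℝ ∞ f U) :
    lap G f p = ∑ a, ∑ b, (G p)⁻¹ a b * (pd a (pd b f) p - ∑ e, om G a p e b * pd e f p) := by
  obtain ⟨s, ok, Z⟩ := hG.lift
  obtain ⟨mf, rf⟩ := lift0 hf
  exact (Z.lap rf).at
    (R0.sum _ fun a => R0.sum _ fun b => (Z.H.entry a b).mul ((Z.D (Z.D rf b) a).sub
      (R0.sum _ fun e => ((Z.w a).entry e b).mul (Z.D rf e))))
    (ok.lap_eq mf) hp

theorem cov_add (hX : SmV X U) (hY : SmV Y U) :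
    cov G (X + Y) p = cov G X p + cov G Y p := by
  obtain ⟨s, ok, Z⟩ := hG.lift
  obtain ⟨mX, rX⟩ := hX.lift
  obtain ⟨mY, rY⟩ := hY.lift
  exact (Z.cov (rX.add rY)).at
    ((Z.cov rX).add (Z.cov rY))
    (ok.cov_add mX mY) hp

theorem dvg_add (hX : SmV X U) (hY : SmV Y U) :
    dvg G (X + Y) p = dvg G X p + dvg G Y p := by
  obtain ⟨s, ok, Z⟩ := hG.lift
  obtain ⟨mX, rX⟩ := hX.lift
  obtain ⟨mY, rY⟩ := hY.lift
  exact (Z.dvg (rX.add rY)).at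
    ((Z.dvg rX).add (Z.dvg rY))
    (ok.dvg_add mX mY) hp

theorem lie_add (hX : SmV X U) (hY : SmV Y U) :
    lie G (X + Y) p = lie G X p + lie G Y p := by
  obtain ⟨s, ok, Z⟩ := hG.lift
  obtain ⟨mX, rX⟩ := hX.lift
  obtain ⟨mY, rY⟩ := hY.lift
  exact (Z.lie (rX.add rY)).at
    ((Z.lie rX).add (Z.lie rY))
    (ok.lie_add mX mY) hp

theorem cov_sub (hX : SmV X U) (hY : SmV Y U) :
    cov G (X - Y) p = cov G X p - cov G Y p := by
  obtain ⟨s, ok, Z⟩ := hG.lift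
  obtain ⟨mX, rX⟩ := hX.lift
  obtain ⟨mY, rY⟩ := hY.lift
  exact (Z.cov (rX.sub rY)).at
    ((Z.cov rX).sub (Z.cov rY))
    (ok.cov_sub mX mY) hp

theorem dvg_sub (hX : SmV X U) (hY : SmV Y U) :
    dvg G (X - Y) p = dvg G X p - dvg G Y p := by
  obtain ⟨s, ok, Z⟩ := hG.lift
  obtain ⟨mX, rX⟩ := hX.lift
  obtain ⟨mY, rY⟩ := hY.lift
  exact (Z.dvg (rX.sub rY)).at
    ((Z.dvg rX).sub (Z.dvg rY))
    (ok.dvg_sub mX mY) hp

theorem lie_sub (hX : SmV X U) (hY : SmV Y U) :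
    lie G (X - Y) p = lie G X p - lie G Y p := by
  obtain ⟨s, ok, Z⟩ := hG.lift
  obtain ⟨mX, rX⟩ := hX.lift
  obtain ⟨mY, rY⟩ := hY.lift
  exact (Z.lie (rX.sub rY)).at
    ((Z.lie rX).sub (Z.lie rY))
    (by rw [sub_eq_add_neg, ok.lie_add, ok.lie_neg, sub_eq_add_neg]) hp

theorem cov_smul (hf : ContDiffOn ℝ ∞ f U) (hX : SmV X U) :
    cov G (fun y => f y • X y) p = f p • cov G X p + vecMulVec (X p) (df f p) := by
  obtain ⟨s, ok, Z⟩ := hG.lift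
  obtain ⟨mf, rf⟩ := lift0 hf
  obtain ⟨mX, rX⟩ := hX.lift
  exact (Z.cov (RV.smul rf rX)).at
    ((RT.smul rf (Z.cov rX)).add (rX.vv (Z.df rf)))
    (ok.cov_smul mf mX) hp

theorem dvg_smul (hf : ContDiffOn ℝ ∞ f U) (hX : SmV X U) :
    dvg G (fun y => f y • X y) p = f p * dvg G X p + X p ⬝ᵥ df f p := by
  obtain ⟨s, ok, Z⟩ := hG.lift
  obtain ⟨mf, rf⟩ := lift0 hf
  obtain ⟨mX, rX⟩ := hX.lift
  exact (Z.dvg (RV.smul rf rX)).at
    ((rf.mul (Z.dvg rX)).add (rX.dot (Z.df rf)))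
    (ok.dvg_smul mf mX) hp

theorem lie_smul (hf : ContDiffOn ℝ ∞ f U) (hX : SmV X U) :
    lie G (fun y => f y • X y) p = f p • lie G X p +
      vecMulVec (G p *ᵥ X p) (df f p) + vecMulVec (df f p) (G p *ᵥ X p) := by
  obtain ⟨s, ok, Z⟩ := hG.lift
  obtain ⟨mf, rf⟩ := lift0 hf
  obtain ⟨mX, rX⟩ := hX.lift
  exact (Z.lie (RV.smul rf rX)).at
    (((RT.smul rf (Z.lie rX)).add ((Z.G'.mulVec rX).vv (Z.df rf))).add ((Z.df rf).vv (Z.G'.mulVec rX)))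
    (ok.lie_smul mf mX) hp

theorem trG_lie (hX : SmV X U) :
    trG G (lie G X) p = 2 * dvg G X p := by
  obtain ⟨s, ok, Z⟩ := hG.lift
  obtain ⟨mX, rX⟩ := hX.lift
  exact (Z.trG (Z.lie rX)).at
    (R0.two.mul (Z.dvg rX))
    (ok.trG_lie mX) hp

theorem rring_G :
    rring G G p = ric G p := by
  obtain ⟨s, ok, Z⟩ := hG.lift
  exact (Z.rring Z.G').at
    (Z.ric)
    (ok.rring_G) hp

theorem rough_smul (hf : ContDiffOn ℝ ∞ f U) (hh : SmT h U) :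
    rough G (fun y => f y • h y) p =
      f p • rough G h p - (2 : ℝ) • nabX G (grad G f) h p - lap G f p • h p := by
  obtain ⟨s, ok, Z⟩ := hG.lift
  obtain ⟨mf, rf⟩ := lift0 hf
  obtain ⟨mh, rh⟩ := hh.lift
  exact (Z.rough (RT.smul rf rh)).at
    (((RT.smul rf (Z.rough rh)).sub (RT.smul R0.two (Z.nabX (Z.grad rf) rh))).sub
      (RT.smul (Z.lap rf) rh))
    (ok.rough_smul mf mh) hp

theorem lich_smul (hf : ContDiffOn ℝ ∞ f U) (hh : SmT h U) :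
    lich G (fun y => f y • h y) p =
      f p • lich G h p - (2 : ℝ) • nabX G (grad G f) h p - lap G f p • h p := by
  obtain ⟨s, ok, Z⟩ := hG.lift
  obtain ⟨mf, rf⟩ := lift0 hf
  obtain ⟨mh, rh⟩ := hh.lift
  exact (Z.lich (RT.smul rf rh)).at
    (((RT.smul rf (Z.lich rh)).sub (RT.smul R0.two (Z.nabX (Z.grad rf) rh))).sub
      (RT.smul (Z.lap rf) rh))
    (ok.lich_smul mf mh) hp

theorem lich_G :
    lich G G p = 0 := by
  obtain ⟨s, ok, Z⟩ := hG.lift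
  exact (Z.lich Z.G').at
    (RT.zero)
    (ok.lich_G) hp

theorem rring_transpose (hh : SmT h U) :
    rring G (fun y => (h y)ᵀ) p = (rring G h p)ᵀ := by
  obtain ⟨s, ok, Z⟩ := hG.lift
  obtain ⟨mh, rh⟩ := hh.lift
  exact (Z.rring rh.tr).at
    ((Z.rring rh).tr)
    (ok.rring_transpose mh) hp

theorem lich_transpose (hh : SmT h U) :
    lich G (fun y => (h y)ᵀ) p = (lich G h p)ᵀ := by
  obtain ⟨s, ok, Z⟩ := hG.lift
  obtain ⟨mh, rh⟩ := hh.lift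
  exact (Z.lich rh.tr).at
    ((Z.lich rh).tr)
    (ok.lich_transpose mh) hp

theorem rring_adj (hh : SmT h U) (hk : SmT k U) :
    ipT G (rring G h) k p = ipT G h (rring G k) p := by
  obtain ⟨s, ok, Z⟩ := hG.lift
  obtain ⟨mh, rh⟩ := hh.lift
  obtain ⟨mk, rk⟩ := hk.lift
  exact (Z.ipT (Z.rring rh) rk).at
    (Z.ipT rh (Z.rring rk))
    (ok.rring_adj mh mk) hp

theorem trG_rring (hh : SmT h U) :
    trG G (rring G h) p = ipT G h (ric G) p := by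
  obtain ⟨s, ok, Z⟩ := hG.lift
  obtain ⟨mh, rh⟩ := hh.lift
  exact (Z.trG (Z.rring rh)).at
    (Z.ipT rh Z.ric)
    (ok.trG_rring mh) hp

theorem trG_rough (hh : SmT h U) :
    trG G (rough G h) p = -lap G (trG G h) p := by
  obtain ⟨s, ok, Z⟩ := hG.lift
  obtain ⟨mh, rh⟩ := hh.lift
  exact (Z.trG (Z.rough rh)).at
    ((Z.lap (Z.trG rh)).neg)
    (ok.trG_rough mh) hp

theorem trG_lich (hh : SmT h U) :
    trG G (lich G h) p = -lap G (trG G h) p := by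
  obtain ⟨s, ok, Z⟩ := hG.lift
  obtain ⟨mh, rh⟩ := hh.lift
  exact (Z.trG (Z.lich rh)).at
    ((Z.lap (Z.trG rh)).neg)
    (ok.trG_lich mh) hp

theorem ipD_comm (hh : SmT h U) (hk : SmT k U) :
    ipD G h k p = ipD G k h p := by
  obtain ⟨s, ok, Z⟩ := hG.lift
  obtain ⟨mh, rh⟩ := hh.lift
  obtain ⟨mk, rk⟩ := hk.lift
  exact (Z.ipD rh rk).at
    (Z.ipD rk rh)
    (ok.ipD_comm mh mk) hp

theorem ipD_add_left (hh : SmT h U) (hh' : SmT h' U) (hk : SmT k U) :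
    ipD G (h + h') k p = ipD G h k p + ipD G h' k p := by
  obtain ⟨s, ok, Z⟩ := hG.lift
  obtain ⟨mh, rh⟩ := hh.lift
  obtain ⟨mj, rj⟩ := hh'.lift
  obtain ⟨mk, rk⟩ := hk.lift
  exact (Z.ipD (rh.add rj) rk).at
    ((Z.ipD rh rk).add (Z.ipD rj rk))
    (ok.ipD_add_left mh mj mk) hp

theorem ipD_sub_left (hh : SmT h U) (hh' : SmT h' U) (hk : SmT k U) :
    ipD G (h - h') k p = ipD G h k p - ipD G h' k p := by
  obtain ⟨s, ok, Z⟩ := hG.lift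
  obtain ⟨mh, rh⟩ := hh.lift
  obtain ⟨mj, rj⟩ := hh'.lift
  obtain ⟨mk, rk⟩ := hk.lift
  exact (Z.ipD (rh.sub rj) rk).at
    ((Z.ipD rh rk).sub (Z.ipD rj rk))
    (ok.ipD_sub_left mh mj mk) hp

theorem ipD_smul_left (hf : ContDiffOn ℝ ∞ f U) (hh : SmT h U) (hk : SmT k U) :
    ipD G (fun y => f y • h y) k p =
      f p * ipD G h k p + ipT G h (nabX G (grad G f) k) p := by
  obtain ⟨s, ok, Z⟩ := hG.lift
  obtain ⟨mf, rf⟩ := lift0 hf
  obtain ⟨mh, rh⟩ := hh.lift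
  obtain ⟨mk, rk⟩ := hk.lift
  exact (Z.ipD (RT.smul rf rh) rk).at
    ((rf.mul (Z.ipD rh rk)).add (Z.ipT rh (Z.nabX (Z.grad rf) rk)))
    (ok.ipD_smul_left mf mh mk) hp

theorem ipD_smul (hf : ContDiffOn ℝ ∞ f U) (hh : SmT h U) :
    ipD G (fun y => f y • h y) (fun y => f y • h y) p = f p * f p * ipD G h h p +
      f p * (grad G f p ⬝ᵥ df (ipT G h h) p) + (grad G f p ⬝ᵥ df f p) * ipT G h h p := by
  obtain ⟨s, ok, Z⟩ := hG.lift
  obtain ⟨mf, rf⟩ := lift0 hf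
  obtain ⟨mh, rh⟩ := hh.lift
  exact (Z.ipD (RT.smul rf rh) (RT.smul rf rh)).at
    ((((rf.mul rf).mul (Z.ipD rh rh)).add (rf.mul ((Z.grad rf).dot (Z.df (Z.ipT rh rh))))).add
      (((Z.grad rf).dot (Z.df rf)).mul (Z.ipT rh rh)))
    (ok.ipD_smul mf mh) hp

theorem df_ipT (hX : SmV X U) (hh : SmT h U) (hk : SmT k U) :
    X p ⬝ᵥ df (ipT G h k) p = ipT G (nabX G X h) k p + ipT G h (nabX G X k) p := by
  obtain ⟨s, ok, Z⟩ := hG.lift
  obtain ⟨mX, rX⟩ := hX.lift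
  obtain ⟨mh, rh⟩ := hh.lift
  obtain ⟨mk, rk⟩ := hk.lift
  exact (rX.dot (Z.df (Z.ipT rh rk))).at
    ((Z.ipT (Z.nabX rX rh) rk).add (Z.ipT rh (Z.nabX rX rk)))
    (ok.df_ipT mX mh mk) hp

theorem green (hh : SmT h U) (hk : SmT k U) :
    dvg G (gX G h k) p = ipD G h k p - ipT G (rough G h) k p := by
  obtain ⟨s, ok, Z⟩ := hG.lift
  obtain ⟨mh, rh⟩ := hh.lift
  obtain ⟨mk, rk⟩ := hk.lift
  exact (Z.dvg (Z.gX rh rk)).at
    ((Z.ipD rh rk).sub (Z.ipT (Z.rough rh) rk))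
    (ok.green mh mk) hp

theorem lich_adj (hh : SmT h U) (hk : SmT k U) :
    ipT G (lich G h) k p - ipT G h (lich G k) p = dvg G (gX G k h) p - dvg G (gX G h k) p := by
  obtain ⟨s, ok, Z⟩ := hG.lift
  obtain ⟨mh, rh⟩ := hh.lift
  obtain ⟨mk, rk⟩ := hk.lift
  exact ((Z.ipT (Z.lich rh) rk).sub (Z.ipT rh (Z.lich rk))).at
    ((Z.dvg (Z.gX rk rh)).sub (Z.dvg (Z.gX rh rk)))
    (ok.lich_adj mh mk) hp

theorem energy (hh : SymT h U) :
    ipT G (lich G h) h p = ipD G h h p - 2 * ipT G (rring G h) h p +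
      2 * ipM (G p) (ric G p * (G p)⁻¹ * h p) (h p) - dvg G (gX G h h) p := by
  obtain ⟨s, ok, Z⟩ := hG.lift
  obtain ⟨mh, rh, eh⟩ := hh.lift
  exact (Z.ipT (Z.lich rh) rh).at
    ((((Z.ipD rh rh).sub (R0.two.mul (Z.ipT (Z.rring rh) rh))).add
      (R0.two.mul (Z.ipT ((Z.ric.mul Z.H).mul rh) rh))).sub (Z.dvg (Z.gX rh rh)))
    (ok.energy eh) hp

theorem lap_add (hf : ContDiffOn ℝ ∞ f U) (hg : ContDiffOn ℝ ∞ g U) :
    lap G (fun y => f y + g y) p = lap G f p + lap G g p := by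
  obtain ⟨s, ok, Z⟩ := hG.lift
  obtain ⟨mf, rf⟩ := lift0 hf
  obtain ⟨mg, rg⟩ := lift0 hg
  exact (Z.lap (rf.add rg)).at
    ((Z.lap rf).add (Z.lap rg))
    (ok.lap_add mf mg) hp

theorem lap_mul (hf : ContDiffOn ℝ ∞ f U) (hg : ContDiffOn ℝ ∞ g U) :
    lap G (fun y => f y * g y) p =
      f p * lap G g p + g p * lap G f p + 2 * (grad G f p ⬝ᵥ df g p) := by
  obtain ⟨s, ok, Z⟩ := hG.lift
  obtain ⟨mf, rf⟩ := lift0 hf
  obtain ⟨mg, rg⟩ := lift0 hg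
  exact (Z.lap (rf.mul rg)).at
    (((rf.mul (Z.lap rg)).add (rg.mul (Z.lap rf))).add (R0.two.mul ((Z.grad rf).dot (Z.df rg))))
    (ok.lap_mul mf mg) hp

theorem lap_ipT (hh : SmT h U) :
    lap G (ipT G h h) p = 2 * ipD G h h p - 2 * ipT G (rough G h) h p := by
  obtain ⟨s, ok, Z⟩ := hG.lift
  obtain ⟨mh, rh⟩ := hh.lift
  exact (Z.lap (Z.ipT rh rh)).at
    ((R0.two.mul (Z.ipD rh rh)).sub (R0.two.mul (Z.ipT (Z.rough rh) rh)))
    (ok.lap_ipT mh) hp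

theorem rho_dvg (hX : SmV X U) :
    rho G p * dvg G X p = ∑ i, pd i (fun y => rho G y * X y i) p := by
  obtain ⟨s, ok, Z⟩ := hG.lift
  obtain ⟨mX, rX⟩ := hX.lift
  obtain ⟨_, r1⟩ := lift0 hG.smooth_rho
  obtain ⟨_, r2⟩ := lift0 (hG.smooth_rho.inv fun q hq => (hG.rho_pos hq).ne')
  exact (r1.mul (Z.dvg rX)).at
    (R0.sum _ fun i => Z.D (r1.mul (rX.entry i)) i)
    (ok.rho_dvg ((r1.mul r1).ext Z.G'.det fun q hq => Real.mul_self_sqrt (hG.det_pos hq).le)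
      ((r1.mul r2).ext R0.one fun q hq => mul_inv_cancel₀ (hG.rho_pos hq).ne') mX) hp

theorem pd_det (a : Fin 4) :
    pd a (fun y => (G y).det) p = 2 * (∑ i, om G i p i a) * (G p).det := by
  obtain ⟨s, ok, Z⟩ := hG.lift
  exact (Z.D Z.G'.det a).at
    ((R0.two.mul (R0.sum _ fun i => (Z.w i).entry i a)).mul Z.G'.det)
    (ok.jacobi a) hp

end Good

end Pool.Agent.Lib.MP_94aef8_gt
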