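import Pool.Agent.Lib.MP_94aef8_gt.B.Smo
import Pool.Agent.Lib.MP_94aef8_gt.B.Cong
import Pool.Agent.Lib.MP_94aef8_gt.B.Dual

/-! The formulas of Koiso and Shi, the Bianchi operator, coordinate forms. -/

open scoped ContDiff Topology
open Matrix Filter Set

namespace Pool.Agent.Lib.MP_94aef8_gt

variable {U : Set E4} {G h h' k : Tn} {X Y : Vn} {f g : Fn} {p : E4}

namespace Good

variable (hG : Good G U) (hp : p ∈ U)
include hG hp

theorem koiso (hh : SymT h U) :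
    crs G h p = divT G h p ⬝ᵥ (G p)⁻¹ *ᵥ divT G h p + ipT G (rring G h) h p -
      ipM (G p) (ric G p * (G p)⁻¹ * h p) (h p) + dvg G (kX G h) p := by
  obtain ⟨s, ok, Z⟩ := hG.lift
  obtain ⟨mh, rh, eh⟩ := hh.lift
  exact (Z.crs rh).at
    (((((Z.divT rh).dot (Z.H.mulVec (Z.divT rh))).add (Z.ipT (Z.rring rh) rh)).sub
      (Z.ipT ((Z.ric.mul Z.H).mul rh) rh)).add (Z.dvg (Z.kX rh)))
    (ok.koiso eh) hp

theorem dvg_pair (hh : SmT h U) (hX : SmV X U) :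
    dvg G (fun y => (G y)⁻¹ *ᵥ (h y *ᵥ X y)) p =
      divT G h p ⬝ᵥ X p + ipM (G p) (h p) (G p * cov G X p)ᵀ := by
  obtain ⟨s, ok, Z⟩ := hG.lift
  obtain ⟨mh, rh⟩ := hh.lift
  obtain ⟨mX, rX⟩ := hX.lift
  exact (Z.dvg (Z.H.mulVec (rh.mulVec rX))).at
    (((Z.divT rh).dot rX).add (Z.ipT rh (Z.G'.mul (Z.cov rX)).tr))
    (ok.dvg_pair mh mX) hp

theorem adj_lie (hh : SymT h U) (hX : SmV X U) :
    dvg G (fun y => (G y)⁻¹ *ᵥ (h y *ᵥ X y)) p =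
      divT G h p ⬝ᵥ X p + 1 / 2 * ipT G h (lie G X) p := by
  obtain ⟨s, ok, Z⟩ := hG.lift
  obtain ⟨mh, rh, eh⟩ := hh.lift
  obtain ⟨mX, rX⟩ := hX.lift
  exact (Z.dvg (Z.H.mulVec (rh.mulVec rX))).at
    (((Z.divT rh).dot rX).add (Z.hf.mul (Z.ipT rh (Z.lie rX))))
    (ok.adj_lie eh mX) hp

theorem divT_add (hh : SmT h U) (hk : SmT k U) :
    divT G (h + k) p = divT G h p + divT G k p := by
  obtain ⟨s, ok, Z⟩ := hG.lift
  obtain ⟨mh, rh⟩ := hh.lift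
  obtain ⟨mk, rk⟩ := hk.lift
  exact (Z.divT (rh.add rk)).at
    ((Z.divT rh).add (Z.divT rk))
    (ok.divT_add mh mk) hp

theorem divT_sub (hh : SmT h U) (hk : SmT k U) :
    divT G (h - k) p = divT G h p - divT G k p := by
  obtain ⟨s, ok, Z⟩ := hG.lift
  obtain ⟨mh, rh⟩ := hh.lift
  obtain ⟨mk, rk⟩ := hk.lift
  exact (Z.divT (rh.sub rk)).at
    ((Z.divT rh).sub (Z.divT rk))
    (ok.divT_sub mh mk) hp

theorem bian_add (hh : SmT h U) (hk : SmT k U) :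
    bian G (h + k) p = bian G h p + bian G k p := by
  obtain ⟨s, ok, Z⟩ := hG.lift
  obtain ⟨mh, rh⟩ := hh.lift
  obtain ⟨mk, rk⟩ := hk.lift
  exact (Z.bian (rh.add rk)).at
    ((Z.bian rh).add (Z.bian rk))
    (ok.bian_add mh mk) hp

theorem bian_sub (hh : SmT h U) (hk : SmT k U) :
    bian G (h - k) p = bian G h p - bian G k p := by
  obtain ⟨s, ok, Z⟩ := hG.lift
  obtain ⟨mh, rh⟩ := hh.lift
  obtain ⟨mk, rk⟩ := hk.lift
  exact (Z.bian (rh.sub rk)).at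
    ((Z.bian rh).sub (Z.bian rk))
    (ok.bian_sub mh mk) hp

theorem divT_smul (hf : ContDiffOn ℝ ∞ f U) (hh : SmT h U) :
    divT G (fun y => f y • h y) p = f p • divT G h p + grad G f p ᵥ* h p := by
  obtain ⟨s, ok, Z⟩ := hG.lift
  obtain ⟨mf, rf⟩ := lift0 hf
  obtain ⟨mh, rh⟩ := hh.lift
  exact (Z.divT (RT.smul rf rh)).at
    ((RV.smul rf (Z.divT rh)).add ((Z.grad rf).vecMul rh))
    (ok.divT_smul mf mh) hp

theorem divT_G :
    divT G G p = 0 := by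
  obtain ⟨s, ok, Z⟩ := hG.lift
  exact (Z.divT Z.G').at
    (RV.zero)
    (ok.divT_G) hp

theorem bian_G :
    bian G G p = 0 := by
  obtain ⟨s, ok, Z⟩ := hG.lift
  exact (Z.bian Z.G').at
    (RV.zero)
    (ok.bian_G) hp

theorem bian_conf (hf : ContDiffOn ℝ ∞ f U) :
    bian G (fun y => f y • G y) p = -grad G f p := by
  obtain ⟨s, ok, Z⟩ := hG.lift
  obtain ⟨mf, rf⟩ := lift0 hf
  exact (Z.bian (RT.smul rf Z.G')).at
    ((Z.grad rf).neg)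
    (ok.bian_conf mf) hp

theorem bianchiC (a : Fin 4) :
    pd a (scal G) p = 2 * divT G (ric G) p a := by
  obtain ⟨s, ok, Z⟩ := hG.lift
  exact (Z.D Z.scal a).at
    (R0.two.mul ((Z.divT Z.ric).entry a))
    (ok.bianchiC a) hp

theorem bian_ric :
    bian G (ric G) p = 0 := by
  obtain ⟨s, ok, Z⟩ := hG.lift
  exact (Z.bian Z.ric).at
    (RV.zero)
    (ok.bian_ric) hp

theorem divT_cov (hX : SmV X U) :
    divT G (fun y => G y * cov G X y) p = df (dvg G X) p + ric G p *ᵥ X p := by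
  obtain ⟨s, ok, Z⟩ := hG.lift
  obtain ⟨mX, rX⟩ := hX.lift
  exact (Z.divT (Z.G'.mul (Z.cov rX))).at
    ((Z.df (Z.dvg rX)).add (Z.ric.mulVec rX))
    (ok.divT_cov mX) hp

theorem bian_lie (hX : SmV X U) :
    bian G (lie G X) p = -roughV G X p + (G p)⁻¹ *ᵥ (ric G p *ᵥ X p) := by
  obtain ⟨s, ok, Z⟩ := hG.lift
  obtain ⟨mX, rX⟩ := hX.lift
  exact (Z.bian (Z.lie rX)).at
    ((Z.roughV rX).neg.add (Z.H.mulVec (Z.ric.mulVec rX)))
    (ok.bian_lie mX) hp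

theorem roughV_add (hX : SmV X U) (hY : SmV Y U) :
    roughV G (X + Y) p = roughV G X p + roughV G Y p := by
  obtain ⟨s, ok, Z⟩ := hG.lift
  obtain ⟨mX, rX⟩ := hX.lift
  obtain ⟨mY, rY⟩ := hY.lift
  exact (Z.roughV (rX.add rY)).at
    ((Z.roughV rX).add (Z.roughV rY))
    (ok.roughV_add mX mY) hp

theorem df_ipV (hX : SmV X U) (hY : SmV Y U) :
    df (ipV G X Y) p = (G p * cov G X p)ᵀ *ᵥ Y p + (G p * cov G Y p)ᵀ *ᵥ X p := by
  obtain ⟨s, ok, Z⟩ := hG.lift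
  obtain ⟨mX, rX⟩ := hX.lift
  obtain ⟨mY, rY⟩ := hY.lift
  exact (Z.df (Z.ipV rX rY)).at
    (((Z.G'.mul (Z.cov rX)).tr.mulVec rY).add ((Z.G'.mul (Z.cov rY)).tr.mulVec rX))
    (ok.df_ipV mX mY) hp

theorem greenV (hX : SmV X U) (hY : SmV Y U) :
    dvg G (fun y => (G y)⁻¹ *ᵥ ((G y * cov G X y)ᵀ *ᵥ Y y)) p =
      ipM (G p) (G p * cov G X p) (G p * cov G Y p) - ipV G (roughV G X) Y p := by
  obtain ⟨s, ok, Z⟩ := hG.lift
  obtain ⟨mX, rX⟩ := hX.lift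
  obtain ⟨mY, rY⟩ := hY.lift
  exact (Z.dvg (Z.H.mulVec ((Z.G'.mul (Z.cov rX)).tr.mulVec rY))).at
    ((Z.ipT (Z.G'.mul (Z.cov rX)) (Z.G'.mul (Z.cov rY))).sub (Z.ipV (Z.roughV rX) rY))
    (ok.greenV mX mY) hp

theorem lap_ipV (hX : SmV X U) :
    lap G (ipV G X X) p =
      2 * ipM (G p) (G p * cov G X p) (G p * cov G X p) - 2 * ipV G (roughV G X) X p := by
  obtain ⟨s, ok, Z⟩ := hG.lift
  obtain ⟨mX, rX⟩ := hX.lift
  exact (Z.lap (Z.ipV rX rX)).at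
    ((R0.two.mul (Z.ipT (Z.G'.mul (Z.cov rX)) (Z.G'.mul (Z.cov rX)))).sub
      (R0.two.mul (Z.ipV (Z.roughV rX) rX)))
    (ok.lap_ipV mX) hp

theorem lie_self (hX : SmV X U) :
    X p ⬝ᵥ lie G X p *ᵥ X p = X p ⬝ᵥ df (ipV G X X) p := by
  obtain ⟨s, ok, Z⟩ := hG.lift
  obtain ⟨mX, rX⟩ := hX.lift
  exact (rX.dot ((Z.lie rX).mulVec rX)).at
    (rX.dot (Z.df (Z.ipV rX rX)))
    (ok.lie_self mX) hp

theorem gauge (hX : SmV X U) (c : ℝ) 
    (he : ∀ y ∈ U, ric G y - (1 / 2 : ℝ) • lie G X y + c • G y = 0) :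
    lap G (ipV G X X) p + X p ⬝ᵥ df (ipV G X X) p =
      2 * c * ipV G X X p + 2 * ipM (G p) (G p * cov G X p) (G p * cov G X p) := by
  obtain ⟨s, ok, Z⟩ := hG.lift
  obtain ⟨mX, rX⟩ := hX.lift
  obtain ⟨mc, rc, dc⟩ := Z.const c
  exact ((Z.lap (Z.ipV rX rX)).add (rX.dot (Z.df (Z.ipV rX rX)))).at
    (((R0.two.mul rc).mul (Z.ipV rX rX)).add
      (R0.two.mul (Z.ipT (Z.G'.mul (Z.cov rX)) (Z.G'.mul (Z.cov rX)))))
    (ok.gauge dc (((Z.ric.sub (RT.smul Z.hf (Z.lie rX))).add (RT.smul rc Z.G')).ext RT.zero he)) hp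

theorem roughV_grad (hf : ContDiffOn ℝ ∞ f U) :
    roughV G (grad G f) p = -grad G (lap G f) p - (G p)⁻¹ *ᵥ (ric G p *ᵥ grad G f p) := by
  obtain ⟨s, ok, Z⟩ := hG.lift
  obtain ⟨mf, rf⟩ := lift0 hf
  exact (Z.roughV (Z.grad rf)).at
    ((Z.grad (Z.lap rf)).neg.sub (Z.H.mulVec (Z.ric.mulVec (Z.grad rf))))
    (ok.roughV_grad mf) hp

theorem lie_coord (hX : SmV X U) :
    lie G X p = ∑ e, X p e • pdM e G p + (Matrix.of fun k i => pd i (fun y => X y k) p)ᵀ * G p +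
      G p * Matrix.of fun k i => pd i (fun y => X y k) p := by
  obtain ⟨s, ok, Z⟩ := hG.lift
  obtain ⟨mX, rX⟩ := hX.lift
  have r1 : RT (iu U) (Matrix.of fun k i => s.D i (mX k))
      fun p => Matrix.of fun k i => pd i (fun y => X y k) p := RT.of fun k i => Z.D (rX.entry k) i
  exact (Z.lie rX).at
    (((RT.sum _ fun e => RT.smul (rX.entry e) (Z.dm e Z.G')).add (r1.tr.mul Z.G')).add (Z.G'.mul r1))
    (ok.lie_eq mX) hp

theorem shi (hG' : Good (G + h) U) :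
    dt G h p = ric G p + (1 / 2 : ℝ) • lich G h p + QQ G h p := by
  obtain ⟨s, mh, K, ok, Z, rh, rK, eh, eK⟩ := hG.lift2 hG'
  exact (Z.dt rh rK).at
    ((Z.ric.add (RT.smul Z.hf (Z.lich rh))).add (Z.QQ rh rK))
    (ok.shi eh eK) hp

theorem QQ_symm (hG' : Good (G + h) U) :
    (QQ G h p)ᵀ = QQ G h p := by
  obtain ⟨s, mh, K, ok, Z, rh, rK, eh, eK⟩ := hG.lift2 hG'
  exact ((Z.QQ rh rK).tr).at
    (Z.QQ rh rK)
    (ok.QQ_symm eh eK) hp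

theorem wv_eq (hG' : Good (G + h) U) (i : Fin 4) :
    wv G h p i = ∑ a, ∑ b, (G p + h p)⁻¹ a b * (om (G + h) a p i b - om G a p i b) := by
  obtain ⟨s, mh, K, ok, Z, rh, rK, eh, eK⟩ := hG.lift2 hG'
  exact ((Z.wv rh rK).entry i).at
    (R0.sum _ fun a => R0.sum _ fun b => (rK.entry a b).mul
      ((((Z.sh rh rK).w a).entry i b).sub ((Z.w a).entry i b)))
    (ok.wv_eq eh eK i) hp

theorem lie_sh (hG' : Good (G + h) U) (hX : SmV X U) :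
    lie (G + h) X p = lie G X p + nabX G X h p + h p * cov G X p + (cov G X p)ᵀ * h p := by
  obtain ⟨s, mh, K, ok, Z, rh, rK, eh, eK⟩ := hG.lift2 hG'
  obtain ⟨mX, rX⟩ := hX.lift
  exact ((Z.sh rh rK).lie rX).at
    ((((Z.lie rX).add (Z.nabX rX rh)).add (rh.mul (Z.cov rX))).add ((Z.cov rX).tr.mul rh))
    (ok.lie_sh eh eK mX) hp

theorem lich_coord (hh : SmT h U) (i j : Fin 4) :
    lich G h p i j = -(∑ a, ∑ b, (G p)⁻¹ a b * pd a (pd b fun y => h y i j) p) +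
      ∑ a, ∑ k, ∑ l, b1 G a k l p i j * pd a (fun y => h y k l) p + ∑ k, ∑ l, b0 G k l p i j * h p k l := by
  obtain ⟨s, ok, Z⟩ := hG.lift
  obtain ⟨mh, rh⟩ := hh.lift
  exact ((Z.lich rh).entry i j).at
    (((R0.sum _ fun a => R0.sum _ fun b => (Z.H.entry a b).mul (Z.D (Z.D (rh.entry i j) b) a)).neg.add
      (R0.sum _ fun a => R0.sum _ fun k => R0.sum _ fun l =>
        ((Z.b1 a k l).entry i j).mul (Z.D (rh.entry k l) a))).add
      (R0.sum _ fun k => R0.sum _ fun l => ((Z.b0 k l).entry i j).mul (rh.entry k l)))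
    (ok.lich_coord mh i j) hp

theorem QQ_coord (hG' : Good (G + h) U) :
    QQ G h p = -((1 / 2 : ℝ) • ∑ a, ∑ b, ((G p + h p)⁻¹ - (G p)⁻¹) a b • pdM a (pdM b h) p) +
      q1 G h p := by
  obtain ⟨s, mh, K, ok, Z, rh, rK, eh, eK⟩ := hG.lift2 hG'
  exact (Z.QQ rh rK).at
    ((RT.smul Z.hf (RT.sum _ fun a => RT.sum _ fun b =>
      RT.smul ((rK.sub Z.H).entry a b) (Z.dm a (Z.dm b rh)))).neg.add (Z.q1 rh rK))
    (ok.QQ_coord mh K) hp

theorem bian_lich (hh : SymT h U) (c : ℝ) 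
    (hE : ∀ y ∈ U, ric G y = c • G y) :
    bian G (lich G h) p = roughV G (bian G h) p + c • bian G h p := by
  obtain ⟨s, ok, Z⟩ := hG.lift
  obtain ⟨mh, rh, eh⟩ := hh.lift
  obtain ⟨mc, rc, dc⟩ := Z.const c
  exact (Z.bian (Z.lich rh)).at
    ((Z.roughV (Z.bian rh)).add (RV.smul rc (Z.bian rh)))
    (ok.bian_lich dc (Z.ric.ext (RT.smul rc Z.G') hE) eh) hp

theorem ricL_lie (hX : SmV X U) (c : ℝ) 
    (hE : ∀ y ∈ U, ric G y = c • G y) :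
    ricL G (lie G X) p = c • lie G X p := by
  obtain ⟨s, ok, Z⟩ := hG.lift
  obtain ⟨mX, rX⟩ := hX.lift
  obtain ⟨mc, rc, dc⟩ := Z.const c
  exact (Z.ricL (Z.lie rX)).at
    (RT.smul rc (Z.lie rX))
    (ok.ricL_lie dc (Z.ric.ext (RT.smul rc Z.G') hE) mX) hp

theorem lich_lie (hX : SmV X U) (c : ℝ) 
    (hE : ∀ y ∈ U, ric G y = c • G y) :
    lich G (lie G X) p = lie G (roughV G X) p + c • lie G X p := by
  obtain ⟨s, ok, Z⟩ := hG.lift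
  obtain ⟨mX, rX⟩ := hX.lift
  obtain ⟨mc, rc, dc⟩ := Z.const c
  exact (Z.lich (Z.lie rX)).at
    ((Z.lie (Z.roughV rX)).add (RT.smul rc (Z.lie rX)))
    (ok.lich_lie dc (Z.ric.ext (RT.smul rc Z.G') hE) mX) hp

theorem trG_ricL (hh : SmT h U) :
    trG G (ricL G h) p = dvg G (bian G h) p - 1 / 2 * lap G (trG G h) p := by
  obtain ⟨s, ok, Z⟩ := hG.lift
  obtain ⟨mh, rh⟩ := hh.lift
  exact (Z.trG (Z.ricL rh)).at
    ((Z.dvg (Z.bian rh)).sub (Z.hf.mul (Z.lap (Z.trG rh))))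
    (ok.trG_ricL mh) hp

end Good

end Pool.Agent.Lib.MP_94aef8_gt
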