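import Pool.Agent.Lib.MP_94aef8_gt.C.Lin

/-! Pointwise inequalities for tensors of rank three. -/

open Matrix

namespace Pool.Agent.Lib.MP_94aef8_gt

variable {G : Mat}

/-- The squared norm of the rank three tensor `N a i j`. -/
noncomputable def ip3 (G : Mat) (N : Fin 4 → Mat) : ℝ := ∑ a, ∑ b, G⁻¹ a b * ipM G (N a) (N b)

theorem ineq_b_dot (A B : Mat) (x y : Fin 4 → ℝ) :
    (A *ᵥ x) ⬝ᵥ (B *ᵥ y) = x ⬝ᵥ (Aᵀ * B) *ᵥ y := by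
  rw [← mulVec_mulVec, dotProduct_mulVec x, vecMul_transpose]

theorem ineq_b_ipM {B : Mat} (e : G⁻¹ = Bᵀ * B) (h k : Mat) :
    ipM G h k = ∑ i, ∑ j, (B * h * Bᵀ) i j * (B * k * Bᵀ) i j := by
  have h1 : ipM G h k = (B * h * Bᵀ * (B * k * Bᵀ)ᵀ).trace := by
    rw [ipM, e]
    simp only [transpose_mul, transpose_transpose, Matrix.mul_assoc]
    rw [trace_mul_comm Bᵀ]
    simp only [Matrix.mul_assoc]
  rw [h1]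
  generalize B * h * Bᵀ = M
  generalize B * k * Bᵀ = M'
  simp only [trace, diag_apply, mul_apply, transpose_apply]

theorem ineq_b_sum (G : Mat) (Y : Fin 4 → ℝ) (N : Fin 4 → Mat) (h : Mat) :
    ipM G (∑ a, Y a • N a) h = ∑ a, Y a * ipM G (N a) h := by
  simp only [Fin.sum_univ_four, lin_ipM_add_left, lin_ipM_smul_left]

theorem ineq_a_ip3 {B : Mat} (e : G⁻¹ = Bᵀ * B) (N : Fin 4 → Mat) :
    (∑ a, ∑ b, G⁻¹ a b * ipM G (N a) (N b)) =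
      ∑ a, ∑ b, ∑ c, (∑ i, B a i * (B * N i * Bᵀ) b c) ^ 2 := by
  simp only [ineq_b_ipM e]
  obtain ⟨M, hM⟩ : ∃ M : Fin 4 → Mat, ∀ a, B * N a * Bᵀ = M a := ⟨_, fun _ => rfl⟩
  simp only [hM]
  simp only [e, mul_apply, transpose_apply, Fin.sum_univ_four]
  ring

/-- Orthonormal frame: `G⁻¹ = Bᵀ * B` (`lin_sqrt` for `hG.inv`), and
`T α β γ = ∑ a, B α a * (B * N a * Bᵀ) β γ`. -/
theorem ip3_frame (hG : G.PosDef) (N : Fin 4 → Mat) : ∃ T : Fin 4 → Fin 4 → Fin 4 → ℝ,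
    ip3 G N = ∑ a, ∑ b, ∑ c, T a b c ^ 2 ∧
    ∑ a, ∑ e, (G⁻¹ * N a * G⁻¹ * (G⁻¹ * N e)ᵀ) e a = ∑ a, ∑ b, ∑ c, T a b c * T b a c := by
  obtain ⟨B, -, e⟩ := lin_sqrt hG.inv
  refine ⟨fun a b c => ∑ i, B a i * (B * N i * Bᵀ) b c, ineq_a_ip3 e N, ?_⟩
  have h1 : ∀ a d, G⁻¹ * N a * G⁻¹ * (G⁻¹ * N d)ᵀ =
      Bᵀ * ((B * N a * Bᵀ) * (B * N d * Bᵀ)ᵀ) * B := fun a d => by
    simp only [e, transpose_mul, transpose_transpose, Matrix.mul_assoc]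
  obtain ⟨M, hM⟩ : ∃ M : Fin 4 → Mat, ∀ a, B * N a * Bᵀ = M a := ⟨_, fun _ => rfl⟩
  simp only [h1, hM]
  simp only [mul_apply, transpose_apply, Fin.sum_univ_four]
  ring

theorem ip3_nonneg (hG : G.PosDef) (N : Fin 4 → Mat) : 0 ≤ ip3 G N := by
  obtain ⟨T, h, -⟩ := ip3_frame hG N
  rw [h]
  positivity

/-- `2 x y ≤ x ^ 2 + y ^ 2` and `Finset.sum_comm`. -/
theorem crs_le_ip3 (hG : G.PosDef) (N : Fin 4 → Mat) :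
    ∑ a, ∑ e, (G⁻¹ * N a * G⁻¹ * (G⁻¹ * N e)ᵀ) e a ≤ ip3 G N := by
  obtain ⟨T, h1, h2⟩ := ip3_frame hG N
  have h3 : ∑ a, ∑ b, ∑ c, T b a c ^ 2 = ∑ a, ∑ b, ∑ c, T a b c ^ 2 := Finset.sum_comm
  have h4 : ∑ a, ∑ b, ∑ c, T a b c * T b a c ≤
      ∑ a, ∑ b, ∑ c, (T a b c ^ 2 / 2 + T b a c ^ 2 / 2) :=
    Finset.sum_le_sum fun a _ => Finset.sum_le_sum fun b _ => Finset.sum_le_sum fun c _ => by
      nlinarith [sq_nonneg (T a b c - T b a c)]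
  simp only [Finset.sum_add_distrib, ← Finset.sum_div] at h4
  rw [h1, h2]
  linarith

/-- Cauchy-Schwarz for a vector and a covector. -/
theorem dot_sq_le (hG : G.PosDef) (X θ : Fin 4 → ℝ) :
    (X ⬝ᵥ θ) ^ 2 ≤ (X ⬝ᵥ G *ᵥ X) * (θ ⬝ᵥ G⁻¹ *ᵥ θ) := by
  obtain ⟨B, hB, rfl⟩ := lin_sqrt hG
  have e1 : X ⬝ᵥ θ = (B *ᵥ X) ⬝ᵥ ((B⁻¹)ᵀ *ᵥ θ) := by
    rw [ineq_b_dot, ← transpose_mul, nonsing_inv_mul _ hB, transpose_one, one_mulVec]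
  have e2 : θ ⬝ᵥ (Bᵀ * B)⁻¹ *ᵥ θ = ((B⁻¹)ᵀ *ᵥ θ) ⬝ᵥ ((B⁻¹)ᵀ *ᵥ θ) := by
    rw [ineq_b_dot, transpose_transpose, Matrix.mul_inv_rev, transpose_nonsing_inv]
  rw [e1, e2, ← ineq_b_dot]
  simpa only [dotProduct, sq] using
    Finset.sum_mul_sq_le_sq_mul_sq Finset.univ (B *ᵥ X) ((B⁻¹)ᵀ *ᵥ θ)

/-- With `G⁻¹ = Bᵀ * B`, `ipM G h h` is the sum of the squares of the entries of `B * h * Bᵀ`;
apply `dot_sq_le` to every entry. -/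
theorem ipM_contr_le (hG : G.PosDef) (X : Fin 4 → ℝ) (N : Fin 4 → Mat) :
    ipM G (∑ a, X a • N a) (∑ a, X a • N a) ≤ (X ⬝ᵥ G *ᵥ X) * ip3 G N := by
  obtain ⟨B, -, e⟩ := lin_sqrt hG.inv
  have e1 : ip3 G N = ∑ i, ∑ j, (fun a => (B * N a * Bᵀ) i j) ⬝ᵥ G⁻¹ *ᵥ
      fun a => (B * N a * Bᵀ) i j := by
    simp only [ip3, ineq_b_ipM e]
    generalize G⁻¹ = H
    obtain ⟨M, hM⟩ : ∃ M : Fin 4 → Mat, ∀ a, B * N a * Bᵀ = M a := ⟨_, fun _ => rfl⟩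
    simp only [hM, dotProduct, mulVec, Fin.sum_univ_four]
    ring
  rw [e1, ineq_b_ipM e, Finset.mul_sum Finset.univ _ (X ⬝ᵥ G *ᵥ X)]
  refine Finset.sum_le_sum fun i _ => ?_
  rw [Finset.mul_sum Finset.univ _ (X ⬝ᵥ G *ᵥ X)]
  refine Finset.sum_le_sum fun j _ => ?_
  refine le_trans (le_of_eq ?_) (dot_sq_le hG X _)
  simp only [Matrix.mul_sum, Matrix.sum_mul, Matrix.mul_smul, Matrix.smul_mul, Matrix.sum_apply,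
    Matrix.smul_apply, smul_eq_mul, dotProduct, sq]

/-- The form of Kato's inequality that is used for gradients; same proof with `θ a = ipM G (N a) h`:
`θ ⬝ G⁻¹ θ = ipM G (∑ a, (G⁻¹ θ) a • N a) h`, `lin_ipM_cs`, `ipM_contr_le`. -/
theorem ipM_grad_le (hG : G.PosDef) (N : Fin 4 → Mat) (h : Mat) :
    (fun a => ipM G (N a) h) ⬝ᵥ G⁻¹ *ᵥ (fun a => ipM G (N a) h) ≤ ipM G h h * ip3 G N := by
  obtain ⟨θ, hθ⟩ : ∃ θ : Fin 4 → ℝ, θ = fun a => ipM G (N a) h := ⟨_, rfl⟩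
  rw [← hθ]
  have e1 : θ ⬝ᵥ G⁻¹ *ᵥ θ = ipM G (∑ a, (G⁻¹ *ᵥ θ) a • N a) h := by
    rw [ineq_b_sum, dotProduct_comm]
    simp only [hθ, dotProduct]
  have e2 : (G⁻¹ *ᵥ θ) ⬝ᵥ G *ᵥ (G⁻¹ *ᵥ θ) = θ ⬝ᵥ G⁻¹ *ᵥ θ := by
    rw [mulVec_mulVec, mul_nonsing_inv _ ((isUnit_iff_isUnit_det _).1 hG.isUnit), one_mulVec,
      dotProduct_comm]
  have h1 := lin_ipM_cs hG (∑ a, (G⁻¹ *ᵥ θ) a • N a) h
  have h2 := ipM_contr_le hG (G⁻¹ *ᵥ θ) N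
  have h3 := lin_ipM_nonneg hG h
  have h4 := mul_nonneg h3 (ip3_nonneg hG N)
  rw [← e1] at h1
  rw [e2] at h2
  have h5 := h1.trans (mul_le_mul_of_nonneg_right h2 h3)
  by_contra h6
  nlinarith

/-- The divergence is bounded by the gradient: in the frame, `(∑ a, T a a c) ^ 2 ≤ 4 ∑ a, T a a c ^ 2`. -/
theorem div_sq_le (hG : G.PosDef) (N : Fin 4 → Mat) :
    (fun j => ∑ a, ∑ b, G⁻¹ a b * N a b j) ⬝ᵥ G⁻¹ *ᵥ (fun j => ∑ a, ∑ b, G⁻¹ a b * N a b j) ≤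
      4 * ip3 G N := by
  obtain ⟨B, -, e⟩ := lin_sqrt hG.inv
  obtain ⟨T, hT⟩ : ∃ T : Fin 4 → Fin 4 → Fin 4 → ℝ, ∀ a b c,
      ∑ i, B a i * (B * N i * Bᵀ) b c = T a b c := ⟨_, fun _ _ _ => rfl⟩
  have h1 : ∀ c, (B *ᵥ fun j => ∑ a, ∑ b, G⁻¹ a b * N a b j) c = ∑ a, T a a c := fun c => by
    simp only [← hT, e, mulVec, dotProduct, mul_apply, transpose_apply, Fin.sum_univ_four]
    ring
  have h2 : ip3 G N = ∑ a, ∑ b, ∑ c, T a b c ^ 2 := by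
    rw [ip3, ineq_a_ip3 e]
    simp only [hT]
  have h3 : ∑ a, ∑ c, T a a c ^ 2 ≤ ∑ a, ∑ b, ∑ c, T a b c ^ 2 :=
    Finset.sum_le_sum fun a _ => Finset.single_le_sum (f := fun b => ∑ c, T a b c ^ 2)
      (fun b _ => by positivity) (Finset.mem_univ a)
  have h4 : ∑ c, (∑ a, T a a c) * (∑ a, T a a c) ≤ ∑ c, 4 * ∑ a, T a a c ^ 2 :=
    Finset.sum_le_sum fun c _ => by
      simpa only [sq, Finset.card_univ, Fintype.card_fin, Nat.cast_ofNat] using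
        sq_sum_le_card_mul_sum_sq (s := Finset.univ) (f := fun a => T a a c)
  rw [← Finset.mul_sum Finset.univ _ (4 : ℝ), Finset.sum_comm] at h4
  generalize (fun j => ∑ a, ∑ b, G⁻¹ a b * N a b j) = D at h1 ⊢
  rw [e, ← ineq_b_dot, h2, dotProduct]
  simp only [h1]
  linarith

end Pool.Agent.Lib.MP_94aef8_gt
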