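import Pool.Agent.Lib.MP_94aef8_gt.B.Lich

/-! The formula of Koiso. -/

open Matrix

namespace Pool.Agent.Lib.MP_94aef8_gt

namespace Geo

variable {A : Type} [CommRing A] {c : Geo A}

/-- `∇_a (div h)_j = H^{e b} (∇²_{a e} h)_{b j}` (`dH`). -/
theorem OK.nab_divT (hc : c.OK) (h : MA A) (a j : Fin 4) :
    c.D a (c.divT h j) - ∑ e, c.w a e j * c.divT h e = ∑ e, ∑ b, c.H e b * c.nab2 a e h b j := by
  have h1 : ∀ e b, c.D a (c.H e b) = -(c.w a * c.H + c.H * (c.w a)ᵀ) e b := fun e b =>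
    congrFun (congrFun (hc.dH a) e) b
  have h2 : ∀ e, c.nab a (c.nab e h) =
      c.dm a (c.nab e h) - (c.w a)ᵀ * c.nab e h - c.nab e h * c.w a := fun _ => rfl
  simp only [divT, nab2, hc.sum, hc.mul, h1, h2, Matrix.sub_apply, Matrix.add_apply,
    Matrix.sum_apply, Matrix.smul_apply, smul_eq_mul, Matrix.mul_apply, Matrix.transpose_apply,
    dm_apply]
  simp only [Fin.sum_univ_four]
  ring

/-- The contracted Ricci identity (`ricci_id`, `q_skew`, `ric_eq`). -/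
theorem OK.ricci_tr (hc : c.OK) {h : MA A} (hs : hᵀ = h) (i j : Fin 4) :
    ∑ a, ∑ b, c.H a b * (c.nab2 a i h b j - c.nab2 i a h b j) =
      (c.ric * c.H * h) i j - c.rring h i j := by
  have h1 : ∀ a, ∑ b, c.H a b * (c.nab2 a i h b j - c.nab2 i a h b j) =
      (c.rm a i * (c.H * h)) a j - (c.H * h * c.rm a i) a j := by
    intro a
    have h2 : c.H * (c.rm a i)ᵀ = -(c.rm a i * c.H) := by
      rw [← hc.q_skew, Matrix.transpose_mul, hc.trH]
    have h3 : c.H * (c.nab2 a i h - c.nab2 i a h) = c.rm a i * (c.H * h) - c.H * h * c.rm a i := by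
      rw [hc.ricci_id, Matrix.mul_neg, Matrix.mul_add, ← Matrix.mul_assoc, h2]
      noncomm_ring
    exact congrFun (congrFun h3 a) j
  simp only [h1, Finset.sum_sub_distrib, rring, Matrix.of_apply, Matrix.mul_assoc]
  generalize c.H * h = u
  simp only [Matrix.mul_apply, ric_eq, Finset.sum_mul]
  rw [Finset.sum_comm]

/-- The divergence of `h(X, ·)`. -/
theorem OK.dvg_pair (hc : c.OK) (h : MA A) (X : VA A) :
    c.dvg (c.H *ᵥ (h *ᵥ X)) = c.divT h ⬝ᵥ X + c.ipT h (c.G * c.cov X)ᵀ := by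
  have h1 : c.H * h * c.H * (c.G * c.cov X) = c.H * (h * c.cov X) := by
    rw [Matrix.mul_assoc, ← Matrix.mul_assoc c.H c.G, hc.inv', Matrix.one_mul, Matrix.mul_assoc]
  rw [hc.dvg_sharp, ipT, Matrix.transpose_transpose, h1]
  simp only [divT, nab, cov, Matrix.mulVec, dotProduct, hc.sum, hc.mul, Matrix.trace,
    Matrix.diag, Matrix.sub_apply, Matrix.mul_apply, Matrix.transpose_apply, Matrix.of_apply,
    dm_apply]
  simp only [Fin.sum_univ_four]
  ring

theorem OK.adj_lie (hc : c.OK) {h : MA A} (hs : hᵀ = h) (X : VA A) :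
    c.dvg (c.H *ᵥ (h *ᵥ X)) = c.divT h ⬝ᵥ X + c.hf * c.ipT h (c.lie X) := by
  have h1 := hc.ipT_transpose h (c.G * c.cov X)
  rw [hs] at h1
  rw [hc.dvg_pair, lie, ipT_add_right, ← h1]
  linear_combination (-c.ipT h (c.G * c.cov X)ᵀ) * hc.hh

/-- Divergence of the first half of `kX`; put `u = H * h * H`, so that
`dm a u + w a * u + u * (w a)ᵀ = H * nab a h * H`. -/
theorem OK.koiso_one (hc : c.OK) (h : MA A) :
    c.dvg (c.H *ᵥ fun b => ∑ e, (c.nab e h * (c.H * h * c.H)ᵀ) b e) =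
      c.crs h + c.ipT h (Matrix.of fun i j => ∑ a, ∑ b, c.H a b * c.nab2 a i h b j) := by
  have h1 : ∀ a, c.dm a (c.H * h * c.H) = c.H * c.nab a h * c.H - c.w a * (c.H * h * c.H) -
      c.H * h * c.H * (c.w a)ᵀ := by
    intro a
    rw [hc.dm_mul, hc.dm_mul, hc.dH, nab]
    noncomm_ring
  have h2 : ∀ a e, c.dm a (c.nab e h) = c.nab2 a e h + (c.w a)ᵀ * c.nab e h + c.nab e h * c.w a +
      ∑ f, c.w a f e • c.nab f h := by
    intro a e
    rw [nab2, nab.eq_1 c a]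
    abel
  rw [hc.dvg_sharp, crs, ipT]
  generalize c.H * h * c.H = u at h1 ⊢
  have h3 : ∀ a b, c.D a (∑ e, (c.nab e h * uᵀ) b e) - ∑ f, c.w a f b * ∑ e, (c.nab e h * uᵀ) f e =
      ∑ e, ∑ k, (c.nab2 a e h b k * u e k + c.nab e h b k * (c.H * c.nab a h * c.H) e k) := by
    intro a b
    have h4 : ∀ e k, c.D a (u e k) = _ := fun e k => congrFun (congrFun (h1 a) e) k
    have h5 : ∀ e k, c.D a (c.nab e h b k) = _ := fun e k => congrFun (congrFun (h2 a e) b) k
    generalize c.H * c.nab a h * c.H = v at h4 ⊢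
    simp only [Matrix.mul_apply, Matrix.transpose_apply, hc.sum, hc.mul, h4, h5, Matrix.sub_apply,
      Matrix.add_apply, Matrix.sum_apply, Matrix.smul_apply, smul_eq_mul]
    simp only [Fin.sum_univ_four]
    ring
  obtain ⟨v, hv⟩ : ∃ v : Fin 4 → MA A, ∀ a, c.H * c.nab a h * c.H = v a := ⟨_, fun _ => rfl⟩
  simp only [h3, hv]
  simp only [Matrix.trace, Matrix.diag, Matrix.mul_apply, Matrix.transpose_apply, Matrix.of_apply]
  simp only [Fin.sum_univ_four]
  ring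

/-- `koiso_one`, `dvg_pair`, `cov_sharp`, `nab_divT`, `ricci_tr`. -/
theorem OK.koiso (hc : c.OK) {h : MA A} (hs : hᵀ = h) :
    c.crs h = c.divT h ⬝ᵥ c.H *ᵥ c.divT h + c.ipT (c.rring h) h - c.ipT (c.ric * c.H * h) h +
      c.dvg (c.kX h) := by
  have h1 : (c.G * c.cov (c.H *ᵥ c.divT h))ᵀ =
      (Matrix.of fun i j => ∑ a, ∑ b, c.H a b * c.nab2 a i h b j) -
        (c.ric * c.H * h - c.rring h) := by
    rw [hc.cov_sharp, ← Matrix.mul_assoc, hc.inv, Matrix.one_mul]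
    ext i j
    simp only [Matrix.transpose_apply, Matrix.of_apply, Matrix.sub_apply, hc.nab_divT,
      ← hc.ricci_tr hs, mul_sub, Finset.sum_sub_distrib]
    ring
  rw [kX, Matrix.mulVec_sub, hc.dvg_sub, hc.koiso_one, hc.dvg_pair, h1, ipT_sub_right,
    ipT_sub_right, hc.ipT_comm h (c.rring h), hc.ipT_comm h (c.ric * c.H * h)]
  ring

end Geo

end Pool.Agent.Lib.MP_94aef8_gt
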