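import Pool.Agent.Lib.MP_94aef8_gt.B.Rep

/-! Lifting smooth fields to the ring of smooth functions on an open set. -/

open scoped ContDiff Topology
open Matrix Filter Set

namespace Pool.Agent.Lib.MP_94aef8_gt

open Geo

variable {U : Set E4} {x y : SU U} {f g : Fn} {M N : MA (SU U)} {G h k : Tn} {X Y : VA (SU U)}
  {V W : Vn} {p : E4}

theorem lift0 (hf : ContDiffOn ℝ ∞ f U) : ∃ x : SU U, R0 (iu U) x f := ⟨sgm f hf, rfl⟩

theorem SmT.lift (hh : SmT h U) : ∃ M : MA (SU U), RT (iu U) M h := ⟨gmM (mf h) hh, rfl⟩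

theorem SmV.lift (hV : SmV V U) : ∃ X : VA (SU U), RV (iu U) X V := ⟨fun i => sgm _ (hV i), rfl⟩

theorem ex0 (x : SU U) : ∃ f, R0 (iu U) x f := by
  obtain ⟨f, hf, rfl⟩ := ex_sgm x
  exact ⟨f, rfl⟩

theorem R0.ext (r : R0 (iu U) x f) (s : R0 (iu U) y g) (e : EqOn f g U) : x = y :=
  iu_inj (Eq.trans (r.congr (eventuallyEq_principal.2 e)) (Eq.symm s))

theorem RT.ext (r : RT (iu U) M h) (s : RT (iu U) N k) (e : EqOn h k U) : M = N :=
  Matrix.ext fun i j => (r.entry i j).ext (s.entry i j) fun _ hp => congrFun (congrFun (e hp) i) j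

theorem RV.ext (r : RV (iu U) X V) (s : RV (iu U) Y W) (e : EqOn V W U) : X = Y :=
  funext fun i => (r.entry i).ext (s.entry i) fun _ hp => congrFun (e hp) i

theorem R0.at (r : R0 (iu U) x f) (s : R0 (iu U) y g) (e : x = y) (hp : p ∈ U) : f p = g p :=
  r.ev s e hp

theorem RT.at (r : RT (iu U) M h) (s : RT (iu U) N k) (e : M = N) (hp : p ∈ U) : h p = k p :=
  r.ev s e hp

theorem RV.at (r : RV (iu U) X V) (s : RV (iu U) Y W) (e : X = Y) (hp : p ∈ U) : V p = W p :=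
  r.ev s e hp

theorem R0.smooth (r : R0 (iu U) x f) : ContDiffOn ℝ ∞ f U := smooth_of_iu r

theorem RT.smooth (r : RT (iu U) M h) : SmT h U := fun i j => (r.entry i j).smooth

theorem RV.smooth (r : RV (iu U) X V) : SmV V U := fun i => (r.entry i).smooth

theorem RT.symT (r : RT (iu U) M h) (e : Mᵀ = M) : SymT h U := ⟨r.smooth, fun _ hp => r.tr.at r e hp⟩

theorem SymT.lift (hh : SymT h U) : ∃ M : MA (SU U), RT (iu U) M h ∧ Mᵀ = M := by
  obtain ⟨M, r⟩ := hh.smooth.lift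
  exact ⟨M, r, r.tr.ext r hh.symm⟩

theorem Good.lift (hG : Good G U) : ∃ s : Geo (SU U), s.OK ∧ Zig (iu U) s G := by
  obtain ⟨s, h1, -, h2⟩ := lift_geo hG.isOpen bas (geo G) rfl hG.smooth hG.smooth_inv
    (fun p hp i j => hG.symm hp j i) fun p hp i j => by
      have e : (geo G).G * (geo G).H = mf fun p => G p * inv G p := (mf_mul _ _).symm
      rw [e, ← mf_one]
      exact congrFun (congrFun (hG.mul_inv hp) i) j
  exact ⟨s, h1, _, h2, hom_gG _ rfl⟩

/-- Constants. -/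
theorem Zig.const {s : Geo (SU U)} (Z : Zig (iu U) s G) (c : ℝ) :
    ∃ x : SU U, R0 (iu U) x (fun _ => c) ∧ ∀ i, s.D i x = 0 := by
  obtain ⟨x, r⟩ := lift0 (U := U) (contDiffOn_const (c := c))
  exact ⟨x, r, fun i => (Z.D r i).ext R0.zero fun p _ => pd_const c p i⟩

theorem Good.symT_of_add (hG : Good G U) (hG' : Good (G + h) U) : SymT h U :=
  (hG'.symT.sub hG.symT).congr fun p _ => by simp

/-- Lift of a metric and of a perturbation. -/
theorem Good.lift2 (hG : Good G U) (hG' : Good (G + h) U) :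
    ∃ (s : Geo (SU U)) (M K : MA (SU U)), s.OK ∧ Zig (iu U) s G ∧ RT (iu U) M h ∧
      RT (iu U) K (inv (G + h)) ∧ Mᵀ = M ∧ (s.G + M) * K = 1 := by
  obtain ⟨s, ok, Z⟩ := hG.lift
  obtain ⟨M, r, e⟩ := (hG.symT_of_add hG').lift
  obtain ⟨K, rK⟩ := hG'.smooth_inv.lift
  exact ⟨s, M, K, ok, Z, r, rK, e, ((Z.G'.add r).mul rK).ext RT.one fun p hp => hG'.mul_inv hp⟩

section Congr

variable {l : Filter E4} {G' : Tn}

theorem R0.rfl (f : Fn) : R0 (cg l) f f := Eq.refl _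

theorem RT.rfl (h : Tn) : RT (cg l) (mf h) h := Eq.refl _

theorem RV.rfl (V : Vn) : RV (cg l) (vf V) V := Eq.refl _

theorem r0_congr (e : f =ᶠ[l] g) : R0 (cg l) f g := cg_eq.2 e

theorem rt_congr (e : h =ᶠ[l] k) : RT (cg l) (mf h) k := (RT.rfl h).congr e

theorem rv_congr (e : V =ᶠ[l] W) : RV (cg l) (vf V) W := (RV.rfl V).congr e

theorem R0.self (r : R0 (cg l) f g) : f =ᶠ[l] g := cg_eq.1 r

theorem RT.self (r : RT (cg l) (mf h) k) : h =ᶠ[l] k := (RT.rfl h).ev r (Eq.refl _)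

theorem RV.self (r : RV (cg l) (vf V) W) : V =ᶠ[l] W := (RV.rfl V).ev r (Eq.refl _)

theorem inv_congr (e : G =ᶠ[l] G') : inv G =ᶠ[l] inv G' := e.mono fun _ e => congrArg (·⁻¹) e

theorem zig_congr (hl : LocF l) (e : G =ᶠ[l] G') : Zig (cg l) (geo G) G' :=
  ⟨gG hl bas (geo G'), ⟨fun _ _ => rfl, rfl, rt_congr e, rt_congr (inv_congr e)⟩, hom_gG hl rfl⟩

end Congr

end Pool.Agent.Lib.MP_94aef8_gt
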