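import Pool.Agent.Lib.MP_94aef8_gt.Ops

/-! Calculus of coordinate derivatives and smoothness of matrix fields. -/

open scoped ContDiff Topology
open Matrix Filter Set MeasureTheory

namespace Pool.Agent.Lib.MP_94aef8_gt

section Gen

variable {E : Type} [NormedAddCommGroup E] [NormedSpace ℝ E] {f h : E → ℝ} {p : E} {U : Set E}

/-- The derivative in the direction `v`. -/
noncomputable def dd (v : E) (f : E → ℝ) (p : E) : ℝ := fderiv ℝ f p v

theorem dd_congr (e : f =ᶠ[𝓝 p] h) (v : E) : dd v f =ᶠ[𝓝 p] dd v h := by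
  filter_upwards [e.fderiv (𝕜 := ℝ)] with q hq
  simp only [dd, hq]

theorem contDiffAt_dd (hf : ContDiffAt ℝ ∞ f p) (v : E) : ContDiffAt ℝ ∞ (dd v f) p := by
  have h : ContDiffAt ℝ ∞ (fderiv ℝ f) p := hf.fderiv_right (m := ∞) (by simp)
  exact h.clm_apply contDiffAt_const

theorem contDiffOn_dd (hU : IsOpen U) (hf : ContDiffOn ℝ ∞ f U) (v : E) :
    ContDiffOn ℝ ∞ (dd v f) U := fun _ hp =>
  (contDiffAt_dd (hf.contDiffAt (hU.mem_nhds hp)) v).contDiffWithinAt

theorem diffAt {F : Type} [NormedAddCommGroup F] [NormedSpace ℝ F] {f : E → F}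
    (hf : ContDiffAt ℝ ∞ f p) : DifferentiableAt ℝ f p :=
  hf.differentiableAt (by simp)

theorem diffAt' {F : Type} [NormedAddCommGroup F] [NormedSpace ℝ F] {f : E → F} (hU : IsOpen U)
    (hf : ContDiffOn ℝ ∞ f U) (hp : p ∈ U) : DifferentiableAt ℝ f p :=
  diffAt (hf.contDiffAt (hU.mem_nhds hp))

theorem dd_add (hf : DifferentiableAt ℝ f p) (hh : DifferentiableAt ℝ h p) (v : E) :
    dd v (fun x => f x + h x) p = dd v f p + dd v h p := by
  simp only [dd, fderiv_fun_add hf hh, _root_.add_apply]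

theorem dd_mul (hf : DifferentiableAt ℝ f p) (hh : DifferentiableAt ℝ h p) (v : E) :
    dd v (fun x => f x * h x) p = dd v f p * h p + f p * dd v h p := by
  simp only [dd, fderiv_fun_mul hf hh, _root_.add_apply, _root_.smul_apply, smul_eq_mul]
  ring

theorem dd_comm2 (hf : ContDiffAt ℝ 2 f p) (v w : E) : dd v (dd w f) p = dd w (dd v f) p := by
  have hs : IsSymmSndFDerivAt ℝ f p := hf.isSymmSndFDerivAt (by simp)
  have hd : DifferentiableAt ℝ (fderiv ℝ f) p :=
    (hf.fderiv_right (m := 1) (by norm_num)).differentiableAt (by simp)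
  have key : ∀ a b : E, dd a (dd b f) p = fderiv ℝ (fderiv ℝ f) p a b := by
    intro a b
    have h1 : dd b f = fun q => fderiv ℝ f q b := rfl
    rw [dd, h1, fderiv_clm_apply hd (differentiableAt_const _)]
    simp
  rw [key, key, hs.eq]

theorem dd_comm (hf : ContDiffAt ℝ ∞ f p) (v w : E) : dd v (dd w f) p = dd w (dd v f) p :=
  dd_comm2 (hf.of_le (WithTop.coe_le_coe.2 le_top)) v w

theorem smooth_mul {A B : E → Mat} (hA : ∀ i j, ContDiffOn ℝ ∞ (fun p => A p i j) U)
    (hB : ∀ i j, ContDiffOn ℝ ∞ (fun p => B p i j) U) (i j : Fin 4) :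
    ContDiffOn ℝ ∞ (fun p => (A p * B p) i j) U := by
  simp only [Matrix.mul_apply]
  exact ContDiffOn.sum fun k _ => (hA i k).mul (hB k j)

theorem smooth_det {A : E → Mat} (hA : ∀ i j, ContDiffOn ℝ ∞ (fun p => A p i j) U) :
    ContDiffOn ℝ ∞ (fun p => (A p).det) U := by
  simp only [Matrix.det_apply']
  exact ContDiffOn.sum fun σ _ => contDiffOn_const.mul (contDiffOn_prod fun i _ => hA _ _)

theorem smooth_inv {A : E → Mat} (hA : ∀ i j, ContDiffOn ℝ ∞ (fun p => A p i j) U)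
    (hd : ∀ p ∈ U, (A p).det ≠ 0) (i j : Fin 4) : ContDiffOn ℝ ∞ (fun p => (A p)⁻¹ i j) U := by
  have h1 : ContDiffOn ℝ ∞ (fun p => (A p).adjugate i j) U := by
    simp only [Matrix.adjugate_apply]
    refine smooth_det fun a b => ?_
    simp only [Matrix.updateRow_apply]
    split_ifs
    · exact contDiffOn_const
    · exact hA a b
  refine (((smooth_det hA).inv hd).mul h1).congr fun p _ => ?_
  simp [Matrix.inv_def]

end Gen

section Pd

variable {f h : Fn} {p : E4} {U : Set E4}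

theorem pd_eq_dd (i : Fin 4) : pd i = dd (bas i) := rfl

theorem pd_congr (e : f =ᶠ[𝓝 p] h) (i : Fin 4) : pd i f =ᶠ[𝓝 p] pd i h := dd_congr e _

theorem pd_congrOn (hU : IsOpen U) (e : EqOn f h U) (i : Fin 4) : EqOn (pd i f) (pd i h) U :=
  fun _ hp => (pd_congr (e.eventuallyEq_of_mem (hU.mem_nhds hp)) i).eq_of_nhds

theorem contDiffAt_pd (hf : ContDiffAt ℝ ∞ f p) (i : Fin 4) : ContDiffAt ℝ ∞ (pd i f) p :=
  contDiffAt_dd hf _

theorem contDiffOn_pd (hU : IsOpen U) (hf : ContDiffOn ℝ ∞ f U) (i : Fin 4) :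
    ContDiffOn ℝ ∞ (pd i f) U := contDiffOn_dd hU hf _

theorem contDiff_pd (hf : ContDiff ℝ ∞ f) (i : Fin 4) : ContDiff ℝ ∞ (pd i f) :=
  contDiff_iff_contDiffAt.2 fun _ => contDiffAt_pd hf.contDiffAt i

theorem pd_add (hf : DifferentiableAt ℝ f p) (hh : DifferentiableAt ℝ h p) (i : Fin 4) :
    pd i (fun x => f x + h x) p = pd i f p + pd i h p := dd_add hf hh _

theorem pd_sub (hf : DifferentiableAt ℝ f p) (hh : DifferentiableAt ℝ h p) (i : Fin 4) :
    pd i (fun x => f x - h x) p = pd i f p - pd i h p := by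
  simp only [pd, fderiv_fun_sub hf hh, _root_.sub_apply]

theorem pd_neg (f : Fn) (p : E4) (i : Fin 4) : pd i (fun x => -f x) p = -pd i f p := by
  simp only [pd, fderiv_fun_neg, _root_.neg_apply]

theorem pd_mul (hf : DifferentiableAt ℝ f p) (hh : DifferentiableAt ℝ h p) (i : Fin 4) :
    pd i (fun x => f x * h x) p = pd i f p * h p + f p * pd i h p := dd_mul hf hh _

theorem pd_const (c : ℝ) (p : E4) (i : Fin 4) : pd i (fun _ => c) p = 0 := by
  simp [pd]

theorem pd_const_mul (c : ℝ) (f : Fn) (p : E4) (i : Fin 4) :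
    pd i (fun x => c * f x) p = c * pd i f p := by
  have h := congrFun (fderiv_const_smul_field (𝕜 := ℝ) (f := f) c) p
  have e : (fun x => c * f x) = c • f := rfl
  simp only [pd, e, h, Pi.smul_apply, _root_.smul_apply, smul_eq_mul]

theorem pd_sum {ι : Type} (s : Finset ι) {F : ι → Fn} (hF : ∀ k ∈ s, DifferentiableAt ℝ (F k) p)
    (i : Fin 4) : pd i (fun x => ∑ k ∈ s, F k x) p = ∑ k ∈ s, pd i (F k) p := by
  simp only [pd, fderiv_fun_sum hF, _root_.sum_apply]

theorem pd_comp {φ : ℝ → ℝ} {φ' : ℝ} (hφ : HasDerivAt φ φ' (f p)) (hf : DifferentiableAt ℝ f p)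
    (i : Fin 4) : pd i (fun x => φ (f x)) p = φ' * pd i f p := by
  have h := (hφ.comp_hasFDerivAt p hf.hasFDerivAt).fderiv
  have h2 : (fun x => φ (f x)) = φ ∘ f := rfl
  simp only [pd, h2, h, _root_.smul_apply, smul_eq_mul]

theorem pd_coord (j : Fin 4) (p : E4) (i : Fin 4) :
    pd i (fun x : E4 => x j) p = if j = i then 1 else 0 := by
  have h : (fun x : E4 => x j) = (EuclideanSpace.proj j : E4 →L[ℝ] ℝ) := rfl
  simp only [pd, h, ContinuousLinearMap.fderiv]
  simp [bas]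

theorem pd_comm (hf : ContDiffAt ℝ ∞ f p) (i j : Fin 4) : pd i (pd j f) p = pd j (pd i f) p :=
  dd_comm hf _ _

theorem pd_comm2 (hf : ContDiffAt ℝ 2 f p) (i j : Fin 4) : pd i (pd j f) p = pd j (pd i f) p :=
  dd_comm2 hf _ _

theorem eq_sum_bas (v : E4) : v = ∑ i, v i • bas i := by
  ext j
  simp [bas, Finset.sum_apply, Pi.single_apply]

theorem fderiv_eq_sum (f : Fn) (p v : E4) : fderiv ℝ f p v = ∑ i, v i * pd i f p := by
  conv_lhs => rw [eq_sum_bas v]
  simp [pd]

theorem jac_apply {τ : E4 → E4} (hτ : DifferentiableAt ℝ τ p) (i a : Fin 4) :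
    jac τ p i a = fderiv ℝ τ p (bas a) i := by
  have h := ((EuclideanSpace.proj i : E4 →L[ℝ] ℝ).hasFDerivAt.comp p hτ.hasFDerivAt).fderiv
  have e : (fun y => τ y i) = (EuclideanSpace.proj i : E4 →L[ℝ] ℝ) ∘ τ := rfl
  simp only [jac, Matrix.of_apply, pd, e, h]
  rfl

/-- The chain rule. -/
theorem pd_chain {τ : E4 → E4} (hτ : DifferentiableAt ℝ τ p) (hf : DifferentiableAt ℝ f (τ p))
    (a : Fin 4) : pd a (fun x => f (τ x)) p = ∑ i, pd i f (τ p) * jac τ p i a := by
  have h := (hf.hasFDerivAt.comp p hτ.hasFDerivAt).fderiv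
  have e : (fun x => f (τ x)) = f ∘ τ := rfl
  rw [pd, e, h, ContinuousLinearMap.comp_apply, fderiv_eq_sum]
  exact Finset.sum_congr rfl fun i _ => by rw [jac_apply hτ, mul_comm]

theorem det_fderiv {τ : E4 → E4} (hτ : DifferentiableAt ℝ τ p) :
    (fderiv ℝ τ p).det = (jac τ p).det := by
  rw [ContinuousLinearMap.det, ← LinearMap.det_toMatrix (EuclideanSpace.basisFun (Fin 4) ℝ).toBasis]
  congr 1
  ext i a
  rw [jac_apply hτ, LinearMap.toMatrix_apply]
  simp [bas]

theorem integral_pd_eq_zero {K : Set E4} (hU : IsOpen U) (hK : IsCompact K) (hKU : K ⊆ U)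
    {Z : Fn} (hZ : ContDiffOn ℝ ∞ Z U) (h0 : ∀ p ∈ U, p ∉ K → Z p = 0) (i : Fin 4) :
    IntegrableOn (pd i Z) U ∧ ∫ p in U, pd i Z p = 0 := by
  have hc : HasCompactSupport (U.indicator Z) := by
    refine HasCompactSupport.intro hK fun x hx => ?_
    by_cases h : x ∈ U
    · rw [indicator_of_mem h, h0 x h hx]
    · exact indicator_of_notMem h _
  have hev : ∀ p ∈ U, U.indicator Z =ᶠ[𝓝 p] Z := fun p hp => by
    filter_upwards [hU.mem_nhds hp] with q hq using indicator_of_mem hq _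
  have hev0 : ∀ p, p ∉ K → U.indicator Z =ᶠ[𝓝 p] fun _ => 0 := fun p hp => by
    filter_upwards [hK.isClosed.isOpen_compl.mem_nhds hp] with x hx
    by_cases h : x ∈ U
    · rw [indicator_of_mem h, h0 x h hx]
    · exact indicator_of_notMem h _
  have hs : ContDiff ℝ ∞ (U.indicator Z) := by
    refine contDiff_iff_contDiffAt.2 fun p => ?_
    by_cases h : p ∈ U
    · exact (hZ.contDiffAt (hU.mem_nhds h)).congr_of_eventuallyEq (hev p h)
    · exact contDiffAt_const.congr_of_eventuallyEq (hev0 p fun hp => h (hKU hp))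
  have hi : Integrable (pd i (U.indicator Z)) :=
    (contDiff_pd hs i).continuous.integrable_of_hasCompactSupport (hc.fderiv_apply ℝ (bas i))
  have he : EqOn (pd i (U.indicator Z)) (pd i Z) U := fun p hp => (pd_congr (hev p hp) i).eq_of_nhds
  refine ⟨hi.integrableOn.congr_fun he hU.measurableSet, ?_⟩
  rw [← setIntegral_congr_fun hU.measurableSet he, setIntegral_eq_integral_of_forall_compl_eq_zero]
  · have h := integral_mul_fderiv_eq_neg_fderiv_mul_of_integrable (μ := (volume : Measure E4))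
      (f := fun _ => (1 : ℝ)) (g := U.indicator Z) (v := bas i) (by simp)
      (by simp only [one_mul]; exact hi) (by simpa using hs.continuous.integrable_of_hasCompactSupport hc)
      (fun _ _ => differentiableAt_const _) (fun x _ => hs.differentiable (by simp) x)
    simpa [pd] using h
  · intro x hx
    rw [(pd_congr (hev0 x fun hp => hx (hKU hp)) i).eq_of_nhds, pd_const]

end Pd

section Sm

variable {G h k : Tn} {X Y : Vn} {f : Fn} {U V : Set E4} {p : E4}

theorem SmT.mono (hh : SmT h U) (e : V ⊆ U) : SmT h V := fun i j => (hh i j).mono e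

theorem SmV.mono (hX : SmV X U) (e : V ⊆ U) : SmV X V := fun i => (hX i).mono e

theorem SymT.mono (hh : SymT h U) (e : V ⊆ U) : SymT h V :=
  ⟨hh.smooth.mono e, fun p hp => hh.symm p (e hp)⟩

theorem SmT.congr (hh : SmT h U) (e : EqOn k h U) : SmT k U :=
  fun i j => (hh i j).congr fun _ hp => by rw [e hp]

theorem SmV.congr (hX : SmV X U) (e : EqOn Y X U) : SmV Y U :=
  fun i => (hX i).congr fun _ hp => by rw [e hp]

theorem SymT.congr (hh : SymT h U) (e : EqOn k h U) : SymT k U :=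
  ⟨hh.smooth.congr e, fun p hp => by rw [e hp, hh.symm p hp]⟩

theorem SmT.const (M : Mat) : SmT (fun _ => M) U := fun _ _ => contDiffOn_const

theorem SmT.add (hh : SmT h U) (hk : SmT k U) : SmT (h + k) U := fun i j => (hh i j).add (hk i j)

theorem SmT.sub (hh : SmT h U) (hk : SmT k U) : SmT (h - k) U := fun i j => (hh i j).sub (hk i j)

theorem SmT.neg (hh : SmT h U) : SmT (-h) U := fun i j => (hh i j).neg

theorem SmT.smul (hf : ContDiffOn ℝ ∞ f U) (hh : SmT h U) : SmT (fun p => f p • h p) U :=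
  fun i j => hf.mul (hh i j)

theorem SmT.csmul (c : ℝ) (hh : SmT h U) : SmT (c • h) U := SmT.smul contDiffOn_const hh

theorem SmT.mul (hh : SmT h U) (hk : SmT k U) : SmT (fun p => h p * k p) U := smooth_mul hh hk

theorem SmT.tr (hh : SmT h U) : SmT (fun p => (h p)ᵀ) U := fun i j => hh j i

theorem SmT.trace (hh : SmT h U) : ContDiffOn ℝ ∞ (fun p => (h p).trace) U :=
  ContDiffOn.sum fun i _ => hh i i

theorem SmT.det (hh : SmT h U) : ContDiffOn ℝ ∞ (fun p => (h p).det) U := smooth_det hh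

theorem SmT.inv (hh : SmT h U) (hd : ∀ p ∈ U, (h p).det ≠ 0) : SmT (inv h) U := smooth_inv hh hd

theorem SmT.mulVec (hh : SmT h U) (hX : SmV X U) : SmV (fun p => h p *ᵥ X p) U := fun i => by
  simp only [Matrix.mulVec, dotProduct]
  exact ContDiffOn.sum fun k _ => (hh i k).mul (hX k)

theorem SmV.dot (hX : SmV X U) (hY : SmV Y U) : ContDiffOn ℝ ∞ (fun p => X p ⬝ᵥ Y p) U :=
  ContDiffOn.sum fun k _ => (hX k).mul (hY k)

theorem SmV.add (hX : SmV X U) (hY : SmV Y U) : SmV (X + Y) U := fun i => (hX i).add (hY i)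

theorem SmV.sub (hX : SmV X U) (hY : SmV Y U) : SmV (X - Y) U := fun i => (hX i).sub (hY i)

theorem SmV.neg (hX : SmV X U) : SmV (-X) U := fun i => (hX i).neg

theorem SmV.smul (hf : ContDiffOn ℝ ∞ f U) (hX : SmV X U) : SmV (fun p => f p • X p) U :=
  fun i => hf.mul (hX i)

theorem SymT.add (hh : SymT h U) (hk : SymT k U) : SymT (h + k) U :=
  ⟨hh.smooth.add hk.smooth, fun p hp => by
    rw [Pi.add_apply, transpose_add, hh.symm p hp, hk.symm p hp]⟩

theorem SymT.sub (hh : SymT h U) (hk : SymT k U) : SymT (h - k) U :=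
  ⟨hh.smooth.sub hk.smooth, fun p hp => by
    rw [Pi.sub_apply, transpose_sub, hh.symm p hp, hk.symm p hp]⟩

theorem SymT.smul (hf : ContDiffOn ℝ ∞ f U) (hh : SymT h U) : SymT (fun p => f p • h p) U :=
  ⟨SmT.smul hf hh.smooth, fun p hp => by rw [transpose_smul, hh.symm p hp]⟩

theorem SymT.csmul (c : ℝ) (hh : SymT h U) : SymT (c • h) U := SymT.smul contDiffOn_const hh

theorem smV_df (hU : IsOpen U) (hf : ContDiffOn ℝ ∞ f U) : SmV (df f) U := contDiffOn_pd hU hf

namespace Good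

theorem mono (hG : Good G U) (hV : IsOpen V) (e : V ⊆ U) : Good G V :=
  ⟨hV, hG.smooth.mono e, fun p hp => hG.pos p (e hp)⟩

theorem congr (hG : Good G U) (e : EqOn h G U) : Good h U :=
  ⟨hG.isOpen, hG.smooth.congr e, fun p hp => by rw [e hp]; exact hG.pos p hp⟩

theorem tr (hG : Good G U) (hp : p ∈ U) : (G p)ᵀ = G p := by
  simpa using (hG.pos p hp).1.eq

theorem symm (hG : Good G U) (hp : p ∈ U) (i j : Fin 4) : G p i j = G p j i :=
  congrFun (congrFun (hG.tr hp) j) i

theorem symT (hG : Good G U) : SymT G U := ⟨hG.smooth, fun _ hp => hG.tr hp⟩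

theorem det_pos (hG : Good G U) (hp : p ∈ U) : 0 < (G p).det := (hG.pos p hp).det_pos

theorem mul_inv (hG : Good G U) (hp : p ∈ U) : G p * (G p)⁻¹ = 1 :=
  Matrix.mul_nonsing_inv _ (hG.det_pos hp).ne'.isUnit

theorem inv_mul (hG : Good G U) (hp : p ∈ U) : (G p)⁻¹ * G p = 1 :=
  Matrix.nonsing_inv_mul _ (hG.det_pos hp).ne'.isUnit

theorem tr_inv (hG : Good G U) (hp : p ∈ U) : ((G p)⁻¹)ᵀ = (G p)⁻¹ := by
  rw [Matrix.transpose_nonsing_inv, hG.tr hp]

theorem rho_pos (hG : Good G U) (hp : p ∈ U) : 0 < rho G p := Real.sqrt_pos.2 (hG.det_pos hp)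

theorem smooth_det (hG : Good G U) : ContDiffOn ℝ ∞ (fun p => (G p).det) U := hG.smooth.det

theorem smooth_rho (hG : Good G U) : ContDiffOn ℝ ∞ (rho G) U :=
  hG.smooth_det.sqrt fun _ hp => (hG.det_pos hp).ne'

theorem smooth_inv (hG : Good G U) : SmT (inv G) U :=
  hG.smooth.inv fun _ hp => (hG.det_pos hp).ne'

theorem csmul (hG : Good G U) {c : ℝ} (hc : 0 < c) : Good (c • G) U :=
  ⟨hG.isOpen, hG.smooth.csmul c, fun p hp => (hG.pos p hp).smul hc⟩

end Good

end Sm

end Pool.Agent.Lib.MP_94aef8_gt
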