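import Pool.Agent.Lib.MP_94aef8_gt.B.Loc
import Pool.Agent.Lib.MP_94aef8_gt.C.Lin

/-! Derivatives at a local maximum. -/

open scoped ContDiff Topology
open Matrix Filter Set

namespace Pool.Agent.Lib.MP_94aef8_gt

variable {f : Fn} {p : E4}

theorem max_pd (hm : IsLocalMax f p) (i : Fin 4) : pd i f p = 0 := by
  simp [pd, hm.fderiv_eq_zero]

theorem max_line {g : Fn} (p w : E4) (t : ℝ) (hg : DifferentiableAt ℝ g (p + t • w)) :
    HasDerivAt (fun s : ℝ => g (p + s • w)) (dd w g (p + t • w)) t := by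
  have h1 : HasDerivAt (fun s : ℝ => p + s • w) w t := by
    simpa using ((hasDerivAt_id t).smul_const w).const_add p
  exact hg.hasFDerivAt.comp_hasDerivAt t h1

/-- The function `φ t = f (p + t • w)` has a local maximum at `0`, `φ' = dd w f` along the line and
`φ'' 0 = dd w (dd w f) p`; if this were positive, `φ'` would be positive to the right of `0`
(`isLocalMin_of_deriv_deriv_pos`, or the mean value theorem). -/
theorem max_dd (hf : ContDiffAt ℝ ∞ f p) (hm : IsLocalMax f p) (w : E4) : dd w (dd w f) p ≤ 0 := by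
  by_contra hc
  have hpos : 0 < dd w (dd w f) p := lt_of_not_ge hc
  have hl : Tendsto (fun s : ℝ => p + s • w) (𝓝 0) (𝓝 p) := by
    have h : Continuous fun s : ℝ => p + s • w := by fun_prop
    simpa using h.tendsto 0
  have hev : ∀ᶠ q in 𝓝 p, DifferentiableAt ℝ f q :=
    ((hf.of_le (m := 1) (by exact_mod_cast le_top)).eventually (by simp)).mono fun q hq =>
      hq.differentiableAt (by simp)
  have h1 : deriv (fun s : ℝ => f (p + s • w)) =ᶠ[𝓝 0] fun s : ℝ => dd w f (p + s • w) := by
    filter_upwards [hl.eventually hev] with s hs using (max_line p w s hs).deriv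
  have h2 : deriv (deriv fun s : ℝ => f (p + s • w)) 0 = dd w (dd w f) p := by
    rw [h1.deriv_eq]
    have h := max_line (g := dd w f) p w 0 (by simpa using diffAt (contDiffAt_dd hf w))
    simpa using h.deriv
  have hmax : IsLocalMax (fun s : ℝ => f (p + s • w)) 0 := by
    filter_upwards [hl.eventually hm] with s hs
    simpa using hs
  have hcont : ContinuousAt (fun s : ℝ => f (p + s • w)) 0 :=
    (max_line p w 0 (by simpa using diffAt hf)).continuousAt
  have hmin : IsLocalMin (fun s : ℝ => f (p + s • w)) 0 :=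
    isLocalMin_of_deriv_deriv_pos (by rw [h2]; exact hpos) hmax.deriv_eq_zero hcont
  have hconst : (fun s : ℝ => f (p + s • w)) =ᶠ[𝓝 0] fun _ => f (p + (0 : ℝ) • w) := by
    filter_upwards [hmax, hmin] with s h3 h4 using le_antisymm h3 h4
  have h3 : deriv (deriv fun s : ℝ => f (p + s • w)) 0 = 0 := by
    rw [hconst.deriv.deriv_eq]
    simp
  rw [h2] at h3
  exact hpos.ne' h3

/-- `fderiv_eq_sum` twice, `pd_sum`, `pd_const_mul`. -/
theorem max_hess (hf : ContDiffAt ℝ ∞ f p) (hm : IsLocalMax f p) (v : Fin 4 → ℝ) :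
    ∑ a, ∑ b, v a * v b * pd a (pd b f) p ≤ 0 := by
  have h := max_dd hf hm (WithLp.toLp 2 v)
  have e : dd (WithLp.toLp 2 v : E4) f = fun x => ∑ b, v b * pd b f x := by
    funext x
    rw [dd, fderiv_eq_sum]
  rw [e, dd, fderiv_eq_sum] at h
  refine le_of_eq_of_le (Finset.sum_congr rfl fun a _ => ?_) h
  rw [pd_sum _ fun b _ => (diffAt (contDiffAt_pd hf b)).const_mul (v b), Finset.mul_sum]
  refine Finset.sum_congr rfl fun b _ => ?_
  rw [pd_const_mul, mul_assoc]

/-- `H = Bᵀ * B` (`lin_sqrt`), sum `max_hess` over the rows of `B`. -/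
theorem max_trace {H : Mat} (hH : H.PosDef) (hf : ContDiffAt ℝ ∞ f p) (hm : IsLocalMax f p) :
    ∑ a, ∑ b, H a b * pd a (pd b f) p ≤ 0 := by
  obtain ⟨B, -, rfl⟩ := lin_sqrt hH
  have h : ∑ k, ∑ a, ∑ b, B k a * B k b * pd a (pd b f) p ≤ 0 :=
    Finset.sum_nonpos fun k _ => max_hess hf hm (B k)
  refine le_of_eq_of_le ?_ h
  rw [Finset.sum_comm (f := fun k a => ∑ b, B k a * B k b * pd a (pd b f) p)]
  refine Finset.sum_congr rfl fun a _ => ?_
  rw [Finset.sum_comm (f := fun k b => B k a * B k b * pd a (pd b f) p)]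
  refine Finset.sum_congr rfl fun b _ => ?_
  rw [Matrix.mul_apply, Finset.sum_mul]
  rfl

end Pool.Agent.Lib.MP_94aef8_gt
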