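import Pool.Agent.Lib.MP_94aef8_gt.B.Geo2

/-! Scaling of the metric by a constant. No derivation property is needed. -/

open Matrix

namespace Pool.Agent.Lib.MP_94aef8_gt

namespace Geo

variable {A : Type} [CommRing A] {c c' : Geo A} {t s : A}

/-- `c'` is `c` with the metric multiplied by the constant `t`, and `s` is the inverse of `t`. -/
structure Scl (c c' : Geo A) (t s : A) : Prop where
  D : c'.D = c.D
  hf : c'.hf = c.hf
  G : c'.G = t • c.G
  H : c'.H = s • c.H
  inv : t * s = 1
  dt : ∀ i f, c.D i (t * f) = t * c.D i f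
  ds : ∀ i f, c.D i (s * f) = s * c.D i f

namespace Scl

variable (S : Scl c c' t s)
include S

theorem scale_st (x : A) : s * (t * x) = x := by
  rw [← mul_assoc, mul_comm s, S.inv, one_mul]

theorem scale_dm (a : Fin 4) (h : MA A) : c'.dm a h = c.dm a h := by
  rw [Geo.dm, Geo.dm, S.D]

theorem scale_dm_t (a : Fin 4) (h : MA A) : c.dm a (t • h) = t • c.dm a h := by
  ext i j
  exact S.dt a (h i j)

theorem scale_mul (K h : MA A) : s • K * t • h = K * h := by
  rw [smul_mul_smul_comm, mul_comm s, S.inv, one_smul]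

theorem w (a : Fin 4) : c'.w a = c.w a := by
  ext k j
  simp only [Geo.w, of_apply, S.D, S.hf, S.G, S.H, Matrix.smul_apply, smul_eq_mul, S.dt]
  refine congrArg _ (Finset.sum_congr rfl fun l _ => ?_)
  rw [← mul_add, ← mul_sub, mul_mul_mul_comm, mul_comm s, S.inv, one_mul]

theorem rm (a b : Fin 4) : c'.rm a b = c.rm a b := by
  simp only [Geo.rm, S.w, S.scale_dm]

theorem ric : c'.ric = c.ric := by
  simp only [Geo.ric, S.w, S.D]

theorem nab (a : Fin 4) (h : MA A) : c'.nab a h = c.nab a h := by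
  simp only [Geo.nab, S.w, S.scale_dm]

theorem nab2 (a b : Fin 4) (h : MA A) : c'.nab2 a b h = c.nab2 a b h := by
  simp only [Geo.nab2, S.w, S.nab]

theorem nab_t (a : Fin 4) (h : MA A) : c.nab a (t • h) = t • c.nab a h := by
  simp only [Geo.nab, S.scale_dm_t, Matrix.mul_smul, Matrix.smul_mul, smul_sub]

theorem nab2_t (a b : Fin 4) (h : MA A) : c.nab2 a b (t • h) = t • c.nab2 a b h := by
  simp only [Geo.nab2, S.nab_t, smul_sub, Finset.smul_sum, smul_comm t]

theorem rough (h : MA A) : c'.rough h = s • c.rough h := by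
  simp only [Geo.rough, S.nab2, S.H, Matrix.smul_apply, smul_eq_mul, mul_smul, smul_neg,
    Finset.smul_sum]

theorem rring (h : MA A) : c'.rring h = s • c.rring h := by
  ext i j
  simp only [Geo.rring, S.rm, S.H, Matrix.smul_mul, of_apply, Matrix.smul_apply, smul_eq_mul,
    Finset.mul_sum]

theorem lich (h : MA A) : c'.lich h = s • c.lich h := by
  simp only [Geo.lich, S.rough, S.rring, S.ric, S.H, Matrix.mul_smul, Matrix.smul_mul, smul_add,
    smul_sub, smul_comm s]

theorem lich_t (h : MA A) : c.lich (t • h) = t • c.lich h := by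
  have h1 : c.rough (t • h) = t • c.rough h := by
    simp only [Geo.rough, S.nab2_t, smul_neg, Finset.smul_sum, smul_comm t]
  have h2 : c.rring (t • h) = t • c.rring h := by
    ext i j
    simp only [Geo.rring, Matrix.mul_smul, Matrix.smul_mul, of_apply, Matrix.smul_apply,
      smul_eq_mul, Finset.mul_sum]
  simp only [Geo.lich, h1, h2, Matrix.mul_smul, Matrix.smul_mul, smul_add, smul_sub, smul_comm t]

theorem ipD (h k : MA A) : c'.ipD h k = s ^ 3 * c.ipD h k := by
  simp only [Geo.ipD, Geo.ipT, S.nab, S.H, Matrix.mul_smul, Matrix.smul_mul, trace_smul,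
    Matrix.smul_apply, smul_eq_mul, Finset.mul_sum]
  exact Finset.sum_congr rfl fun a _ => Finset.sum_congr rfl fun b _ => by ring

theorem cov (X : VA A) : c'.cov X = c.cov X := by
  simp only [Geo.cov, S.w, S.D]

theorem dvg (X : VA A) : c'.dvg X = c.dvg X := by
  simp only [Geo.dvg, S.cov]

theorem cov_s (X : VA A) : c.cov (s • X) = s • c.cov X := by
  ext k i
  simp only [Geo.cov, of_apply, Matrix.smul_apply, Pi.smul_apply, smul_eq_mul, S.ds, mul_add,
    Finset.mul_sum, mul_left_comm s]

theorem lie (X : VA A) : c'.lie X = t • c.lie X := by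
  simp only [Geo.lie, S.cov, S.G, Matrix.smul_mul, transpose_smul, smul_add]

theorem divT (h : MA A) : c'.divT h = s • c.divT h := by
  ext j
  simp only [Geo.divT, S.nab, S.H, Matrix.smul_apply, Pi.smul_apply, smul_eq_mul, Finset.mul_sum,
    mul_assoc]

theorem low (h : MA A) (a : Fin 4) : c'.low (t • h) a = t • c.low h a := by
  ext l j
  simp only [Geo.low, S.nab, S.nab_t, S.hf, of_apply, Matrix.smul_apply, smul_eq_mul]
  ring

theorem cdf (h K : MA A) (a : Fin 4) : c'.cdf (t • h) (s • K) a = c.cdf h K a := by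
  rw [Geo.cdf, Geo.cdf, S.low, S.scale_mul]

theorem wl (h K : MA A) : c'.wl (t • h) (s • K) = c.wl h K := by
  ext l
  simp only [Geo.wl, S.low, Matrix.smul_apply, smul_eq_mul]
  refine Finset.sum_congr rfl fun a _ => Finset.sum_congr rfl fun b _ => ?_
  rw [mul_mul_mul_comm, mul_comm s, S.inv, one_mul]

theorem wv (h K : MA A) : c'.wv (t • h) (s • K) = s • c.wv h K := by
  rw [Geo.wv, Geo.wv, S.wl, smul_mulVec]

theorem cu (K h : MA A) : c'.cu (s • K) (t • h) = c.cu K h := by
  ext j k
  simp only [Geo.cu, S.rm, S.hf, of_apply, Matrix.mul_smul, Matrix.smul_mul, ← smul_add,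
    Matrix.smul_apply, smul_eq_mul, ← mul_add]
  refine congrArg _ (Finset.sum_congr rfl fun a _ => Finset.sum_congr rfl fun b _ => ?_)
  rw [mul_mul_mul_comm, mul_comm s, S.inv, one_mul]

theorem qq (h K : MA A) : c'.qq (t • h) (s • K) = c.qq h K := by
  have h1 : ∀ x y : A, s * x * (t * y) = x * y := fun x y => by
    rw [mul_mul_mul_comm, mul_comm s, S.inv, one_mul]
  simp only [Geo.qq, S.H, ← smul_sub, S.cu, S.cdf, S.wl, S.nab, S.nab_t, S.low, S.hf, S.scale_mul]
  simp only [Matrix.mul_smul, Matrix.smul_apply, smul_eq_mul, h1]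

theorem QQ (h K : MA A) : c'.QQ (t • h) (s • K) = c.QQ h K := by
  simp only [Geo.QQ, S.qq, S.H, ← smul_sub, S.nab2, S.nab2_t, S.hf, Matrix.smul_apply, smul_eq_mul,
    smul_smul, mul_right_comm s _ t, mul_comm s t, S.inv, one_mul]

end Scl

end Geo

end Pool.Agent.Lib.MP_94aef8_gt
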