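import Pool.Agent.Lib.MP_94aef8_gt.B.Ops2
import Pool.Agent.Lib.MP_94aef8_gt.B.Scale
import Pool.Agent.Lib.MP_94aef8_gt.B.Alg
import Pool.Agent.Lib.MP_94aef8_gt.C.Lin

/-! Scaling by constants; no smoothness is needed. -/

open Matrix

namespace Pool.Agent.Lib.MP_94aef8_gt

open Geo

variable (G h k : Tn) (X : Vn) {c : ℝ}

theorem d_const (G : Tn) (c : ℝ) (i : Fin 4) (f : Fn) :
    (geo G).D i ((fun _ => c) * f) = (fun _ => c) * (geo G).D i f :=
  funext fun p => pd_const_mul c f p i

theorem inv_csmul (hc : c ≠ 0) : inv (c • G) = c⁻¹ • inv G := funext fun p => lin_inv_smul (G p) hc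

theorem scl (hc : c ≠ 0) : Scl (geo G) (geo (c • G)) (fun _ => c) fun _ => c⁻¹ :=
  ⟨rfl, rfl, rfl, congrArg mf (inv_csmul G hc), funext fun _ => mul_inv_cancel₀ hc,
    d_const G c, d_const G c⁻¹⟩

theorem inv_add_csmul (hc : c ≠ 0) :
    mf (inv (c • G + c • h)) = (fun _ => c⁻¹ : Fn) • mf (inv (G + h)) := by
  rw [← smul_add, inv_csmul _ hc]
  rfl

theorem om_scale (hc : c ≠ 0) (a : Fin 4) : om (c • G) a = om G a := congrArg fm ((scl G hc).w a)

theorem rm_scale (hc : c ≠ 0) (a b : Fin 4) : rm (c • G) a b = rm G a b :=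
  congrArg fm ((scl G hc).rm a b)

theorem ric_scale (hc : c ≠ 0) : ric (c • G) = ric G := by
  rw [← fm_mf (ric G), ← fm_mf (ric (c • G)), ric_eq, ric_eq, (scl G hc).ric]

theorem nab_scale (hc : c ≠ 0) (a : Fin 4) : nab (c • G) a h = nab G a h :=
  congrArg fm ((scl G hc).nab a _)

theorem nab2_scale (hc : c ≠ 0) (a b : Fin 4) : nab2 (c • G) a b h = nab2 G a b h :=
  congrArg fm ((scl G hc).nab2 a b _)

theorem rough_scale (hc : c ≠ 0) : rough (c • G) h = c⁻¹ • rough G h :=
  congrArg fm ((scl G hc).rough _)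

theorem rring_scale (hc : c ≠ 0) : rring (c • G) h = c⁻¹ • rring G h :=
  congrArg fm ((scl G hc).rring _)

theorem lich_scale (hc : c ≠ 0) : lich (c • G) h = c⁻¹ • lich G h := congrArg fm ((scl G hc).lich _)

theorem ipD_scale (hc : c ≠ 0) (p : E4) : ipD (c • G) h k p = c⁻¹ ^ 3 * ipD G h k p :=
  congrFun ((scl G hc).ipD _ _) p

theorem cov_scale (hc : c ≠ 0) : cov (c • G) X = cov G X := congrArg fm ((scl G hc).cov _)

theorem dvg_scale (hc : c ≠ 0) : dvg (c • G) X = dvg G X := (scl G hc).dvg _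

theorem lie_scale (hc : c ≠ 0) : lie (c • G) X = c • lie G X := congrArg fm ((scl G hc).lie _)

theorem divT_scale (hc : c ≠ 0) : divT (c • G) h = c⁻¹ • divT G h := congrArg fv ((scl G hc).divT _)

theorem wv_scale (hc : c ≠ 0) : wv (c • G) (c • h) = c⁻¹ • wv G h := by
  rw [wv, inv_add_csmul G h hc]
  exact congrArg fv ((scl G hc).wv _ _)

theorem QQ_scale (hc : c ≠ 0) : QQ (c • G) (c • h) = QQ G h := by
  rw [QQ, inv_add_csmul G h hc]
  exact congrArg fm ((scl G hc).QQ _ _)

theorem pdM_csmul (c : ℝ) (a : Fin 4) : pdM a (c • h) = c • pdM a h :=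
  funext fun p => Matrix.ext fun i j => pd_const_mul c (fun x => h x i j) p a

theorem nab_csmul (c : ℝ) (a : Fin 4) : nab G a (c • h) = c • nab G a h := by
  funext p
  simp only [nab_apply, pdM_csmul, Pi.smul_apply, Matrix.mul_smul, Matrix.smul_mul, smul_sub]

theorem nab2_csmul (c : ℝ) (a b : Fin 4) : nab2 G a b (c • h) = c • nab2 G a b h := by
  funext p
  simp only [nab2_apply, nab_csmul, Pi.smul_apply, smul_sub, Finset.smul_sum, smul_comm c]

theorem rough_csmul (c : ℝ) : rough G (c • h) = c • rough G h := by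
  funext p
  simp only [rough_apply, nab2_csmul, Pi.smul_apply, smul_neg, Finset.smul_sum, smul_comm c]

theorem rring_csmul (c : ℝ) : rring G (c • h) = c • rring G h := by
  ext p i j
  simp only [rring_apply, Pi.smul_apply, Matrix.mul_smul, Matrix.smul_mul, Matrix.smul_apply,
    Finset.smul_sum]

theorem lich_csmul (c : ℝ) : lich G (c • h) = c • lich G h := by
  funext p
  simp only [lich_apply, rough_csmul, rring_csmul, Pi.smul_apply, Matrix.mul_smul, Matrix.smul_mul,
    smul_add, smul_sub, smul_comm c]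

theorem Pop_csmul (μ c : ℝ) : Pop μ G (c • h) = c • Pop μ G h := by
  funext p
  simp only [Pop, lich_csmul, Pi.smul_apply, smul_add, smul_comm c]

theorem PP_csmul (c : ℝ) : PP G (c • h) = c • PP G h := by
  funext p
  simp only [PP, lich_csmul, Pi.smul_apply, smul_add, smul_comm c]

theorem lich_zero : lich G 0 = 0 := by simpa using lich_csmul G 0 0

theorem ipD_csmul (c d : ℝ) (p : E4) : ipD G (c • h) (d • k) p = c * d * ipD G h k p := by
  simp only [ipD_apply, nab_csmul, ipT, Pi.smul_apply, lin_ipM_smul_left, lin_ipM_smul_right,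
    Finset.mul_sum]
  exact Finset.sum_congr rfl fun a _ => Finset.sum_congr rfl fun b _ => by ring

theorem cov_csmul (c : ℝ) : cov G (c • X) = c • cov G X := by
  ext p k i
  simp only [cov_apply, Pi.smul_apply, Matrix.smul_apply, smul_eq_mul, pd_const_mul, mul_add,
    Finset.mul_sum, mul_left_comm c]

theorem dvg_csmul (c : ℝ) (p : E4) : dvg G (c • X) p = c * dvg G X p := by
  rw [dvg_apply, dvg_apply, cov_csmul, Pi.smul_apply, trace_smul, smul_eq_mul]

theorem lie_csmul (c : ℝ) : lie G (c • X) = c • lie G X := by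
  funext p
  simp only [lie_apply, cov_csmul, Pi.smul_apply, Matrix.mul_smul, transpose_smul, smul_add]

theorem lie_zero : lie G 0 = 0 := by simpa using lie_csmul G 0 0

theorem divT_csmul (c : ℝ) : divT G (c • h) = c • divT G h := by
  ext p j
  simp only [divT_apply, nab_csmul, Pi.smul_apply, Matrix.smul_apply, smul_eq_mul, Finset.mul_sum,
    mul_left_comm c]

theorem trG_csmul (c : ℝ) : trG G (c • h) = fun p => c * trG G h p := by
  funext p
  simp only [trG, Pi.smul_apply, Matrix.mul_smul, trace_smul, smul_eq_mul]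

theorem df_csmul (c : ℝ) (f : Fn) (p : E4) : df (fun y => c * f y) p = c • df f p :=
  funext fun i => pd_const_mul c f p i

theorem bian_csmul (c : ℝ) : bian G (c • h) = c • bian G h := by
  funext p
  simp only [bian_apply, divT_csmul, trG_csmul, df_csmul, Pi.smul_apply, smul_comm _ c, ← smul_sub,
    Matrix.mulVec_smul]

theorem lap_csmul (c : ℝ) (f : Fn) (p : E4) : lap G (fun y => c * f y) p = c * lap G f p := by
  have e : grad G (fun y => c * f y) = c • grad G f := by
    funext q
    simp only [grad, df_csmul, Pi.smul_apply, Matrix.mulVec_smul]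
  rw [lap, e, dvg_csmul, lap]

theorem ric_rm (p : E4) (j k : Fin 4) : ric G p j k = ∑ i, rm G i j p i k := by
  have e := congrFun (Geo.ric_eq (c := geo G) j k) p
  rw [← MP_94aef8_gt.ric_eq, Finset.sum_apply] at e
  exact e

theorem lie_symm (p : E4) : (lie G X p)ᵀ = lie G X p := by
  rw [lie_apply, transpose_add, transpose_transpose, add_comm]

theorem om_const (A : Mat) (a : Fin 4) : om (fun _ => A) a = 0 := by
  ext p k j
  simp [om_apply, chr, pd_const]

theorem rm_const (A : Mat) (a b : Fin 4) : rm (fun _ => A) a b = 0 := by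
  funext p
  have e : ∀ i, pdM i 0 p = 0 := fun i => Matrix.ext fun _ _ => pd_const 0 p i
  simp [rm_apply, om_const, e]

end Pool.Agent.Lib.MP_94aef8_gt
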