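import Pool.Agent.Lib.MP_94aef8_gt.B.Id1
import Pool.Agent.Lib.MP_94aef8_gt.B.Id2
import Pool.Agent.Lib.MP_94aef8_gt.B.Scal
import Pool.Agent.Lib.MP_94aef8_gt.B.Ineq
import Pool.Agent.Lib.MP_94aef8_gt.B.Max

/-! Inequalities, symmetry, the maximum principle and the divergence theorem. -/

open scoped ContDiff Topology
open Matrix Filter Set MeasureTheory

namespace Pool.Agent.Lib.MP_94aef8_gt

variable {U : Set E4} {G h k : Tn} {X Y : Vn} {f : Fn} {p : E4}

theorem ipD_eq_ip3 (G h : Tn) (p : E4) : ipD G h h p = ip3 (G p) fun a => nab G a h p :=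
  ipD_apply G h h p

theorem ipD_nonneg (hG : (G p).PosDef) (h : Tn) : 0 ≤ ipD G h h p := by
  rw [ipD_eq_ip3]
  exact ip3_nonneg hG _

theorem crs_le_ipD (hG : (G p).PosDef) (h : Tn) : crs G h p ≤ ipD G h h p := by
  rw [ipD_eq_ip3, crs_apply]
  exact crs_le_ip3 hG _

theorem nabX_le (hG : (G p).PosDef) (X : Vn) (h : Tn) :
    ipT G (nabX G X h) (nabX G X h) p ≤ ipV G X X p * ipD G h h p := by
  rw [ipD_eq_ip3]
  exact ipM_contr_le hG _ _

theorem divT_le (hG : (G p).PosDef) (h : Tn) :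
    divT G h p ⬝ᵥ (G p)⁻¹ *ᵥ divT G h p ≤ 4 * ipD G h h p := by
  rw [ipD_eq_ip3, show divT G h p = _ from funext (divT_apply G h p)]
  exact div_sq_le hG fun a => nab G a h p

theorem form_nonneg {A : Mat} (hA : A.PosDef) (v : Fin 4 → ℝ) : 0 ≤ v ⬝ᵥ A *ᵥ v := by
  simpa using hA.posSemidef.dotProduct_mulVec_nonneg v

theorem ipT_PP (G h k : Tn) (p : E4) : ipT G (PP G h) k p = ipT G (lich G h) k p + 6 * ipT G h k p := by
  simp only [ipT, PP, lin_ipM_add_left, lin_ipM_smul_left]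

namespace Good

variable (hG : Good G U)
include hG

theorem symT_ric : SymT (ric G) U := ⟨hG.sm_ric, fun _ hp => hG.ric_symm hp⟩

theorem symT_Err : SymT (Err G) U := hG.symT_ric.add (hG.symT.csmul 3)

theorem symT_lich (hh : SymT h U) : SymT (lich G h) U :=
  ⟨hG.sm_lich hh.smooth, fun p hp => by
    rw [← hG.lich_transpose hp hh.smooth]
    exact lich_cg (locF_open hG.isOpen) EventuallyEq.rfl (eventuallyEq_principal.2 hh.symm) hp⟩

theorem symT_Pop (μ : ℝ) (hh : SymT h U) : SymT (Pop μ G h) U := (hG.symT_lich hh).add (hh.csmul _)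

theorem symT_PP (hh : SymT h U) : SymT (PP G h) U := (hG.symT_lich hh).add (hh.csmul _)

theorem symT_QQ (hG' : Good (G + h) U) : SymT (QQ G h) U :=
  ⟨hG.sm_QQ hG', fun _ hp => hG.QQ_symm hp hG'⟩

theorem symT_lie (hX : SmV X U) : SymT (lie G X) U := ⟨hG.sm_lie hX, fun p _ => lie_symm G X p⟩

theorem int_dvg (hX : SmV X U) {K : Set E4} (hK : IsCompact K) (hKU : K ⊆ U)
    (h0 : ∀ p ∈ U, p ∉ K → X p = 0) :
    IntegrableOn (fun p => rho G p * dvg G X p) U ∧ ∫ p in U, rho G p * dvg G X p = 0 := by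
  have hI := fun i => integral_pd_eq_zero hG.isOpen hK hKU (hG.smooth_rho.mul (hX i))
    (fun p hp hpK => by simp [h0 p hp hpK]) i
  have he : EqOn (fun p => ∑ i, pd i (fun y => rho G y * X y i) p) (fun p => rho G p * dvg G X p) U :=
    fun p hp => (hG.rho_dvg hp hX).symm
  refine ⟨IntegrableOn.congr_fun (integrable_finsetSum _ fun i _ => (hI i).1) he
    hG.isOpen.measurableSet, ?_⟩
  rw [← setIntegral_congr_fun hG.isOpen.measurableSet he, integral_finsetSum _ fun i _ => (hI i).1]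
  exact Finset.sum_eq_zero fun i _ => (hI i).2

variable (hp : p ∈ U)
include hp

theorem Phi_eq (hG' : Good (G + h) U) :
    Phi G h p = Err G p + (1 / 2 : ℝ) • PP G h p + QQ G h p := by
  rw [Phi, hG.shi hp hG', Err, PP]
  module

theorem Pop_add (μ : ℝ) (hh : SmT h U) (hk : SmT k U) :
    Pop μ G (h + k) p = Pop μ G h p + Pop μ G k p := by
  rw [Pop, Pop, Pop, hG.lich_add hp hh hk, Pi.add_apply]
  module

theorem Pop_sub (μ : ℝ) (hh : SmT h U) (hk : SmT k U) :
    Pop μ G (h - k) p = Pop μ G h p - Pop μ G k p := by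
  rw [Pop, Pop, Pop, hG.lich_sub hp hh hk, Pi.sub_apply]
  module

theorem energy_PP (hh : SymT h U) :
    ipT G (PP G h) h p = ipD G h h p + pot G p (h p) - dvg G (gX G h h) p := by
  rw [ipT_PP, hG.energy hp hh, pot, rring_at G (h := fun _ => h p) (h' := h) rfl, ipT, ipT]
  ring

theorem koiso_le (hh : SymT h U) :
    koi G p (h p) + dvg G (kX G h) p - dvg G (gX G h h) p ≤ ipT G (PP G h) h p := by
  have h1 := crs_le_ipD (hG.pos p hp) h
  have h2 := form_nonneg (hG.pos p hp).inv (divT G h p)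
  rw [hG.koiso hp hh] at h1
  rw [ipT_PP, hG.energy hp hh, koi, rring_at G (h := fun _ => h p) (h' := h) rfl]
  simp only [ipT] at h1 ⊢
  linarith

theorem df_ipT_self (hh : SmT h U) :
    df (ipT G h h) p = (2 : ℝ) • fun a => ipM (G p) (nab G a h p) (h p) := by
  funext a
  rw [df, hG.pd_ipT hp hh hh, ipT, ipT, lin_ipM_comm (hG.tr hp) (h p), Pi.smul_apply, two_smul]

/-- Kato's inequality. -/
theorem kato_grad (hh : SmT h U) :
    grad G (ipT G h h) p ⬝ᵥ df (ipT G h h) p ≤ 4 * ipT G h h p * ipD G h h p := by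
  have h1 := ipM_grad_le (hG.pos p hp) (fun a => nab G a h p) (h p)
  rw [grad, hG.df_ipT_self hp hh, ipD_eq_ip3, ipT, mulVec_smul, smul_dotProduct, dotProduct_smul,
    dotProduct_comm, smul_eq_mul, smul_eq_mul]
  linarith

theorem kato (hh : SmT h U) (v : Fin 4 → ℝ) :
    (v ⬝ᵥ df (ipT G h h) p) ^ 2 ≤ 4 * (v ⬝ᵥ G p *ᵥ v) * ipT G h h p * ipD G h h p := by
  have h1 := dot_sq_le (hG.pos p hp) v (df (ipT G h h) p)
  have h2 := mul_le_mul_of_nonneg_left (hG.kato_grad hp hh) (form_nonneg (hG.pos p hp) v)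
  rw [grad, dotProduct_comm ((G p)⁻¹ *ᵥ _)] at h2
  linarith

/-- The maximum principle. -/
theorem lap_max (hf : ContDiffOn ℝ ∞ f U) (hm : IsLocalMax f p) : df f p = 0 ∧ lap G f p ≤ 0 := by
  refine ⟨funext (max_pd hm), ?_⟩
  simp only [hG.lap_coord hp hf, max_pd hm, mul_zero, Finset.sum_const_zero, sub_zero]
  exact max_trace (hG.pos p hp).inv (hf.contDiffAt (hG.isOpen.mem_nhds hp)) hm

theorem gauge_max (hX : SmV X U) {c : ℝ} (hc : 0 < c)
    (he : ∀ y ∈ U, ric G y - (1 / 2 : ℝ) • lie G X y + c • G y = 0)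
    (hm : IsLocalMax (ipV G X X) p) : ipV G X X p ≤ 0 := by
  obtain ⟨h1, h2⟩ := hG.lap_max hp (hG.sm_ipV hX hX) hm
  have h3 := hG.gauge hp hX c he
  have h4 := lin_ipM_nonneg (hG.pos p hp) (G p * cov G X p)
  rw [h1, dotProduct_zero] at h3
  by_contra h5
  nlinarith [mul_pos hc (not_le.1 h5)]

theorem divT_ric : divT G (ric G) p = (1 / 2 : ℝ) • df (scal G) p := by
  funext a
  rw [Pi.smul_apply, df, hG.bianchiC hp, smul_eq_mul]
  ring

theorem divT_conf (hf : ContDiffOn ℝ ∞ f U) : divT G (fun y => f y • G y) p = df f p := by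
  rw [hG.divT_smul hp hf hG.smooth, hG.divT_G hp, smul_zero, zero_add, grad, ← mulVec_transpose,
    hG.tr hp, mulVec_mulVec, hG.mul_inv hp, one_mulVec]

/-- Christoffel symbols of a diagonal metric. -/
theorem om_diag {g : Fin 4 → Fn} (e : ∀ y ∈ U, G y = diagonal fun i => g i y) (a k j : Fin 4) :
    om G a p k j = 1 / 2 * (g k p)⁻¹ * ((if j = k then pd a (g k) p else 0) +
      (if a = k then pd j (g k) p else 0) - if a = j then pd k (g a) p else 0) := by
  have h1 : ∀ i j l, pd l (fun x => G x i j) p = if i = j then pd l (g i) p else 0 := fun i j l => by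
    rw [pd_congrOn hG.isOpen (h := fun x => if i = j then g i x else 0)
      (fun y hy => by simp only [e y hy, diagonal_apply]) l hp]
    split_ifs
    · rfl
    · exact pd_const 0 p l
  have h2 : ∀ i, g i p ≠ 0 := fun i => by
    have := (hG.pos p hp).diag_pos (i := i)
    rw [e p hp, diagonal_apply_eq] at this
    exact this.ne'
  have h3 : (G p)⁻¹ = diagonal fun i => (g i p)⁻¹ := by
    refine Matrix.inv_eq_right_inv ?_
    rw [e p hp, diagonal_mul_diagonal, ← diagonal_one]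
    exact congrArg diagonal (funext fun i => mul_inv_cancel₀ (h2 i))
  rw [om_apply, chr, h3, Finset.sum_eq_single k (fun l _ hl => by rw [diagonal_apply_ne' _ hl, zero_mul])
    (fun hk => absurd (Finset.mem_univ k) hk), diagonal_apply_eq, h1, h1, h1, mul_assoc]
  congr 4
  · split_ifs with h
    · rw [h]
    · rfl
  · split_ifs with h
    · rw [h]
    · rfl

end Good

end Pool.Agent.Lib.MP_94aef8_gt
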