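import Pool.Agent.Lib.MP_94aef8_gt.B.Id2

/-! The first variation of the Ricci tensor, the scalar curvature and the volume density. -/

open scoped ContDiff Topology
open Matrix Filter Set

namespace Pool.Agent.Lib.MP_94aef8_gt

open Geo

variable {U : Set E4} {G u : Tn} {p : E4}

/-- The family of metrics on the product space. -/
noncomputable def vG (G u : Tn) (q : ℝ × E4) : Mat := G q.2 + q.1 • u q.2

/-- The set where the family is invertible. -/
def vW (G u : Tn) (U : Set E4) : Set (ℝ × E4) := {q | q.2 ∈ U ∧ (vG G u q).det ≠ 0}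

theorem var_sm (hG : SmT G U) (hu : SmT u U) (i j : Fin 4) :
    ContDiffOn ℝ ∞ (fun q => vG G u q i j) (Prod.snd ⁻¹' U) :=
  ((hG i j).comp contDiffOn_snd fun _ h => h).add
    (contDiffOn_fst.mul ((hu i j).comp contDiffOn_snd fun _ h => h))

theorem var_open (hG : Good G U) (hu : SmT u U) : IsOpen (vW G u U) :=
  (smooth_det (var_sm hG.smooth hu)).continuousOn.isOpen_inter_preimage
    (hG.isOpen.preimage continuous_snd) isOpen_ne

theorem var_slice {W : Set (ℝ × E4)} (hW : IsOpen W) {F : ℝ × E4 → ℝ} (hF : ContDiffOn ℝ ∞ F W)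
    {t : ℝ} (hp : (t, p) ∈ W) (i : Fin 4) : pd i (F ∘ Prod.mk t) p = dd (0, bas i) F (t, p) := by
  have h := ((diffAt' hW hF hp).hasFDerivAt.comp p (hasFDerivAt_prodMk_right t p)).fderiv
  rw [pd, h]
  rfl

theorem var_time {W : Set (ℝ × E4)} (hW : IsOpen W) {F : ℝ × E4 → ℝ} (hF : ContDiffOn ℝ ∞ F W)
    {t : ℝ} (hp : (t, p) ∈ W) : HasDerivAt (fun s => F (s, p)) (dd (1, 0) F (t, p)) t :=
  (diffAt' hW hF hp).hasFDerivAt.comp_hasDerivAt t ((hasDerivAt_id t).prodMk (hasDerivAt_const t p))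

/-- The slice at time `t`. -/
def vS (G u : Tn) (U : Set E4) (t : ℝ) : Set E4 := Prod.mk t ⁻¹' vW G u U

/-- Restriction to a slice. -/
noncomputable def vR (G u : Tn) (U : Set E4) (t : ℝ) : SU (vW G u U) →+* Germ (𝓟 (vS G u U t)) ℝ :=
  (iu _).comp (pullG (contDiff_prodMk_right t).contDiffOn fun _ h => h)

theorem var_r0 (t : ℝ) {F : ℝ × E4 → ℝ} (hF : ContDiffOn ℝ ∞ F (vW G u U)) :
    R0 (vR G u U t) (sgm F hF) (F ∘ Prod.mk t) := Eq.refl _

theorem var_main (hG : Good G U) (hu : SymT u U) : ∃ (s : Geo (SU (vW G u U)))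
    (δ : SU (vW G u U) → SU (vW G u U)), s.OK ∧ (∀ a b, δ (a + b) = δ a + δ b) ∧
      (∀ a b, δ (a * b) = δ a * b + a * δ b) ∧ (∀ i a, δ (s.D i a) = s.D i (δ a)) ∧
      Zig (vR G u U 0) s G ∧ RT (vR G u U 0) (s.G.map δ) u ∧ (∀ t, Zig (vR G u U t) s (G + t • u)) ∧
      ∀ p ∈ U, ∀ a (F : ℝ → Fn) (f : Fn), (∀ t, R0 (vR G u U t) a (F t)) →
        R0 (vR G u U 0) (δ a) f → HasDerivAt (fun t => F t p) (f p) 0 := by
  have hW := var_open hG hu.smooth
  have h1 : ∀ i j, ContDiffOn ℝ ∞ (fun q => vG G u q i j) (vW G u U) := fun i j =>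
    (var_sm hG.smooth hu.smooth i j).mono fun _ h => h.1
  have h2 := smooth_inv h1 fun _ h => h.2
  obtain ⟨s, ok, hD, F⟩ := lift_geo hW (fun i => ((0, bas i) : ℝ × E4))
    ⟨fun i => dd (0, bas i), fun _ => 1 / 2, Matrix.of fun i j q => vG G u q i j,
      Matrix.of fun i j q => (vG G u q)⁻¹ i j⟩ rfl h1 h2
    (fun q hq i j => by
      have e : (vG G u q)ᵀ = vG G u q := by
        rw [vG, transpose_add, transpose_smul, hG.tr hq.1, hu.symm _ hq.1]
      exact congrFun (congrFun e i) j)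
    (fun q hq i j => by
      have e := congrFun (congrFun (Matrix.mul_nonsing_inv _ hq.2.isUnit) i) j
      by_cases h : i = j <;> simpa [Matrix.mul_apply, Matrix.one_apply, h] using e)
  have eG : ∀ i j, s.G i j = sgm _ (h1 i j) := fun i j => iu_inj (F.Ga i j)
  have eH : ∀ i j, s.H i j = sgm _ (h2 i j) := fun i j => iu_inj (F.Ha i j)
  have eh : s.hf = sgm (fun _ => 1 / 2) contDiffOn_const := iu_inj F.hf
  have Z : ∀ t, Zig (vR G u U t) s (G + t • u) := fun t => by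
    have hS : IsOpen (vS G u U t) := hW.preimage (Continuous.prodMk_right t)
    refine ⟨gG (locF_open hS) bas (geo (G + t • u)), ⟨fun i a => ?_, ?_, ?_, ?_⟩, hom_gG _ rfl⟩
    · obtain ⟨f, hf, rfl⟩ := ex_sgm a
      rw [hD]
      exact cg_eq.2 (eventuallyEq_principal.2 fun x hx => (var_slice hW hf hx i).symm)
    · rw [eh]
      rfl
    · exact Matrix.ext fun i j => by rw [Matrix.map_apply, eG]; rfl
    · exact Matrix.ext fun i j => by rw [Matrix.map_apply, eH]; rfl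
  refine ⟨s, sD hW (1, 0), ok, sD_add hW _, sD_mul hW _, fun i a => ?_, by simpa using Z 0,
    RT.of fun i j => ?_, Z, fun p hp a F f r1 r2 => ?_⟩
  · rw [hD]
    exact sD_comm hW _ _ a
  · rw [Matrix.map_apply, eG]
    refine cg_eq.2 (eventuallyEq_principal.2 fun x hx => (var_time hW (h1 i j) hx).unique ?_)
    simpa [vG] using ((hasDerivAt_id (0 : ℝ)).mul_const (u x i j)).const_add (G x i j)
  · obtain ⟨Φ, hΦ, rfl⟩ := ex_sgm a
    have h0 : ((0 : ℝ), p) ∈ vW G u U := ⟨hp, by simpa [vG] using (hG.det_pos hp).ne'⟩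
    have e : f p = dd (1, 0) Φ (0, p) := r2.ev (var_r0 0 (contDiffOn_dd hW hΦ (1, 0))) rfl h0
    rw [e]
    refine (var_time hW hΦ h0).congr_of_eventuallyEq ?_
    filter_upwards [(hW.preimage (Continuous.prodMk_left p)).mem_nhds h0] with t ht
    exact (r1 t).ev (var_r0 t hΦ) rfl ht

theorem Good.ric_var (hG : Good G U) (hp : p ∈ U) (hu : SymT u U) (j k : Fin 4) :
    HasDerivAt (fun t : ℝ => ric (G + t • u) p j k) (ricL G u p j k) 0 := by
  obtain ⟨s, δ, ok, ha, hm, hd, Z0, r, Z, H⟩ := var_main hG hu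
  refine H p hp (s.ric j k) (fun t x => ric (G + t • u) x j k) (fun x => ricL G u x j k)
    (fun t => (Z t).ric.entry j k) ?_
  have e := (Z0.ricL r).entry j k
  rwa [← ok.ric_var ha hm hd] at e

section Ring

variable {A : Type} [CommRing A] {c : Geo A} {δ : A → A} (hc : c.OK)
  (ha : ∀ a b, δ (a + b) = δ a + δ b) (hm : ∀ a b, δ (a * b) = δ a * b + a * δ b)
include hc ha hm

theorem var_ok : Geo.OK ⟨fun _ => δ, c.hf, c.G, c.H⟩ :=
  ⟨fun _ => ha, fun _ => hm, fun _ _ _ => rfl, hc.hh, hc.symm, hc.inv⟩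

theorem var_H : c.H.map δ = -(c.H * c.G.map δ * c.H) := by
  have e := (var_ok hc ha hm).dm_mul 0 c.G c.H
  rw [hc.inv, (var_ok hc ha hm).dm_one] at e
  have e' : c.G.map δ * c.H + c.G * c.H.map δ = 0 := e.symm
  rw [mul_assoc, eq_neg_of_add_eq_zero_left e', mul_neg, neg_neg, ← mul_assoc, hc.inv', one_mul]

theorem var_det : δ c.G.det = c.trG (c.G.map δ) * c.G.det := lich_b_det (var_ok hc ha hm) 0

theorem var_scal (hd : ∀ i a, δ (c.D i a) = c.D i (δ a)) :
    δ c.scal = c.trG (c.ricL (c.G.map δ)) - c.ipT (c.G.map δ) c.ric := by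
  have e1 : δ c.scal = ((c.H * c.ric).map δ).trace := (var_ok hc ha hm).d_trace 0 _
  have e2 : (c.H * c.ric).map δ = c.H.map δ * c.ric + c.H * c.ric.map δ :=
    (var_ok hc ha hm).dm_mul 0 _ _
  rw [e1, e2, var_H hc ha hm, hc.ric_var ha hm hd, Geo.ipT, Geo.trG, hc.ric_symm, trace_add, neg_mul,
    trace_neg, neg_add_eq_sub]

end Ring

theorem Good.inv_var (hG : Good G U) (hp : p ∈ U) (hu : SymT u U) (j k : Fin 4) :
    HasDerivAt (fun t : ℝ => ((G + t • u) p)⁻¹ j k) ((-((G p)⁻¹ * u p * (G p)⁻¹)) j k) 0 := by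
  obtain ⟨s, δ, ok, ha, hm, hd, Z0, r, Z, H⟩ := var_main hG hu
  refine H p hp (s.H j k) (fun t x => ((G + t • u) x)⁻¹ j k)
    (fun x => (-((G x)⁻¹ * u x * (G x)⁻¹)) j k) (fun t => (Z t).H.entry j k) ?_
  have e := ((Z0.H.mul r).mul Z0.H).neg.entry j k
  rwa [← var_H ok ha hm] at e

theorem Good.det_var (hG : Good G U) (hp : p ∈ U) (hu : SymT u U) :
    HasDerivAt (fun t : ℝ => ((G + t • u) p).det) (trG G u p * (G p).det) 0 := by
  obtain ⟨s, δ, ok, ha, hm, hd, Z0, r, Z, H⟩ := var_main hG hu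
  refine H p hp s.G.det (fun t x => ((G + t • u) x).det) (fun x => trG G u x * (G x).det)
    (fun t => (Z t).G'.det) ?_
  rw [var_det ok ha hm]
  exact (Z0.trG r).mul Z0.G'.det

theorem Good.rho_var (hG : Good G U) (hp : p ∈ U) (hu : SymT u U) :
    HasDerivAt (fun t : ℝ => rho (G + t • u) p) (1 / 2 * trG G u p * rho G p) 0 := by
  have h := (hG.det_var hp hu).sqrt (by simpa using (hG.det_pos hp).ne')
  have e : (G p).det = rho G p * rho G p := (Real.mul_self_sqrt (hG.det_pos hp).le).symm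
  have h0 := (hG.rho_pos hp).ne'
  refine h.congr_deriv ?_
  rw [zero_smul, add_zero, ← rho, e]
  field_simp

theorem Good.scal_var (hG : Good G U) (hp : p ∈ U) (hu : SymT u U) :
    HasDerivAt (fun t : ℝ => scal (G + t • u) p)
      (dvg G (bian G u) p - 1 / 2 * lap G (trG G u) p - ipT G u (ric G) p) 0 := by
  rw [← hG.trG_ricL hp hu.smooth]
  obtain ⟨s, δ, ok, ha, hm, hd, Z0, r, Z, H⟩ := var_main hG hu
  refine H p hp s.scal (fun t => scal (G + t • u)) (fun x => trG G (ricL G u) x - ipT G u (ric G) x)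
    (fun t => (Z t).scal) ?_
  rw [var_scal ok ha hm hd]
  exact (Z0.trG (Z0.ricL r)).sub (Z0.ipT r Z0.ric)

end Pool.Agent.Lib.MP_94aef8_gt
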