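import Pool.Agent.Lib.MP_94aef8_gt.B.Nat
import Pool.Agent.Lib.MP_94aef8_gt.B.Pos
import Pool.Agent.Lib.MP_94aef8_gt.B.Var

/-! All local facts. -/
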