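import Pool.Agent.Lib.MP_94aef8_gt.B.Geo2

/-! Graded classes of functions. No derivation property is needed. -/

open Matrix

namespace Pool.Agent.Lib.MP_94aef8_gt

namespace Geo

variable {A : Type} [CommRing A] {c : Geo A}

/-- All entries lie in `I`. -/
def MIn {σ : Type} [SetLike σ A] (I : σ) (M : MA A) : Prop := ∀ i j, M i j ∈ I

/-- All entries lie in `I`. -/
def VIn {σ : Type} [SetLike σ A] (I : σ) (X : VA A) : Prop := ∀ i, X i ∈ I

/-- A decreasing family of subrings; the derivations lower the level by one. -/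
structure Gr (c : Geo A) (S : ℕ → Subring A) : Prop where
  mono : ∀ k, S (k + 1) ≤ S k
  d : ∀ k i, ∀ x ∈ S (k + 1), c.D i x ∈ S k
  hf : ∀ k, c.hf ∈ S k

/-- A decreasing family of modules over the subrings. -/
structure Md (c : Geo A) (S : ℕ → Subring A) (I : ℕ → AddSubgroup A) : Prop where
  gr : Gr c S
  mono : ∀ k, I (k + 1) ≤ I k
  d : ∀ k i, ∀ x ∈ I (k + 1), c.D i x ∈ I k
  mul : ∀ k, ∀ x ∈ S k, ∀ y ∈ I k, x * y ∈ I k

/-- Products of members of `I` and `I'` lie in `II`. -/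
def Pr (I I' II : ℕ → AddSubgroup A) : Prop := ∀ k, ∀ x ∈ I k, ∀ y ∈ I' k, x * y ∈ II k

/-- The metric and its inverse have level `k`. -/
def GH (c : Geo A) (S : ℕ → Subring A) (k : ℕ) : Prop := MIn (S k) c.G ∧ MIn (S k) c.H

variable {S : ℕ → Subring A} {I I' II : ℕ → AddSubgroup A} {k : ℕ} {h h' K : MA A} {X Y : VA A}

theorem Gr.md (g : Gr c S) : Md c S fun k => (S k).toAddSubgroup :=
  ⟨g, g.mono, g.d, fun k _ hx _ hy => (S k).mul_mem hx hy⟩

theorem Gr.pr (S : ℕ → Subring A) : Pr (fun k => (S k).toAddSubgroup)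
    (fun k => (S k).toAddSubgroup) fun k => (S k).toAddSubgroup :=
  fun k _ hx _ hy => (S k).mul_mem hx hy

theorem Gr.sh (g : Gr c S) (h K : MA A) : Gr (c.sh h K) S := ⟨g.mono, g.d, g.hf⟩

theorem Md.sh (m : Md c S I) (h K : MA A) : Md (c.sh h K) S I := ⟨m.gr.sh h K, m.mono, m.d, m.mul⟩

section Closure

variable {σ τ ρ : Type} [SetLike σ A] [SetLike τ A] [SetLike ρ A] {P : σ} {Q : τ} {R : ρ}
  {M N : MA A} {x : A}

omit [CommRing A] in
theorem MIn.transpose (hM : MIn P M) : MIn P Mᵀ := fun i j => hM j i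

omit [CommRing A] in
theorem MIn.mono (p : ∀ x ∈ P, x ∈ Q) (hM : MIn P M) : MIn Q M := fun i j => p _ (hM i j)

omit [CommRing A] in
theorem VIn.mono (p : ∀ x ∈ P, x ∈ Q) (hX : VIn P X) : VIn Q X := fun i => p _ (hX i)

omit [CommRing A] in
theorem MIn.dm {a : Fin 4} (p : ∀ x ∈ P, c.D a x ∈ Q) (hM : MIn P M) : MIn Q (c.dm a M) :=
  fun i j => p _ (hM i j)

theorem MIn.smul (p : ∀ x ∈ P, ∀ y ∈ Q, x * y ∈ R) (hx : x ∈ P) (hM : MIn Q M) :
    MIn R (x • M) := fun i j => p _ hx _ (hM i j)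

theorem VIn.smul (p : ∀ x ∈ P, ∀ y ∈ Q, x * y ∈ R) (hx : x ∈ P) (hX : VIn Q X) :
    VIn R (x • X) := fun i => p _ hx _ (hX i)

variable [AddSubgroupClass ρ A]

theorem MIn.zero : MIn R (0 : MA A) := fun _ _ => zero_mem R

theorem MIn.add (hM : MIn R M) (hN : MIn R N) : MIn R (M + N) :=
  fun i j => add_mem (hM i j) (hN i j)

theorem MIn.sub (hM : MIn R M) (hN : MIn R N) : MIn R (M - N) :=
  fun i j => sub_mem (hM i j) (hN i j)

theorem MIn.neg (hM : MIn R M) : MIn R (-M) := fun i j => neg_mem (hM i j)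

theorem MIn.sum {ι : Type} {s : Finset ι} {F : ι → MA A} (hF : ∀ a, MIn R (F a)) :
    MIn R (∑ a ∈ s, F a) := fun i j => by
  rw [Matrix.sum_apply]
  exact sum_mem fun a _ => hF a i j

theorem MIn.two (hM : MIn R M) : MIn R ((2 : A) • M) := by
  rw [two_smul]
  exact hM.add hM

theorem MIn.trace (hM : MIn R M) : M.trace ∈ R := sum_mem fun i _ => hM i i

theorem MIn.mul (p : ∀ x ∈ P, ∀ y ∈ Q, x * y ∈ R) (hM : MIn P M) (hN : MIn Q N) :
    MIn R (M * N) :=
  fun i j => sum_mem (t := Finset.univ) fun l _ => p _ (hM i l) _ (hN l j)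

theorem MIn.mulVec (p : ∀ x ∈ P, ∀ y ∈ Q, x * y ∈ R) (hM : MIn P M) (hX : VIn Q X) :
    VIn R (M *ᵥ X) :=
  fun i => sum_mem (t := Finset.univ) fun l _ => p _ (hM i l) _ (hX l)

theorem VIn.dot (p : ∀ x ∈ P, ∀ y ∈ Q, x * y ∈ R) (hX : VIn P X) (hY : VIn Q Y) :
    X ⬝ᵥ Y ∈ R := sum_mem fun l _ => p _ (hX l) _ (hY l)

theorem VIn.add (hX : VIn R X) (hY : VIn R Y) : VIn R (X + Y) := fun i => add_mem (hX i) (hY i)

theorem VIn.sub (hX : VIn R X) (hY : VIn R Y) : VIn R (X - Y) := fun i => sub_mem (hX i) (hY i)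

theorem VIn.neg (hX : VIn R X) : VIn R (-X) := fun i => neg_mem (hX i)

end Closure

namespace Md

variable (m : Md c S I) {M : MA A} {x : A}
include m

theorem mul' (k : ℕ) : ∀ x ∈ I k, ∀ y ∈ S k, x * y ∈ I k :=
  fun x hx y hy => mul_comm y x ▸ m.mul k y hy x hx

theorem down (hh : MIn (I (k + 1)) h) : MIn (I k) h := fun i j => m.mono k (hh i j)

theorem downV (hX : VIn (I (k + 1)) X) : VIn (I k) X := fun i => m.mono k (hX i)

theorem dm (hh : MIn (I (k + 1)) h) (a : Fin 4) : MIn (I k) (c.dm a h) := hh.dm (m.d k a)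

theorem lmul (hM : MIn (S k) M) (hh : MIn (I k) h) : MIn (I k) (M * h) := hM.mul (m.mul k) hh

theorem rmul (hh : MIn (I k) h) (hM : MIn (S k) M) : MIn (I k) (h * M) := hh.mul (m.mul' k) hM

theorem smul (hx : x ∈ S k) (hh : MIn (I k) h) : MIn (I k) (x • h) := hh.smul (m.mul k) hx

theorem smulV (hx : x ∈ S k) (hX : VIn (I k) X) : VIn (I k) (x • X) := hX.smul (m.mul k) hx

theorem mulVec (hM : MIn (S k) M) (hX : VIn (I k) X) : VIn (I k) (M *ᵥ X) :=
  hM.mulVec (m.mul k) hX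

theorem both (hM : MIn (S k) M) (hh : MIn (I k) h) : MIn (I k) (Mᵀ * h + h * M) :=
  (m.lmul hM.transpose hh).add (m.rmul hh hM)

end Md

theorem Gr.down (g : Gr c S) (hh : MIn (S (k + 1)) h) : MIn (S k) h := fun i j => g.mono k (hh i j)

theorem Gr.dm (g : Gr c S) (hh : MIn (S (k + 1)) h) (a : Fin 4) : MIn (S k) (c.dm a h) :=
  hh.dm (g.d k a)

theorem MIn.mulS (hh : MIn (S k) h) (hh' : MIn (S k) h') : MIn (S k) (h * h') :=
  hh.mul (fun _ hx _ hy => mul_mem hx hy) hh'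

theorem MIn.single (i j : Fin 4) : MIn (S k) (Matrix.single i j (1 : A)) := fun a b => by
  rw [Matrix.single_apply]
  split_ifs
  exacts [one_mem _, zero_mem _]

theorem Gr.gh (g : Gr c S) (e : GH c S (k + 1)) : GH c S k :=
  ⟨g.down e.1, g.down e.2⟩

theorem Gr.w (g : Gr c S) (e : GH c S (k + 1)) (a : Fin 4) : MIn (S k) (c.w a) :=
  fun i j => mul_mem (g.hf k) (sum_mem fun l _ => mul_mem ((g.gh e).2 i l)
    (sub_mem (add_mem (g.d k a _ (e.1 j l)) (g.d k j _ (e.1 a l))) (g.d k l _ (e.1 a j))))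

theorem Gr.rm (g : Gr c S) (e : GH c S (k + 2)) (a b : Fin 4) : MIn (S k) (c.rm a b) :=
  have w := g.w (g.gh e)
  (((g.dm (g.w e b) a).sub (g.dm (g.w e a) b)).add ((w a).mulS (w b))).sub ((w b).mulS (w a))

theorem Gr.ric (g : Gr c S) (e : GH c S (k + 2)) : MIn (S k) c.ric :=
  have w := g.w (g.gh e)
  fun j l => sum_mem (t := Finset.univ) fun i _ => add_mem
    (sub_mem (g.d k i _ (g.w e j i l)) (g.d k j _ (g.w e i i l)))
    (sum_mem (t := Finset.univ) fun n _ =>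
      sub_mem (mul_mem (w i i n) (w j n l)) (mul_mem (w j i n) (w i n l)))

theorem Gr.scal (g : Gr c S) (e : GH c S (k + 2)) : c.scal ∈ S k :=
  ((g.gh (g.gh e)).2.mulS (g.ric e)).trace

theorem mem_rring (m : Md c S I) (e : GH c S (k + 2)) (hh : MIn (I k) h) :
    MIn (I k) (c.rring h) := fun i j => sum_mem (t := Finset.univ) fun a _ =>
  m.rmul (m.lmul (m.gr.gh (m.gr.gh e)).2 hh) (m.gr.rm e a i) a j

theorem mem_l1 (m : Md c S I) (e : GH c S (k + 1)) {v : Fin 4 → MA A} (hv : ∀ a, MIn (I k) (v a)) :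
    MIn (I k) (c.l1 v) :=
  have w := m.gr.w e
  .sum fun a => .sum fun b => m.smul ((m.gr.gh e).2 a b)
    ((((m.both (w b) (hv a)).add (m.lmul (w a).transpose (hv b))).add (m.rmul (hv b) (w a))).add
      (.sum fun d => m.smul (w a d b) (hv d)))

theorem mem_l0 (m : Md c S I) (e : GH c S (k + 2)) (hh : MIn (I k) h) : MIn (I k) (c.l0 h) :=
  have w := m.gr.w (m.gr.gh e)
  have H := (m.gr.gh (m.gr.gh e)).2
  have r := m.gr.ric e
  (((MIn.sum fun a => .sum fun b => m.smul (H a b)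
    ((((m.both (m.gr.dm (m.gr.w e b) a) hh).sub (m.lmul (w a).transpose (m.both (w b) hh))).sub
      (m.rmul (m.both (w b) hh) (w a))).sub (.sum fun d => m.smul (w a d b) (m.both (w d) hh)))).sub
    (mem_rring m e hh).two).add (m.lmul (r.mulS H) hh)).add (m.rmul (m.rmul hh H) r)

theorem Gr.b1 (g : Gr c S) (e : GH c S (k + 1)) (a i j : Fin 4) : MIn (S k) (c.b1 a i j) :=
  mem_l1 g.md e fun b => by
    rw [Pi.single_apply]
    split_ifs
    exacts [MIn.single i j, MIn.zero]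

theorem Gr.b0 (g : Gr c S) (e : GH c S (k + 2)) (i j : Fin 4) : MIn (S k) (c.b0 i j) :=
  mem_l0 g.md e (MIn.single i j)

namespace Md

variable (m : Md c S I)
include m

theorem trG (e : GH c S k) (hh : MIn (I k) h) : c.trG h ∈ I k :=
  (m.lmul e.2 hh).trace

theorem nab (e : GH c S (k + 1)) (hh : MIn (I (k + 1)) h) (a : Fin 4) : MIn (I k) (c.nab a h) :=
  ((m.dm hh a).sub (m.lmul (m.gr.w e a).transpose (m.down hh))).sub
    (m.rmul (m.down hh) (m.gr.w e a))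

theorem nab2 (e : GH c S (k + 2)) (hh : MIn (I (k + 2)) h) (a b : Fin 4) :
    MIn (I k) (c.nab2 a b h) :=
  (m.nab (m.gr.gh e) (m.nab e hh b) a).sub
    (.sum fun d => m.smul (m.gr.w (m.gr.gh e) a d b) (m.nab (m.gr.gh e) (m.down hh) d))

theorem n21 (e : GH c S (k + 2)) (hh : MIn (I (k + 1)) h) (a b : Fin 4) :
    MIn (I k) (c.n21 a b h) :=
  have w := m.gr.w (m.gr.gh e)
  have n := m.nab (m.gr.gh e) hh
  have d := m.gr.dm (m.gr.w e b) a
  ((((((m.lmul d.transpose (m.down hh)).add (m.lmul (w b).transpose (m.dm hh a))).add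
    (m.rmul (m.dm hh a) (w b))).add (m.rmul (m.down hh) d)).neg.sub
    (m.lmul (w a).transpose (n b))).sub (m.rmul (n b) (w a))).sub
    (.sum fun l => m.smul (w a l b) (n l))

theorem rough (e : GH c S (k + 2)) (hh : MIn (I (k + 2)) h) : MIn (I k) (c.rough h) :=
  (MIn.sum fun a => .sum fun b => m.smul ((m.gr.gh (m.gr.gh e)).2 a b) (m.nab2 e hh a b)).neg

theorem rring (e : GH c S (k + 2)) (hh : MIn (I k) h) : MIn (I k) (c.rring h) :=
  mem_rring m e hh

theorem lich (e : GH c S (k + 2)) (hh : MIn (I (k + 2)) h) : MIn (I k) (c.lich h) :=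
  have H := (m.gr.gh (m.gr.gh e)).2
  have r := m.gr.ric e
  have h0 := m.down (m.down hh)
  (((m.rough e hh).sub (m.rring e h0).two).add (m.lmul (r.mulS H) h0)).add (m.rmul (m.rmul h0 H) r)

theorem df {f : A} (hf : f ∈ I (k + 1)) : VIn (I k) (c.df f) :=
  fun i => m.d k i f hf

theorem grad (e : GH c S k) {f : A} (hf : f ∈ I (k + 1)) : VIn (I k) (c.grad f) :=
  m.mulVec e.2 (m.df hf)

theorem cov (e : GH c S (k + 1)) (hX : VIn (I (k + 1)) X) : MIn (I k) (c.cov X) :=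
  fun l i => add_mem (m.d k i _ (hX l))
    (sum_mem fun n _ => m.mul k _ (m.gr.w e i l n) _ (m.downV hX n))

theorem dvg (e : GH c S (k + 1)) (hX : VIn (I (k + 1)) X) : c.dvg X ∈ I k :=
  (m.cov e hX).trace

theorem lap (e : GH c S (k + 1)) {f : A} (hf : f ∈ I (k + 2)) : c.lap f ∈ I k :=
  m.dvg e (m.grad e hf)

theorem lie (e : GH c S (k + 1)) (hX : VIn (I (k + 1)) X) : MIn (I k) (c.lie X) :=
  have a := m.lmul (m.gr.gh e).1 (m.cov e hX)
  a.add a.transpose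

theorem divT (e : GH c S (k + 1)) (hh : MIn (I (k + 1)) h) : VIn (I k) (c.divT h) :=
  fun j => sum_mem fun a _ => sum_mem fun b _ => m.mul k _ ((m.gr.gh e).2 a b) _ (m.nab e hh a b j)

theorem bian (e : GH c S (k + 1)) (hh : MIn (I (k + 1)) h) : VIn (I k) (c.bian h) :=
  m.mulVec (m.gr.gh e).2 ((m.divT e hh).sub (m.smulV (m.gr.hf k) (m.df (m.trG e hh))))

theorem roughV (e : GH c S (k + 2)) (hX : VIn (I (k + 2)) X) : VIn (I k) (c.roughV X) :=
  (m.mulVec (m.gr.gh (m.gr.gh e)).2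
    (m.divT (m.gr.gh e) (m.lmul (m.gr.gh e).1 (m.cov e hX)).transpose)).neg

theorem ricL (e : GH c S (k + 2)) (hh : MIn (I (k + 2)) h) : MIn (I k) (c.ricL h) :=
  m.smul (m.gr.hf k) ((m.lich e hh).add (m.lie (m.gr.gh e) (m.bian e hh)))

theorem low (e : GH c S (k + 1)) (hh : MIn (I (k + 1)) h) (a : Fin 4) : MIn (I k) (c.low h a) :=
  have n := m.nab e hh
  fun l j => m.mul k _ (m.gr.hf k) _ (sub_mem (add_mem (n a j l) (n j a l)) (n l a j))

theorem cdf (e : GH c S (k + 1)) (hh : MIn (I (k + 1)) h) (hK : MIn (S k) K) (a : Fin 4) :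
    MIn (I k) (c.cdf h K a) :=
  m.lmul hK (m.low e hh a)

theorem wl (e : GH c S (k + 1)) (hh : MIn (I (k + 1)) h) (hK : MIn (S k) K) :
    VIn (I k) (c.wl h K) :=
  fun l => sum_mem fun a _ => sum_mem fun b _ => m.mul k _ (hK a b) _ (m.low e hh a l b)

theorem wv (e : GH c S (k + 1)) (hh : MIn (I (k + 1)) h) (hK : MIn (S k) K) :
    VIn (I k) (c.wv h K) :=
  m.mulVec hK (m.wl e hh hK)

end Md

theorem Gr.dt (g : Gr c S) (e : GH c S (k + 2)) (hh : MIn (S (k + 2)) h) (hK : MIn (S (k + 2)) K) :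
    MIn (S k) (c.dt h K) :=
  have e' : GH (c.sh h K) S (k + 2) := ⟨e.1.add hh, hK⟩
  ((g.sh h K).ric e').sub (g.md.smul (g.hf k)
    ((g.sh h K).md.lie ((g.sh h K).gh e') (g.md.wv e hh (g.down hK))))

end Geo

end Pool.Agent.Lib.MP_94aef8_gt
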