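import Pool.Agent.Lib.MP_94aef8_gt.B.Koiso

/-! The Ricci tensor of a perturbed metric. -/

open Matrix

namespace Pool.Agent.Lib.MP_94aef8_gt

namespace Geo

variable {A : Type} [CommRing A] {c : Geo A} {h K : MA A}

theorem OK.sh (hc : c.OK) (hs : hᵀ = h) (hK : (c.G + h) * K = 1) : (c.sh h K).OK :=
  ⟨hc.add, hc.mul, hc.comm, hc.hh, by
    change (c.G + h)ᵀ = c.G + h
    rw [transpose_add, hc.symm, hs], hK⟩

theorem shi_nab (hs : hᵀ = h) (a i j : Fin 4) : c.nab a h i j = c.nab a h j i := by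
  rw [← transpose_apply (c.nab a h) j i, ← nab_transpose, hs]

theorem low_symm (hs : hᵀ = h) (a l j : Fin 4) : c.low h a l j = c.low h j l a := by
  simp only [low, of_apply]
  rw [shi_nab hs l a j]
  ring

theorem OK.low_add_transpose (hc : c.OK) (hs : hᵀ = h) (a : Fin 4) :
    (c.low h a)ᵀ + c.low h a = c.nab a h := by
  ext l j
  simp only [low, Matrix.add_apply, transpose_apply, of_apply]
  rw [shi_nab hs a j l]
  linear_combination c.nab a h l j * hc.hh

/-- `w_unique` for `c.sh h K`. -/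
theorem OK.w_sh (hc : c.OK) (hs : hᵀ = h) (hK : (c.G + h) * K = 1) (a : Fin 4) :
    (c.sh h K).w a = c.w a + c.cdf h K a := by
  have h1 : Kᵀ = K := (hc.sh hs hK).trH
  have h2 : K * (c.G + h) = 1 := (hc.sh hs hK).inv'
  refine (hc.sh hs hK).w_unique (v := fun a => c.w a + c.cdf h K a) (fun a k j => ?_)
    (fun a => ?_) a
  · simp only [cdf, Matrix.add_apply, mul_apply, hc.w_symm a k j, low_symm hs a _ j]
  · change c.dm a (c.G + h) = _ * (c.G + h) + (c.G + h) * _
    rw [cdf, transpose_add, transpose_mul, h1, add_mul, mul_add (c.G + h), mul_assoc, h2,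
      ← mul_assoc (c.G + h), hK, mul_one, one_mul, hc.dm_add, hc.compat,
      eq_sub_of_add_eq (hc.low_add_transpose hs a), nab]
    noncomm_ring

theorem OK.wv_eq (hc : c.OK) (hs : hᵀ = h) (hK : (c.G + h) * K = 1) (k : Fin 4) :
    c.wv h K k = ∑ a, ∑ b, K a b * ((c.sh h K).w a k b - c.w a k b) := by
  simp only [hc.w_sh hs hK, Matrix.add_apply, add_sub_cancel_left, wv, wl, cdf, mul_apply, mulVec,
    dotProduct, Fin.sum_univ_four]
  ring

/-- The covariant derivative of the inverse (`dH` for `c.sh h K`, `w_sh`). -/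
theorem OK.nab_K (hc : c.OK) (hs : hᵀ = h) (hK : (c.G + h) * K = 1) (a : Fin 4) :
    c.dm a K + c.w a * K + K * (c.w a)ᵀ = -(K * c.nab a h * K) := by
  have h1 : Kᵀ = K := (hc.sh hs hK).trH
  have h2 : c.dm a K = -((c.sh h K).w a * K + K * ((c.sh h K).w a)ᵀ) := (hc.sh hs hK).dH a
  rw [h2, hc.w_sh hs hK, ← hc.low_add_transpose hs, cdf, transpose_add, transpose_mul, h1]
  noncomm_ring

theorem OK.K_sub (hc : c.OK) (hK : (c.G + h) * K = 1) : K - c.H = -(c.H * h * K) := by
  have h1 : c.H * ((c.G + h) * K) = c.H * c.G * K + c.H * h * K := by noncomm_ring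
  rw [hK, hc.inv', mul_one, one_mul] at h1
  exact sub_eq_of_eq_add (neg_add_eq_of_eq_add (h1.trans (add_comm _ _))).symm

/-- The lowered difference tensor of `∇_i ∇ h`. -/
def low2 (c : Geo A) (h : MA A) (i a : Fin 4) : MA A :=
  Matrix.of fun l j => c.hf * (c.nab2 i a h j l + c.nab2 i j h a l - c.nab2 i l h a j)

theorem OK.nab_low (hc : c.OK) (h : MA A) (i a : Fin 4) :
    c.nab i (c.low h a) - ∑ e, c.w i e a • c.low h e = c.low2 h i a := by
  ext l j
  obtain ⟨T, hT⟩ : ∃ T : Fin 4 → MA A, ∀ e, c.nab e h = T e := ⟨_, fun _ => rfl⟩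
  unfold low2 low nab2
  simp only [hT]
  simp only [nab, Matrix.sub_apply, Matrix.add_apply, Matrix.smul_apply, dm_apply, mul_apply,
    transpose_apply, of_apply, hc.mul, hc.half, hc.add, hc.sub, smul_eq_mul, Fin.sum_univ_four]
  ring

/-- The covariant derivative of the difference tensor (`nab_K`, `nab_low`). -/
theorem OK.nab_cdf (hc : c.OK) (hs : hᵀ = h) (hK : (c.G + h) * K = 1) (i a : Fin 4) :
    c.dm i (c.cdf h K a) + c.w i * c.cdf h K a - c.cdf h K a * c.w i - ∑ e, c.w i e a • c.cdf h K e =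
      K * c.low2 h i a - K * c.nab i h * c.cdf h K a := by
  rw [← hc.nab_low, cdf, hc.dm_mul, eq_sub_of_add_eq (eq_sub_of_add_eq (hc.nab_K hs hK i)),
    mul_sub K _ (∑ e, _), Finset.mul_sum]
  simp only [cdf, nab, Matrix.mul_smul]
  generalize ∑ e, c.w i e a • (K * c.low h e) = S
  noncomm_ring

/-- From `w_sh` and the definition of `rm`; the sums over `e` of `nab_cdf` cancel by `w_symm`. -/
theorem OK.rm_sh (hc : c.OK) (hs : hᵀ = h) (hK : (c.G + h) * K = 1) (i j : Fin 4) :
    (c.sh h K).rm i j = c.rm i j + (K * c.low2 h i j - K * c.nab i h * c.cdf h K j) -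
      (K * c.low2 h j i - K * c.nab j h * c.cdf h K i) +
      c.cdf h K i * c.cdf h K j - c.cdf h K j * c.cdf h K i := by
  rw [← hc.nab_cdf hs hK, ← hc.nab_cdf hs hK, rm, rm, hc.w_sh hs hK, hc.w_sh hs hK]
  change c.dm i _ - c.dm j _ + _ - _ = _
  simp only [hc.dm_add, hc.w_symm j _ i]
  generalize ∑ e, c.w i e j • c.cdf h K e = S
  noncomm_ring

theorem OK.nab_wl (hc : c.OK) (hs : hᵀ = h) (hK : (c.G + h) * K = 1) (j k : Fin 4) :
    c.D j (c.wl h K k) - ∑ e, c.w j e k * c.wl h K e =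
      ∑ a, ∑ b, (K a b * c.low2 h j a k b - (K * c.nab j h * K) a b * c.low h a k b) := by
  have h1 : ∀ a b, c.D j (K a b) = -(K * c.nab j h * K) a b - ∑ e, c.w j a e * K e b -
      ∑ e, K a e * c.w j b e := fun a b => by
    have e := congrFun (congrFun (hc.nab_K hs hK j) a) b
    simp only [Matrix.add_apply, Matrix.neg_apply, dm_apply] at e
    rw [Matrix.mul_apply, Matrix.mul_apply (M := K) (N := (c.w j)ᵀ)] at e
    simp only [Matrix.transpose_apply] at e
    linear_combination e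
  have h2 : ∀ a b, c.D j (c.low h a k b) = c.low2 h j a k b + ∑ e, c.w j e a * c.low h e k b +
      ∑ e, c.w j e k * c.low h a e b + ∑ e, c.low h a k e * c.w j e b := fun a b => by
    have e := congrFun (congrFun (hc.nab_low h j a) k) b
    rw [nab] at e
    simp only [Matrix.sub_apply, Matrix.sum_apply, Matrix.smul_apply, smul_eq_mul, dm_apply,
      Matrix.mul_apply, Matrix.transpose_apply] at e
    linear_combination e
  simp only [wl, hc.sum, hc.mul, h1, h2]
  generalize K * c.nab j h * K = U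
  generalize c.low h = L
  generalize c.low2 h j = L2
  generalize c.w j = W
  simp only [Fin.sum_univ_four]
  ring

/-- `cov_sharp` for `c.sh h K`. -/
theorem OK.lie_wv (hc : c.OK) (hs : hᵀ = h) (hK : (c.G + h) * K = 1) (j k : Fin 4) :
    (c.sh h K).lie (c.wv h K) j k =
      (c.D j (c.wl h K k) - ∑ e, c.w j e k * c.wl h K e) +
      (c.D k (c.wl h K j) - ∑ e, c.w k e j * c.wl h K e) -
      2 * ∑ m, c.cdf h K j m k * c.wl h K m := by
  have h1 : (c.sh h K).G * (c.sh h K).cov (c.wv h K) = Matrix.of fun j a =>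
      c.D a (c.wl h K j) - ∑ e, (c.sh h K).w a e j * c.wl h K e := by
    have e := (hc.sh hs hK).cov_sharp (c.wl h K)
    rw [show c.wv h K = (c.sh h K).H *ᵥ c.wl h K from rfl, e, ← Matrix.mul_assoc,
      (hc.sh hs hK).inv, Matrix.one_mul]
    rfl
  have h2 : ∀ m, c.cdf h K k m j = c.cdf h K j m k := fun m => by
    simp only [cdf, Matrix.mul_apply, low_symm hs k _ j]
  rw [lie, h1]
  simp only [Matrix.add_apply, Matrix.transpose_apply, Matrix.of_apply, hc.w_sh hs hK, h2, add_mul,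
    Finset.sum_add_distrib]
  ring

theorem OK.cu_H (hc : c.OK) (hs : hᵀ = h) :
    c.cu c.H h = c.rring h - c.hf • (c.ric * c.H * h + h * c.H * c.ric) := by
  have h0 : ∀ i j, h i j = h j i := fun i j => congrFun (congrFun hs j) i
  have h1 : ∀ j k, ∑ i, ∑ l, c.H i l * ((c.rm i j)ᵀ * h) k l = c.rring h j k := fun j k => by
    simp only [rring, Matrix.of_apply, Matrix.mul_apply, Matrix.transpose_apply, Finset.mul_sum,
      Finset.sum_mul]
    refine Finset.sum_congr rfl fun i _ => Finset.sum_comm.trans ?_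
    refine Finset.sum_congr rfl fun m _ => Finset.sum_congr rfl fun l _ => ?_
    rw [h0 m l]
    ring
  have h2 : ∀ j k, ∑ i, ∑ l, c.H i l * (h * c.rm i j) k l = -(c.ric * c.H * h) j k := fun j k => by
    have e1 : ∀ i, ∑ l, c.H i l * (h * c.rm i j) k l = -∑ m, (c.rm i j * c.H) i m * h m k :=
      fun i => by
        have e2 : ∑ l, c.H i l * (h * c.rm i j) k l = (h * (c.rm i j * c.H)) k i := by
          rw [← Matrix.mul_assoc, Matrix.mul_apply (N := c.H)]
          exact Finset.sum_congr rfl fun l _ => by rw [hc.symmH i l, mul_comm]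
        rw [e2, Matrix.mul_apply, ← Finset.sum_neg_distrib]
        refine Finset.sum_congr rfl fun m _ => ?_
        have e3 := congrFun (congrFun (hc.q_skew i j) i) m
        rw [Matrix.transpose_apply, Matrix.neg_apply] at e3
        rw [e3, h0 k m]
        ring
    simp only [e1]
    simp only [Matrix.mul_apply, ric_eq, Fin.sum_univ_four]
    ring
  have h3 : (h * c.H * c.ric)ᵀ = c.ric * c.H * h := by
    rw [Matrix.transpose_mul, Matrix.transpose_mul, hs, hc.trH, hc.ric_symm, Matrix.mul_assoc]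
  have h4 := hc.rring_transpose h
  rw [hs] at h4
  ext j k
  have h5 : c.rring h k j = c.rring h j k := (congrFun (congrFun h4 j) k).symm
  have h6 : (c.ric * c.H * h) k j = (h * c.H * c.ric) j k := by rw [← h3, Matrix.transpose_apply]
  simp only [cu, Matrix.of_apply, Matrix.add_apply, Matrix.sub_apply, Matrix.smul_apply,
    smul_eq_mul, mul_add, Finset.sum_add_distrib, h1, h2, h5, h6]
  linear_combination c.rring h j k * hc.hh

theorem cu_sub (K K' h : MA A) : c.cu (K - K') h = c.cu K h - c.cu K' h := by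
  ext j k
  simp only [cu, Matrix.of_apply, Matrix.sub_apply, sub_mul, Finset.sum_sub_distrib, mul_sub]

/-- The second order terms. Use `ricci_id`, the symmetry of `K` and of `nab2 a b h`, and
`∑ a b, K a b * ((rm j k)ᵀ * h + h * rm j k) a b = 0` (write `h = (G + h) - G`, `rm_skew`,
`trace_rm`). -/
theorem OK.shi_two (hc : c.OK) (hs : hᵀ = h) (hK : (c.G + h) * K = 1) (j k : Fin 4) :
    ∑ i, ((K * c.low2 h i j) i k - (K * c.low2 h j i) i k) -
      c.hf * ∑ a, ∑ b, K a b * (c.low2 h j a k b + c.low2 h k a j b) =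
    -(c.hf * ∑ a, ∑ b, K a b * c.nab2 a b h j k) - c.cu K h j k := by
  have hN : ∀ a b x y, c.nab2 a b h x y = c.nab2 a b h y x := fun a b x y => by
    have e := nab2_transpose (c := c) a b h
    rw [hs] at e
    exact congrFun (congrFun e x) y
  have hT : Kᵀ = K := (hc.sh hs hK).trH
  have sw : ∀ f : Fin 4 → Fin 4 → A, ∑ a, ∑ b, K a b * f b a = ∑ a, ∑ b, K a b * f a b := fun f =>
    Finset.sum_comm.trans (Finset.sum_congr rfl fun a _ => Finset.sum_congr rfl fun b _ => by
      rw [show K b a = K a b from congrFun (congrFun hT a) b])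
  have e2 : ∀ j k, ∑ a, ∑ b, K a b * c.nab2 j a h b k = ∑ a, ∑ b, K a b * c.nab2 j a h k b :=
    fun j k => Finset.sum_congr rfl fun a _ => Finset.sum_congr rfl fun b _ => by rw [hN]
  have e1 : ∀ j k, ∑ a, ∑ b, K a b * c.nab2 j b h a k = ∑ a, ∑ b, K a b * c.nab2 j a h k b :=
    fun j k => (sw fun a b => c.nab2 j a h b k).trans (e2 j k)
  have r1 : ∀ j k, ∑ a, ∑ b, K a b * (c.nab2 a j h k b - c.nab2 j a h k b +
      ((c.rm a j)ᵀ * h + h * c.rm a j) k b) = 0 := fun j k =>
    Finset.sum_eq_zero fun a _ => Finset.sum_eq_zero fun b _ => by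
      rw [← Matrix.sub_apply, hc.ricci_id, Matrix.neg_apply, neg_add_cancel, mul_zero]
  have r3 : ∑ a, ∑ b, K a b * (c.nab2 j k h a b - c.nab2 k j h a b) = 0 := by
    have a1 : (c.rm j k)ᵀ * h + h * c.rm j k =
        (c.rm j k)ᵀ * (c.G + h) + (c.G + h) * c.rm j k := by
      rw [← zero_add (_ + h * c.rm j k), ← hc.rm_skew j k]
      noncomm_ring
    have a2 : (K * (c.nab2 j k h - c.nab2 k j h)).trace = 0 := by
      rw [hc.ricci_id, a1, Matrix.mul_neg, Matrix.trace_neg, Matrix.mul_add, Matrix.trace_add,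
        Matrix.trace_mul_comm K, Matrix.mul_assoc, hK, ← Matrix.mul_assoc, mul_eq_one_comm.1 hK,
        Matrix.mul_one, Matrix.one_mul, Matrix.trace_transpose, hc.trace_rm, add_zero, neg_zero]
    rw [← sw, ← a2]
    rfl
  have hh := congrArg (fun t => t * (∑ a, ∑ b, K a b * c.nab2 j a h k b +
    ∑ a, ∑ b, K a b * c.nab2 k a h j b - ∑ a, ∑ b, K a b * c.nab2 j k h a b)) hc.hh
  have b1 := e1 j k
  have b2 := e2 j k
  have b3 := e1 k j
  have b4 := e2 k j
  have b5 := r1 j k
  have b6 := r1 k j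
  rw [cu, Matrix.of_apply]
  simp only [Matrix.mul_apply (M := K), low2, Matrix.of_apply, Fin.sum_univ_four]
    at b1 b2 b3 b4 b5 b6 r3 hh ⊢
  linear_combination c.hf * b5 + c.hf * b6 + (c.hf - c.hf ^ 2) * b1 - c.hf ^ 2 * (b2 + b3 + b4 + r3)
    - c.hf * hh

/-- The formula of Shi: `ric_eq`, `rm_sh`, `lie_wv`, `nab_wl`, `shi_two`, `cu_H`, `cu_sub`. -/
theorem OK.shi (hc : c.OK) (hs : hᵀ = h) (hK : (c.G + h) * K = 1) :
    c.dt h K = c.ric + c.hf • c.lich h + c.QQ h K := by
  ext j k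
  have hm : ∀ i j a b, (c.cdf h K i * c.cdf h K j) a b =
      ∑ m, c.cdf h K i a m * c.cdf h K j m b := fun _ _ _ _ => Matrix.mul_apply
  have e := hc.shi_two hs hK j k
  have hh := congrArg (fun t => t * (∑ m, c.cdf h K j m k * c.wl h K m + c.rring h j k)) hc.hh
  rw [dt, Matrix.sub_apply, Matrix.smul_apply, hc.lie_wv hs hK, hc.nab_wl hs hK, hc.nab_wl hs hK,
    QQ, qq, cu_sub, hc.cu_H hs, lich, rough, ric_eq]
  simp only [hc.rm_sh hs hK, Matrix.add_apply, Matrix.sub_apply, Matrix.neg_apply,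
    Matrix.smul_apply, Matrix.of_apply, smul_eq_mul, hm, ric_eq,
    Fin.sum_univ_four] at e hh ⊢
  linear_combination e + hh

theorem OK.QQ_symm (hc : c.OK) (hs : hᵀ = h) (hK : (c.G + h) * K = 1) :
    (c.QQ h K)ᵀ = c.QQ h K := by
  have e : c.QQ h K = c.dt h K - c.ric - c.hf • c.lich h := by
    rw [hc.shi hs hK]
    abel
  rw [e, dt]
  simp only [Matrix.transpose_sub, Matrix.transpose_smul, lie_symm, (hc.sh hs hK).ric_symm,
    hc.ric_symm, ← hc.lich_transpose, hs]

end Geo

end Pool.Agent.Lib.MP_94aef8_gt
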