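import Pool.Agent.Lib.MP_94aef8_gt.B.Sub
import Pool.Agent.Lib.MP_94aef8_gt.B.Shi

/-! Change of coordinates: vector fields and the gauge terms. -/

open Matrix

namespace Pool.Agent.Lib.MP_94aef8_gt

namespace Geo

variable {A B : Type} [CommRing A] [CommRing B] {c : Geo A} {c' : Geo B} {π : B →+* A} {J K : MA A}

theorem sub2_pf_apply (θ : VA B) (a : Fin 4) : pf π J θ a = ∑ i, J i a * π (θ i) := rfl

theorem sub2_pf_sub (θ η : VA B) : pf π J (θ - η) = pf π J θ - pf π J η := by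
  funext a
  simp only [sub2_pf_apply, Pi.sub_apply, map_sub, mul_sub, Finset.sum_sub_distrib]

theorem sub2_pf_smul (f : B) (θ : VA B) : pf π J (f • θ) = π f • pf π J θ := by
  funext a
  simp only [sub2_pf_apply, Pi.smul_apply, smul_eq_mul, map_mul, Finset.mul_sum]
  exact Finset.sum_congr rfl fun i _ => by ring

theorem sub2_pv_neg (X : VA B) : pv π K (-X) = -pv π K X := by
  rw [pv, pv, ← Matrix.mulVec_neg]
  congr 1
  funext a
  simp

theorem sub2_d_mulVec (hc : c.OK) (a : Fin 4) (M : MA A) (Y : VA A) (k : Fin 4) :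
    c.D a ((M *ᵥ Y) k) = (c.dm a M *ᵥ Y) k + (M *ᵥ fun m => c.D a (Y m)) k := by
  simp only [Matrix.mulVec, dotProduct, hc.sum, hc.mul, dm_apply, Finset.sum_add_distrib]

namespace Sub

variable (S : Sub c c' π J K)
include S

theorem sub2_J_pv (X : VA B) : J *ᵥ pv π K X = π ∘ X := by
  rw [pv, Matrix.mulVec_mulVec, S.inv', Matrix.one_mulVec]

theorem sub2_contr (N : Fin 4 → Fin 4 → A) :
    ∑ a, ∑ b, c.H a b * ∑ i, J i a * ∑ p, J p b * N i p = ∑ i, ∑ p, π (c'.H i p) * N i p := by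
  simp only [← S.contr, Fin.sum_univ_four]
  ring

theorem df (f : B) : c.df (π f) = pf π J (c'.df f) := by
  funext a
  rw [sub2_pf_apply]
  exact (S.chain a f).trans (Finset.sum_congr rfl fun i _ => mul_comm _ _)

theorem grad (f : B) : c.grad (π f) = pv π K (c'.grad f) := by
  rw [Geo.grad, Geo.grad, S.df, S.H_pf]

/-- Multiply by `J`: `J * cov (pv X) = (cov' X).map π * J`, from `J *ᵥ pv X = π ∘ X` and `w`. -/
theorem cov (X : VA B) : c.cov (pv π K X) = pe π J K (c'.cov X) := by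
  have h : J * c.cov (pv π K X) = (c'.cov X).map π * J := by
    ext k a
    have h1 := sub2_d_mulVec S.ok a J (pv π K X) k
    have h2 : (J * c.cov (pv π K X)) k a =
        (J *ᵥ fun m => c.D a (pv π K X m)) k + ((J * c.w a) *ᵥ pv π K X) k := by
      rw [← Matrix.mulVec_mulVec, ← Pi.add_apply, ← Matrix.mulVec_add]
      rfl
    rw [S.sub2_J_pv, Function.comp_apply, S.chain] at h1
    rw [h2, S.w, Matrix.add_mulVec, ← Matrix.mulVec_mulVec, S.sub2_J_pv, Pi.add_apply, ← add_assoc,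
      add_comm ((J *ᵥ fun m => c.D a (pv π K X m)) k), ← h1]
    simp only [Geo.cov, Matrix.mul_apply, Matrix.map_apply, Matrix.of_apply, map_add, map_mul,
      Matrix.mulVec, dotProduct, Matrix.add_apply, Matrix.smul_apply, smul_eq_mul,
      Function.comp_apply, Fin.sum_univ_four]
    ring
  rw [pe, Matrix.mul_assoc, ← h, ← Matrix.mul_assoc, S.inv, Matrix.one_mul]

theorem dvg (X : VA B) : c.dvg (pv π K X) = π (c'.dvg X) := by
  rw [Geo.dvg, Geo.dvg, S.cov, S.trace_pe]

theorem lap (f : B) : c.lap (π f) = π (c'.lap f) := by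
  rw [Geo.lap, Geo.lap, S.grad, S.dvg]

theorem ipV (X Y : VA B) : c.ipV (pv π K X) (pv π K Y) = π (c'.ipV X Y) := by
  rw [Geo.ipV, Geo.ipV, S.G, S.pl_pv, S.pv_pf]

theorem lie (X : VA B) : c.lie (pv π K X) = pl π J (c'.lie X) := by
  rw [Geo.lie, Geo.lie, S.cov, S.G_pe, pl_add, pl_transpose]

theorem divT (h : MA B) : c.divT (pl π J h) = pf π J (c'.divT h) := by
  funext j
  have h1 : ∀ a b, c.nab a (pl π J h) b j =
      ∑ i, J i a * ∑ p, J p b * ((c'.nab i h).map π * J) p j := by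
    intro a b
    rw [S.nab, Matrix.sum_apply]
    refine Finset.sum_congr rfl fun i _ => ?_
    rw [Matrix.smul_apply, smul_eq_mul, pl, Matrix.mul_assoc]
    rfl
  simp only [Geo.divT, h1]
  rw [S.sub2_contr fun i p => ((c'.nab i h).map π * J) p j, sub2_pf_apply]
  simp only [Geo.divT, Matrix.mul_apply, Matrix.map_apply, map_add, map_mul, Fin.sum_univ_four]
  ring

theorem bian (h : MA B) : c.bian (pl π J h) = pv π K (c'.bian h) := by
  rw [Geo.bian, Geo.bian, S.divT, S.trG, S.df, ← S.hf, ← sub2_pf_smul, ← sub2_pf_sub, S.H_pf]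

theorem roughV (X : VA B) : c.roughV (pv π K X) = pv π K (c'.roughV X) := by
  rw [Geo.roughV, Geo.roughV, S.cov, S.G_pe, ← pl_transpose, S.divT, S.H_pf, sub2_pv_neg]

theorem nabX (X : VA B) (h : MA B) :
    c.nabX (pv π K X) (pl π J h) = pl π J (c'.nabX X h) := by
  simp only [Geo.nabX, S.nab, pl_sum, pl_smul, Finset.smul_sum, smul_smul]
  rw [Finset.sum_comm]
  refine Finset.sum_congr rfl fun i _ => ?_
  rw [← Finset.sum_smul]
  congr 1
  exact (Finset.sum_congr rfl fun a _ => mul_comm _ _).trans (congrFun (S.sub2_J_pv X) i)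

theorem gX (h k : MA B) : c.gX (pl π J h) (pl π J k) = pv π K (c'.gX h k) := by
  rw [Geo.gX, Geo.gX, ← S.H_pf]
  congr 1
  funext b
  simp only [S.nab, ipT_sum_left, ipT_smul_left, S.ipT, sub2_pf_apply]

theorem sub2_contrb (M : Fin 4 → MA A) (b : Fin 4) :
    ∑ e, (∑ i, J i e • (Jᵀ * M i * Kᵀ)) b e = (Jᵀ *ᵥ fun m => ∑ i, M i m i) b := by
  have e : ∀ i, Jᵀ * M i * Kᵀ * Jᵀ = Jᵀ * M i := fun i => by
    rw [Matrix.mul_assoc, ← Matrix.transpose_mul, S.inv', Matrix.transpose_one, Matrix.mul_one]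
  calc _ = ∑ i, (Jᵀ * M i * Kᵀ * Jᵀ) b i := by
        simp only [Matrix.sum_apply, Matrix.smul_apply, smul_eq_mul]
        rw [Finset.sum_comm]
        exact Finset.sum_congr rfl fun i _ => Finset.sum_congr rfl fun e _ => mul_comm _ _
    _ = _ := by
        simp only [e]
        simp only [Matrix.mul_apply, mulVec, dotProduct, Finset.mul_sum]
        rw [Finset.sum_comm]

theorem kX (h : MA B) : c.kX (pl π J h) = pv π K (c'.kX h) := by
  have e1 : (c.H * pl π J h * c.H)ᵀ = K * ((c'.H * h * c'.H)ᵀ).map π * Kᵀ := by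
    have e : pe π J K (c'.H * h) * (K * c'.H.map π * Kᵀ) =
        K * ((c'.H * h).map π * (J * K) * c'.H.map π) * Kᵀ := by
      simp only [pe, Matrix.mul_assoc]
    rw [S.H_pl, S.H, e, S.inv', Matrix.mul_one, ← Matrix.map_mul, Matrix.transpose_mul,
      Matrix.transpose_mul, Matrix.transpose_transpose, Matrix.transpose_map,
      Matrix.mul_assoc K]
  have e2 : ∀ N P : MA B, pl π J N * (K * P.map π * Kᵀ) = Jᵀ * (N * P).map π * Kᵀ := fun N P => by
    have e : pl π J N * (K * P.map π * Kᵀ) = Jᵀ * (N.map π * (J * K) * P.map π) * Kᵀ := by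
      simp only [pl, Matrix.mul_assoc]
    rw [e, S.inv', Matrix.mul_one, ← Matrix.map_mul]
  have e3 : (fun b => ∑ e, (c.nab e (pl π J h) * (c.H * pl π J h * c.H)ᵀ) b e) =
      pf π J fun b => ∑ e, (c'.nab e h * (c'.H * h * c'.H)ᵀ) b e := by
    funext b
    simp only [S.nab, e1, Matrix.sum_mul, Matrix.smul_mul, e2, S.sub2_contrb]
    simp only [pf, Function.comp_def, map_sum, Matrix.map_apply]
  rw [Geo.kX, Geo.kX, e3, S.divT, S.H_pf, S.pl_pv, ← S.H_pf]
  simp only [pf, ← Matrix.mulVec_sub]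
  exact congrArg (fun v => c.H *ᵥ Jᵀ *ᵥ v) (funext fun i => (map_sub π _ _).symm)

theorem ricL (h : MA B) : c.ricL (pl π J h) = pl π J (c'.ricL h) := by
  rw [Geo.ricL, Geo.ricL, S.lich, S.bian, S.lie, pl_smul, pl_add, S.hf]

theorem sh {h L : MA B} {L' : MA A} (hs : hᵀ = h) (hL : (c'.G + h) * L = 1)
    (hL' : (c.G + pl π J h) * L' = 1) : Sub (c.sh (pl π J h) L') (c'.sh h L) π J K :=
  ⟨S.ok.sh (by rw [← pl_transpose, hs]) hL', S.ok'.sh hs hL, S.chain, S.symm, S.inv, S.hf,
    (congrArg (· + pl π J h) S.G).trans (pl_add _ _).symm⟩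

/-- `wv_eq`, and `w` for `S` and `S.sh`: the difference of the connections is a tensor. -/
theorem wv {h L : MA B} {L' : MA A} (hs : hᵀ = h) (hL : (c'.G + h) * L = 1)
    (hL' : (c.G + pl π J h) * L' = 1) : c.wv (pl π J h) L' = pv π K (c'.wv h L) := by
  have T := S.sh hs hL hL'
  have hs' : (pl π J h)ᵀ = pl π J h := by rw [← pl_transpose, hs]
  have e1 : ∀ a, J * ((c.sh (pl π J h) L').w a - c.w a) =
      (∑ i, J i a • ((c'.sh h L).w i - c'.w i).map π) * J := fun a => by
    rw [Matrix.mul_sub, T.w, S.w]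
    simp only [map_sub', smul_sub, Finset.sum_sub_distrib, Matrix.sub_mul]
    exact add_sub_add_left_eq_sub _ _ _
  have e2 : J *ᵥ c.wv (pl π J h) L' = π ∘ c'.wv h L := by
    funext k
    have e3 : ∀ i j, ∑ a, ∑ b, L' a b * (J i a * J j b) = π (L i j) := T.contr
    have e4 : ∀ a b, (J * ((c.sh (pl π J h) L').w a - c.w a)) k b =
        ∑ i, ∑ j, π ((c'.sh h L).w i k j - c'.w i k j) * (J i a * J j b) := fun a b => by
      rw [e1, Matrix.sum_mul, Matrix.sum_apply]
      refine Finset.sum_congr rfl fun i _ => ?_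
      rw [Matrix.smul_mul, Matrix.smul_apply, Matrix.mul_apply, smul_eq_mul, Finset.mul_sum]
      exact Finset.sum_congr rfl fun j _ => mul_left_comm _ _ _
    calc _ = ∑ a, ∑ b, L' a b * (J * ((c.sh (pl π J h) L').w a - c.w a)) k b := by
          simp only [mulVec, dotProduct, S.ok.wv_eq hs' hL', Matrix.mul_apply, Matrix.sub_apply,
            Finset.mul_sum]
          rw [Finset.sum_comm]
          refine Finset.sum_congr rfl fun a _ => ?_
          rw [Finset.sum_comm]
          exact Finset.sum_congr rfl fun b _ => Finset.sum_congr rfl fun m _ => mul_left_comm _ _ _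
      _ = _ := by
          simp only [e4, Function.comp_apply, S.ok'.wv_eq hs hL, map_sum, map_mul, ← e3]
          simp only [Fin.sum_univ_four]
          ring
  rw [pv, ← e2, mulVec_mulVec, S.inv, one_mulVec]

theorem dt {h L : MA B} {L' : MA A} (hs : hᵀ = h) (hL : (c'.G + h) * L = 1)
    (hL' : (c.G + pl π J h) * L' = 1) : c.dt (pl π J h) L' = pl π J (c'.dt h L) := by
  rw [Geo.dt, Geo.dt, (S.sh hs hL hL').ric, S.wv hs hL hL', (S.sh hs hL hL').lie, pl_sub, pl_smul,
    S.hf]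

/-- From `shi`. -/
theorem QQ {h L : MA B} {L' : MA A} (hs : hᵀ = h) (hL : (c'.G + h) * L = 1)
    (hL' : (c.G + pl π J h) * L' = 1) : c.QQ (pl π J h) L' = pl π J (c'.QQ h L) := by
  have e := S.dt hs hL hL'
  rw [S.ok.shi (by rw [← pl_transpose, hs]) hL', S.ok'.shi hs hL, pl_add, pl_add, pl_smul, S.hf,
    S.ric, S.lich] at e
  exact add_left_cancel e

end Sub

end Geo

end Pool.Agent.Lib.MP_94aef8_gt
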