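import Pool.Agent.Lib.MP_94aef8_gt.B.Smo
import Pool.Agent.Lib.MP_94aef8_gt.B.Cong
import Pool.Agent.Lib.MP_94aef8_gt.B.Sub2

/-! Naturality under local diffeomorphisms. -/

open scoped ContDiff Topology
open Matrix Filter Set

namespace Pool.Agent.Lib.MP_94aef8_gt

open Geo

variable {τ : E4 → E4} {U V : Set E4} {G h k : Tn} {X Y : Vn} {f : Fn} {p : E4}

namespace LDif

variable (T : LDif τ U V)
include T

theorem sm_jac : SmT (jac τ) U := fun i a =>
  contDiffOn_pd T.isOpen ((EuclideanSpace.proj i : E4 →L[ℝ] ℝ).contDiff.comp_contDiffOn T.smooth) a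

theorem sm_comp (hf : ContDiffOn ℝ ∞ f V) : ContDiffOn ℝ ∞ (fun y => f (τ y)) U :=
  hf.comp T.smooth T.maps

theorem sm_compT (hh : SmT h V) : SmT (fun y => h (τ y)) U := fun i j => T.sm_comp (hh i j)

theorem sm_compV (hX : SmV X V) : SmV (fun y => X (τ y)) U := fun i => T.sm_comp (hX i)

theorem sm_pull (hh : SmT h V) : SmT (pull τ h) U := (T.sm_jac.tr.mul (T.sm_compT hh)).mul T.sm_jac

theorem sm_pullV (hX : SmV X V) : SmV (pullV τ X) U := (T.sm_jac.inv T.det).mulVec (T.sm_compV hX)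

theorem symT_pull (hh : SymT h V) : SymT (pull τ h) U :=
  ⟨T.sm_pull hh.smooth, fun p hp => by
    rw [pull, transpose_mul, transpose_mul, transpose_transpose, hh.symm _ (T.maps hp), mul_assoc]⟩

theorem good_pull (hG : Good G V) : Good (pull τ G) U :=
  ⟨T.isOpen, T.sm_pull hG.smooth, fun p hp => by
    have e := (hG.pos _ (T.maps hp)).conjTranspose_mul_mul_same (B := jac τ p)
      (Matrix.mulVec_injective_of_isUnit ((Matrix.isUnit_iff_isUnit_det _).2 (T.det p hp).isUnit))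
    rwa [conjTranspose_eq_transpose_of_trivial] at e⟩

end LDif

theorem pull_add (τ : E4 → E4) (h k : Tn) : pull τ (h + k) = pull τ h + pull τ k := by
  funext p
  simp only [pull, Pi.add_apply, mul_add, add_mul]

theorem pull_sub (τ : E4 → E4) (h k : Tn) : pull τ (h - k) = pull τ h - pull τ k := by
  funext p
  simp only [pull, Pi.sub_apply, mul_sub, sub_mul]

theorem pull_smul (τ : E4 → E4) (c : ℝ) (h : Tn) : pull τ (c • h) = c • pull τ h := by
  funext p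
  simp only [pull, Pi.smul_apply, Matrix.mul_smul, Matrix.smul_mul]

theorem rho_pull (τ : E4 → E4) (G : Tn) (p : E4) : rho (pull τ G) p = |(jac τ p).det| * rho G (τ p) := by
  rw [rho, rho, pull, det_mul, det_mul, det_transpose, ← Real.sqrt_sq_eq_abs,
    ← Real.sqrt_mul (sq_nonneg _)]
  congr 1
  ring

/-- The lift of a change of coordinates. -/
structure PL (T : LDif τ U V) (G : Tn) (s : Geo (SU U)) (s' : Geo (SU V)) (J K : MA (SU U)) : Prop where
  sub : Sub s s' (pullG T.smooth T.maps) J K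
  Z : Zig (iu U) s (pull τ G)
  Z' : Zig (iu V) s' G
  J : RT (iu U) J (jac τ)
  K : RT (iu U) K (inv (jac τ))

theorem R0.pull (T : LDif τ U V) {x : SU V} (r : R0 (iu V) x f) :
    R0 (iu U) (pullG T.smooth T.maps x) fun y => f (τ y) := iu_pullG T.smooth T.maps r

theorem RT.pull (T : LDif τ U V) {M : MA (SU V)} (r : RT (iu V) M h) :
    RT (iu U) (M.map (pullG T.smooth T.maps)) fun y => h (τ y) :=
  RT.of fun i j => (r.entry i j).pull T

theorem RV.pull (T : LDif τ U V) {Z : VA (SU V)} (r : RV (iu V) Z X) :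
    RV (iu U) (pullG T.smooth T.maps ∘ Z) fun y => X (τ y) := RV.of fun i => (r.entry i).pull T

theorem LDif.lift (T : LDif τ U V) (hG : Good G V) : ∃ s s' J K, PL T G s s' J K := by
  obtain ⟨s, ok, Z⟩ := (T.good_pull hG).lift
  obtain ⟨s', ok', Z'⟩ := hG.lift
  obtain ⟨J, rJ⟩ := T.sm_jac.lift
  obtain ⟨K, rK⟩ := (T.sm_jac.inv T.det).lift
  refine ⟨s, s', J, K, ⟨ok, ok', fun a x => ?_, fun a b i => ?_, ?_, ?_, ?_⟩, Z, Z', rJ, rK⟩
  · obtain ⟨g, r⟩ := ex0 x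
    exact (Z.D (r.pull T) a).ext (R0.sum _ fun i => ((Z'.D r i).pull T).mul (rJ.entry i a))
      fun p hp => pd_chain (diffAt' T.isOpen T.smooth hp) (diffAt' hG.isOpen r.smooth (T.maps hp)) a
  · exact (Z.D (rJ.entry i b) a).ext (Z.D (rJ.entry i a) b) fun p hp => pd_comm
      (((EuclideanSpace.proj i : E4 →L[ℝ] ℝ).contDiff.comp_contDiffOn T.smooth).contDiffAt
        (T.isOpen.mem_nhds hp)) a b
  · exact (rK.mul rJ).ext RT.one fun p hp => Matrix.nonsing_inv_mul _ (T.det p hp).isUnit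
  · exact (Z'.hf.pull T).ext Z.hf fun _ _ => rfl
  · exact Z.G'.ext ((rJ.tr.mul (Z'.G'.pull T)).mul rJ) fun _ _ => rfl

namespace PL

variable {T : LDif τ U V} {s : Geo (SU U)} {s' : Geo (SU V)} {J K : MA (SU U)}
  (P : PL T G s s' J K) {M : MA (SU V)} {Z : VA (SU V)}
include P

theorem pl (r : RT (iu V) M h) : RT (iu U) (pl (pullG T.smooth T.maps) J M) (pull τ h) :=
  (P.J.tr.mul (r.pull T)).mul P.J

theorem pe (r : RT (iu V) M h) : RT (iu U) (pe (pullG T.smooth T.maps) J K M) (pullE τ h) :=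
  (P.K.mul (r.pull T)).mul P.J

theorem pv (r : RV (iu V) Z X) : RV (iu U) (pv (pullG T.smooth T.maps) K Z) (pullV τ X) :=
  P.K.mulVec (r.pull T)

theorem pf (r : RV (iu V) Z X) : RV (iu U) (pf (pullG T.smooth T.maps) J Z) (pullF τ X) :=
  P.J.tr.mulVec (r.pull T)

end PL

namespace LDif

variable (T : LDif τ U V) (hG : Good G V) (hp : p ∈ U)
include T hG hp

theorem om_pull (a : Fin 4) : jac τ p * om (pull τ G) a p =
    pdM a (jac τ) p + (∑ i, jac τ p i a • om G i (τ p)) * jac τ p := by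
  obtain ⟨s, s', J, K, P⟩ := T.lift hG
  exact (P.J.mul (P.Z.w a)).at ((P.Z.dm a P.J).add ((RT.sum _ fun i =>
    RT.smul (P.J.entry i a) ((P.Z'.w i).pull T)).mul P.J)) (P.sub.w a) hp

theorem rm_pull (a b : Fin 4) : rm (pull τ G) a b p =
    ∑ i, ∑ j, (jac τ p i a * jac τ p j b) • pullE τ (rm G i j) p := by
  obtain ⟨s, s', J, K, P⟩ := T.lift hG
  exact (P.Z.rm a b).at (RT.sum _ fun i => RT.sum _ fun j =>
    RT.smul ((P.J.entry i a).mul (P.J.entry j b)) (P.pe (P.Z'.rm i j))) (P.sub.rm a b) hp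

theorem nab_pull (hh : SmT h V) (a : Fin 4) :
    nab (pull τ G) a (pull τ h) p = ∑ i, jac τ p i a • pull τ (nab G i h) p := by
  obtain ⟨s, s', J, K, P⟩ := T.lift hG
  obtain ⟨M, r⟩ := hh.lift
  exact (P.Z.nab a (P.pl r)).at (RT.sum _ fun i =>
    RT.smul (P.J.entry i a) (P.pl (P.Z'.nab i r))) (P.sub.nab a M) hp

theorem nab2_pull (hh : SmT h V) (a b : Fin 4) : nab2 (pull τ G) a b (pull τ h) p =
    ∑ i, ∑ j, (jac τ p i a * jac τ p j b) • pull τ (nab2 G i j h) p := by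
  obtain ⟨s, s', J, K, P⟩ := T.lift hG
  obtain ⟨M, r⟩ := hh.lift
  exact (P.Z.nab2 a b (P.pl r)).at (RT.sum _ fun i => RT.sum _ fun j =>
    RT.smul ((P.J.entry i a).mul (P.J.entry j b)) (P.pl (P.Z'.nab2 i j r))) (P.sub.nab2 a b M) hp

theorem ric_pull :
    ric (pull τ G) p = pull τ (ric G) p := by
  obtain ⟨s, s', J, K, P⟩ := T.lift hG
  exact (P.Z.ric).at (P.pl (P.Z'.ric)) (P.sub.ric) hp

theorem scal_pull :
    scal (pull τ G) p = scal G (τ p) := by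
  obtain ⟨s, s', J, K, P⟩ := T.lift hG
  exact (P.Z.scal).at ((P.Z'.scal).pull T) (P.sub.scal) hp

theorem trG_pull (hh : SmT h V) :
    trG (pull τ G) (pull τ h) p = trG G h (τ p) := by
  obtain ⟨s, s', J, K, P⟩ := T.lift hG
  obtain ⟨mh, rh⟩ := hh.lift
  exact (P.Z.trG (P.pl rh)).at ((P.Z'.trG rh).pull T) (P.sub.trG mh) hp

theorem ipT_pull (hh : SmT h V) (hk : SmT k V) :
    ipT (pull τ G) (pull τ h) (pull τ k) p = ipT G h k (τ p) := by
  obtain ⟨s, s', J, K, P⟩ := T.lift hG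
  obtain ⟨mh, rh⟩ := hh.lift
  obtain ⟨mk, rk⟩ := hk.lift
  exact (P.Z.ipT (P.pl rh) (P.pl rk)).at ((P.Z'.ipT rh rk).pull T) (P.sub.ipT mh mk) hp

theorem rough_pull (hh : SmT h V) :
    rough (pull τ G) (pull τ h) p = pull τ (rough G h) p := by
  obtain ⟨s, s', J, K, P⟩ := T.lift hG
  obtain ⟨mh, rh⟩ := hh.lift
  exact (P.Z.rough (P.pl rh)).at (P.pl (P.Z'.rough rh)) (P.sub.rough mh) hp

theorem rring_pull (hh : SmT h V) :
    rring (pull τ G) (pull τ h) p = pull τ (rring G h) p := by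
  obtain ⟨s, s', J, K, P⟩ := T.lift hG
  obtain ⟨mh, rh⟩ := hh.lift
  exact (P.Z.rring (P.pl rh)).at (P.pl (P.Z'.rring rh)) (P.sub.rring mh) hp

theorem lich_pull (hh : SmT h V) :
    lich (pull τ G) (pull τ h) p = pull τ (lich G h) p := by
  obtain ⟨s, s', J, K, P⟩ := T.lift hG
  obtain ⟨mh, rh⟩ := hh.lift
  exact (P.Z.lich (P.pl rh)).at (P.pl (P.Z'.lich rh)) (P.sub.lich mh) hp

theorem ipD_pull (hh : SmT h V) (hk : SmT k V) :
    ipD (pull τ G) (pull τ h) (pull τ k) p = ipD G h k (τ p) := by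
  obtain ⟨s, s', J, K, P⟩ := T.lift hG
  obtain ⟨mh, rh⟩ := hh.lift
  obtain ⟨mk, rk⟩ := hk.lift
  exact (P.Z.ipD (P.pl rh) (P.pl rk)).at ((P.Z'.ipD rh rk).pull T) (P.sub.ipD mh mk) hp

theorem grad_pull (hf : ContDiffOn ℝ ∞ f V) :
    grad (pull τ G) (fun y => f (τ y)) p = pullV τ (grad G f) p := by
  obtain ⟨s, s', J, K, P⟩ := T.lift hG
  obtain ⟨mf, rf⟩ := lift0 hf
  exact (P.Z.grad (rf.pull T)).at (P.pv (P.Z'.grad rf)) (P.sub.grad mf) hp

theorem cov_pull (hX : SmV X V) :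
    cov (pull τ G) (pullV τ X) p = pullE τ (cov G X) p := by
  obtain ⟨s, s', J, K, P⟩ := T.lift hG
  obtain ⟨mX, rX⟩ := hX.lift
  exact (P.Z.cov (P.pv rX)).at (P.pe (P.Z'.cov rX)) (P.sub.cov mX) hp

theorem dvg_pull (hX : SmV X V) :
    dvg (pull τ G) (pullV τ X) p = dvg G X (τ p) := by
  obtain ⟨s, s', J, K, P⟩ := T.lift hG
  obtain ⟨mX, rX⟩ := hX.lift
  exact (P.Z.dvg (P.pv rX)).at ((P.Z'.dvg rX).pull T) (P.sub.dvg mX) hp

theorem lap_pull (hf : ContDiffOn ℝ ∞ f V) :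
    lap (pull τ G) (fun y => f (τ y)) p = lap G f (τ p) := by
  obtain ⟨s, s', J, K, P⟩ := T.lift hG
  obtain ⟨mf, rf⟩ := lift0 hf
  exact (P.Z.lap (rf.pull T)).at ((P.Z'.lap rf).pull T) (P.sub.lap mf) hp

theorem ipV_pull (hX : SmV X V) (hY : SmV Y V) :
    ipV (pull τ G) (pullV τ X) (pullV τ Y) p = ipV G X Y (τ p) := by
  obtain ⟨s, s', J, K, P⟩ := T.lift hG
  obtain ⟨mX, rX⟩ := hX.lift
  obtain ⟨mY, rY⟩ := hY.lift
  exact (P.Z.ipV (P.pv rX) (P.pv rY)).at ((P.Z'.ipV rX rY).pull T) (P.sub.ipV mX mY) hp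

theorem lie_pull (hX : SmV X V) :
    lie (pull τ G) (pullV τ X) p = pull τ (lie G X) p := by
  obtain ⟨s, s', J, K, P⟩ := T.lift hG
  obtain ⟨mX, rX⟩ := hX.lift
  exact (P.Z.lie (P.pv rX)).at (P.pl (P.Z'.lie rX)) (P.sub.lie mX) hp

theorem divT_pull (hh : SmT h V) :
    divT (pull τ G) (pull τ h) p = pullF τ (divT G h) p := by
  obtain ⟨s, s', J, K, P⟩ := T.lift hG
  obtain ⟨mh, rh⟩ := hh.lift
  exact (P.Z.divT (P.pl rh)).at (P.pf (P.Z'.divT rh)) (P.sub.divT mh) hp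

theorem bian_pull (hh : SmT h V) :
    bian (pull τ G) (pull τ h) p = pullV τ (bian G h) p := by
  obtain ⟨s, s', J, K, P⟩ := T.lift hG
  obtain ⟨mh, rh⟩ := hh.lift
  exact (P.Z.bian (P.pl rh)).at (P.pv (P.Z'.bian rh)) (P.sub.bian mh) hp

theorem roughV_pull (hX : SmV X V) :
    roughV (pull τ G) (pullV τ X) p = pullV τ (roughV G X) p := by
  obtain ⟨s, s', J, K, P⟩ := T.lift hG
  obtain ⟨mX, rX⟩ := hX.lift
  exact (P.Z.roughV (P.pv rX)).at (P.pv (P.Z'.roughV rX)) (P.sub.roughV mX) hp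

theorem nabX_pull (hX : SmV X V) (hh : SmT h V) :
    nabX (pull τ G) (pullV τ X) (pull τ h) p = pull τ (nabX G X h) p := by
  obtain ⟨s, s', J, K, P⟩ := T.lift hG
  obtain ⟨mX, rX⟩ := hX.lift
  obtain ⟨mh, rh⟩ := hh.lift
  exact (P.Z.nabX (P.pv rX) (P.pl rh)).at (P.pl (P.Z'.nabX rX rh)) (P.sub.nabX mX mh) hp

theorem gX_pull (hh : SmT h V) (hk : SmT k V) :
    gX (pull τ G) (pull τ h) (pull τ k) p = pullV τ (gX G h k) p := by
  obtain ⟨s, s', J, K, P⟩ := T.lift hG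
  obtain ⟨mh, rh⟩ := hh.lift
  obtain ⟨mk, rk⟩ := hk.lift
  exact (P.Z.gX (P.pl rh) (P.pl rk)).at (P.pv (P.Z'.gX rh rk)) (P.sub.gX mh mk) hp

theorem kX_pull (hh : SmT h V) :
    kX (pull τ G) (pull τ h) p = pullV τ (kX G h) p := by
  obtain ⟨s, s', J, K, P⟩ := T.lift hG
  obtain ⟨mh, rh⟩ := hh.lift
  exact (P.Z.kX (P.pl rh)).at (P.pv (P.Z'.kX rh)) (P.sub.kX mh) hp

theorem ricL_pull (hh : SmT h V) :
    ricL (pull τ G) (pull τ h) p = pull τ (ricL G h) p := by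
  obtain ⟨s, s', J, K, P⟩ := T.lift hG
  obtain ⟨mh, rh⟩ := hh.lift
  exact (P.Z.ricL (P.pl rh)).at (P.pl (P.Z'.ricL rh)) (P.sub.ricL mh) hp

theorem wv_pull (hG' : Good (G + h) V) :
    wv (pull τ G) (pull τ h) p = pullV τ (wv G h) p := by
  obtain ⟨s, s', J, K, P⟩ := T.lift hG
  obtain ⟨M, r, e⟩ := (hG.symT_of_add hG').lift
  obtain ⟨L, rL⟩ := hG'.smooth_inv.lift
  have g2 := T.good_pull hG'
  rw [pull_add] at g2
  obtain ⟨L', rL'⟩ := g2.smooth_inv.lift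
  exact (P.Z.wv (P.pl r) rL').at (P.pv (P.Z'.wv r rL)) (P.sub.wv e
    (((P.Z'.G'.add r).mul rL).ext RT.one fun p hp => hG'.mul_inv hp)
    (((P.Z.G'.add (P.pl r)).mul rL').ext RT.one fun p hp => g2.mul_inv hp)) hp

theorem dt_pull (hG' : Good (G + h) V) :
    dt (pull τ G) (pull τ h) p = pull τ (dt G h) p := by
  obtain ⟨s, s', J, K, P⟩ := T.lift hG
  obtain ⟨M, r, e⟩ := (hG.symT_of_add hG').lift
  obtain ⟨L, rL⟩ := hG'.smooth_inv.lift
  have g2 := T.good_pull hG'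
  rw [pull_add] at g2
  obtain ⟨L', rL'⟩ := g2.smooth_inv.lift
  exact (P.Z.dt (P.pl r) rL').at (P.pl (P.Z'.dt r rL)) (P.sub.dt e
    (((P.Z'.G'.add r).mul rL).ext RT.one fun p hp => hG'.mul_inv hp)
    (((P.Z.G'.add (P.pl r)).mul rL').ext RT.one fun p hp => g2.mul_inv hp)) hp

theorem QQ_pull (hG' : Good (G + h) V) :
    QQ (pull τ G) (pull τ h) p = pull τ (QQ G h) p := by
  obtain ⟨s, s', J, K, P⟩ := T.lift hG
  obtain ⟨M, r, e⟩ := (hG.symT_of_add hG').lift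
  obtain ⟨L, rL⟩ := hG'.smooth_inv.lift
  have g2 := T.good_pull hG'
  rw [pull_add] at g2
  obtain ⟨L', rL'⟩ := g2.smooth_inv.lift
  exact (P.Z.QQ (P.pl r) rL').at (P.pl (P.Z'.QQ r rL)) (P.sub.QQ e
    (((P.Z'.G'.add r).mul rL).ext RT.one fun p hp => hG'.mul_inv hp)
    (((P.Z.G'.add (P.pl r)).mul rL').ext RT.one fun p hp => g2.mul_inv hp)) hp

theorem Pop_pull (μ : ℝ) (hh : SmT h V) : Pop μ (pull τ G) (pull τ h) p = pull τ (Pop μ G h) p := by
  rw [Pop, T.lich_pull hG hp hh]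
  simp only [Pop, pull, mul_add, add_mul, Matrix.mul_smul, Matrix.smul_mul]

theorem PP_pull (hh : SmT h V) : PP (pull τ G) (pull τ h) p = pull τ (PP G h) p := by
  rw [PP, T.lich_pull hG hp hh]
  simp only [PP, pull, mul_add, add_mul, Matrix.mul_smul, Matrix.smul_mul]

theorem Err_pull : Err (pull τ G) p = pull τ (Err G) p := by
  rw [Err, T.ric_pull hG hp]
  simp only [Err, pull, mul_add, add_mul, Matrix.mul_smul, Matrix.smul_mul]

theorem Phi_pull (hG' : Good (G + h) V) : Phi (pull τ G) (pull τ h) p = pull τ (Phi G h) p := by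
  rw [Phi, T.dt_pull hG hp hG']
  simp only [Phi, pull, mul_add, add_mul, Matrix.mul_smul, Matrix.smul_mul, smul_add]

omit hp in
theorem Pop_iter_pull (μ : ℝ) (hh : SmT h V) (j : ℕ) :
    EqOn ((Pop μ (pull τ G))^[j] (pull τ h)) (pull τ ((Pop μ G)^[j] h)) U := by
  induction j with
  | zero => exact fun _ _ => rfl
  | succ j ih =>
    intro p hp
    rw [Function.iterate_succ_apply', Function.iterate_succ_apply',
      ← T.Pop_pull hG hp μ (hG.sm_Pop_iter μ hh j)]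
    exact Pop_cg (locF_open T.isOpen) EventuallyEq.rfl μ (eventuallyEq_principal.2 ih) hp

omit hG in
theorem df_pull (hV : IsOpen V) (hf : ContDiffOn ℝ ∞ f V) :
    df (fun y => f (τ y)) p = pullF τ (df f) p := by
  funext a
  rw [df, pd_chain (diffAt' T.isOpen T.smooth hp) (diffAt' hV hf (T.maps hp))]
  exact Finset.sum_congr rfl fun i _ => mul_comm _ _

end LDif

end Pool.Agent.Lib.MP_94aef8_gt
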