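import Pool.Agent.Lib.MP_94aef8_gt.B.Loc
import Pool.Agent.Lib.MP_94aef8_gt.B.Geo2

/-! More operators, and the dictionary between fields of matrices and matrices of functions. -/

open scoped ContDiff
open Matrix

namespace Pool.Agent.Lib.MP_94aef8_gt

/-- The connection matrices, `om G a p k j = Γ^k_{a j}`. -/
noncomputable def om (G : Tn) (a : Fin 4) : Tn := fm ((geo G).w a)

/-- Entrywise derivative. -/
noncomputable def pdM (a : Fin 4) (h : Tn) : Tn := fun p => Matrix.of fun i j => pd a (fun x => h x i j) p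

/-- The cross term of Koiso's formula. -/
noncomputable def crs (G h : Tn) : Fn := (geo G).crs (mf h)

/-- The coefficient of `∂_a h_{k l}` in `lich G h`. -/
noncomputable def b1 (G : Tn) (a k l : Fin 4) : Tn := fm ((geo G).b1 a k l)

/-- The coefficient of `h_{k l}` in `lich G h`. -/
noncomputable def b0 (G : Tn) (k l : Fin 4) : Tn := fm ((geo G).b0 k l)

/-- The terms of `QQ` without second derivatives of `h`. -/
noncomputable def q1 (G h : Tn) : Tn := fm ((geo G).q1 (mf h) (mf (inv (G + h))))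

/-- The linearised Ricci tensor. -/
noncomputable def ricL (G h : Tn) : Tn :=
  fun p => (1 / 2 : ℝ) • (lich G h p + lie G (bian G h) p)

/-- Pull back of a one-form. -/
noncomputable def pullF (τ : E4 → E4) (θ : Vn) : Vn := fun p => (jac τ p)ᵀ *ᵥ θ (τ p)

/-- Pull back of a field of endomorphisms. -/
noncomputable def pullE (τ : E4 → E4) (M : Tn) : Tn := fun p => (jac τ p)⁻¹ * M (τ p) * jac τ p

/-- Evaluation at a point. -/
abbrev ev (p : E4) : Fn →+* ℝ := Pi.evalRingHom (fun _ => ℝ) p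

variable (G h k : Tn) (X Y : Vn) (f : Fn) (p : E4)

theorem mf_fm (M : MA Fn) : mf (fm M) = M := rfl

theorem fm_mf : fm (mf h) = h := rfl

theorem vf_fv (X : VA Fn) : vf (fv X) = X := rfl

theorem fv_vf : fv (vf X) = X := rfl

theorem fm_eq (M : MA Fn) : fm M p = M.map (ev p) := rfl

theorem mf_ev : (mf h).map (ev p) = h p := rfl

theorem mf_add : mf (h + k) = mf h + mf k := rfl

theorem mf_sub : mf (h - k) = mf h - mf k := rfl

theorem mf_neg : mf (-h) = -mf h := rfl

theorem mf_smul : mf (fun p => f p • h p) = f • mf h := rfl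

theorem mf_tr : mf (fun p => (h p)ᵀ) = (mf h)ᵀ := rfl

theorem mf_mul : mf (fun p => h p * k p) = mf h * mf k := by
  ext i j p
  simp [mf, Matrix.mul_apply]

theorem mf_sum {ι : Type} (s : Finset ι) (h : ι → Tn) :
    mf (fun p => ∑ i ∈ s, h i p) = ∑ i ∈ s, mf (h i) := by
  ext i j p
  simp [mf, Matrix.sum_apply]

theorem mf_one : mf (fun _ => 1) = 1 := by
  ext i j p
  by_cases e : i = j <;> simp [mf, Matrix.one_apply, e]

theorem mf_trace : (fun p => (h p).trace) = (mf h).trace := by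
  funext p
  simp [mf, Matrix.trace]

theorem mf_det : (fun p => (h p).det) = (mf h).det := by
  funext p
  exact ((ev p).map_det (mf h)).symm

theorem vf_mulVec : vf (fun p => h p *ᵥ X p) = mf h *ᵥ vf X := by
  funext i p
  simp [vf, mf, Matrix.mulVec, dotProduct]

theorem vf_dot : (fun p => X p ⬝ᵥ Y p) = vf X ⬝ᵥ vf Y := by
  funext p
  simp [vf, dotProduct]

theorem fm_mul (M N : MA Fn) : fm (M * N) p = fm M p * fm N p :=
  (Matrix.map_mul (L := M) (M := N) (f := ev p) :)

theorem fm_sum {ι : Type} (s : Finset ι) (M : ι → MA Fn) :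
    fm (∑ i ∈ s, M i) p = ∑ i ∈ s, fm (M i) p := by
  ext i j
  simp [fm, Matrix.sum_apply]

theorem w_eq (a k j : Fin 4) : (geo G).w a k j = chr G k a j := by
  funext p
  simp only [Geo.w, geo, chr, Matrix.of_apply, Pi.mul_apply, Finset.sum_apply, Pi.add_apply,
    Pi.sub_apply]
  rfl

theorem om_apply (a k j : Fin 4) : om G a p k j = chr G k a j p := congrFun (w_eq G a k j) p

theorem chr_swap {U : Set E4} {G : Tn} (hG : Good G U) {p : E4} (hp : p ∈ U) (k i j : Fin 4) :
    chr G k i j p = chr G k j i p := by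
  have e : ∀ l, pd l (fun x => G x i j) p = pd l (fun x => G x j i) p := fun l =>
    pd_congrOn hG.isOpen (fun x hx => hG.symm hx i j) l hp
  simp only [chr, e, add_comm]

theorem mf_pdM (a : Fin 4) : mf (pdM a h) = (geo G).dm a (mf h) := rfl

theorem trG_eq : trG G h = (geo G).trG (mf h) := by
  rw [Geo.trG, show (geo G).H = mf (inv G) from rfl, ← mf_mul, ← mf_trace]
  rfl

theorem ipT_eq : ipT G h k = (geo G).ipT (mf h) (mf k) := by
  rw [Geo.ipT, show (geo G).H = mf (inv G) from rfl, ← mf_mul, ← mf_mul, ← mf_tr, ← mf_mul, ← mf_trace]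
  rfl

theorem ipV_eq : ipV G X Y = (geo G).ipV (vf X) (vf Y) := by
  rw [Geo.ipV, show (geo G).G = mf G from rfl, ← vf_mulVec, ← vf_dot]
  rfl

theorem df_eq : vf (df f) = (geo G).df f := rfl

theorem grad_eq : vf (grad G f) = (geo G).grad f := vf_mulVec (inv G) (df f)

theorem lap_eq : lap G f = (geo G).lap f := by
  rw [lap, dvg, grad_eq]
  rfl

theorem nabX_eq : mf (nabX G X h) = (geo G).nabX (vf X) (mf h) :=
  mf_sum Finset.univ fun a p => X p a • nab G a h p

theorem sh_eq : (geo G).sh (mf h) (mf (inv (G + h))) = geo (G + h) := rfl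

theorem ricL_eq : mf (ricL G h) = (geo G).ricL (mf h) := rfl

theorem ric_eq : mf (ric G) = (geo G).ric := by
  ext j k p
  simp only [Geo.ric, w_eq, mf, ric, Matrix.of_apply, Finset.sum_apply, Pi.add_apply, Pi.sub_apply,
    Pi.mul_apply]
  rfl

theorem scal_eq : scal G = (geo G).scal := by
  rw [scal, trG_eq, ric_eq]
  rfl

theorem dt_eq : mf (dt G h) = (geo G).dt (mf h) (mf (inv (G + h))) := by
  rw [Geo.dt, sh_eq, ← ric_eq]
  rfl

theorem rm_apply (a b : Fin 4) : rm G a b p =
    pdM a (om G b) p - pdM b (om G a) p + om G a p * om G b p - om G b p * om G a p := by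
  rw [om, om, ← fm_mul, ← fm_mul]
  rfl

theorem nab_apply (a : Fin 4) : nab G a h p = pdM a h p - (om G a p)ᵀ * h p - h p * om G a p := by
  have e1 := fm_mul p ((geo G).w a)ᵀ (mf h)
  have e2 := fm_mul p (mf h) ((geo G).w a)
  exact (congrArg₂ (fun x y => pdM a h p - x - y) e1 e2 :)

theorem nab2_apply (a b : Fin 4) :
    nab2 G a b h p = nab G a (nab G b h) p - ∑ e, chr G e a b p • nab G e h p := by
  have e1 := fm_sum p Finset.univ fun e => (geo G).w a e b • (geo G).nab e (mf h)
  simp only [← w_eq]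
  exact (congrArg (fun x => nab G a (nab G b h) p - x) e1 :)

theorem rough_apply : rough G h p = -∑ a, ∑ b, (G p)⁻¹ a b • nab2 G a b h p := by
  have e1 := fm_sum p Finset.univ fun a => ∑ b, (geo G).H a b • (geo G).nab2 a b (mf h)
  have e2 := fun a => fm_sum p Finset.univ fun b => (geo G).H a b • (geo G).nab2 a b (mf h)
  rw [Finset.sum_congr rfl fun a _ => e2 a] at e1
  exact (congrArg (fun x => -x) e1 :)

theorem rring_apply (i j : Fin 4) : rring G h p i j = ∑ a, ((G p)⁻¹ * h p * rm G a i p) a j := by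
  have e : ∀ a, fm ((geo G).H * mf h * (geo G).rm a i) p = (G p)⁻¹ * h p * rm G a i p := fun a => by
    rw [fm_mul, fm_mul]
    rfl
  simp only [← e]
  exact Finset.sum_apply p Finset.univ fun a => ((geo G).H * mf h * (geo G).rm a i) a j

theorem lich_apply : lich G h p = rough G h p - (2 : ℝ) • rring G h p +
    ric G p * (G p)⁻¹ * h p + h p * (G p)⁻¹ * ric G p := by
  have e1 : fm ((geo G).ric * (geo G).H * mf h) p = ric G p * (G p)⁻¹ * h p := by
    rw [fm_mul, fm_mul, ← ric_eq]
    rfl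
  have e2 : fm (mf h * (geo G).H * (geo G).ric) p = h p * (G p)⁻¹ * ric G p := by
    rw [fm_mul, fm_mul, ← ric_eq]
    rfl
  rw [← e1, ← e2]
  rfl

theorem ipD_apply : ipD G h k p = ∑ a, ∑ b, (G p)⁻¹ a b * ipT G (nab G a h) (nab G b k) p := by
  simp only [ipD, Geo.ipD, Finset.sum_apply, Pi.mul_apply, ipT_eq]
  rfl

theorem cov_apply (k i : Fin 4) :
    cov G X p k i = pd i (fun x => X x k) p + ∑ m, chr G k i m p * X p m := by
  simp only [← w_eq]
  exact congrArg (fun x => pd i (fun x => X x k) p + x)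
    (Finset.sum_apply p Finset.univ fun m => (geo G).w i k m * vf X m)

theorem dvg_apply : dvg G X p = (cov G X p).trace := (congrFun (mf_trace (cov G X)) p).symm

theorem lie_apply : lie G X p = G p * cov G X p + (G p * cov G X p)ᵀ := by
  have e := fm_mul p (geo G).G ((geo G).cov (vf X))
  exact (congrArg (fun x => x + xᵀ) e :)

theorem divT_apply (j : Fin 4) : divT G h p j = ∑ a, ∑ b, (G p)⁻¹ a b * nab G a h p b j := by
  simp only [divT, fv, Geo.divT, Finset.sum_apply, Pi.mul_apply]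
  rfl

theorem bian_apply : bian G h p = (G p)⁻¹ *ᵥ (divT G h p - (1 / 2 : ℝ) • df (trG G h) p) := by
  have e := vf_mulVec (inv G) fun p => divT G h p - (1 / 2 : ℝ) • df (trG G h) p
  rw [trG_eq] at e ⊢
  exact (congrArg (fun x => fv x p) e).symm

theorem roughV_apply :
    roughV G X p = -((G p)⁻¹ *ᵥ divT G (fun x => (G x * cov G X x)ᵀ) p) := by
  have e := vf_mulVec (inv G) (divT G fun x => (G x * cov G X x)ᵀ)
  rw [divT, mf_tr, mf_mul] at e ⊢
  exact (congrArg (fun x => -fv x p) e).symm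

theorem QQ_apply : QQ G h p =
    -((1 / 2 : ℝ) • ∑ a, ∑ b, ((G p + h p)⁻¹ - (G p)⁻¹) a b • nab2 G a b h p) + qq G h p := by
  have e1 := fm_sum p Finset.univ fun a =>
    ∑ b, (mf (inv (G + h)) - (geo G).H) a b • (geo G).nab2 a b (mf h)
  have e2 := fun a => fm_sum p Finset.univ fun b =>
    (mf (inv (G + h)) - (geo G).H) a b • (geo G).nab2 a b (mf h)
  rw [Finset.sum_congr rfl fun a _ => e2 a] at e1
  exact (congrArg (fun x => -((1 / 2 : ℝ) • x) + qq G h p) e1 :)

theorem gX_apply : gX G h k p = (G p)⁻¹ *ᵥ fun b => ipT G (nab G b h) k p := by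
  have e := vf_mulVec (inv G) fun p b => ipT G (nab G b h) k p
  simp only [ipT_eq] at e ⊢
  exact (congrArg (fun x => fv x p) e).symm

theorem crs_apply : crs G h p =
    ∑ a, ∑ e, ((G p)⁻¹ * nab G a h p * (G p)⁻¹ * ((G p)⁻¹ * nab G e h p)ᵀ) e a := by
  have e : ∀ a e, fm ((geo G).H * (geo G).nab a (mf h) * (geo G).H *
      ((geo G).H * (geo G).nab e (mf h))ᵀ) p =
      (G p)⁻¹ * nab G a h p * (G p)⁻¹ * ((G p)⁻¹ * nab G e h p)ᵀ := fun a e => by
    rw [fm_mul, fm_mul, fm_mul]
    exact congrArg (fun x => _ * xᵀ) (fm_mul p _ _)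
  simp only [← e, crs, Geo.crs, Finset.sum_apply]
  rfl

end Pool.Agent.Lib.MP_94aef8_gt
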