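import Pool.Agent.Lib.MP_94aef8_gt.B.Germ
import Pool.Agent.Lib.MP_94aef8_gt.B.Ops2

/-! Representation of ring elements by functions; every operator respects it. -/

open scoped ContDiff Topology
open Matrix Filter Set

namespace Pool.Agent.Lib.MP_94aef8_gt

open Geo

variable {A : Type} [CommRing A] {l : Filter E4} {φ : A →+* Germ l ℝ}

/-- `x` is represented by the function `f`. -/
def R0 (φ : A →+* Germ l ℝ) (x : A) (f : Fn) : Prop := φ x = cg l f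

/-- `X` is represented by the field `Y`. -/
def RV (φ : A →+* Germ l ℝ) (X : VA A) (Y : Vn) : Prop := φ ∘ X = cg l ∘ vf Y

/-- `M` is represented by the field `h`. -/
def RT (φ : A →+* Germ l ℝ) (M : MA A) (h : Tn) : Prop := M.map φ = (mf h).map (cg l)

/-- `a` is represented by the metric `G`. -/
def Zig (φ : A →+* Germ l ℝ) (a : Geo A) (G : Tn) : Prop :=
  ∃ c : Geo (Germ l ℝ), Hom a c φ ∧ Hom (geo G) c (cg l)

variable {x y : A} {f g : Fn} {M N : MA A} {h k : Tn} {X Y : VA A} {V W : Vn}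

theorem RT.entry (r : RT φ M h) (i j : Fin 4) : R0 φ (M i j) fun p => h p i j :=
  congrFun (congrFun r i) j

theorem RV.entry (r : RV φ X V) (i : Fin 4) : R0 φ (X i) fun p => V p i := congrFun r i

theorem RT.of (r : ∀ i j, R0 φ (M i j) fun p => h p i j) : RT φ M h := Matrix.ext r

theorem RV.of (r : ∀ i, R0 φ (X i) fun p => V p i) : RV φ X V := funext r

theorem R0.ev (r : R0 φ x f) (s : R0 φ y g) (e : x = y) : f =ᶠ[l] g :=
  cg_eq.1 ((Eq.symm r).trans (e ▸ s))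

theorem RT.ev (r : RT φ M h) (s : RT φ N k) (e : M = N) : h =ᶠ[l] k :=
  (map_cg_eq.1 ((Eq.symm r).trans (e ▸ s))).mono fun _ e => Matrix.ext e

theorem RV.ev (r : RV φ X V) (s : RV φ Y W) (e : X = Y) : V =ᶠ[l] W :=
  (eventually_all.2 fun i => (r.entry i).ev (s.entry i) (congrFun e i)).mono fun _ e => funext e

theorem R0.congr (r : R0 φ x f) (e : f =ᶠ[l] g) : R0 φ x g := Eq.trans r (cg_eq.2 e)

theorem RT.congr (r : RT φ M h) (e : h =ᶠ[l] k) : RT φ M k :=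
  RT.of fun i j => (r.entry i j).congr (e.mono fun _ e => congrFun (congrFun e i) j)

theorem RV.congr (r : RV φ X V) (e : V =ᶠ[l] W) : RV φ X W :=
  RV.of fun i => (r.entry i).congr (e.mono fun _ e => congrFun e i)

theorem R0.add (r : R0 φ x f) (s : R0 φ y g) : R0 φ (x + y) fun p => f p + g p :=
  (map_add φ x y).trans (congrArg₂ (· + ·) r s)

theorem R0.mul (r : R0 φ x f) (s : R0 φ y g) : R0 φ (x * y) fun p => f p * g p :=
  (map_mul φ x y).trans (congrArg₂ (· * ·) r s)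

theorem R0.neg (r : R0 φ x f) : R0 φ (-x) fun p => -f p := (map_neg φ x).trans (congrArg (-·) r)

theorem R0.sub (r : R0 φ x f) (s : R0 φ y g) : R0 φ (x - y) fun p => f p - g p :=
  (map_sub φ x y).trans (congrArg₂ (· - ·) r s)

theorem R0.zero : R0 φ 0 fun _ => 0 := map_zero φ

theorem R0.one : R0 φ 1 fun _ => 1 := map_one φ

theorem R0.two : R0 φ 2 fun _ => 2 := (map_ofNat φ 2).trans (map_ofNat (cg l) 2).symm

theorem R0.four : R0 φ 4 fun _ => 4 := (map_ofNat φ 4).trans (map_ofNat (cg l) 4).symm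

theorem R0.sum {ι : Type} (s : Finset ι) {x : ι → A} {f : ι → Fn} (r : ∀ i, R0 φ (x i) (f i)) :
    R0 φ (∑ i ∈ s, x i) fun p => ∑ i ∈ s, f i p := by
  have e : (fun p => ∑ i ∈ s, f i p) = ∑ i ∈ s, f i := (Finset.sum_fn s f).symm
  rw [R0, e, map_sum, map_sum]
  exact Finset.sum_congr rfl fun i _ => r i

theorem RT.add (r : RT φ M h) (s : RT φ N k) : RT φ (M + N) (h + k) :=
  RT.of fun i j => (r.entry i j).add (s.entry i j)

theorem RT.sub (r : RT φ M h) (s : RT φ N k) : RT φ (M - N) (h - k) :=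
  RT.of fun i j => (r.entry i j).sub (s.entry i j)

theorem RT.neg (r : RT φ M h) : RT φ (-M) (-h) := RT.of fun i j => (r.entry i j).neg

theorem RT.zero : RT φ 0 0 := RT.of fun _ _ => R0.zero

theorem RT.smul (r : R0 φ x f) (s : RT φ N k) : RT φ (x • N) fun p => f p • k p :=
  RT.of fun i j => r.mul (s.entry i j)

theorem RT.tr (r : RT φ M h) : RT φ Mᵀ fun p => (h p)ᵀ := RT.of fun i j => r.entry j i

theorem RT.mul (r : RT φ M h) (s : RT φ N k) : RT φ (M * N) fun p => h p * k p :=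
  RT.of fun i j => R0.sum Finset.univ fun m => (r.entry i m).mul (s.entry m j)

theorem RT.sum {ι : Type} (s : Finset ι) {M : ι → MA A} {h : ι → Tn} (r : ∀ i, RT φ (M i) (h i)) :
    RT φ (∑ i ∈ s, M i) fun p => ∑ i ∈ s, h i p := RT.of fun a b => by
  simp only [Matrix.sum_apply]
  exact R0.sum s fun i => (r i).entry a b

theorem RT.one : RT φ 1 fun _ => 1 := by
  rw [RT, mf_one, Matrix.map_one _ (map_zero _) (map_one _), Matrix.map_one _ (map_zero _) (map_one _)]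

theorem RT.trace (r : RT φ M h) : R0 φ M.trace fun p => (h p).trace :=
  R0.sum Finset.univ fun i => r.entry i i

theorem RT.det (r : RT φ M h) : R0 φ M.det fun p => (h p).det := by
  rw [R0, mf_det, RingHom.map_det, RingHom.map_det]
  exact congrArg Matrix.det r

theorem RT.mulVec (r : RT φ M h) (s : RV φ X V) : RV φ (M *ᵥ X) fun p => h p *ᵥ V p :=
  RV.of fun i => R0.sum Finset.univ fun m => (r.entry i m).mul (s.entry m)

theorem RV.vecMul (s : RV φ X V) (r : RT φ M h) : RV φ (X ᵥ* M) fun p => V p ᵥ* h p :=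
  RV.of fun i => R0.sum Finset.univ fun m => (s.entry m).mul (r.entry m i)

theorem RV.dot (r : RV φ X V) (s : RV φ Y W) : R0 φ (X ⬝ᵥ Y) fun p => V p ⬝ᵥ W p :=
  R0.sum Finset.univ fun m => (r.entry m).mul (s.entry m)

theorem RV.vv (r : RV φ X V) (s : RV φ Y W) :
    RT φ (vecMulVec X Y) fun p => vecMulVec (V p) (W p) := RT.of fun i j => (r.entry i).mul (s.entry j)

theorem RV.add (r : RV φ X V) (s : RV φ Y W) : RV φ (X + Y) (V + W) :=
  RV.of fun i => (r.entry i).add (s.entry i)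

theorem RV.sub (r : RV φ X V) (s : RV φ Y W) : RV φ (X - Y) (V - W) :=
  RV.of fun i => (r.entry i).sub (s.entry i)

theorem RV.neg (r : RV φ X V) : RV φ (-X) (-V) := RV.of fun i => (r.entry i).neg

theorem RV.zero : RV φ 0 0 := RV.of fun _ => R0.zero

theorem RV.smul (r : R0 φ x f) (s : RV φ Y W) : RV φ (x • Y) fun p => f p • W p :=
  RV.of fun i => r.mul (s.entry i)

namespace Zig

variable {a : Geo A} {G : Tn} (Z : Zig φ a G)
include Z

theorem G' : RT φ a.G G := by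
  obtain ⟨c, F, F'⟩ := Z
  exact F.G.trans F'.G.symm

theorem H : RT φ a.H (inv G) := by
  obtain ⟨c, F, F'⟩ := Z
  exact F.H.trans F'.H.symm

theorem hf : R0 φ a.hf fun _ => 1 / 2 := by
  obtain ⟨c, F, F'⟩ := Z
  exact F.hf.trans F'.hf.symm

theorem D (r : R0 φ x f) (i : Fin 4) : R0 φ (a.D i x) (pd i f) := by
  obtain ⟨c, F, F'⟩ := Z
  exact (F.D i x).trans ((congrArg (c.D i) r).trans (F'.D i f).symm)

theorem dm (i : Fin 4) (r : RT φ M h) : RT φ (a.dm i M) (pdM i h) := RT.of fun j m => Z.D (r.entry j m) i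

theorem df (r : R0 φ x f) : RV φ (a.df x) (MP_94aef8_gt.df f) := RV.of fun i => Z.D r i

theorem sh {K : MA A} (r : RT φ M h) (s : RT φ K (inv (G + h))) : Zig φ (a.sh M K) (G + h) := by
  obtain ⟨c, F, F'⟩ := Z
  refine ⟨_, F.sh M K, ?_⟩
  rw [r, s]
  exact F'.sh _ _

theorem w (i : Fin 4) :
    RT φ (a.w i) (MP_94aef8_gt.om G i) := by
  obtain ⟨c, F, F'⟩ := Z
  rw [RT, F.w, ← F'.w]
  rfl

theorem rm (i j : Fin 4) :
    RT φ (a.rm i j) (MP_94aef8_gt.rm G i j) := by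
  obtain ⟨c, F, F'⟩ := Z
  rw [RT, F.rm, ← F'.rm]
  rfl

theorem ric :
    RT φ (a.ric) (MP_94aef8_gt.ric G) := by
  obtain ⟨c, F, F'⟩ := Z
  rw [RT, ric_eq, F.ric, ← F'.ric]

theorem scal :
    R0 φ (a.scal) (MP_94aef8_gt.scal G) := by
  obtain ⟨c, F, F'⟩ := Z
  rw [R0, scal_eq, F.scal, ← F'.scal]

theorem trG (r : RT φ M h) :
    R0 φ (a.trG M) (MP_94aef8_gt.trG G h) := by
  obtain ⟨c, F, F'⟩ := Z
  rw [R0, trG_eq, F.trG, r, ← F'.trG]

theorem ipT (r : RT φ M h) (s : RT φ N k) :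
    R0 φ (a.ipT M N) (MP_94aef8_gt.ipT G h k) := by
  obtain ⟨c, F, F'⟩ := Z
  rw [R0, ipT_eq, F.ipT, r, s, ← F'.ipT]

theorem nab (i : Fin 4) (r : RT φ M h) :
    RT φ (a.nab i M) (MP_94aef8_gt.nab G i h) := by
  obtain ⟨c, F, F'⟩ := Z
  rw [RT, F.nab, r, ← F'.nab]
  rfl

theorem nab2 (i j : Fin 4) (r : RT φ M h) :
    RT φ (a.nab2 i j M) (MP_94aef8_gt.nab2 G i j h) := by
  obtain ⟨c, F, F'⟩ := Z
  rw [RT, F.nab2, r, ← F'.nab2]
  rfl

theorem rough (r : RT φ M h) :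
    RT φ (a.rough M) (MP_94aef8_gt.rough G h) := by
  obtain ⟨c, F, F'⟩ := Z
  rw [RT, F.rough, r, ← F'.rough]
  rfl

theorem rring (r : RT φ M h) :
    RT φ (a.rring M) (MP_94aef8_gt.rring G h) := by
  obtain ⟨c, F, F'⟩ := Z
  rw [RT, F.rring, r, ← F'.rring]
  rfl

theorem lich (r : RT φ M h) :
    RT φ (a.lich M) (MP_94aef8_gt.lich G h) := by
  obtain ⟨c, F, F'⟩ := Z
  rw [RT, F.lich, r, ← F'.lich]
  rfl

theorem ipD (r : RT φ M h) (s : RT φ N k) :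
    R0 φ (a.ipD M N) (MP_94aef8_gt.ipD G h k) := by
  obtain ⟨c, F, F'⟩ := Z
  rw [R0, F.ipD, r, s, ← F'.ipD]
  rfl

theorem grad (r : R0 φ x f) :
    RV φ (a.grad x) (MP_94aef8_gt.grad G f) := by
  obtain ⟨c, F, F'⟩ := Z
  rw [RV, grad_eq, F.grad, r, ← F'.grad]

theorem cov (r : RV φ X V) :
    RT φ (a.cov X) (MP_94aef8_gt.cov G V) := by
  obtain ⟨c, F, F'⟩ := Z
  rw [RT, F.cov, r, ← F'.cov]
  rfl

theorem dvg (r : RV φ X V) :
    R0 φ (a.dvg X) (MP_94aef8_gt.dvg G V) := by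
  obtain ⟨c, F, F'⟩ := Z
  rw [R0, F.dvg, r, ← F'.dvg]
  rfl

theorem lap (r : R0 φ x f) :
    R0 φ (a.lap x) (MP_94aef8_gt.lap G f) := by
  obtain ⟨c, F, F'⟩ := Z
  rw [R0, lap_eq, F.lap, r, ← F'.lap]

theorem ipV (r : RV φ X V) (s : RV φ Y W) :
    R0 φ (a.ipV X Y) (MP_94aef8_gt.ipV G V W) := by
  obtain ⟨c, F, F'⟩ := Z
  rw [R0, ipV_eq, F.ipV, r, s, ← F'.ipV]

theorem lie (r : RV φ X V) :
    RT φ (a.lie X) (MP_94aef8_gt.lie G V) := by
  obtain ⟨c, F, F'⟩ := Z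
  rw [RT, F.lie, r, ← F'.lie]
  rfl

theorem divT (r : RT φ M h) :
    RV φ (a.divT M) (MP_94aef8_gt.divT G h) := by
  obtain ⟨c, F, F'⟩ := Z
  rw [RV, F.divT, r, ← F'.divT]
  rfl

theorem bian (r : RT φ M h) :
    RV φ (a.bian M) (MP_94aef8_gt.bian G h) := by
  obtain ⟨c, F, F'⟩ := Z
  rw [RV, F.bian, r, ← F'.bian]
  rfl

theorem roughV (r : RV φ X V) :
    RV φ (a.roughV X) (MP_94aef8_gt.roughV G V) := by
  obtain ⟨c, F, F'⟩ := Z
  rw [RV, F.roughV, r, ← F'.roughV]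
  rfl

theorem nabX (r : RV φ X V) (s : RT φ M h) :
    RT φ (a.nabX X M) (MP_94aef8_gt.nabX G V h) := by
  obtain ⟨c, F, F'⟩ := Z
  rw [RT, nabX_eq, F.nabX, r, s, ← F'.nabX]

theorem gX (r : RT φ M h) (s : RT φ N k) :
    RV φ (a.gX M N) (MP_94aef8_gt.gX G h k) := by
  obtain ⟨c, F, F'⟩ := Z
  rw [RV, F.gX, r, s, ← F'.gX]
  rfl

theorem crs (r : RT φ M h) :
    R0 φ (a.crs M) (MP_94aef8_gt.crs G h) := by
  obtain ⟨c, F, F'⟩ := Z
  rw [R0, F.crs, r, ← F'.crs]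
  rfl

theorem kX (r : RT φ M h) :
    RV φ (a.kX M) (MP_94aef8_gt.kX G h) := by
  obtain ⟨c, F, F'⟩ := Z
  rw [RV, F.kX, r, ← F'.kX]
  rfl

theorem wv {K : MA A} (r : RT φ M h) (s : RT φ K (inv (G + h))) :
    RV φ (a.wv M K) (MP_94aef8_gt.wv G h) := by
  obtain ⟨c, F, F'⟩ := Z
  rw [RV, F.wv, r, s, ← F'.wv]
  rfl

theorem dt {K : MA A} (r : RT φ M h) (s : RT φ K (inv (G + h))) :
    RT φ (a.dt M K) (MP_94aef8_gt.dt G h) := by
  obtain ⟨c, F, F'⟩ := Z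
  rw [RT, dt_eq, F.dt, r, s, ← F'.dt]

theorem qq {K : MA A} (r : RT φ M h) (s : RT φ K (inv (G + h))) :
    RT φ (a.qq M K) (MP_94aef8_gt.qq G h) := by
  obtain ⟨c, F, F'⟩ := Z
  rw [RT, F.qq, r, s, ← F'.qq]
  rfl

theorem QQ {K : MA A} (r : RT φ M h) (s : RT φ K (inv (G + h))) :
    RT φ (a.QQ M K) (MP_94aef8_gt.QQ G h) := by
  obtain ⟨c, F, F'⟩ := Z
  rw [RT, F.QQ, r, s, ← F'.QQ]
  rfl

theorem q1 {K : MA A} (r : RT φ M h) (s : RT φ K (inv (G + h))) :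
    RT φ (a.q1 M K) (MP_94aef8_gt.q1 G h) := by
  obtain ⟨c, F, F'⟩ := Z
  rw [RT, F.q1, r, s, ← F'.q1]
  rfl

theorem b1 (i j m : Fin 4) :
    RT φ (a.b1 i j m) (MP_94aef8_gt.b1 G i j m) := by
  obtain ⟨c, F, F'⟩ := Z
  rw [RT, F.b1, ← F'.b1]
  rfl

theorem b0 (j m : Fin 4) :
    RT φ (a.b0 j m) (MP_94aef8_gt.b0 G j m) := by
  obtain ⟨c, F, F'⟩ := Z
  rw [RT, F.b0, ← F'.b0]
  rfl

theorem ricL (r : RT φ M h) :
    RT φ (a.ricL M) (MP_94aef8_gt.ricL G h) := by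
  obtain ⟨c, F, F'⟩ := Z
  rw [RT, ricL_eq, F.ricL, r, ← F'.ricL]

end Zig

end Pool.Agent.Lib.MP_94aef8_gt
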