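import Pool.Agent.Lib.MP_94aef8_gt.B.Lift
import Pool.Agent.Lib.MP_94aef8_gt.Cube

/-! The operators preserve smoothness. -/

open scoped ContDiff Topology
open Matrix Filter Set

namespace Pool.Agent.Lib.MP_94aef8_gt

variable {U : Set E4} {G h k : Tn} {X Y : Vn} {f : Fn}

namespace Good

variable (hG : Good G U)
include hG

theorem sm_om (a : Fin 4) :
    SmT (om G a) U := by
  obtain ⟨s, -, Z⟩ := hG.lift
  exact (Z.w a).smooth

theorem sm_rm (a b : Fin 4) :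
    SmT (rm G a b) U := by
  obtain ⟨s, -, Z⟩ := hG.lift
  exact (Z.rm a b).smooth

theorem sm_nab (a : Fin 4) (hh : SmT h U) :
    SmT (nab G a h) U := by
  obtain ⟨s, -, Z⟩ := hG.lift
  obtain ⟨_, rh⟩ := hh.lift
  exact (Z.nab a rh).smooth

theorem sm_nab2 (a b : Fin 4) (hh : SmT h U) :
    SmT (nab2 G a b h) U := by
  obtain ⟨s, -, Z⟩ := hG.lift
  obtain ⟨_, rh⟩ := hh.lift
  exact (Z.nab2 a b rh).smooth

theorem sm_rough (hh : SmT h U) :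
    SmT (rough G h) U := by
  obtain ⟨s, -, Z⟩ := hG.lift
  obtain ⟨_, rh⟩ := hh.lift
  exact (Z.rough rh).smooth

theorem sm_rring (hh : SmT h U) :
    SmT (rring G h) U := by
  obtain ⟨s, -, Z⟩ := hG.lift
  obtain ⟨_, rh⟩ := hh.lift
  exact (Z.rring rh).smooth

theorem sm_lich (hh : SmT h U) :
    SmT (lich G h) U := by
  obtain ⟨s, -, Z⟩ := hG.lift
  obtain ⟨_, rh⟩ := hh.lift
  exact (Z.lich rh).smooth

theorem sm_ipD (hh : SmT h U) (hk : SmT k U) :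
    ContDiffOn ℝ ∞ (ipD G h k) U := by
  obtain ⟨s, -, Z⟩ := hG.lift
  obtain ⟨_, rh⟩ := hh.lift
  obtain ⟨_, rk⟩ := hk.lift
  exact (Z.ipD rh rk).smooth

theorem sm_cov (hX : SmV X U) :
    SmT (cov G X) U := by
  obtain ⟨s, -, Z⟩ := hG.lift
  obtain ⟨_, rX⟩ := hX.lift
  exact (Z.cov rX).smooth

theorem sm_dvg (hX : SmV X U) :
    ContDiffOn ℝ ∞ (dvg G X) U := by
  obtain ⟨s, -, Z⟩ := hG.lift
  obtain ⟨_, rX⟩ := hX.lift
  exact (Z.dvg rX).smooth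

theorem sm_lie (hX : SmV X U) :
    SmT (lie G X) U := by
  obtain ⟨s, -, Z⟩ := hG.lift
  obtain ⟨_, rX⟩ := hX.lift
  exact (Z.lie rX).smooth

theorem sm_divT (hh : SmT h U) :
    SmV (divT G h) U := by
  obtain ⟨s, -, Z⟩ := hG.lift
  obtain ⟨_, rh⟩ := hh.lift
  exact (Z.divT rh).smooth

theorem sm_bian (hh : SmT h U) :
    SmV (bian G h) U := by
  obtain ⟨s, -, Z⟩ := hG.lift
  obtain ⟨_, rh⟩ := hh.lift
  exact (Z.bian rh).smooth

theorem sm_roughV (hX : SmV X U) :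
    SmV (roughV G X) U := by
  obtain ⟨s, -, Z⟩ := hG.lift
  obtain ⟨_, rX⟩ := hX.lift
  exact (Z.roughV rX).smooth

theorem sm_gX (hh : SmT h U) (hk : SmT k U) :
    SmV (gX G h k) U := by
  obtain ⟨s, -, Z⟩ := hG.lift
  obtain ⟨_, rh⟩ := hh.lift
  obtain ⟨_, rk⟩ := hk.lift
  exact (Z.gX rh rk).smooth

theorem sm_crs (hh : SmT h U) :
    ContDiffOn ℝ ∞ (crs G h) U := by
  obtain ⟨s, -, Z⟩ := hG.lift
  obtain ⟨_, rh⟩ := hh.lift
  exact (Z.crs rh).smooth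

theorem sm_kX (hh : SmT h U) :
    SmV (kX G h) U := by
  obtain ⟨s, -, Z⟩ := hG.lift
  obtain ⟨_, rh⟩ := hh.lift
  exact (Z.kX rh).smooth

theorem sm_wv (hG' : Good (G + h) U) :
    SmV (wv G h) U := by
  obtain ⟨s, M, K, -, Z, r, rK, -⟩ := hG.lift2 hG'
  exact (Z.wv r rK).smooth

theorem sm_qq (hG' : Good (G + h) U) :
    SmT (qq G h) U := by
  obtain ⟨s, M, K, -, Z, r, rK, -⟩ := hG.lift2 hG'
  exact (Z.qq r rK).smooth

theorem sm_QQ (hG' : Good (G + h) U) :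
    SmT (QQ G h) U := by
  obtain ⟨s, M, K, -, Z, r, rK, -⟩ := hG.lift2 hG'
  exact (Z.QQ r rK).smooth

theorem sm_q1 (hG' : Good (G + h) U) :
    SmT (q1 G h) U := by
  obtain ⟨s, M, K, -, Z, r, rK, -⟩ := hG.lift2 hG'
  exact (Z.q1 r rK).smooth

theorem sm_b1 (a i j : Fin 4) :
    SmT (b1 G a i j) U := by
  obtain ⟨s, -, Z⟩ := hG.lift
  exact (Z.b1 a i j).smooth

theorem sm_b0 (i j : Fin 4) :
    SmT (b0 G i j) U := by
  obtain ⟨s, -, Z⟩ := hG.lift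
  exact (Z.b0 i j).smooth

theorem sm_ric :
    SmT (ric G) U := by
  obtain ⟨s, -, Z⟩ := hG.lift
  exact (Z.ric).smooth

theorem sm_scal :
    ContDiffOn ℝ ∞ (scal G) U := by
  obtain ⟨s, -, Z⟩ := hG.lift
  exact (Z.scal).smooth

theorem sm_trG (hh : SmT h U) :
    ContDiffOn ℝ ∞ (trG G h) U := by
  obtain ⟨s, -, Z⟩ := hG.lift
  obtain ⟨_, rh⟩ := hh.lift
  exact (Z.trG rh).smooth

theorem sm_ipT (hh : SmT h U) (hk : SmT k U) :
    ContDiffOn ℝ ∞ (ipT G h k) U := by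
  obtain ⟨s, -, Z⟩ := hG.lift
  obtain ⟨_, rh⟩ := hh.lift
  obtain ⟨_, rk⟩ := hk.lift
  exact (Z.ipT rh rk).smooth

theorem sm_grad (hf : ContDiffOn ℝ ∞ f U) :
    SmV (grad G f) U := by
  obtain ⟨s, -, Z⟩ := hG.lift
  obtain ⟨_, rf⟩ := lift0 hf
  exact (Z.grad rf).smooth

theorem sm_lap (hf : ContDiffOn ℝ ∞ f U) :
    ContDiffOn ℝ ∞ (lap G f) U := by
  obtain ⟨s, -, Z⟩ := hG.lift
  obtain ⟨_, rf⟩ := lift0 hf
  exact (Z.lap rf).smooth

theorem sm_ipV (hX : SmV X U) (hY : SmV Y U) :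
    ContDiffOn ℝ ∞ (ipV G X Y) U := by
  obtain ⟨s, -, Z⟩ := hG.lift
  obtain ⟨_, rX⟩ := hX.lift
  obtain ⟨_, rY⟩ := hY.lift
  exact (Z.ipV rX rY).smooth

theorem sm_nabX (hX : SmV X U) (hh : SmT h U) :
    SmT (nabX G X h) U := by
  obtain ⟨s, -, Z⟩ := hG.lift
  obtain ⟨_, rX⟩ := hX.lift
  obtain ⟨_, rh⟩ := hh.lift
  exact (Z.nabX rX rh).smooth

theorem sm_dt (hG' : Good (G + h) U) :
    SmT (dt G h) U := by
  obtain ⟨s, M, K, -, Z, r, rK, -⟩ := hG.lift2 hG'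
  exact (Z.dt r rK).smooth

theorem sm_ricL (hh : SmT h U) :
    SmT (ricL G h) U := by
  obtain ⟨s, -, Z⟩ := hG.lift
  obtain ⟨_, rh⟩ := hh.lift
  exact (Z.ricL rh).smooth

theorem sm_chr (k i j : Fin 4) : ContDiffOn ℝ ∞ (chr G k i j) U :=
  (hG.sm_om i k j).congr fun p _ => (om_apply G p i k j).symm

theorem sm_PP (hh : SmT h U) : SmT (PP G h) U := (hG.sm_lich hh).add (hh.csmul 6)

theorem sm_Pop (μ : ℝ) (hh : SmT h U) : SmT (Pop μ G h) U := (hG.sm_lich hh).add (hh.csmul (2 * μ))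

theorem sm_Pop_iter (μ : ℝ) (hh : SmT h U) (j : ℕ) : SmT ((Pop μ G)^[j] h) U := by
  induction j with
  | zero => exact hh
  | succ j ih => simpa only [Function.iterate_succ_apply'] using hG.sm_Pop μ ih

theorem sm_Err : SmT (Err G) U := hG.sm_ric.add (hG.smooth.csmul 3)

theorem sm_Phi (hG' : Good (G + h) U) : SmT (Phi G h) U := (hG.sm_dt hG').add (hG'.smooth.csmul 3)

end Good

theorem SmT.pdM (hU : IsOpen U) (hh : SmT h U) (a : Fin 4) : SmT (pdM a h) U :=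
  fun i j => contDiffOn_pd hU (hh i j) a

end Pool.Agent.Lib.MP_94aef8_gt
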